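import Pool.Agent.H759.PTB.Compo

/-!
Noncancellation with an absolute constant.
-/

namespace Pool.Agent.H759.PTB

open Finset MvPolynomial

noncomputable section

lemma half_plane' {a b : ℝ} (ha : 0 ≤ a) (hb : 0 ≤ b) {z : ℂ} (hz : 0 ≤ z.re) :
    (a + b * ‖z‖) ^ 2 ≤ 2 * ‖(a : ℂ) + b * z‖ ^ 2 := by
  have e1 : ‖(a : ℂ) + b * z‖ ^ 2 = (a + b * z.re) ^ 2 + (b * z.im) ^ 2 := by
    rw [Complex.sq_norm, Complex.normSq_apply]
    simp
    ring
  have e2 : ‖z‖ ^ 2 = z.re ^ 2 + z.im ^ 2 := by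
    rw [Complex.sq_norm, Complex.normSq_apply]; ring
  have h1 : 0 ≤ a * (b * z.re) := by positivity
  have h2 : (a + b * ‖z‖) ^ 2 ≤ 2 * (a ^ 2 + b ^ 2 * ‖z‖ ^ 2) := by
    nlinarith [sq_nonneg (a - b * ‖z‖)]
  rw [e2] at h2
  rw [e1]
  nlinarith

lemma half_plane'' {a b : ℝ} (ha : 0 ≤ a) (hb : 0 ≤ b) {z : ℂ} (hz : 0 ≤ z.re) :
    a + b * ‖z‖ ≤ 3 / 2 * ‖(a : ℂ) + b * z‖ := by
  have h := half_plane' ha hb hz
  have h0 : 0 ≤ a + b * ‖z‖ := by positivity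
  have h1 : 0 ≤ ‖(a : ℂ) + b * z‖ := norm_nonneg _
  nlinarith

/-- No cancellation, for matrices of determinant one. -/
lemma noncancel' {a b c d : ℝ} (ha : 1 ≤ a) (hb : 1 ≤ b) (hc : 1 ≤ c) (hd : 1 ≤ d)
    (hdet : a * d - b * c = 1) {z : ℂ} (hz : 0 ≤ z.re) {u : ℂ × ℂ} (hu : Rp u) :
    ‖u.1‖ * (a + b * ‖z‖) + ‖u.2‖ * (c + d * ‖z‖)
      ≤ 7 * ‖u.1 * ((a : ℂ) + b * z) + u.2 * ((c : ℂ) + d * z)‖ := by
  set p : ℂ := (a : ℂ) + b * z with hp
  set q : ℂ := (c : ℂ) + d * z with hq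
  have hp2 := half_plane'' (by linarith : 0 ≤ a) (by linarith : 0 ≤ b) hz
  have hq2 := half_plane'' (by linarith : 0 ≤ c) (by linarith : 0 ≤ d) hz
  rw [← hp] at hp2
  rw [← hq] at hq2
  have hz0 := norm_nonneg z
  have hppos : 0 < ‖p‖ := by nlinarith
  have hqpos : 0 < ‖q‖ := by nlinarith
  -- the angle between p and q
  have e1 : (p * (starRingEnd ℂ) q).re = a * c + (a * d + b * c) * z.re + b * d * ‖z‖ ^ 2 := by
    rw [hp, hq, Complex.sq_norm, Complex.normSq_apply]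
    simp
    ring
  have e2 : (p * (starRingEnd ℂ) q).im = (b * c - a * d) * z.im := by
    rw [hp, hq]
    simp
    ring
  have hac : 1 ≤ a * c := by nlinarith
  have hbd : 1 ≤ b * d := by nlinarith
  have h1 : 2 * ‖z‖ ≤ (p * (starRingEnd ℂ) q).re := by
    rw [e1]
    have h4 : 0 ≤ (a * d + b * c) * z.re := by positivity
    have h5 : ‖z‖ ^ 2 ≤ b * d * ‖z‖ ^ 2 := by nlinarith [sq_nonneg ‖z‖]
    nlinarith [sq_nonneg (1 - ‖z‖)]
  have h2 : |(p * (starRingEnd ℂ) q).im| ≤ ‖z‖ := by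
    rw [e2, show b * c - a * d = -1 by linarith, neg_one_mul, abs_neg]
    exact Complex.abs_im_le_norm z
  have hrepq : 0 ≤ (p * (starRingEnd ℂ) q).re := by linarith
  have hang : ‖p‖ * ‖q‖ ≤ 9 / 8 * (p * (starRingEnd ℂ) q).re := by
    have h3 : ‖p‖ * ‖q‖ = ‖p * (starRingEnd ℂ) q‖ := by rw [norm_mul, Complex.norm_conj]
    rw [h3]
    have h4 : ‖p * (starRingEnd ℂ) q‖ ^ 2 = (p * (starRingEnd ℂ) q).re ^ 2
        + (p * (starRingEnd ℂ) q).im ^ 2 := by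
      rw [Complex.sq_norm, Complex.normSq_apply]; ring
    have h5 : (p * (starRingEnd ℂ) q).im ^ 2 ≤ ((p * (starRingEnd ℂ) q).re / 2) ^ 2 := by
      rw [← sq_abs (p * (starRingEnd ℂ) q).im]
      apply pow_le_pow_left₀ (abs_nonneg _)
      linarith
    have h6 : ‖p * (starRingEnd ℂ) q‖ ^ 2 ≤ (9 / 8 * (p * (starRingEnd ℂ) q).re) ^ 2 := by
      rw [h4]
      nlinarith [sq_nonneg (p * (starRingEnd ℂ) q).re]
    exact le_of_sq_le_sq h6 (by positivity)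
  have main : ‖u.1‖ * ‖p‖ + ‖u.2‖ * ‖q‖ ≤ 14 / 3 * ‖u.1 * p + u.2 * q‖ := by
    rcases hu with rfl | ⟨h1, h2⟩
    · simp only [norm_zero, zero_mul, norm_one, one_mul, zero_add]
      linarith
    · rw [h1, norm_one, one_mul, one_mul]
      have hb0 := norm_nonneg u.2
      by_cases hcase : 2 * ‖p‖ ≤ ‖u.2‖ * ‖q‖
      · have h3 : ‖u.2‖ * ‖q‖ - ‖p‖ ≤ ‖p + u.2 * q‖ := by
          have := norm_sub_norm_le (u.2 * q) (-p)
          rw [norm_neg, norm_mul, sub_neg_eq_add, add_comm (u.2 * q) p] at this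
          exact this
        have h4 : 0 ≤ ‖p + u.2 * q‖ := norm_nonneg _
        linarith
      · push Not at hcase
        have h3 : (p * (starRingEnd ℂ) q).re ≤ ‖p + u.2 * q‖ * ‖q‖ := by
          have h4 := Complex.re_le_norm ((p + u.2 * q) * (starRingEnd ℂ) q)
          rw [norm_mul, Complex.norm_conj] at h4
          have h5 : ((p + u.2 * q) * (starRingEnd ℂ) q).re
              = (p * (starRingEnd ℂ) q).re + u.2.re * ‖q‖ ^ 2 := by
            rw [add_mul, Complex.add_re, mul_assoc u.2 q, Complex.mul_conj,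
              Complex.re_mul_ofReal, Complex.sq_norm]
          rw [h5] at h4
          have : 0 ≤ u.2.re * ‖q‖ ^ 2 := by positivity
          linarith
        have h6 : ‖p‖ ≤ 9 / 8 * ‖p + u.2 * q‖ := by
          have h7 : ‖p‖ * ‖q‖ ≤ (9 / 8 * ‖p + u.2 * q‖) * ‖q‖ := by
            calc ‖p‖ * ‖q‖ ≤ 9 / 8 * (p * (starRingEnd ℂ) q).re := hang
              _ ≤ 9 / 8 * (‖p + u.2 * q‖ * ‖q‖) := by gcongr
              _ = _ := by ring
          exact le_of_mul_le_mul_right h7 hqpos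
        have h8 : 0 ≤ ‖p + u.2 * q‖ := norm_nonneg _
        linarith
  have h8 : 0 ≤ ‖u.1‖ := norm_nonneg _
  have h9 : 0 ≤ ‖u.2‖ := norm_nonneg _
  calc ‖u.1‖ * (a + b * ‖z‖) + ‖u.2‖ * (c + d * ‖z‖)
      ≤ ‖u.1‖ * (3 / 2 * ‖p‖) + ‖u.2‖ * (3 / 2 * ‖q‖) := by gcongr
    _ = 3 / 2 * (‖u.1‖ * ‖p‖ + ‖u.2‖ * ‖q‖) := by ring
    _ ≤ 3 / 2 * (14 / 3 * ‖u.1 * p + u.2 * q‖) := by gcongr
    _ = _ := by ring

lemma mt_det (w : List Letter) : (mt w).1.1 * (mt w).2.2 - (mt w).1.2 * (mt w).2.1 = 1 := by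
  induction w with
  | nil => simp [mt]
  | cons x w ih =>
    cases x with
    | L =>
      show ((mt w).1.1 + (mt w).2.1) * (mt w).2.2 - ((mt w).1.2 + (mt w).2.2) * (mt w).2.1 = 1
      linarith
    | R =>
      show (mt w).1.1 * ((mt w).1.2 + (mt w).2.2) - (mt w).1.2 * ((mt w).1.1 + (mt w).2.1) = 1
      linarith
    | L' => exact ih
    | R' => exact ih

lemma Pu_N' {w : List Letter} (hw : ∀ x ∈ w, x = Letter.L ∨ x = Letter.R)
    (hL : Letter.L ∈ w) (hR : Letter.R ∈ w) {z : ℂ} (hz : 0 ≤ z.re) {u : ℂ × ℂ} (hu : Rp u) :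
    0 < ∑ b ∈ (Pu z w u).support, ‖coeff b (Pu z w u)‖ ∧
      ∑ b ∈ (Pu z w u).support, ‖coeff b (Pu z w u)‖
        ≤ 7 * ‖∑ b ∈ (Pu z w u).support, coeff b (Pu z w u)‖ := by
  obtain ⟨⟨h1, h2, h3, h4⟩, h5, h6⟩ := mt_pos hw
  have h5 := h5 hL
  have h6 := h6 hR
  have hnc := noncancel' h1 h5 h6 h4 (mt_det w) hz hu
  obtain ⟨e1, e2⟩ := ev_phi z hw 0
  obtain ⟨n1, n2⟩ := N1_phi z hw 0
  have hev : ev (Pu z w u) = u.1 * (((mt w).1.1 : ℂ) + (mt w).1.2 * z)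
      + u.2 * (((mt w).2.1 : ℂ) + (mt w).2.2 * z) := by
    rw [← e1, ← e2, ev_eq, ev_eq, ev_eq]
    unfold Pu
    simp
  have hN : N1 (Pu z w u) ≤ 7 * ‖ev (Pu z w u)‖ := by
    rw [hev]
    refine le_trans ?_ hnc
    unfold Pu
    refine (N1_add _ _).trans ?_
    have m1 := N1_C_mul u.1 (phi z w 0).1
    have m2 := N1_C_mul u.2 (X 0 * (phi z w 0).2)
    have m3 := N1_X_mul 0 (phi z w 0).2
    have h8 : 0 ≤ ‖u.1‖ := norm_nonneg _
    have h9 : 0 ≤ ‖u.2‖ := norm_nonneg _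
    have m4 : ‖u.1‖ * N1 (phi z w 0).1 ≤ ‖u.1‖ * ((mt w).1.1 + (mt w).1.2 * ‖z‖) := by gcongr
    have m5 : ‖u.2‖ * N1 (X 0 * (phi z w 0).2) ≤ ‖u.2‖ * ((mt w).2.1 + (mt w).2.2 * ‖z‖) := by
      gcongr
      exact m3.trans n2
    linarith
  refine ⟨?_, hN⟩
  -- positivity
  have hpos : 0 < ‖u.1‖ * ((mt w).1.1 + (mt w).1.2 * ‖z‖)
      + ‖u.2‖ * ((mt w).2.1 + (mt w).2.2 * ‖z‖) := by
    have hz0 := norm_nonneg z
    rcases hu with rfl | ⟨h7, _⟩
    · simp only [norm_zero, zero_mul, norm_one, one_mul, zero_add]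
      have : 0 ≤ (mt w).2.2 * ‖z‖ := by positivity
      linarith
    · rw [h7, norm_one, one_mul]
      have : 0 ≤ (mt w).1.2 * ‖z‖ := by positivity
      have : 0 ≤ ‖u.2‖ * ((mt w).2.1 + (mt w).2.2 * ‖z‖) := by positivity
      linarith
  have h10 : 0 < ‖ev (Pu z w u)‖ := by
    rw [hev]
    by_contra hcon
    push Not at hcon
    have h11 : 7 * ‖u.1 * (((mt w).1.1 : ℂ) + (mt w).1.2 * z)
        + u.2 * (((mt w).2.1 : ℂ) + (mt w).2.2 * z)‖ ≤ 0 :=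
      mul_nonpos_of_nonneg_of_nonpos (by positivity) hcon
    linarith
  exact lt_of_lt_of_le h10 (norm_ev_le _)

/-- the symbol of a word has no zeros, sharp form -/
lemma PP_word' {n m : ℕ} (hn : n = m + 1) {w : List Letter}
    (hw : ∀ x ∈ w, x = Letter.L ∨ x = Letter.R)
    (hL : Letter.L ∈ w) (hR : Letter.R ∈ w) {t : ℂ}
    (ht : 1440 * Real.pi * (n * ‖t‖) * 7 ^ 2 * w.length ≤ 1) :
    PP m (Mt n t w) := by
  subst hn
  intro l hl hRp z hz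
  rw [sy_eq z rfl t hw hl]
  have hG := good_all (ι := Fin l.length) (P := fun i => Pu z w l[i.1]) (w := w) (n := m + 1)
    (m := m) rfl (t := t) (Λ0 := 7) (by norm_num)
    (fun i => Pu_supp z hw l[i.1])
    (fun i => Pu_N' hw hL hR hz (hRp _ (List.getElem_mem _)))
    (List.length_pos_of_mem hL) ht m
  have h1 := (hG univ (by rw [Finset.card_univ, Fintype.card_fin, hl]) 0 0 rfl
    (by rw [Finset.card_univ, Fintype.card_fin, hl, add_zero])).1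
  have h2 : pr (fun i : Fin l.length => Pu z w l[i.1]) univ 0 = (l.map (Pu z w)).prod := by
    unfold pr
    rw [show (MvPolynomial.monomial 0 (1 : ℂ) : MvPolynomial ℕ ℂ) = 1 from rfl, one_mul]
    exact Fin.prod_univ_fun_getElem l (Pu z w)
  rwa [h2] at h1

/-- the symbol of a product of blocks has no zeros -/
lemma PP_blocks' {n m : ℕ} (hn : n = m + 1) {t : ℂ} (b : List Letter) (bs : List (List Letter))
    (h : ∀ c ∈ b :: bs, (∀ x ∈ c, x = Letter.L ∨ x = Letter.R) ∧ Letter.L ∈ c ∧ Letter.R ∈ c ∧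
      1440 * Real.pi * (n * ‖t‖) * 7 ^ 2 * c.length ≤ 1) :
    PP m (Mt n t (b :: bs).flatten) := by
  induction bs generalizing b with
  | nil =>
    obtain ⟨h1, h2, h3, h4⟩ := h b List.mem_cons_self
    simpa using PP_word' hn h1 h2 h3 h4
  | cons c bs ih =>
    obtain ⟨h1, h2, h3, h4⟩ := h b List.mem_cons_self
    have h5 := ih c (fun d hd => h d (List.mem_cons_of_mem _ hd))
    have h6 := PP_mm (PP_word' hn h1 h2 h3 h4) h5
    refine PP_congr ?_ h6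
    intro k hk l _
    rw [List.flatten_cons, Mt_append n t b _ k (by omega) l]
    unfold mm
    rw [hn]

end

end Pool.Agent.H759.PTB
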