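import Mathlib

/-!
Zero-free sums over many weakly interacting particles.
-/

namespace Pool.Agent.H759.PTB

open Finset MvPolynomial

noncomputable section

/-- the linear functional `X^ν ↦ F ν` -/
def LF (F : (ℕ →₀ ℕ) → ℂ) : MvPolynomial ℕ ℂ →ₗ[ℂ] ℂ :=
  (basisMonomials ℕ ℂ).constr ℂ F

lemma LF_monomial (F : (ℕ →₀ ℕ) → ℂ) (ν : ℕ →₀ ℕ) (c : ℂ) : LF F (monomial ν c) = c * F ν := by
  have h : (monomial ν c : MvPolynomial ℕ ℂ) = c • (basisMonomials ℕ ℂ) ν := by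
    rw [coe_basisMonomials, smul_monomial, smul_eq_mul, mul_one]
  rw [h, map_smul]
  unfold LF
  rw [Module.Basis.constr_basis, smul_eq_mul]

lemma LF_eq_sum (F : (ℕ →₀ ℕ) → ℂ) (p : MvPolynomial ℕ ℂ) :
    LF F p = ∑ ν ∈ p.support, coeff ν p * F ν := by
  conv_lhs => rw [← support_sum_monomial_coeff p]
  rw [map_sum]
  exact Finset.sum_congr rfl (fun ν _ => LF_monomial F ν _)

lemma LF_congr {F G : (ℕ →₀ ℕ) → ℂ} {p : MvPolynomial ℕ ℂ} (h : ∀ ν ∈ p.support, F ν = G ν) :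
    LF F p = LF G p := by
  rw [LF_eq_sum, LF_eq_sum]
  exact Finset.sum_congr rfl (fun ν hν => by rw [h ν hν])

lemma LF_add (F G : (ℕ →₀ ℕ) → ℂ) (p : MvPolynomial ℕ ℂ) :
    LF (fun ν => F ν + G ν) p = LF F p + LF G p := by
  rw [LF_eq_sum, LF_eq_sum, LF_eq_sum, ← Finset.sum_add_distrib]
  exact Finset.sum_congr rfl (fun ν _ => by ring)

lemma LF_smul (c : ℂ) (F : (ℕ →₀ ℕ) → ℂ) (p : MvPolynomial ℕ ℂ) :
    LF (fun ν => c * F ν) p = c * LF F p := by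
  rw [LF_eq_sum, LF_eq_sum, Finset.mul_sum]
  exact Finset.sum_congr rfl (fun ν _ => by ring)

lemma LF_shift (F : (ℕ →₀ ℕ) → ℂ) (b : ℕ →₀ ℕ) (p : MvPolynomial ℕ ℂ) :
    LF F (monomial b 1 * p) = LF (fun ν => F (ν + b)) p := by
  conv_lhs => rw [← support_sum_monomial_coeff p]
  rw [Finset.mul_sum, map_sum, LF_eq_sum]
  apply Finset.sum_congr rfl
  intro ν _
  rw [monomial_mul, one_mul, LF_monomial, add_comm b ν]

/-- the Euler operator -/
def eu (j : ℕ) (p : MvPolynomial ℕ ℂ) : MvPolynomial ℕ ℂ := X j * pderiv j p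

lemma eu_monomial (j : ℕ) (ν : ℕ →₀ ℕ) (c : ℂ) :
    eu j (monomial ν c) = (ν j : ℂ) • monomial ν c := by
  unfold eu
  rw [X_mul_pderiv_monomial]
  rw [← Nat.cast_smul_eq_nsmul ℂ]

lemma eu_add (j : ℕ) (p q : MvPolynomial ℕ ℂ) : eu j (p + q) = eu j p + eu j q := by
  unfold eu
  rw [map_add, mul_add]

lemma eu_sum {α : Type*} (j : ℕ) (s : Finset α) (f : α → MvPolynomial ℕ ℂ) :
    eu j (∑ a ∈ s, f a) = ∑ a ∈ s, eu j (f a) := by
  unfold eu
  rw [map_sum, Finset.mul_sum]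

lemma eu_mul (j : ℕ) (p q : MvPolynomial ℕ ℂ) : eu j (p * q) = eu j p * q + p * eu j q := by
  unfold eu
  rw [Derivation.leibniz, smul_eq_mul, smul_eq_mul]
  ring

lemma eu_prod {ι : Type*} [DecidableEq ι] (j : ℕ) (S : Finset ι) (P : ι → MvPolynomial ℕ ℂ) :
    eu j (∏ i ∈ S, P i) = ∑ i ∈ S, eu j (P i) * ∏ k ∈ S.erase i, P k := by
  induction S using Finset.induction_on with
  | empty =>
    unfold eu
    simp
  | insert a S ha ih =>
    rw [Finset.prod_insert ha, eu_mul, ih, Finset.sum_insert ha, Finset.erase_insert ha,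
      Finset.mul_sum]
    congr 1
    apply Finset.sum_congr rfl
    intro i hi
    have hne : i ≠ a := fun h => ha (h ▸ hi)
    rw [Finset.erase_insert_of_ne hne.symm, Finset.prod_insert (fun h => ha (Finset.mem_of_mem_erase h))]
    ring

lemma LF_eu (j : ℕ) (F : (ℕ →₀ ℕ) → ℂ) (p : MvPolynomial ℕ ℂ) :
    LF (fun ν => (ν j : ℂ) * F ν) p = LF F (eu j p) := by
  conv_rhs => rw [← support_sum_monomial_coeff p]
  rw [eu_sum, map_sum, LF_eq_sum]
  apply Finset.sum_congr rfl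
  intro ν _
  rw [eu_monomial, map_smul, LF_monomial, smul_eq_mul]
  ring

/-- sums of `r` states -/
def Adm (A : Set (ℕ →₀ ℕ)) : ℕ → Set (ℕ →₀ ℕ)
  | 0 => {0}
  | r + 1 => {ν | ∃ μ ∈ Adm A r, ∃ b ∈ A, ν = μ + b}

lemma adm_add {A : Set (ℕ →₀ ℕ)} {r r' : ℕ} {κ μ : ℕ →₀ ℕ} (h : κ ∈ Adm A r)
    (h' : μ ∈ Adm A r') : κ + μ ∈ Adm A (r + r') := by
  induction r' generalizing μ with
  | zero =>
    have h0 : μ = 0 := h'
    subst h0
    have e : κ + 0 = κ := add_zero κ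
    rw [e]; exact h
  | succ r' ih =>
    obtain ⟨μ', hμ', b, hb, rfl⟩ := h'
    exact ⟨κ + μ', ih hμ', b, hb, by rw [add_assoc]⟩

lemma adm_succ {A : Set (ℕ →₀ ℕ)} {r : ℕ} {κ b : ℕ →₀ ℕ} (h : κ ∈ Adm A r)
    (hb : b ∈ A) : κ + b ∈ Adm A (r + 1) := ⟨κ, h, b, hb, rfl⟩

lemma adm_coord {A : Set (ℕ →₀ ℕ)} (hA : ∀ b ∈ A, ∀ j, b j ≤ 1) {r : ℕ} {κ : ℕ →₀ ℕ}
    (h : κ ∈ Adm A r) (j : ℕ) : κ j ≤ r := by
  induction r generalizing κ with
  | zero =>
    have : κ = 0 := h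
    rw [this]; simp
  | succ r ih =>
    obtain ⟨μ, hμ, b, hb, rfl⟩ := h
    have h1 := ih hμ
    have h2 := hA b hb j
    rw [Finsupp.add_apply]
    omega

section particles

set_option linter.unusedSectionVars false

variable {ι : Type} [DecidableEq ι]

/-- product over particles -/
def pr (P : ι → MvPolynomial ℕ ℂ) (S : Finset ι) (κ : ℕ →₀ ℕ) : MvPolynomial ℕ ℂ :=
  monomial κ 1 * ∏ i ∈ S, P i

lemma prod_support {A : Set (ℕ →₀ ℕ)} {P : ι → MvPolynomial ℕ ℂ}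
    (hP : ∀ i, ∀ b ∈ (P i).support, b ∈ A) (S : Finset ι) :
    ∀ ν ∈ (∏ i ∈ S, P i).support, ν ∈ Adm A S.card := by
  induction S using Finset.induction_on with
  | empty =>
    intro ν hν
    rw [Finset.prod_empty] at hν
    have : ν = 0 := by
      by_contra hne
      rw [mem_support_iff, coeff_one, if_neg (Ne.symm hne)] at hν
      exact hν rfl
    rw [this]; rfl
  | insert a S ha ih =>
    intro ν hν
    rw [Finset.prod_insert ha] at hν
    have h1 := support_mul (P a) (∏ i ∈ S, P i) hν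
    rw [Finset.mem_add] at h1
    obtain ⟨b, hb, μ, hμ, rfl⟩ := h1
    rw [card_insert_of_notMem ha, add_comm b μ]
    exact adm_succ (ih μ hμ) (hP a b hb)

lemma pr_support {A : Set (ℕ →₀ ℕ)} {P : ι → MvPolynomial ℕ ℂ}
    (hP : ∀ i, ∀ b ∈ (P i).support, b ∈ A) {S : Finset ι} {r : ℕ} {κ : ℕ →₀ ℕ}
    (hκ : κ ∈ Adm A r) {ν : ℕ →₀ ℕ} (hν : ν ∈ (pr P S κ).support) : ν ∈ Adm A (S.card + r) := by
  unfold pr at hν
  have h1 := support_mul _ _ hν
  rw [Finset.mem_add] at h1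
  obtain ⟨b, hb, μ, hμ, rfl⟩ := h1
  have hb' : b = κ := by
    have := support_monomial_subset hb
    simpa using this
  rw [hb', add_comm κ μ]
  exact adm_add (prod_support hP S μ hμ) hκ

lemma LF_mono_mul (F : (ℕ →₀ ℕ) → ℂ) (κ b : ℕ →₀ ℕ) (c : ℂ) (Q : MvPolynomial ℕ ℂ) :
    LF F (monomial κ 1 * (monomial b c * Q)) = c * LF F (monomial (κ + b) 1 * Q) := by
  have e : (monomial κ 1 * (monomial b c * Q) : MvPolynomial ℕ ℂ)
      = c • (monomial (κ + b) 1 * Q) := by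
    rw [← mul_assoc, monomial_mul, one_mul, ← smul_mul_assoc, smul_monomial, smul_eq_mul, mul_one]
  rw [e, map_smul, smul_eq_mul]

/-- removal of a particle -/
lemma LF_remove (F : (ℕ →₀ ℕ) → ℂ) (P : ι → MvPolynomial ℕ ℂ) {S : Finset ι} {i : ι} (hi : i ∈ S)
    (κ : ℕ →₀ ℕ) :
    LF F (pr P S κ) = ∑ b ∈ (P i).support, coeff b (P i) * LF F (pr P (S.erase i) (κ + b)) := by
  unfold pr
  rw [← Finset.mul_prod_erase S P hi]
  conv_lhs => rw [← support_sum_monomial_coeff (P i)]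
  rw [Finset.sum_mul, Finset.mul_sum, map_sum]
  apply Finset.sum_congr rfl
  intro b _
  exact LF_mono_mul F κ b _ _

/-- counting a coordinate -/
lemma LF_count (F : (ℕ →₀ ℕ) → ℂ) (P : ι → MvPolynomial ℕ ℂ) (S : Finset ι) (κ : ℕ →₀ ℕ) (j : ℕ) :
    LF (fun ν => (ν j : ℂ) * F ν) (pr P S κ) = (κ j : ℂ) * LF F (pr P S κ)
      + ∑ i ∈ S, ∑ b ∈ (P i).support, ((b j : ℂ) * coeff b (P i))
        * LF F (pr P (S.erase i) (κ + b)) := by
  rw [LF_eu]
  unfold pr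
  rw [eu_mul, eu_monomial, map_add, smul_mul_assoc, map_smul, smul_eq_mul, eu_prod, Finset.mul_sum,
    map_sum]
  congr 1
  apply Finset.sum_congr rfl
  intro i _
  conv_lhs => rw [← support_sum_monomial_coeff (P i)]
  rw [eu_sum, Finset.sum_mul, Finset.mul_sum, map_sum]
  apply Finset.sum_congr rfl
  intro b _
  rw [eu_monomial, smul_monomial, smul_eq_mul]
  exact LF_mono_mul F κ b _ _

variable (A : Set (ℕ →₀ ℕ)) (P : ι → MvPolynomial ℕ ℂ) (E : (ℕ →₀ ℕ) → ℂ) (m : ℕ)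

/-- bounded observables -/
def Bd (s : ℕ) (H : (ℕ →₀ ℕ) → ℂ) (C : ℝ) : Prop :=
  ∀ S : Finset ι, S.card ≤ s → ∀ (r : ℕ) (κ : ℕ →₀ ℕ), κ ∈ Adm A r → S.card + r ≤ m →
    ‖LF (fun ν => E ν * H ν) (pr P S κ)‖ ≤ C * ‖LF E (pr P S κ)‖

/-- bounded multipliers -/
def Op (s : ℕ) (g : (ℕ →₀ ℕ) → ℂ) (γ : ℝ) : Prop :=
  ∀ (H : (ℕ →₀ ℕ) → ℂ) (C : ℝ), 0 ≤ C → Bd A P E m s H C →
    Bd A P E m s (fun ν => g ν * H ν) (γ * C)

/-- the induction hypothesis -/
def Good (s : ℕ) (Λ : ℝ) : Prop :=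
  ∀ S : Finset ι, S.card ≤ s → ∀ (r : ℕ) (κ : ℕ →₀ ℕ), κ ∈ Adm A r → S.card + r ≤ m →
    LF E (pr P S κ) ≠ 0 ∧ ∀ i ∈ S, ∑ b ∈ (P i).support,
      ‖coeff b (P i)‖ * ‖LF E (pr P (S.erase i) (κ + b))‖ ≤ Λ * ‖LF E (pr P S κ)‖

variable {A P E m}

lemma bd_one (s : ℕ) : Bd A P E m s (fun _ => 1) 1 := by
  intro S _ r κ _ _
  simp

lemma op_mono {s : ℕ} {g : (ℕ →₀ ℕ) → ℂ} {γ γ' : ℝ} (h : Op A P E m s g γ) (hγ : γ ≤ γ') :
    Op A P E m s g γ' := by
  intro H C hC hH S hS r κ hκ hm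
  refine (h H C hC hH S hS r κ hκ hm).trans ?_
  have := norm_nonneg (LF E (pr P S κ))
  gcongr

lemma op_add {s : ℕ} {g g' : (ℕ →₀ ℕ) → ℂ} {γ γ' : ℝ} (h : Op A P E m s g γ)
    (h' : Op A P E m s g' γ') : Op A P E m s (fun ν => g ν + g' ν) (γ + γ') := by
  intro H C hC hH S hS r κ hκ hm
  have h1 := h H C hC hH S hS r κ hκ hm
  have h2 := h' H C hC hH S hS r κ hκ hm
  have e : LF (fun ν => E ν * ((g ν + g' ν) * H ν)) (pr P S κ)
      = LF (fun ν => E ν * (g ν * H ν)) (pr P S κ)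
        + LF (fun ν => E ν * (g' ν * H ν)) (pr P S κ) := by
    rw [← LF_add]
    apply LF_congr
    intro ν _
    ring
  rw [e]
  refine (norm_add_le _ _).trans ?_
  linarith

lemma op_mul {s : ℕ} {g g' : (ℕ →₀ ℕ) → ℂ} {γ γ' : ℝ} (h : Op A P E m s g γ)
    (h' : Op A P E m s g' γ') (hγ' : 0 ≤ γ') : Op A P E m s (fun ν => g ν * g' ν) (γ * γ') := by
  intro H C hC hH
  have h1 := h (fun ν => g' ν * H ν) (γ' * C) (by positivity) (h' H C hC hH)
  intro S hS r κ hκ hm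
  have h2 := h1 S hS r κ hκ hm
  have e : LF (fun ν => E ν * (g ν * g' ν * H ν)) (pr P S κ)
      = LF (fun ν => E ν * (g ν * (g' ν * H ν))) (pr P S κ) := by
    apply LF_congr
    intro ν _
    ring
  rw [e]
  refine h2.trans (le_of_eq (by ring))

lemma op_const (s : ℕ) (c : ℂ) : Op A P E m s (fun _ => c) ‖c‖ := by
  intro H C hC hH S hS r κ hκ hm
  have e : LF (fun ν => E ν * (c * H ν)) (pr P S κ) = c * LF (fun ν => E ν * H ν) (pr P S κ) := by
    rw [← LF_smul]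
    apply LF_congr
    intro ν _
    ring
  rw [e, norm_mul, mul_assoc]
  exact mul_le_mul_of_nonneg_left (hH S hS r κ hκ hm) (norm_nonneg c)

lemma op_congr {s : ℕ} {g g' : (ℕ →₀ ℕ) → ℂ} {γ : ℝ} (h : Op A P E m s g γ)
    (hP : ∀ i, ∀ b ∈ (P i).support, b ∈ A) (hg : ∀ r ≤ m, ∀ ν ∈ Adm A r, g' ν = g ν) :
    Op A P E m s g' γ := by
  intro H C hC hH S hS r κ hκ hm
  have e : LF (fun ν => E ν * (g' ν * H ν)) (pr P S κ)
      = LF (fun ν => E ν * (g ν * H ν)) (pr P S κ) := by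
    apply LF_congr
    intro ν hν
    rw [hg _ hm ν (pr_support hP hκ hν)]
  rw [e]
  exact h H C hC hH S hS r κ hκ hm

lemma op_coord {s : ℕ} {Λ : ℝ} (hG : Good A P E m s Λ) (hΛ : 1 ≤ Λ)
    (hA : ∀ b ∈ A, ∀ j, b j ≤ 1) (hP : ∀ i, ∀ b ∈ (P i).support, b ∈ A) (j : ℕ) :
    Op A P E m s (fun ν => (ν j : ℂ)) (m * Λ) := by
  intro H C hC hH S hS r κ hκ hm
  have e : LF (fun ν => E ν * ((ν j : ℂ) * H ν)) (pr P S κ)
      = LF (fun ν => (ν j : ℂ) * (E ν * H ν)) (pr P S κ) := by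
    apply LF_congr
    intro ν _
    ring
  rw [e, LF_count (fun ν => E ν * H ν)]
  set z := ‖LF E (pr P S κ)‖ with hz
  have hz0 : 0 ≤ z := norm_nonneg _
  have h1 : ‖(κ j : ℂ) * LF (fun ν => E ν * H ν) (pr P S κ)‖ ≤ r * (C * z) := by
    rw [norm_mul, Complex.norm_natCast]
    have h2 : (κ j : ℝ) ≤ r := by exact_mod_cast adm_coord hA hκ j
    have h3 := hH S hS r κ hκ hm
    gcongr
  have h2 : ∀ i ∈ S, ‖∑ b ∈ (P i).support, ((b j : ℂ) * coeff b (P i))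
        * LF (fun ν => E ν * H ν) (pr P (S.erase i) (κ + b))‖ ≤ C * (Λ * z) := by
    intro i hi
    have h4 := (hG S hS r κ hκ hm).2 i hi
    calc _ ≤ ∑ b ∈ (P i).support, ‖((b j : ℂ) * coeff b (P i))
        * LF (fun ν => E ν * H ν) (pr P (S.erase i) (κ + b))‖ := norm_sum_le _ _
      _ ≤ ∑ b ∈ (P i).support, C * (‖coeff b (P i)‖ * ‖LF E (pr P (S.erase i) (κ + b))‖) := by
          apply Finset.sum_le_sum
          intro b hb
          have hbA := hP i b hb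
          have hcard : (S.erase i).card = S.card - 1 := Finset.card_erase_of_mem hi
          have hpos : 0 < S.card := Finset.card_pos.2 ⟨i, hi⟩
          have h5 := hH (S.erase i) (by omega) (r + 1) (κ + b) (adm_succ hκ hbA) (by omega)
          rw [norm_mul, norm_mul, Complex.norm_natCast]
          have h6 : (b j : ℝ) ≤ 1 := by exact_mod_cast hA b hbA j
          calc (b j : ℝ) * ‖coeff b (P i)‖
                * ‖LF (fun ν => E ν * H ν) (pr P (S.erase i) (κ + b))‖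
              ≤ 1 * ‖coeff b (P i)‖ * (C * ‖LF E (pr P (S.erase i) (κ + b))‖) := by
                gcongr
            _ = _ := by ring
      _ = C * ∑ b ∈ (P i).support, ‖coeff b (P i)‖ * ‖LF E (pr P (S.erase i) (κ + b))‖ := by
          rw [Finset.mul_sum]
      _ ≤ _ := by gcongr
  have h3 : ‖∑ i ∈ S, ∑ b ∈ (P i).support, ((b j : ℂ) * coeff b (P i))
        * LF (fun ν => E ν * H ν) (pr P (S.erase i) (κ + b))‖ ≤ S.card * (C * (Λ * z)) := by
    refine (norm_sum_le _ _).trans ?_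
    rw [← nsmul_eq_mul]
    exact Finset.sum_le_card_nsmul S _ _ h2
  refine (norm_add_le _ _).trans ?_
  have hm' : (S.card : ℝ) + r ≤ m := by exact_mod_cast hm
  have hCz : 0 ≤ C * z := by positivity
  calc _ ≤ r * (C * z) + S.card * (C * (Λ * z)) := add_le_add h1 h3
    _ ≤ r * (Λ * (C * z)) + S.card * (Λ * (C * z)) := by
        have : (r : ℝ) * (C * z) ≤ r * (Λ * (C * z)) := by
          have hr : (0 : ℝ) ≤ r := by positivity
          have : C * z ≤ Λ * (C * z) := by nlinarith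
          gcongr
        have e2 : (S.card : ℝ) * (C * (Λ * z)) = S.card * (Λ * (C * z)) := by ring
        linarith
    _ = (S.card + r) * (Λ * (C * z)) := by ring
    _ ≤ m * (Λ * (C * z)) := by gcongr
    _ = _ := by ring

/-- power series of bounded multipliers -/
lemma op_series {s : ℕ} {T g : (ℕ →₀ ℕ) → ℂ} {τ γ : ℝ} (hτ : 0 ≤ τ) (hT : Op A P E m s T τ)
    (hP : ∀ i, ∀ b ∈ (P i).support, b ∈ A) (c : ℕ → ℂ)
    (hc : HasSum (fun d => ‖c d‖ * τ ^ d) γ)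
    (hg : ∀ r ≤ m, ∀ ν ∈ Adm A r, HasSum (fun d => c d * T ν ^ d) (g ν)) :
    Op A P E m s g γ := by
  have hpow : ∀ d : ℕ, Op A P E m s (fun ν => T ν ^ d) (τ ^ d) := by
    intro d
    induction d with
    | zero => simpa using op_const (A := A) (P := P) (E := E) (m := m) s (1 : ℂ)
    | succ d ih =>
      simp only [pow_succ]
      exact op_mul ih hT hτ
  intro H C hC hH S hS r κ hκ hm
  have h1 : HasSum (fun d => LF (fun ν => E ν * ((c d * T ν ^ d) * H ν)) (pr P S κ))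
      (LF (fun ν => E ν * (g ν * H ν)) (pr P S κ)) := by
    simp only [LF_eq_sum]
    apply hasSum_sum
    intro ν hν
    have h2 := hg _ hm ν (pr_support hP hκ hν)
    have h3 := (h2.mul_right (H ν)).mul_left (E ν)
    exact h3.mul_left _
  have h2 : ∀ d, ‖LF (fun ν => E ν * ((c d * T ν ^ d) * H ν)) (pr P S κ)‖
      ≤ (‖c d‖ * τ ^ d) * (C * ‖LF E (pr P S κ)‖) := by
    intro d
    have h3 := op_mul (op_const (A := A) (P := P) (E := E) (m := m) s (c d)) (hpow d)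
      (by positivity) H C hC hH S hS r κ hκ hm
    refine h3.trans (le_of_eq (by ring))
  have h3 := hc.mul_right (C * ‖LF E (pr P S κ)‖)
  have h4 := h1.norm_le_of_bounded h3 h2
  refine h4.trans (le_of_eq (by ring))

end particles

end

end Pool.Agent.H759.PTB
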