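import Pool.Agent.H759.PTB.Defs

/-!
The analytic family of matrices through the symmetric powers.
-/

namespace Pool.Agent.H759.PTB

open Finset Metric Matrix

noncomputable section

/-- `sin z / z` -/
def sc (z : ℂ) : ℂ := dslope Complex.sin 0 z

lemma sc_zero : sc 0 = 1 := by
  unfold sc
  rw [dslope_same, Complex.deriv_sin, Complex.cos_zero]

lemma sc_mul (z : ℂ) : z * sc z = Complex.sin z := by
  have := sub_smul_dslope Complex.sin 0 z
  simpa [sc] using this

lemma sc_diff : Differentiable ℂ sc := by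
  have h : DifferentiableOn ℂ (dslope Complex.sin 0) Set.univ :=
    (Complex.differentiableOn_dslope Filter.univ_mem).2 Complex.differentiable_sin.differentiableOn
  exact differentiableOn_univ.1 h

lemma sc_near {z : ℂ} (h : ‖z‖ ≤ 1 / 2) : ‖sc z - 1‖ ≤ ‖z‖ / 2 := by
  by_cases hz : z = 0
  · rw [hz, sc_zero]; simp
  have hz0 : 0 < ‖z‖ := norm_pos_iff.2 hz
  have e : sc z - 1 = (Complex.sin z - z) / z := by
    rw [← sc_mul]; field_simp
  have h1 := Complex.sin_bound (x := z) (by linarith)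
  have h2 : ‖Complex.sin z - z‖ ≤ ‖z‖ ^ 5 / 100 + ‖z‖ ^ 3 / 6 := by
    have h3 : Complex.sin z - z = (Complex.sin z - (z - z ^ 3 / 6)) - z ^ 3 / 6 := by ring
    rw [h3]
    refine (norm_sub_le _ _).trans ?_
    have h4 : ‖z ^ 3 / 6‖ = ‖z‖ ^ 3 / 6 := by
      rw [norm_div, norm_pow]; norm_num
    linarith
  rw [e, norm_div, div_le_iff₀ hz0]
  have h5 : ‖z‖ ^ 5 ≤ ‖z‖ ^ 2 := by
    have : ‖z‖ ^ 5 = ‖z‖ ^ 2 * ‖z‖ ^ 3 := by ring
    rw [this]
    have h6 : ‖z‖ ^ 3 ≤ 1 := pow_le_one₀ hz0.le (by linarith)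
    nlinarith [sq_nonneg ‖z‖]
  have h7 : ‖z‖ ^ 3 ≤ ‖z‖ ^ 2 := by
    have : ‖z‖ ^ 3 = ‖z‖ ^ 2 * ‖z‖ := by ring
    rw [this]
    nlinarith [sq_nonneg ‖z‖]
  nlinarith

lemma cos_near {z : ℂ} (h : ‖z‖ ≤ 1 / 2) : ‖Complex.cos z - 1‖ ≤ ‖z‖ / 2 := by
  have h1 := Complex.cos_bound (x := z) (by linarith)
  have h2 : ‖Complex.cos z - 1‖ ≤ ‖z‖ ^ 4 * (5 / 96) + ‖z‖ ^ 2 / 2 := by
    have h3 : Complex.cos z - 1 = (Complex.cos z - (1 - z ^ 2 / 2)) - z ^ 2 / 2 := by ring
    rw [h3]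
    refine (norm_sub_le _ _).trans ?_
    have h4 : ‖z ^ 2 / 2‖ = ‖z‖ ^ 2 / 2 := by
      rw [norm_div, norm_pow]; norm_num
    linarith
  have h0 := norm_nonneg z
  have h6 : ‖z‖ ^ 2 ≤ ‖z‖ / 2 := by nlinarith
  have h7 : ‖z‖ ^ 4 ≤ ‖z‖ / 2 := by
    have : ‖z‖ ^ 4 = ‖z‖ ^ 2 * ‖z‖ ^ 2 := by ring
    rw [this]
    nlinarith [sq_nonneg ‖z‖]
  linarith

/-- numbers near one -/
lemma near_one {v : ℂ} {y : ℝ} (h : ‖v - 1‖ ≤ y / 2) (hy0 : 0 ≤ y) (hy : y ≤ 1 / 2) :
    v ≠ 0 ∧ ‖v‖ ≤ Real.exp y ∧ ‖v⁻¹‖ ≤ Real.exp y := by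
  have h1 : ‖v‖ ≤ 1 + y / 2 := by
    have := norm_add_le (v - 1) 1
    rw [sub_add_cancel, norm_one] at this
    linarith
  have h2 : 1 - y / 2 ≤ ‖v‖ := by
    have := norm_sub_norm_le 1 (1 - v)
    rw [norm_one, norm_sub_rev 1 v] at this
    have e : (1 : ℂ) - (1 - v) = v := by ring
    rw [e] at this
    linarith
  have h3 : 0 < ‖v‖ := by linarith
  have h4 := Real.add_one_le_exp y
  refine ⟨norm_pos_iff.1 h3, by linarith, ?_⟩
  rw [norm_inv, inv_le_comm₀ h3 (Real.exp_pos y)]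
  rw [← Real.exp_neg]
  have h5 : Real.exp (-y) ≤ 1 - y / 2 := by
    rw [Real.exp_neg, inv_le_comm₀ (Real.exp_pos y) (by linarith)]
    refine le_trans ?_ h4
    rw [inv_le_iff_one_le_mul₀ (by linarith)]
    nlinarith
  linarith

/-- half-integers -/
def hu (n k : ℕ) : ℝ := (4 * k + 3 - 2 * n) / 2

/-- half-integers -/
def hv (n k : ℕ) : ℝ := (4 * k - 1 - 2 * n) / 2

/-- the quadratic phase -/
def ph (n k l : ℕ) : ℝ := Real.pi * (hu n k * hv n l)

/-- the analytic factor of the letter `R` -/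
def exR (n k l : ℕ) (t : ℂ) : ℂ :=
  Complex.exp (-(Complex.I * ((ph n l k : ℂ) * t))) * ∏ j ∈ range (k - l),
    (sc (((4 * Real.pi * (j + 1) : ℝ) : ℂ) * t)
      * Complex.cos (((Real.pi * (4 * (l + j) + 3 - 2 * n) : ℝ) : ℂ) * t))⁻¹

/-- the analytic factor of the letter `L` -/
def exL (n k l : ℕ) (t : ℂ) : ℂ :=
  Complex.exp (Complex.I * ((ph n k l : ℂ) * t)) * ∏ j ∈ range (l - k),
    (sc (((4 * Real.pi * (k + 1 + j) : ℝ) : ℂ) * t)
      * sc (((4 * Real.pi * (n - k - 1 - j) : ℝ) : ℂ) * t)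
      * Complex.cos (((Real.pi * (4 * (k + j) + 1 - 2 * n) : ℝ) : ℂ) * t)
      * (sc (((4 * Real.pi * (j + 1) : ℝ) : ℂ) * t))⁻¹)

/-- the entries at `t = 0` of `R` -/
def aR (k l : ℕ) : ℝ := (k.choose l : ℝ)

/-- the entries at `t = 0` of `L` -/
def aL (n k l : ℕ) : ℝ := if k ≤ l then ((n - 1 - k).choose (l - k) : ℝ) else 0

/-- the real matrices at `t = 0` -/
def am (n : ℕ) : Letter → Matrix (Fin n) (Fin n) ℝ
  | Letter.L => fun k l => aL n k l
  | Letter.R => fun k l => aR k l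
  | _ => 0

/-- the family of matrices -/
def fm (n : ℕ) (t : ℂ) : Letter → Matrix (Fin n) (Fin n) ℂ
  | Letter.L => fun k l => (aL n k l : ℂ) * exL n k l t
  | Letter.R => fun k l => (aR k l : ℂ) * exR n k l t
  | _ => 0

/-- the analytic family of traces -/
def ft (n : ℕ) (w : List Letter) (t : ℂ) : ℂ := ((w.map (fm n t)).prod).trace

/-- its value at `t = 0` -/
def F0 (n : ℕ) (w : List Letter) : ℝ := ((w.map (am n)).prod).trace

lemma arg_bound {n : ℕ} {t : ℂ} (ht : n * ‖t‖ ≤ 1 / 50) {c : ℝ} (hc : |c| ≤ 4 * Real.pi * n) :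
    ‖(c : ℂ) * t‖ ≤ 4 * Real.pi * (n * ‖t‖) ∧ 4 * Real.pi * (n * ‖t‖) ≤ 1 / 2 := by
  constructor
  · rw [norm_mul, Complex.norm_real, Real.norm_eq_abs]
    have := norm_nonneg t
    calc |c| * ‖t‖ ≤ (4 * Real.pi * n) * ‖t‖ := by gcongr
      _ = _ := by ring
  · have h1 := Real.pi_lt_d2
    have h2 := Real.pi_pos
    have h3 : 0 ≤ n * ‖t‖ := by positivity
    nlinarith

lemma sc_fac {n : ℕ} {t : ℂ} (ht : n * ‖t‖ ≤ 1 / 50) {c : ℝ} (hc : |c| ≤ 4 * Real.pi * n) :
    sc ((c : ℂ) * t) ≠ 0 ∧ ‖sc ((c : ℂ) * t)‖ ≤ Real.exp (4 * Real.pi * (n * ‖t‖)) ∧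
      ‖(sc ((c : ℂ) * t))⁻¹‖ ≤ Real.exp (4 * Real.pi * (n * ‖t‖)) := by
  obtain ⟨h1, h2⟩ := arg_bound ht hc
  have h3 := sc_near (h1.trans h2)
  have h0 : 0 ≤ 4 * Real.pi * (n * ‖t‖) := by have := Real.pi_pos; positivity
  exact near_one (by linarith) h0 h2

lemma cos_fac {n : ℕ} {t : ℂ} (ht : n * ‖t‖ ≤ 1 / 50) {c : ℝ} (hc : |c| ≤ 4 * Real.pi * n) :
    Complex.cos ((c : ℂ) * t) ≠ 0 ∧
      ‖Complex.cos ((c : ℂ) * t)‖ ≤ Real.exp (4 * Real.pi * (n * ‖t‖)) ∧
      ‖(Complex.cos ((c : ℂ) * t))⁻¹‖ ≤ Real.exp (4 * Real.pi * (n * ‖t‖)) := by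
  obtain ⟨h1, h2⟩ := arg_bound ht hc
  have h3 := cos_near (h1.trans h2)
  have h0 : 0 ≤ 4 * Real.pi * (n * ‖t‖) := by have := Real.pi_pos; positivity
  exact near_one (by linarith) h0 h2

lemma c1_bound {n j m : ℕ} (h : m + j < n) : |4 * Real.pi * ((m : ℝ) + j + 1)| ≤ 4 * Real.pi * n := by
  have hpi := Real.pi_pos
  have : (m : ℝ) + j + 1 ≤ n := by exact_mod_cast h
  rw [abs_of_nonneg (by positivity)]
  gcongr

lemma c2_bound {n k j : ℕ} (h : k + j + 1 ≤ n) :
    |4 * Real.pi * ((n : ℝ) - k - 1 - j)| ≤ 4 * Real.pi * n := by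
  have hpi := Real.pi_pos
  have h1 : (k : ℝ) + j + 1 ≤ n := by exact_mod_cast h
  rw [abs_of_nonneg (by
    have : (0 : ℝ) ≤ (n : ℝ) - k - 1 - j := by linarith
    positivity)]
  have : (n : ℝ) - k - 1 - j ≤ n := by
    have h2 : (0 : ℝ) ≤ k := by positivity
    have h3 : (0 : ℝ) ≤ j := by positivity
    linarith
  gcongr

lemma c3_bound {n m : ℕ} (h : m + 1 < n) {c : ℝ} (hc0 : 1 ≤ c) (hc : c ≤ 3) :
    |Real.pi * (4 * (m : ℝ) + c - 2 * n)| ≤ 4 * Real.pi * n := by
  have hpi := Real.pi_pos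
  have h1 : (m : ℝ) + 2 ≤ n := by exact_mod_cast h
  have h2 : (0 : ℝ) ≤ m := by positivity
  rw [abs_mul, abs_of_pos hpi]
  have : |4 * (m : ℝ) + c - 2 * n| ≤ 2 * n := by
    rw [abs_le]; constructor <;> linarith
  nlinarith

lemma hu_bound {n k : ℕ} (h : k < n) : |hu n k| ≤ n := by
  unfold hu
  have h1 : (k : ℝ) + 1 ≤ n := by exact_mod_cast h
  have h2 : (0 : ℝ) ≤ k := by positivity
  rw [abs_le]; constructor <;> linarith

lemma hv_bound {n k : ℕ} (h : k < n) : |hv n k| ≤ 3 / 2 * n := by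
  unfold hv
  have h1 : (k : ℝ) + 1 ≤ n := by exact_mod_cast h
  have h2 : (0 : ℝ) ≤ k := by positivity
  rw [abs_le]; constructor <;> linarith

lemma ph_bound {n k l : ℕ} (hk : k < n) (hl : l < n) : |ph n k l| ≤ 3 / 2 * Real.pi * n ^ 2 := by
  unfold ph
  have hpi := Real.pi_pos
  rw [abs_mul, abs_mul, abs_of_pos hpi]
  have h1 := hu_bound hk
  have h2 := hv_bound hl
  calc Real.pi * (|hu n k| * |hv n l|) ≤ Real.pi * (n * (3 / 2 * n)) := by gcongr
    _ = _ := by ring

lemma exp_fac {n k l : ℕ} (hk : k < n) (hl : l < n) (t : ℂ) :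
    ‖Complex.exp (Complex.I * ((ph n k l : ℂ) * t))‖ ≤ Real.exp (3 / 2 * Real.pi * (n ^ 2 * ‖t‖)) ∧
    ‖Complex.exp (-(Complex.I * ((ph n k l : ℂ) * t)))‖
      ≤ Real.exp (3 / 2 * Real.pi * (n ^ 2 * ‖t‖)) := by
  have h1 := ph_bound hk hl
  have h2 : ‖Complex.I * ((ph n k l : ℂ) * t)‖ ≤ 3 / 2 * Real.pi * (n ^ 2 * ‖t‖) := by
    rw [norm_mul, Complex.norm_I, one_mul, norm_mul, Complex.norm_real, Real.norm_eq_abs]
    have := norm_nonneg t
    calc |ph n k l| * ‖t‖ ≤ (3 / 2 * Real.pi * n ^ 2) * ‖t‖ := by gcongr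
      _ = _ := by ring
  constructor
  · exact (Complex.norm_exp_le_exp_norm _).trans (Real.exp_le_exp.2 h2)
  · refine (Complex.norm_exp_le_exp_norm _).trans (Real.exp_le_exp.2 ?_)
    rw [norm_neg]; exact h2

lemma total_bound {n m : ℕ} (hm : m ≤ n) (t : ℂ) :
    Real.exp (3 / 2 * Real.pi * (n ^ 2 * ‖t‖)) * Real.exp (4 * (4 * Real.pi * (n * ‖t‖))) ^ m
      ≤ Real.exp (55 * (n ^ 2 * ‖t‖)) := by
  rw [← Real.exp_nat_mul, ← Real.exp_add]
  apply Real.exp_le_exp.2
  have h1 := Real.pi_lt_d2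
  have hpi := Real.pi_pos
  have hm' : (m : ℝ) ≤ n := by exact_mod_cast hm
  have ht := norm_nonneg t
  have h2 : (m : ℝ) * (4 * (4 * Real.pi * (n * ‖t‖))) ≤ 16 * Real.pi * (n ^ 2 * ‖t‖) := by
    calc (m : ℝ) * (4 * (4 * Real.pi * (n * ‖t‖))) ≤ n * (4 * (4 * Real.pi * (n * ‖t‖))) := by
          gcongr
      _ = _ := by ring
  have h3 : 0 ≤ (n : ℝ) ^ 2 * ‖t‖ := by positivity
  have h4 := Real.pi_lt_d4
  nlinarith

lemma exR_bound {n k l : ℕ} (hk : k < n) (hl : l ≤ k) {t : ℂ} (ht : n * ‖t‖ ≤ 1 / 50) :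
    ‖exR n k l t‖ ≤ Real.exp (55 * (n ^ 2 * ‖t‖)) := by
  have hfac : ∀ j ∈ range (k - l), ‖(sc (((4 * Real.pi * (j + 1) : ℝ) : ℂ) * t)
      * Complex.cos (((Real.pi * (4 * (l + j) + 3 - 2 * n) : ℝ) : ℂ) * t))⁻¹‖
      ≤ Real.exp (4 * (4 * Real.pi * (n * ‖t‖))) := by
    intro j hj
    have hj' := Finset.mem_range.1 hj
    have b1 : |4 * Real.pi * ((j : ℝ) + 1)| ≤ 4 * Real.pi * n := by
      have := c1_bound (n := n) (j := j) (m := 0) (by omega)
      simpa using this
    have b2 : |Real.pi * (4 * ((l : ℝ) + j) + 3 - 2 * n)| ≤ 4 * Real.pi * n := by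
      have := c3_bound (n := n) (m := l + j) (by omega) (c := 3) (by norm_num) le_rfl
      push_cast at this
      exact this
    have f1 := (sc_fac ht b1).2.2
    have f2 := (cos_fac ht b2).2.2
    rw [mul_inv, norm_mul]
    have h0 : 0 ≤ 4 * Real.pi * (n * ‖t‖) := by have := Real.pi_pos; positivity
    calc _ ≤ Real.exp (4 * Real.pi * (n * ‖t‖)) * Real.exp (4 * Real.pi * (n * ‖t‖)) := by
          gcongr
      _ = Real.exp (4 * Real.pi * (n * ‖t‖) + 4 * Real.pi * (n * ‖t‖)) := (Real.exp_add _ _).symm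
      _ ≤ _ := Real.exp_le_exp.2 (by linarith)
  unfold exR
  rw [norm_mul, norm_prod]
  have hl' : l < n := by omega
  calc _ ≤ Real.exp (3 / 2 * Real.pi * (n ^ 2 * ‖t‖))
        * ∏ j ∈ range (k - l), Real.exp (4 * (4 * Real.pi * (n * ‖t‖))) := by
        apply mul_le_mul (exp_fac hl' hk t).2 _ (Finset.prod_nonneg (fun _ _ => norm_nonneg _))
          (Real.exp_pos _).le
        exact Finset.prod_le_prod (fun _ _ => norm_nonneg _) hfac
    _ ≤ _ := by
        rw [Finset.prod_const, Finset.card_range]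
        exact total_bound (by omega) t

lemma exL_bound {n k l : ℕ} (hl : l < n) (hk : k ≤ l) {t : ℂ} (ht : n * ‖t‖ ≤ 1 / 50) :
    ‖exL n k l t‖ ≤ Real.exp (55 * (n ^ 2 * ‖t‖)) := by
  have hfac : ∀ j ∈ range (l - k), ‖sc (((4 * Real.pi * (k + 1 + j) : ℝ) : ℂ) * t)
      * sc (((4 * Real.pi * (n - k - 1 - j) : ℝ) : ℂ) * t)
      * Complex.cos (((Real.pi * (4 * (k + j) + 1 - 2 * n) : ℝ) : ℂ) * t)
      * (sc (((4 * Real.pi * (j + 1) : ℝ) : ℂ) * t))⁻¹‖
      ≤ Real.exp (4 * (4 * Real.pi * (n * ‖t‖))) := by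
    intro j hj
    have hj' := Finset.mem_range.1 hj
    have b1 : |4 * Real.pi * ((j : ℝ) + 1)| ≤ 4 * Real.pi * n := by
      have := c1_bound (n := n) (j := j) (m := 0) (by omega)
      simpa using this
    have b0 : |4 * Real.pi * ((k : ℝ) + 1 + j)| ≤ 4 * Real.pi * n := by
      have := c1_bound (n := n) (j := j) (m := k) (by omega)
      rw [show (k : ℝ) + 1 + j = k + j + 1 by ring]
      exact this
    have b3 := c2_bound (n := n) (k := k) (j := j) (by omega)
    have b2 : |Real.pi * (4 * ((k : ℝ) + j) + 1 - 2 * n)| ≤ 4 * Real.pi * n := by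
      have := c3_bound (n := n) (m := k + j) (by omega) (c := 1) (by norm_num) (by norm_num)
      push_cast at this
      exact this
    have f1 := (sc_fac ht b1).2.2
    have f2 := (cos_fac ht b2).2.1
    have f3 := (sc_fac ht b3).2.1
    have f0 := (sc_fac ht b0).2.1
    rw [norm_mul, norm_mul, norm_mul]
    calc _ ≤ Real.exp (4 * Real.pi * (n * ‖t‖)) * Real.exp (4 * Real.pi * (n * ‖t‖))
          * Real.exp (4 * Real.pi * (n * ‖t‖)) * Real.exp (4 * Real.pi * (n * ‖t‖)) := by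
          gcongr
      _ = _ := by
          rw [← Real.exp_add, ← Real.exp_add, ← Real.exp_add]; congr 1; ring
  unfold exL
  rw [norm_mul, norm_prod]
  have hk' : k < n := by omega
  calc _ ≤ Real.exp (3 / 2 * Real.pi * (n ^ 2 * ‖t‖))
        * ∏ j ∈ range (l - k), Real.exp (4 * (4 * Real.pi * (n * ‖t‖))) := by
        apply mul_le_mul (exp_fac hk' hl t).1 _ (Finset.prod_nonneg (fun _ _ => norm_nonneg _))
          (Real.exp_pos _).le
        exact Finset.prod_le_prod (fun _ _ => norm_nonneg _) hfac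
    _ ≤ _ := by
        rw [Finset.prod_const, Finset.card_range]
        exact total_bound (by omega) t

lemma aR_nonneg (k l : ℕ) : 0 ≤ aR k l := by unfold aR; positivity

lemma aL_nonneg (n k l : ℕ) : 0 ≤ aL n k l := by unfold aL; split_ifs <;> positivity

lemma am_nonneg (n : ℕ) (x : Letter) (k l : Fin n) : 0 ≤ am n x k l := by
  cases x with
  | L => exact aL_nonneg _ _ _
  | R => exact aR_nonneg _ _
  | L' => exact le_rfl
  | R' => exact le_rfl

lemma fm_bound {n : ℕ} {t : ℂ} (ht : n * ‖t‖ ≤ 1 / 50) (x : Letter) (k l : Fin n) :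
    ‖fm n t x k l‖ ≤ am n x k l * Real.exp (55 * (n ^ 2 * ‖t‖)) := by
  have hk := k.2
  have hl := l.2
  cases x with
  | L =>
    show ‖(aL n k l : ℂ) * exL n k l t‖ ≤ aL n k l * _
    rw [norm_mul, Complex.norm_real, Real.norm_eq_abs, abs_of_nonneg (aL_nonneg _ _ _)]
    by_cases h : (k : ℕ) ≤ l
    · exact mul_le_mul_of_nonneg_left (exL_bound hl h ht) (aL_nonneg _ _ _)
    · have : aL n k l = 0 := if_neg h
      rw [this]; simp
  | R =>
    show ‖(aR k l : ℂ) * exR n k l t‖ ≤ aR k l * _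
    rw [norm_mul, Complex.norm_real, Real.norm_eq_abs, abs_of_nonneg (aR_nonneg _ _)]
    by_cases h : (l : ℕ) ≤ k
    · exact mul_le_mul_of_nonneg_left (exR_bound hk h ht) (aR_nonneg _ _)
    · have : aR k l = 0 := by
        unfold aR
        rw [Nat.choose_eq_zero_of_lt (by omega)]; simp
      rw [this]; simp
  | L' => show ‖(0 : ℂ)‖ ≤ 0 * _; simp
  | R' => show ‖(0 : ℂ)‖ ≤ 0 * _; simp

lemma prod_am_nonneg (n : ℕ) (w : List Letter) (k l : Fin n) : 0 ≤ (w.map (am n)).prod k l := by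
  induction w generalizing k with
  | nil =>
    rw [List.map_nil, List.prod_nil, Matrix.one_apply]
    split_ifs <;> norm_num
  | cons x w ih =>
    rw [List.map_cons, List.prod_cons, Matrix.mul_apply]
    exact Finset.sum_nonneg (fun j _ => mul_nonneg (am_nonneg n x k j) (ih j))

lemma prod_bound {n : ℕ} {t : ℂ} (ht : n * ‖t‖ ≤ 1 / 50) (w : List Letter) (k l : Fin n) :
    ‖(w.map (fm n t)).prod k l‖
      ≤ (w.map (am n)).prod k l * Real.exp (55 * (n ^ 2 * ‖t‖)) ^ w.length := by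
  induction w generalizing k with
  | nil =>
    rw [List.map_nil, List.prod_nil, List.map_nil, List.prod_nil, Matrix.one_apply,
      Matrix.one_apply]
    split_ifs <;> simp
  | cons x w ih =>
    rw [List.map_cons, List.prod_cons, List.map_cons, List.prod_cons, Matrix.mul_apply,
      Matrix.mul_apply, List.length_cons, pow_succ, Finset.sum_mul]
    refine (norm_sum_le _ _).trans (Finset.sum_le_sum ?_)
    intro j _
    rw [norm_mul]
    have h1 := fm_bound ht x k j
    have h2 := ih j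
    calc _ ≤ (am n x k j * Real.exp (55 * (n ^ 2 * ‖t‖)))
          * ((w.map (am n)).prod j l * Real.exp (55 * (n ^ 2 * ‖t‖)) ^ w.length) := by
          apply mul_le_mul h1 h2 (norm_nonneg _)
          exact mul_nonneg (am_nonneg n x k j) (Real.exp_pos _).le
      _ = _ := by ring

lemma ft_bound {n : ℕ} {t : ℂ} (ht : n * ‖t‖ ≤ 1 / 50) (w : List Letter) :
    ‖ft n w t‖ ≤ F0 n w * Real.exp (55 * w.length * (n ^ 2 * ‖t‖)) := by
  unfold ft F0 Matrix.trace
  rw [Finset.sum_mul]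
  refine (norm_sum_le _ _).trans (Finset.sum_le_sum ?_)
  intro j _
  have := prod_bound ht w j j
  rw [← Real.exp_nat_mul] at this
  rw [show 55 * (w.length : ℝ) * (n ^ 2 * ‖t‖) = w.length * (55 * (n ^ 2 * ‖t‖)) by ring]
  exact this

lemma fm_zero (n : ℕ) (x : Letter) : fm n 0 x = (am n x).map (fun r : ℝ => (r : ℂ)) := by
  ext k l
  cases x with
  | L =>
    show (aL n k l : ℂ) * exL n k l 0 = (aL n k l : ℂ)
    simp [exL, sc_zero]
  | R =>
    show (aR k l : ℂ) * exR n k l 0 = (aR k l : ℂ)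
    simp [exR, sc_zero]
  | L' => show (0 : ℂ) = ((0 : ℝ) : ℂ); simp
  | R' => show (0 : ℂ) = ((0 : ℝ) : ℂ); simp

lemma ft_zero (n : ℕ) (w : List Letter) : ft n w 0 = (F0 n w : ℂ) := by
  have h : (w.map (fm n 0)).prod = ((w.map (am n)).prod).map (fun r : ℝ => (r : ℂ)) := by
    induction w with
    | nil =>
      rw [List.map_nil, List.prod_nil, List.map_nil, List.prod_nil]
      ext i j
      rw [Matrix.map_apply, Matrix.one_apply, Matrix.one_apply]
      split_ifs <;> simp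
    | cons x w ih =>
      rw [List.map_cons, List.prod_cons, List.map_cons, List.prod_cons, ih, fm_zero]
      ext i j
      rw [Matrix.mul_apply, Matrix.map_apply, Matrix.mul_apply]
      simp
  unfold ft F0
  rw [h]
  unfold Matrix.trace
  simp

lemma fm_diff {n : ℕ} {ρ : ℝ} (hρ : n * ρ ≤ 1 / 50) (x : Letter) (k l : Fin n) :
    DifferentiableOn ℂ (fun t => fm n t x k l) (ball 0 ρ) := by
  have hk := k.2
  have hl := l.2
  have hball : ∀ t ∈ ball (0 : ℂ) ρ, n * ‖t‖ ≤ 1 / 50 := by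
    intro t ht
    rw [mem_ball_zero_iff] at ht
    have : (0 : ℝ) ≤ n := by positivity
    nlinarith
  have hsc : ∀ c : ℂ, Differentiable ℂ (fun t : ℂ => sc (c * t)) := by
    intro c
    exact sc_diff.comp (by fun_prop)
  cases x with
  | L =>
    show DifferentiableOn ℂ (fun t => (aL n k l : ℂ) * exL n k l t) (ball 0 ρ)
    by_cases h : (k : ℕ) ≤ l
    · unfold exL
      apply DifferentiableOn.const_mul
      apply DifferentiableOn.mul
      · exact (by fun_prop : Differentiable ℂ _).differentiableOn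
      · apply DifferentiableOn.fun_finsetProd
        intro j hj
        have hj' := Finset.mem_range.1 hj
        apply DifferentiableOn.mul
        · apply DifferentiableOn.mul
          · exact ((hsc _).mul (hsc _)).differentiableOn
          · exact (by fun_prop : Differentiable ℂ _).differentiableOn
        · apply DifferentiableOn.fun_inv (hsc _).differentiableOn
          intro t ht
          have b1 : |4 * Real.pi * ((j : ℝ) + 1)| ≤ 4 * Real.pi * n := by
            have := c1_bound (n := n) (j := j) (m := 0) (by omega)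
            simpa using this
          exact (sc_fac (hball t ht) b1).1
    · have : aL n k l = 0 := if_neg h
      rw [this]
      simp
  | R =>
    show DifferentiableOn ℂ (fun t => (aR k l : ℂ) * exR n k l t) (ball 0 ρ)
    by_cases h : (l : ℕ) ≤ k
    · unfold exR
      apply DifferentiableOn.const_mul
      apply DifferentiableOn.mul
      · exact (by fun_prop : Differentiable ℂ _).differentiableOn
      · apply DifferentiableOn.fun_finsetProd
        intro j hj
        have hj' := Finset.mem_range.1 hj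
        apply DifferentiableOn.fun_inv
        · apply DifferentiableOn.mul (hsc _).differentiableOn
          exact (by fun_prop : Differentiable ℂ _).differentiableOn
        · intro t ht
          have b1 : |4 * Real.pi * ((j : ℝ) + 1)| ≤ 4 * Real.pi * n := by
            have := c1_bound (n := n) (j := j) (m := 0) (by omega)
            simpa using this
          have b2 : |Real.pi * (4 * ((l : ℝ) + j) + 3 - 2 * n)| ≤ 4 * Real.pi * n := by
            have := c3_bound (n := n) (m := l + j) (by omega) (c := 3) (by norm_num) le_rfl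
            push_cast at this
            exact this
          exact mul_ne_zero (sc_fac (hball t ht) b1).1 (cos_fac (hball t ht) b2).1
    · have : aR k l = 0 := by
        unfold aR
        rw [Nat.choose_eq_zero_of_lt (by omega)]; simp
      rw [this]
      simp
  | L' => exact differentiableOn_const (0 : ℂ)
  | R' => exact differentiableOn_const (0 : ℂ)

lemma prod_diff {n : ℕ} {ρ : ℝ} (hρ : n * ρ ≤ 1 / 50) (w : List Letter) (k l : Fin n) :
    DifferentiableOn ℂ (fun t => (w.map (fm n t)).prod k l) (ball 0 ρ) := by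
  induction w generalizing k with
  | nil => exact differentiableOn_const _
  | cons x w ih =>
    have : (fun t => ((x :: w).map (fm n t)).prod k l)
        = fun t => ∑ j, fm n t x k j * (w.map (fm n t)).prod j l := by
      ext t
      rw [List.map_cons, List.prod_cons, Matrix.mul_apply]
    rw [this]
    apply DifferentiableOn.fun_sum
    intro j _
    exact (fm_diff hρ x k j).mul (ih j)

lemma ft_diff {n : ℕ} {ρ : ℝ} (hρ : n * ρ ≤ 1 / 50) (w : List Letter) :
    DifferentiableOn ℂ (ft n w) (ball 0 ρ) := by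
  have : ft n w = fun t => ∑ j, (w.map (fm n t)).prod j j := rfl
  rw [this]
  apply DifferentiableOn.fun_sum
  intro j _
  exact prod_diff hρ w j j

end

end Pool.Agent.H759.PTB
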