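import Pool.Agent.H759.PTB.Bar
import Pool.Agent.H759.PTB.Fam

/-!
Multipliers near one and the induction on the number of particles.
-/

namespace Pool.Agent.H759.PTB

open Finset MvPolynomial

noncomputable section

lemma hs_congr {X : Type*} [AddCommMonoid X] [TopologicalSpace X] {f g : ℕ → X} {a : X}
    (h : ∀ d, f d = g d) (hg : HasSum g a) : HasSum f a := by
  have : f = g := funext h
  rw [this]; exact hg

section particles

set_option linter.unusedSectionVars false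

variable {ι : Type} [DecidableEq ι]

lemma LF_pr_empty (F : (ℕ →₀ ℕ) → ℂ) (P : ι → MvPolynomial ℕ ℂ) (κ : ℕ →₀ ℕ) :
    LF F (pr P ∅ κ) = F κ := by
  unfold pr
  rw [Finset.prod_empty, mul_one, LF_monomial, one_mul]

variable (A : Set (ℕ →₀ ℕ)) (P : ι → MvPolynomial ℕ ℂ) (E : (ℕ →₀ ℕ) → ℂ) (m : ℕ)

/-- near-one multipliers -/
def Near (s : ℕ) (g : (ℕ →₀ ℕ) → ℂ) (δ : ℝ) : Prop :=
  Op A P E m s (fun ν => g ν - 1) (Real.exp δ - 1)

variable {A P E m}

lemma op_fun_congr {s : ℕ} {g g' : (ℕ →₀ ℕ) → ℂ} {γ : ℝ} (h : Op A P E m s g γ)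
    (hg : ∀ ν, g' ν = g ν) : Op A P E m s g' γ := by
  have : g' = g := funext hg
  rw [this]; exact h

lemma op_pointwise {s : ℕ} {g : (ℕ →₀ ℕ) → ℂ} {γ : ℝ} (h : Op A P E m s g γ) {r : ℕ} (hr : r ≤ m)
    {ν : ℕ →₀ ℕ} (hν : ν ∈ Adm A r) (hE : E ν ≠ 0) : ‖g ν‖ ≤ γ := by
  have h1 := h (fun _ => 1) 1 (by norm_num) (bd_one s) ∅ (by simp) r ν hν (by simpa using hr)
  rw [LF_pr_empty, LF_pr_empty] at h1
  simp only [mul_one] at h1
  rw [norm_mul, mul_comm] at h1
  exact le_of_mul_le_mul_right h1 (norm_pos_iff.2 hE)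

/-- power series of bounded multipliers, with a majorant -/
lemma op_series' {s : ℕ} {T g : (ℕ →₀ ℕ) → ℂ} {τ γ : ℝ} (hτ : 0 ≤ τ) (hT : Op A P E m s T τ)
    (hP : ∀ i, ∀ b ∈ (P i).support, b ∈ A) (c : ℕ → ℂ) (c' : ℕ → ℝ) (hcc : ∀ d, ‖c d‖ ≤ c' d)
    (hc : HasSum (fun d => c' d * τ ^ d) γ)
    (hg : ∀ r ≤ m, ∀ ν ∈ Adm A r, HasSum (fun d => c d * T ν ^ d) (g ν)) :
    Op A P E m s g γ := by
  have hle : ∀ d, ‖c d‖ * τ ^ d ≤ c' d * τ ^ d := fun d =>
    mul_le_mul_of_nonneg_right (hcc d) (by positivity)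
  have hsum : Summable (fun d => ‖c d‖ * τ ^ d) :=
    Summable.of_nonneg_of_le (fun d => by positivity) hle hc.summable
  have h1 := op_series hτ hT hP c hsum.hasSum hg
  apply op_mono h1
  exact hasSum_le hle hsum.hasSum hc

lemma near_mono {s : ℕ} {g : (ℕ →₀ ℕ) → ℂ} {δ δ' : ℝ} (h : Near A P E m s g δ) (hδ : δ ≤ δ') :
    Near A P E m s g δ' :=
  op_mono h (by have := Real.exp_le_exp.2 hδ; linarith)

lemma near_const_one (s : ℕ) : Near A P E m s (fun _ => 1) 0 := by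
  have h := op_const (A := A) (P := P) (E := E) (m := m) s (0 : ℂ)
  refine op_mono (op_fun_congr h (fun ν => by simp)) (by simp)

lemma near_mul {s : ℕ} {g g' : (ℕ →₀ ℕ) → ℂ} {δ δ' : ℝ} (h : Near A P E m s g δ)
    (h' : Near A P E m s g' δ') (hδ' : 0 ≤ δ') :
    Near A P E m s (fun ν => g ν * g' ν) (δ + δ') := by
  have h0 : 0 ≤ Real.exp δ' - 1 := by
    have := Real.add_one_le_exp δ'
    linarith
  have h1 := op_add (op_add (op_mul h h' h0) h) h'
  refine op_mono (op_fun_congr h1 (fun ν => by ring)) (le_of_eq ?_)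
  rw [Real.exp_add]; ring

lemma near_exp {s : ℕ} {T : (ℕ →₀ ℕ) → ℂ} {τ : ℝ} (hτ : 0 ≤ τ) (hT : Op A P E m s T τ)
    (hP : ∀ i, ∀ b ∈ (P i).support, b ∈ A) :
    Near A P E m s (fun ν => Complex.exp (T ν)) τ := by
  apply op_series' hτ hT hP (fun d => if d = 0 then 0 else ((d.factorial : ℂ))⁻¹)
    (fun d => if d = 0 then 0 else ((d.factorial : ℝ))⁻¹)
  · intro d
    split_ifs with h
    · simp
    · rw [norm_inv, Complex.norm_natCast]
  · have h1 : HasSum (fun d : ℕ => τ ^ d / d.factorial) (Real.exp τ) := by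
      rw [Real.exp_eq_exp_ℝ]
      exact NormedSpace.expSeries_div_hasSum_exp τ
    have h2 := h1.sub (hasSum_ite_eq 0 (1 : ℝ))
    refine hs_congr ?_ h2
    intro d
    split_ifs with h
    · rw [h]; simp
    · rw [sub_zero, mul_comm, div_eq_mul_inv]
  · intro r _ ν _
    have h1 : HasSum (fun d : ℕ => T ν ^ d / d.factorial) (Complex.exp (T ν)) := by
      rw [Complex.exp_eq_exp_ℂ]
      exact NormedSpace.expSeries_div_hasSum_exp (T ν)
    have h2 := h1.sub (hasSum_ite_eq 0 (1 : ℂ))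
    refine hs_congr ?_ h2
    intro d
    split_ifs with h
    · rw [h]; simp
    · rw [sub_zero, mul_comm, div_eq_mul_inv]

lemma near_cos {s : ℕ} {T : (ℕ →₀ ℕ) → ℂ} {τ : ℝ} (hτ : 0 ≤ τ) (hT : Op A P E m s T τ)
    (hP : ∀ i, ∀ b ∈ (P i).support, b ∈ A) :
    Near A P E m s (fun ν => Complex.cos (T ν)) τ := by
  have h1 : Op A P E m s (fun ν => Complex.I * T ν) τ := by
    have := op_mul (op_const (A := A) (P := P) (E := E) (m := m) s Complex.I) hT hτ
    exact op_mono this (by simp)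
  have h2 : Op A P E m s (fun ν => (-Complex.I) * T ν) τ := by
    have := op_mul (op_const (A := A) (P := P) (E := E) (m := m) s (-Complex.I)) hT hτ
    exact op_mono this (by simp)
  have h3 := near_exp hτ h1 hP
  have h4 := near_exp hτ h2 hP
  have h0 : 0 ≤ Real.exp τ - 1 := by
    have := Real.add_one_le_exp τ
    linarith
  have h5 := op_mul (op_const (A := A) (P := P) (E := E) (m := m) s (1 / 2 : ℂ)) (op_add h3 h4)
    (by linarith)
  refine op_mono (op_fun_congr h5 (fun ν => ?_)) (le_of_eq ?_)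
  · have e : Complex.cos (T ν) = (Complex.exp (T ν * Complex.I) + Complex.exp (-T ν * Complex.I)) / 2 :=
      rfl
    beta_reduce
    rw [e, show T ν * Complex.I = Complex.I * T ν by ring,
      show -T ν * Complex.I = -Complex.I * T ν by ring]
    ring
  · have : ‖(1 / 2 : ℂ)‖ = 1 / 2 := by norm_num
    rw [this]; ring

lemma sc_hasSum (z : ℂ) :
    HasSum (fun k : ℕ => (-1) ^ k / ((2 * k + 1).factorial : ℂ) * (z * z) ^ k) (sc z) := by
  by_cases hz : z = 0
  · rw [hz, sc_zero]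
    have h := hasSum_ite_eq 0 (1 : ℂ)
    refine hs_congr ?_ h
    intro k
    split_ifs with hk
    · rw [hk]; simp
    · rw [mul_zero, zero_pow hk, mul_zero]
  · have h := Complex.hasSum_sin z
    have h2 := h.div_const z
    have e : Complex.sin z / z = sc z := by
      rw [← sc_mul]; field_simp
    rw [e] at h2
    refine hs_congr ?_ h2
    intro k
    rw [← pow_two, ← pow_mul, pow_succ]
    field_simp

lemma near_sc {s : ℕ} {T : (ℕ →₀ ℕ) → ℂ} {τ : ℝ} (hτ : 0 ≤ τ) (hτ1 : τ ≤ 1)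
    (hT : Op A P E m s T τ) (hP : ∀ i, ∀ b ∈ (P i).support, b ∈ A) :
    Near A P E m s (fun ν => sc (T ν)) τ := by
  have hTT := op_mul hT hT hτ
  have h1 : Op A P E m s (fun ν => sc (T ν) - 1) (Real.exp (τ * τ) - 1) := by
    apply op_series' (by positivity) hTT hP
      (fun d => if d = 0 then 0 else (-1) ^ d / ((2 * d + 1).factorial : ℂ))
      (fun d => if d = 0 then 0 else ((d.factorial : ℝ))⁻¹)
    · intro d
      split_ifs with h
      · simp
      · rw [norm_div, norm_pow, norm_neg, norm_one, one_pow, Complex.norm_natCast, one_div]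
        have h2 : (d.factorial : ℝ) ≤ ((2 * d + 1).factorial : ℝ) := by
          exact_mod_cast Nat.factorial_le (by omega)
        have h3 : (0 : ℝ) < d.factorial := by exact_mod_cast Nat.factorial_pos d
        gcongr
    · have h1 : HasSum (fun d : ℕ => (τ * τ) ^ d / d.factorial) (Real.exp (τ * τ)) := by
        rw [Real.exp_eq_exp_ℝ]
        exact NormedSpace.expSeries_div_hasSum_exp (τ * τ)
      have h2 := h1.sub (hasSum_ite_eq 0 (1 : ℝ))
      refine hs_congr ?_ h2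
      intro d
      split_ifs with h
      · rw [h]; simp
      · rw [sub_zero, mul_comm, div_eq_mul_inv]
    · intro r _ ν _
      have h2 := (sc_hasSum (T ν)).sub (hasSum_ite_eq 0 (1 : ℂ))
      refine hs_congr ?_ h2
      intro d
      split_ifs with h
      · rw [h]; simp
      · rw [sub_zero]
  apply op_mono h1
  have : Real.exp (τ * τ) ≤ Real.exp τ := Real.exp_le_exp.2 (by nlinarith)
  linarith

lemma exp_quarter {δ : ℝ} (hδ0 : 0 ≤ δ) (hδ : δ ≤ 1 / 4) :
    Real.exp δ - 1 < 1 / 2 ∧ (1 - (Real.exp δ - 1))⁻¹ - 1 ≤ Real.exp (2 * δ) - 1 := by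
  have h1 : Real.exp δ ≤ 4 / 3 := by
    have h := Real.one_sub_le_exp_neg δ
    rw [Real.exp_neg] at h
    have hp := Real.exp_pos δ
    rw [le_inv_comm₀ (by linarith) hp] at h
    refine h.trans ?_
    rw [inv_le_comm₀ (by linarith) (by norm_num)]
    linarith
  have h2 : 1 ≤ Real.exp δ := Real.one_le_exp hδ0
  refine ⟨by linarith, ?_⟩
  have e : Real.exp (2 * δ) = Real.exp δ ^ 2 := by rw [← Real.exp_nat_mul]; norm_num
  rw [e]
  set x := Real.exp δ
  have h3 : (1 - (x - 1))⁻¹ ≤ x ^ 2 := by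
    rw [inv_le_iff_one_le_mul₀ (by linarith)]
    have : 0 ≤ (x - 1) * (1 + x - x ^ 2) := by
      apply mul_nonneg (by linarith)
      nlinarith
    nlinarith
  linarith

lemma near_inv {s : ℕ} {g : (ℕ →₀ ℕ) → ℂ} {δ : ℝ} (hδ0 : 0 ≤ δ) (hδ : δ ≤ 1 / 4)
    (h : Near A P E m s g δ) (hP : ∀ i, ∀ b ∈ (P i).support, b ∈ A)
    (hE : ∀ r ≤ m, ∀ ν ∈ Adm A r, E ν ≠ 0) :
    Near A P E m s (fun ν => (g ν)⁻¹) (2 * δ) := by
  obtain ⟨hγ, hb⟩ := exp_quarter hδ0 hδ
  set γ := Real.exp δ - 1 with hγd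
  have hγ0 : 0 ≤ γ := by
    have := Real.add_one_le_exp δ
    rw [hγd]; linarith
  have h1 : Op A P E m s (fun ν => (g ν)⁻¹ - 1) ((1 - γ)⁻¹ - 1) := by
    apply op_series' hγ0 h hP (fun d => if d = 0 then 0 else (-1) ^ d)
      (fun d => if d = 0 then 0 else 1)
    · intro d
      split_ifs with h
      · simp
      · rw [norm_pow, norm_neg, norm_one, one_pow]
    · have h2 := (hasSum_geometric_of_lt_one hγ0 (by linarith : γ < 1)).sub
        (hasSum_ite_eq 0 (1 : ℝ))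
      refine hs_congr ?_ h2
      intro d
      split_ifs with h
      · rw [h]; simp
      · rw [sub_zero, one_mul]
    · intro r hr ν hν
      have h3 := op_pointwise h hr hν (hE r hr ν hν)
      have h4 : ‖-(g ν - 1)‖ < 1 := by rw [norm_neg]; linarith
      have h2 := (hasSum_geometric_of_norm_lt_one h4).sub (hasSum_ite_eq 0 (1 : ℂ))
      have e : (1 - -(g ν - 1))⁻¹ - 1 = (g ν)⁻¹ - 1 := by
        congr 2; ring
      rw [e] at h2
      refine hs_congr ?_ h2
      intro d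
      split_ifs with h
      · rw [h]; simp
      · rw [sub_zero, neg_pow (g ν - 1)]
  exact op_mono h1 hb

/-- zero particles -/
lemma good_zero (hE : ∀ r ≤ m, ∀ ν ∈ Adm A r, E ν ≠ 0) (Λ : ℝ) : Good A P E m 0 Λ := by
  intro S hS r κ hκ hm
  have h0 : S = ∅ := by
    rw [← Finset.card_eq_zero]; omega
  subst h0
  rw [LF_pr_empty]
  refine ⟨hE r (by simpa using hm) κ hκ, ?_⟩
  intro i hi
  simp at hi

/-- one more particle -/
lemma good_step {s : ℕ} {Λ0 θ : ℝ} (hΛ0 : 1 ≤ Λ0) (hθ : θ ≤ 1 / (2 * Λ0))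
    (hP : ∀ i, ∀ b ∈ (P i).support, b ∈ A)
    (hQ : ∀ b ∈ A, ∃ Q : (ℕ →₀ ℕ) → ℂ, (∀ r < m, ∀ ν ∈ Adm A r, E (ν + b) = E ν * Q ν) ∧
      Bd A P E m s (fun ν => Q ν - 1) θ)
    (hN : ∀ i, 0 < ∑ b ∈ (P i).support, ‖coeff b (P i)‖ ∧
      ∑ b ∈ (P i).support, ‖coeff b (P i)‖ ≤ Λ0 * ‖∑ b ∈ (P i).support, coeff b (P i)‖)
    (hG : Good A P E m s (3 * Λ0)) : Good A P E m (s + 1) (3 * Λ0) := by
  intro S hS r κ hκ hm
  by_cases hcard : S.card ≤ s
  · exact hG S hcard r κ hκ hm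
  have hcard' : S.card = s + 1 := by omega
  have key : ∀ i ∈ S, LF E (pr P S κ) ≠ 0 ∧ ∑ b ∈ (P i).support,
      ‖coeff b (P i)‖ * ‖LF E (pr P (S.erase i) (κ + b))‖ ≤ 3 * Λ0 * ‖LF E (pr P S κ)‖ := by
    intro i hi
    have hce : (S.erase i).card = s := by rw [Finset.card_erase_of_mem hi]; omega
    have hrm : r < m := by omega
    set Z' := LF E (pr P (S.erase i) κ) with hZ'
    have hZ0 : Z' ≠ 0 := (hG (S.erase i) (by omega) r κ hκ (by omega)).1
    have hZpos : 0 < ‖Z'‖ := norm_pos_iff.2 hZ0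
    have hD : ∀ b ∈ (P i).support, ‖LF E (pr P (S.erase i) (κ + b)) - Z'‖ ≤ θ * ‖Z'‖ := by
      intro b hb
      obtain ⟨Q, hQ1, hQ2⟩ := hQ b (hP i b hb)
      have h1 : LF E (pr P (S.erase i) (κ + b))
          = LF (fun ν => E (ν + b)) (pr P (S.erase i) κ) := by
        rw [← LF_shift]
        unfold pr
        rw [← mul_assoc, monomial_mul, one_mul, add_comm b κ]
      have h2 : LF (fun ν => E (ν + b)) (pr P (S.erase i) κ)
          = LF (fun ν => E ν * (Q ν - 1)) (pr P (S.erase i) κ) + Z' := by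
        rw [hZ', ← LF_add]
        apply LF_congr
        intro ν hν
        have h3 := pr_support hP hκ hν
        rw [hQ1 _ (by omega) ν h3]
        ring
      rw [h1, h2, add_sub_cancel_right]
      exact hQ2 (S.erase i) (by omega) r κ hκ (by omega)
    obtain ⟨hN0, hN1⟩ := hN i
    set N := ∑ b ∈ (P i).support, ‖coeff b (P i)‖ with hNd
    have hsplit : LF E (pr P S κ) = (∑ b ∈ (P i).support, coeff b (P i)) * Z'
        + ∑ b ∈ (P i).support, coeff b (P i) * (LF E (pr P (S.erase i) (κ + b)) - Z') := by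
      rw [LF_remove E P hi κ, Finset.sum_mul, ← Finset.sum_add_distrib]
      exact Finset.sum_congr rfl (fun b _ => by ring)
    have hrest : ‖∑ b ∈ (P i).support, coeff b (P i) * (LF E (pr P (S.erase i) (κ + b)) - Z')‖
        ≤ N * (θ * ‖Z'‖) := by
      refine (norm_sum_le _ _).trans ?_
      rw [hNd, Finset.sum_mul]
      apply Finset.sum_le_sum
      intro b hb
      rw [norm_mul]
      exact mul_le_mul_of_nonneg_left (hD b hb) (norm_nonneg _)
    have hlow : N * ‖Z'‖ ≤ 2 * Λ0 * ‖LF E (pr P S κ)‖ := by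
      have h1 : ‖(∑ b ∈ (P i).support, coeff b (P i)) * Z'‖ - N * (θ * ‖Z'‖)
          ≤ ‖LF E (pr P S κ)‖ := by
        rw [hsplit]
        have := norm_sub_le ((∑ b ∈ (P i).support, coeff b (P i)) * Z'
          + ∑ b ∈ (P i).support, coeff b (P i) * (LF E (pr P (S.erase i) (κ + b)) - Z'))
          (∑ b ∈ (P i).support, coeff b (P i) * (LF E (pr P (S.erase i) (κ + b)) - Z'))
        rw [add_sub_cancel_right] at this
        linarith
      rw [norm_mul] at h1
      have h2 : Λ0 * (N * (θ * ‖Z'‖)) ≤ N * ‖Z'‖ / 2 := by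
        have h3 : Λ0 * θ ≤ 1 / 2 := by
          calc Λ0 * θ ≤ Λ0 * (1 / (2 * Λ0)) := by gcongr
            _ = 1 / 2 := by field_simp
        have h4 : 0 ≤ N * ‖Z'‖ := by positivity
        calc Λ0 * (N * (θ * ‖Z'‖)) = (Λ0 * θ) * (N * ‖Z'‖) := by ring
          _ ≤ 1 / 2 * (N * ‖Z'‖) := by gcongr
          _ = _ := by ring
      have h5 : N * ‖Z'‖ ≤ Λ0 * (‖∑ b ∈ (P i).support, coeff b (P i)‖ * ‖Z'‖) := by
        rw [← mul_assoc]
        gcongr
      have h6 : Λ0 * (‖∑ b ∈ (P i).support, coeff b (P i)‖ * ‖Z'‖ - N * (θ * ‖Z'‖))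
          ≤ Λ0 * ‖LF E (pr P S κ)‖ := by gcongr
      linarith
    have hpos : 0 < ‖LF E (pr P S κ)‖ := by
      have h1 : 0 < N * ‖Z'‖ := by positivity
      by_contra hcon
      push Not at hcon
      have : 2 * Λ0 * ‖LF E (pr P S κ)‖ ≤ 0 := by
        apply mul_nonpos_of_nonneg_of_nonpos (by positivity) hcon
      linarith
    refine ⟨norm_pos_iff.1 hpos, ?_⟩
    have hθ1 : θ ≤ 1 / 2 := by
      refine hθ.trans ?_
      rw [div_le_div_iff₀ (by positivity) (by norm_num)]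
      linarith
    calc ∑ b ∈ (P i).support, ‖coeff b (P i)‖ * ‖LF E (pr P (S.erase i) (κ + b))‖
        ≤ ∑ b ∈ (P i).support, ‖coeff b (P i)‖ * ((3 / 2) * ‖Z'‖) := by
          apply Finset.sum_le_sum
          intro b hb
          have h1 := hD b hb
          have h2 : ‖LF E (pr P (S.erase i) (κ + b))‖ ≤ ‖Z'‖ + θ * ‖Z'‖ := by
            have := norm_add_le (LF E (pr P (S.erase i) (κ + b)) - Z') Z'
            rw [sub_add_cancel] at this
            linarith
          have h3 : ‖LF E (pr P (S.erase i) (κ + b))‖ ≤ (3 / 2) * ‖Z'‖ := by nlinarith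
          gcongr
      _ = (3 / 2) * (N * ‖Z'‖) := by rw [← Finset.sum_mul, ← hNd]; ring
      _ ≤ (3 / 2) * (2 * Λ0 * ‖LF E (pr P S κ)‖) := by gcongr
      _ = _ := by ring
  obtain ⟨i0, hi0⟩ : S.Nonempty := by
    rw [← Finset.card_pos]; omega
  exact ⟨(key i0 hi0).1, fun i hi => (key i hi).2⟩

end particles

end

end Pool.Agent.H759.PTB
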