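import Pool.Agent.H759.PTB.Compo

/-!
Growth proportional to the number of syllables.
-/

namespace Pool.Agent.H759.PTB

open Finset Metric

noncomputable section

/-- the block `L^a R^b` -/
def bl (p : ℕ × ℕ) : List Letter := List.replicate p.1 Letter.L ++ List.replicate p.2 Letter.R

/-- the word `L^{a_1} R^{b_1} ⋯ L^{a_s} R^{b_s}` -/
def wd (l : List (ℕ × ℕ)) : List Letter := (l.map bl).flatten

lemma bl_mem {p : ℕ × ℕ} : ∀ x ∈ bl p, x = Letter.L ∨ x = Letter.R := by
  intro x hx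
  unfold bl at hx
  rcases List.mem_append.1 hx with h | h
  · exact Or.inl (List.eq_of_mem_replicate h)
  · exact Or.inr (List.eq_of_mem_replicate h)

lemma wd_mem {l : List (ℕ × ℕ)} : ∀ x ∈ wd l, x = Letter.L ∨ x = Letter.R := by
  intro x hx
  unfold wd at hx
  obtain ⟨b, hb, hxb⟩ := List.mem_flatten.1 hx
  obtain ⟨p, _, rfl⟩ := List.mem_map.1 hb
  exact bl_mem x hxb

lemma mt_R (b : ℕ) : mt (List.replicate b Letter.R) = ((1, 0), ((b : ℝ), 1)) := by
  induction b with
  | zero => simp [mt]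
  | succ b ih =>
    rw [List.replicate_succ]
    show ((mt (List.replicate b Letter.R)).1, _) = _
    rw [ih]
    simp only [Nat.cast_succ, add_comm, zero_add]

lemma mt_LR (a b : ℕ) : mt (bl (a, b)) = ((1 + (a : ℝ) * b, (a : ℝ)), ((b : ℝ), 1)) := by
  unfold bl
  induction a with
  | zero =>
    simp only [List.replicate_zero, List.nil_append, Nat.cast_zero, zero_mul, add_zero]
    exact mt_R b
  | succ a ih =>
    simp only [List.replicate_succ, List.cons_append]
    show (((mt (List.replicate a Letter.L ++ List.replicate b Letter.R)).1.1 + _, _), _) = _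
    simp only at ih
    rw [ih]
    simp only [Nat.cast_succ]
    congr 2
    ring

lemma Kw_bl {A : ℕ} {p : ℕ × ℕ} (h1 : 1 ≤ p.1) (h1' : p.1 ≤ A) (h2' : p.2 ≤ A) :
    Kw (bl p) ≤ 2 * (A : ℝ) ^ 2 := by
  obtain ⟨a, b⟩ := p
  simp only at h1 h1' h2'
  have hA : (1 : ℝ) ≤ A := by exact_mod_cast h1.trans h1'
  have ha : (a : ℝ) ≤ A := by exact_mod_cast h1'
  have hb : (b : ℝ) ≤ A := by exact_mod_cast h2'
  have ha0 : (0 : ℝ) ≤ a := by positivity
  have hb0 : (0 : ℝ) ≤ b := by positivity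
  unfold Kw
  rw [mt_LR]
  simp only
  have hAA : (1 : ℝ) ≤ A ^ 2 := by nlinarith
  have hab : (a : ℝ) * b ≤ A ^ 2 := by
    calc (a : ℝ) * b ≤ A * A := by gcongr
      _ = _ := by ring
  have hA2 : (A : ℝ) ≤ A ^ 2 := by nlinarith
  refine max_le (max_le ?_ ?_) (max_le ?_ ?_) <;> nlinarith

/-- the radius of the zero-free disc, times `n` -/
def rA (A : ℕ) : ℝ := 1 / (1440 * Real.pi * (12 * (2 * (A : ℝ) ^ 2) ^ 2) ^ 2 * (2 * A))

lemma rA_pos {A : ℕ} (hA : 1 ≤ A) : 0 < rA A := by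
  unfold rA
  have h2 : (0 : ℝ) < A := by exact_mod_cast hA
  have := Real.pi_pos
  positivity

lemma rA_eq (A : ℕ) : rA A = 1 / (6635520 * Real.pi * (A : ℝ) ^ 9) := by
  unfold rA
  congr 1
  ring

lemma rA_small {A : ℕ} (hA : 1 ≤ A) : 220 * (2 * (A : ℝ)) * rA A ≤ 1 / 100 ∧ rA A ≤ 1 / 50 := by
  have h1 : (1 : ℝ) ≤ A := by exact_mod_cast hA
  have h3 := Real.pi_gt_three
  have h4 : (A : ℝ) ≤ A ^ 9 := by
    calc (A : ℝ) = A ^ 1 := by ring
      _ ≤ A ^ 9 := pow_le_pow_right₀ h1 (by norm_num)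
  have h5 : 6635520 * 3 * (A : ℝ) ≤ 6635520 * Real.pi * (A : ℝ) ^ 9 := by
    have : (0 : ℝ) ≤ A := by linarith
    gcongr
  have h8 : rA A ≤ 1 / (6635520 * 3 * (A : ℝ)) := by
    rw [rA_eq]
    apply one_div_le_one_div_of_le (by positivity) h5
  constructor
  · calc 220 * (2 * (A : ℝ)) * rA A ≤ 220 * (2 * (A : ℝ)) * (1 / (6635520 * 3 * (A : ℝ))) := by
          gcongr
      _ = 440 / (6635520 * 3) := by field_simp; norm_num
      _ ≤ _ := by norm_num
  · refine h8.trans ?_
    apply one_div_le_one_div_of_le (by norm_num)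
    nlinarith

/-- the exponents are between `1` and `A` -/
def Bdd (A : ℕ) (l : List (ℕ × ℕ)) : Prop := ∀ p ∈ l, 1 ≤ p.1 ∧ p.1 ≤ A ∧ 1 ≤ p.2 ∧ p.2 ≤ A

lemma wd_length {A : ℕ} {l : List (ℕ × ℕ)} (h : Bdd A l) : (wd l).length ≤ 2 * A * l.length := by
  induction l with
  | nil => simp [wd]
  | cons p l ih =>
    have h1 := ih (fun q hq => h q (List.mem_cons_of_mem _ hq))
    obtain ⟨_, h2, _, h3⟩ := h p List.mem_cons_self
    have e : (wd (p :: l)).length = p.1 + p.2 + (wd l).length := by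
      unfold wd
      rw [List.map_cons, List.flatten_cons, List.length_append]
      unfold bl
      simp only [List.length_append, List.length_replicate]
    rw [e, List.length_cons]
    nlinarith

/-- **The family of traces has no zeros.** -/
theorem ft_ne' {n : ℕ} (hn : 1 ≤ n) {A : ℕ} {l : List (ℕ × ℕ)} (hl : l ≠ []) (h : Bdd A l) {t : ℂ}
    (ht : n * ‖t‖ ≤ rA A) : ft n (wd l) t ≠ 0 := by
  obtain ⟨m, rfl⟩ : ∃ m, n = m + 1 := ⟨n - 1, by omega⟩
  rw [ft_eq _ t wd_mem]
  apply trace_ne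
  obtain ⟨p, l', rfl⟩ := List.exists_cons_of_ne_nil hl
  unfold wd
  rw [List.map_cons]
  apply PP_blocks rfl
  intro c hc
  rw [← List.map_cons] at hc
  obtain ⟨q, hq, rfl⟩ := List.mem_map.1 hc
  obtain ⟨h1, h2, h3, h4⟩ := h q hq
  have hA : 1 ≤ A := h1.trans h2
  have hA' : (1 : ℝ) ≤ A := by exact_mod_cast hA
  refine ⟨bl_mem, ?_, ?_, ?_⟩
  · unfold bl
    exact List.mem_append.2 (Or.inl (List.mem_replicate.2 ⟨by omega, rfl⟩))
  · unfold bl
    exact List.mem_append.2 (Or.inr (List.mem_replicate.2 ⟨by omega, rfl⟩))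
  · have hK := Kw_bl h1 h2 h4
    have hK1 := Kw_ge (w := bl q) bl_mem
    have hlen : ((bl q).length : ℝ) ≤ 2 * A := by
      have : (bl q).length ≤ 2 * A := by
        unfold bl
        simp only [List.length_append, List.length_replicate]
        omega
      exact_mod_cast this
    have hD : 0 < 1440 * Real.pi * (12 * (2 * (A : ℝ) ^ 2) ^ 2) ^ 2 * (2 * A) := by
      have := Real.pi_pos
      positivity
    have hpi := Real.pi_pos
    have hK0 : 0 ≤ Kw (bl q) := by linarith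
    calc 1440 * Real.pi * (((m + 1 : ℕ) : ℝ) * ‖t‖) * (12 * Kw (bl q) ^ 2) ^ 2 * (bl q).length
        ≤ 1440 * Real.pi * (rA A) * (12 * (2 * (A : ℝ) ^ 2) ^ 2) ^ 2 * (2 * A) := by
          have h0 : 0 ≤ rA A := (rA_pos hA).le
          gcongr
      _ = 1 := by
          unfold rA
          field_simp

lemma sub_blocks {l : List (ℕ × ℕ)} {A : ℕ} (h : Bdd A l) :
    ((List.replicate l.length [Letter.L, Letter.R]).flatten).Sublist (wd l) := by
  induction l with
  | nil => simp [wd]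
  | cons p l ih =>
    obtain ⟨h1, _, h3, _⟩ := h p List.mem_cons_self
    rw [List.length_cons, List.replicate_succ, List.flatten_cons]
    have e : wd (p :: l) = bl p ++ wd l := by unfold wd; simp
    rw [e]
    refine List.Sublist.append ?_ (ih (fun q hq => h q (List.mem_cons_of_mem _ hq)))
    have e2 : [Letter.L, Letter.R] = [Letter.L] ++ [Letter.R] := rfl
    unfold bl
    rw [e2]
    refine List.Sublist.append ?_ ?_
    · rw [List.singleton_sublist]
      exact List.mem_replicate.2 ⟨by omega, rfl⟩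
    · rw [List.singleton_sublist]
      exact List.mem_replicate.2 ⟨by omega, rfl⟩

lemma corner {n : ℕ} (hn : 0 < n) (s : ℕ) : ((2 : ℝ) ^ (n - 1)) ^ s ≤
    ((((List.replicate s [Letter.L, Letter.R]).flatten).map (am n)).prod) ⟨0, hn⟩ ⟨0, hn⟩ := by
  induction s with
  | zero => simp
  | succ s ih =>
    rw [List.replicate_succ, List.flatten_cons, List.map_append, List.prod_append, pow_succ',
      Matrix.mul_apply]
    have h1 : ((2 : ℝ) ^ (n - 1)) = ([Letter.L, Letter.R].map (am n)).prod ⟨0, hn⟩ ⟨0, hn⟩ := by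
      rw [← sum_LR hn, List.map_cons, List.prod_cons, List.map_cons, List.prod_cons, List.map_nil,
        List.prod_nil, mul_one, Matrix.mul_apply]
    refine le_trans ?_ (Finset.single_le_sum
      (f := fun j => ([Letter.L, Letter.R].map (am n)).prod ⟨0, hn⟩ j *
        ((((List.replicate s [Letter.L, Letter.R]).flatten).map (am n)).prod) j ⟨0, hn⟩)
      (fun j _ => mul_nonneg (prod_am_nonneg n _ _ _) (prod_am_nonneg n _ _ _))
      (mem_univ (⟨0, hn⟩ : Fin n)))
    rw [← h1]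
    exact mul_le_mul_of_nonneg_left ih (by positivity)

lemma F0_ge' {n : ℕ} (hn : 0 < n) {A : ℕ} {l : List (ℕ × ℕ)} (h : Bdd A l) :
    ((2 : ℝ) ^ (n - 1)) ^ l.length ≤ F0 n (wd l) := by
  refine (corner hn l.length).trans ?_
  refine (prod_sublist n (sub_blocks h) wd_mem _ _).trans ?_
  unfold F0 Matrix.trace
  exact Finset.single_le_sum (f := fun k => ((wd l).map (am n)).prod k k)
    (fun k _ => prod_am_nonneg n _ _ _) (mem_univ (⟨0, hn⟩ : Fin n))

/-- lower bound of the family of traces on a disc of radius of order `1 / n` -/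
theorem ft_lower' {n : ℕ} (hn : 1 ≤ n) {A : ℕ} {l : List (ℕ × ℕ)} (hA : 1 ≤ A) (hl : l ≠ [])
    (h : Bdd A l) {t : ℂ} (ht : n * ‖t‖ ≤ rA A / 2) :
    ((2 : ℝ) ^ (n - 1)) ^ l.length * Real.exp (-(l.length * n / 200)) ≤ ‖ft n (wd l) t‖ := by
  have hρ := rA_pos hA
  have hn0 : (0 : ℝ) < n := by exact_mod_cast hn
  have hs : (0 : ℝ) < l.length := by exact_mod_cast List.length_pos_of_ne_nil hl
  have hF := F0_ge' (by omega : 0 < n) h
  have hF0 : 0 < F0 n (wd l) := lt_of_lt_of_le (by positivity) hF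
  have hR0 : 0 < rA A / n := by positivity
  obtain ⟨hsm, hsmall⟩ := rA_small hA
  have hlen : ((wd l).length : ℝ) ≤ 2 * A * l.length := by exact_mod_cast wd_length h
  set g : ℂ → ℂ := fun t => ft n (wd l) t / (F0 n (wd l) : ℂ) with hgdef
  have hball : ∀ z ∈ ball (0 : ℂ) (rA A / n), n * ‖z‖ < rA A := by
    intro z hz
    rw [mem_ball_zero_iff, lt_div_iff₀ hn0] at hz
    linarith
  have hg := lower_of_ne_zero (g := g) (R := rA A / n) (M := l.length * n / 400) hR0
    (by positivity) (by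
      apply DifferentiableOn.div_const
      apply ft_diff
      rw [mul_div_cancel₀ _ hn0.ne']
      exact hsmall) (by
      intro z hz
      have h1 := hball z hz
      have h2 := ft_bound (n := n) (t := z) (by linarith) (wd l)
      rw [hgdef]
      simp only
      rw [norm_div, Complex.norm_real, Real.norm_eq_abs, abs_of_pos hF0, div_le_iff₀ hF0, mul_comm]
      refine h2.trans ?_
      apply mul_le_mul_of_nonneg_left _ hF0.le
      apply Real.exp_le_exp.2
      calc 55 * ((wd l).length : ℝ) * (n ^ 2 * ‖z‖)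
          = 55 * ((wd l).length : ℝ) * (n * (n * ‖z‖)) := by ring
        _ ≤ 55 * (2 * A * l.length) * (n * rA A) := by gcongr
        _ = (220 * (2 * (A : ℝ)) * rA A) * (l.length * n) / 4 := by ring
        _ ≤ (1 / 100) * (l.length * n) / 4 := by gcongr
        _ = _ := by ring) (by
      rw [hgdef]
      simp only
      rw [ft_zero]
      exact div_self (by exact_mod_cast hF0.ne')) (by
      intro z hz
      have h1 := hball z hz
      apply div_ne_zero _ (by exact_mod_cast hF0.ne')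
      exact ft_ne' hn hl h h1.le) (z := t) (by
      rw [le_div_iff₀ (by norm_num), le_div_iff₀ hn0]
      linarith)
  have h1 : ‖ft n (wd l) t‖ = F0 n (wd l) * ‖g t‖ := by
    rw [hgdef]
    simp only
    rw [norm_div, Complex.norm_real, Real.norm_eq_abs, abs_of_pos hF0]
    field_simp
  rw [h1]
  have e : -(2 * (l.length * n / 400 : ℝ)) = -(l.length * n / 200) := by ring
  rw [e] at hg
  gcongr

lemma TV_exp' {n N : ℕ} (hn : 4 ≤ n) (hnN : n ≤ N) {A : ℕ} {l : List (ℕ × ℕ)} (hA : 1 ≤ A)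
    (hl : l ≠ []) (h : Bdd A l) (hN : 2 * (n : ℝ) ≤ rA A * (2 * N + 1)) :
    Real.exp (l.length * n) ≤ TV N (wd l) := by
  have hρ := rA_pos hA
  have hnd : ‖nd N‖ = 1 / (2 * N + 1) := by
    unfold nd
    rw [Complex.norm_real, Real.norm_eq_abs, abs_of_pos (by positivity)]
  have h1 : n * ‖nd N‖ ≤ rA A / 2 := by
    rw [hnd, mul_one_div, div_le_div_iff₀ (by positivity) (by norm_num)]
    linarith
  have h2 := ft_lower' (by omega : 1 ≤ n) hA hl h h1
  have hbN : N - n < N := by omega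
  have h3 := TV_ge hbN (wd l)
  rw [trace_rho_ft (by omega) wd_mem, show N - (N - n) = n by omega] at h3
  refine le_trans ?_ h3
  have h4 : (0 : ℝ) ≤ ((2 : ℝ) ^ (n - 1)) ^ l.length * Real.exp (-(l.length * n / 200)) := by
    positivity
  refine le_trans ?_ (pow_le_pow_left₀ h4 h2 2)
  have h8 : Real.exp ((n : ℝ) + n / 100) ≤ 4 ^ (n - 1) := by
    have h9 : Real.log 4 = 2 * Real.log 2 := by
      rw [show (4 : ℝ) = 2 ^ 2 by norm_num, Real.log_pow]; norm_num
    have h10 := Real.log_two_gt_d9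
    rw [← Real.exp_log (show (0 : ℝ) < 4 ^ (n - 1) by positivity), Real.log_pow]
    apply Real.exp_le_exp.2
    rw [h9, Nat.cast_sub (by omega)]
    have hn4 : (4 : ℝ) ≤ n := by exact_mod_cast hn
    push_cast
    nlinarith
  have e1 : (((2 : ℝ) ^ (n - 1)) ^ l.length * Real.exp (-(l.length * n / 200))) ^ 2
      = (4 ^ (n - 1)) ^ l.length * Real.exp (-(l.length * n / 100)) := by
    rw [mul_pow, ← Real.exp_nat_mul]
    congr 1
    · rw [show (4 : ℝ) = 2 ^ 2 by norm_num, ← pow_mul, ← pow_mul, ← pow_mul, ← pow_mul]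
      congr 1
      ring
    · congr 1
      push_cast
      ring
  rw [e1]
  calc Real.exp (l.length * n) = Real.exp ((n : ℝ) + n / 100) ^ l.length *
        Real.exp (-(l.length * n / 100)) := by
        rw [← Real.exp_nat_mul, ← Real.exp_add]; congr 1; ring
    _ ≤ (4 ^ (n - 1)) ^ l.length * Real.exp (-(l.length * n / 100)) := by gcongr

/-- **Growth proportional to the number of syllables.** -/
theorem coarse {A : ℕ} (hA : 1 ≤ A) {l : List (ℕ × ℕ)} (hl : l ≠ []) (h : Bdd A l) {N : ℕ}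
    (hN : 10 ^ 9 * A ^ 9 ≤ N) :
    Real.exp (l.length * (2 * N + 1) / (10 ^ 8 * A ^ 9)) ≤ TV N (wd l) := by
  have hρ := rA_pos hA
  have hs := (rA_small hA).2
  have hA' : (1 : ℝ) ≤ A := by exact_mod_cast hA
  have hpi := Real.pi_gt_three
  have hpi2 := Real.pi_lt_d2
  have hN' : (10 : ℝ) ^ 9 * A ^ 9 ≤ N := by exact_mod_cast hN
  have hAp : (0 : ℝ) < (A : ℝ) ^ 9 := by positivity
  have hr1 : 1 / (21 * 10 ^ 6 * (A : ℝ) ^ 9) ≤ rA A := by
    rw [rA_eq]
    apply one_div_le_one_div_of_le (by positivity)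
    have : 6635520 * Real.pi ≤ 21 * 10 ^ 6 := by nlinarith
    gcongr
  have hNr : 40 ≤ rA A * N := by
    calc (40 : ℝ) ≤ 1 / (21 * 10 ^ 6 * (A : ℝ) ^ 9) * (10 ^ 9 * A ^ 9) := by
          rw [one_div, ← div_eq_inv_mul]
          rw [mul_div_mul_right _ _ hAp.ne']
          norm_num
      _ ≤ rA A * N := by gcongr
  set n := ⌊rA A * (2 * N + 1) / 2⌋₊ with hn
  have hx0 : 0 ≤ rA A * (2 * (N : ℝ) + 1) / 2 := by positivity
  have h1 : (n : ℝ) ≤ rA A * (2 * N + 1) / 2 := Nat.floor_le hx0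
  have h2 : rA A * (2 * N + 1) / 2 < n + 1 := Nat.lt_floor_add_one _
  have h4 : 4 ≤ n := by
    have : (3 : ℝ) < n := by nlinarith
    have : 3 < n := by exact_mod_cast this
    omega
  have h5 : n ≤ N := by
    have hN1 : (1 : ℝ) ≤ N := by
      calc (1 : ℝ) ≤ 10 ^ 9 * A ^ 9 := by nlinarith [one_le_pow₀ hA' (n := 9)]
        _ ≤ N := hN'
    have : (n : ℝ) ≤ N := by
      calc (n : ℝ) ≤ rA A * (2 * N + 1) / 2 := h1
        _ ≤ 1 / 50 * (2 * N + 1) / 2 := by gcongr
        _ ≤ N := by linarith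
    exact_mod_cast this
  refine le_trans ?_ (TV_exp' h4 h5 hA hl h (by linarith))
  apply Real.exp_le_exp.2
  have h6 : (2 * (N : ℝ) + 1) / (10 ^ 8 * A ^ 9) ≤ n := by
    have h7 : (2 * (N : ℝ) + 1) * (1 / (21 * 10 ^ 6 * (A : ℝ) ^ 9)) ≤ rA A * (2 * N + 1) := by
      rw [mul_comm]
      gcongr
    have h8 : (2 * (N : ℝ) + 1) / (10 ^ 8 * A ^ 9)
        ≤ (2 * (N : ℝ) + 1) * (1 / (21 * 10 ^ 6 * (A : ℝ) ^ 9)) / 4 := by
      rw [mul_one_div, div_div]
      apply div_le_div_of_nonneg_left (by positivity) (by positivity)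
      nlinarith
    nlinarith
  have h9 : (l.length : ℝ) * (2 * (N : ℝ) + 1) / (10 ^ 8 * (A : ℝ) ^ 9)
      = l.length * ((2 * (N : ℝ) + 1) / (10 ^ 8 * (A : ℝ) ^ 9)) := by
    rw [mul_div_assoc]
  rw [h9]
  exact mul_le_mul_of_nonneg_left h6 (by positivity)

end

end Pool.Agent.H759.PTB
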