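import Mathlib

/-!
A triangular matrix commuting with a triangular matrix with distinct diagonal entries is
determined by its diagonal.
-/

namespace Pool.Agent.H759.PTB

open Finset

variable {n : ℕ}

lemma comm_strict (X D : Matrix (Fin n) (Fin n) ℂ) (hX : ∀ i j, i < j → X i j = 0)
    (hne : ∀ i j, i ≠ j → X i i ≠ X j j) (hD : ∀ i j, i ≤ j → D i j = 0)
    (hc : D * X = X * D) : D = 0 := by
  have key : ∀ m : ℕ, ∀ i j : Fin n, (i : ℕ) = j + m → D i j = 0 := by
    intro m
    induction m using Nat.strong_induction_on with
    | _ m ih =>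
      intro i j hij
      rcases Nat.eq_zero_or_pos m with rfl | hm
      · exact hD i j (by apply Fin.le_def.2; omega)
      · have h := congrFun (congrFun hc i) j
        rw [Matrix.mul_apply, Matrix.mul_apply] at h
        have h1 : ∑ k, D i k * X k j = D i j * X j j := by
          apply Finset.sum_eq_single j
          · intro k _ hk
            rcases lt_or_gt_of_ne hk with hlt | hgt
            · rw [hX k j hlt]; ring
            · by_cases hik : (i : ℕ) ≤ k
              · rw [hD i k (Fin.le_def.2 hik)]; ring
              · have := Fin.lt_def.1 hgt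
                rw [ih ((i : ℕ) - k) (by omega) i k (by omega)]; ring
          · intro h; exact absurd (mem_univ j) h
        have h2 : ∑ k, X i k * D k j = X i i * D i j := by
          apply Finset.sum_eq_single i
          · intro k _ hk
            rcases lt_or_gt_of_ne hk with hlt | hgt
            · by_cases hkj : (k : ℕ) ≤ j
              · rw [hD k j (Fin.le_def.2 hkj)]; ring
              · have := Fin.lt_def.1 hlt
                rw [ih ((k : ℕ) - j) (by omega) k j (by omega)]; ring
            · rw [hX i k hgt]; ring
          · intro h; exact absurd (mem_univ i) h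
        rw [h1, h2] at h
        have hij' : i ≠ j := by
          intro e; rw [e] at hij; omega
        have h3 : D i j * (X j j - X i i) = 0 := by rw [mul_sub, h]; ring
        rcases mul_eq_zero.1 h3 with h4 | h4
        · exact h4
        · exact absurd (sub_eq_zero.1 h4).symm (hne i j hij')
  ext i j
  rcases le_or_gt i j with h | h
  · exact hD i j h
  · have := Fin.lt_def.1 h
    exact key ((i : ℕ) - j) i j (by omega)

lemma tri_unique (X P Q : Matrix (Fin n) (Fin n) ℂ) (hX : ∀ i j, i < j → X i j = 0)
    (hne : ∀ i j, i ≠ j → X i i ≠ X j j) (hP : ∀ i j, i < j → P i j = 0)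
    (hQ : ∀ i j, i < j → Q i j = 0) (hd : ∀ i, P i i = Q i i)
    (hcP : P * X = X * P) (hcQ : Q * X = X * Q) : P = Q := by
  have := comm_strict X (P - Q) hX hne (fun i j hij => by
    rcases eq_or_lt_of_le hij with h | h
    · rw [h]; simp [hd]
    · simp [hP i j h, hQ i j h]) (by rw [sub_mul, mul_sub, hcP, hcQ])
  exact sub_eq_zero.1 this

lemma mul_lower (P Q : Matrix (Fin n) (Fin n) ℂ) (hP : ∀ i j, i < j → P i j = 0)
    (hQ : ∀ i j, i < j → Q i j = 0) :
    (∀ i j, i < j → (P * Q) i j = 0) ∧ ∀ i, (P * Q) i i = P i i * Q i i := by
  constructor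
  · intro i j hij
    rw [Matrix.mul_apply]
    apply Finset.sum_eq_zero
    intro k _
    rcases lt_or_ge i k with h | h
    · rw [hP i k h]; ring
    · rw [hQ k j (lt_of_le_of_lt h hij)]; ring
  · intro i
    rw [Matrix.mul_apply]
    apply Finset.sum_eq_single i
    · intro k _ hk
      rcases lt_or_gt_of_ne hk with h | h
      · rw [hQ k i h]; ring
      · rw [hP i k h]; ring
    · intro h; exact absurd (mem_univ i) h

lemma aeval_lower (X : Matrix (Fin n) (Fin n) ℂ) (hX : ∀ i j, i < j → X i j = 0)
    (p : Polynomial ℂ) :
    (∀ i j, i < j → (Polynomial.aeval X p) i j = 0) ∧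
      ∀ i, (Polynomial.aeval X p) i i = p.eval (X i i) := by
  induction p using Polynomial.induction_on with
  | C a =>
    simp only [Polynomial.aeval_C, Polynomial.eval_C, Matrix.algebraMap_matrix_apply]
    constructor
    · intro i j hij
      rw [if_neg (ne_of_lt hij)]
    · intro i; simp
  | add p q hp hq =>
    simp only [map_add, Matrix.add_apply, Polynomial.eval_add]
    constructor
    · intro i j hij
      rw [hp.1 i j hij, hq.1 i j hij]; ring
    · intro i; rw [hp.2, hq.2]
  | monomial k a ih =>
    have e : Polynomial.aeval X (Polynomial.C a * Polynomial.X ^ (k + 1))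
        = Polynomial.aeval X (Polynomial.C a * Polynomial.X ^ k) * X := by
      rw [pow_succ, ← mul_assoc, map_mul, Polynomial.aeval_X]
    have h := mul_lower _ X ih.1 hX
    rw [e]
    refine ⟨h.1, fun i => ?_⟩
    rw [h.2, ih.2]
    simp only [Polynomial.eval_mul, Polynomial.eval_C, Polynomial.eval_pow, Polynomial.eval_X]
    ring

/-- A lower triangular matrix commuting with a lower triangular `X` with distinct diagonal
entries is the interpolating polynomial in `X`. -/
lemma eq_aeval (X P : Matrix (Fin n) (Fin n) ℂ) (hX : ∀ i j, i < j → X i j = 0)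
    (hne : ∀ i j, i ≠ j → X i i ≠ X j j) (hP : ∀ i j, i < j → P i j = 0)
    (hcP : P * X = X * P) (om μ : Fin n → ℂ) (hom : ∀ i, X i i = om i) (hmu : ∀ i, P i i = μ i) :
    P = Polynomial.aeval X (Lagrange.interpolate univ om μ) := by
  have h := aeval_lower X hX (Lagrange.interpolate univ om μ)
  apply tri_unique X _ _ hX hne hP h.1 _ hcP
  · have e : Polynomial.aeval X (Lagrange.interpolate univ om μ) * X
      = Polynomial.aeval X (Lagrange.interpolate univ om μ * Polynomial.X) := by
      rw [map_mul, Polynomial.aeval_X]
    have e' : X * Polynomial.aeval X (Lagrange.interpolate univ om μ)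
      = Polynomial.aeval X (Polynomial.X * Lagrange.interpolate univ om μ) := by
      rw [map_mul, Polynomial.aeval_X]
    rw [e, e', mul_comm]
  · intro i
    rw [h.2, hom, hmu]
    rw [Lagrange.eval_interpolate_at_node _ _ (mem_univ i)]
    intro a _ b _ hab
    by_contra hab'
    apply hne a b hab'
    rw [hom, hom, hab]

/-- Polynomial functions respect intertwining. -/
lemma aeval_intertwine (X Y G : Matrix (Fin n) (Fin n) ℂ) (h : G * X = Y * G)
    (p : Polynomial ℂ) : G * Polynomial.aeval X p = Polynomial.aeval Y p * G := by
  induction p using Polynomial.induction_on with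
  | C a =>
    simp only [Polynomial.aeval_C]
    rw [Algebra.commutes]
  | add p q hp hq => rw [map_add, map_add, mul_add, add_mul, hp, hq]
  | monomial k a ih =>
    rw [pow_succ, ← mul_assoc, map_mul (Polynomial.aeval X) _ Polynomial.X,
      map_mul (Polynomial.aeval Y) _ Polynomial.X, Polynomial.aeval_X, Polynomial.aeval_X,
      ← mul_assoc, ih, mul_assoc, h, mul_assoc]

lemma aeval_diagonal (om μ : Fin n → ℂ) (hne : Function.Injective om) :
    Polynomial.aeval (Matrix.diagonal om) (Lagrange.interpolate univ om μ)
      = Matrix.diagonal μ := by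
  symm
  apply eq_aeval
  · intro i j hij; exact Matrix.diagonal_apply_ne _ (ne_of_lt hij)
  · intro i j hij; simp only [Matrix.diagonal_apply_eq]; exact fun h => hij (hne h)
  · intro i j hij; exact Matrix.diagonal_apply_ne _ (ne_of_lt hij)
  · rw [Matrix.diagonal_mul_diagonal, Matrix.diagonal_mul_diagonal]
    congr 1; ext i; ring
  · intro i; simp
  · intro i; simp

lemma aeval_transpose (X : Matrix (Fin n) (Fin n) ℂ) (p : Polynomial ℂ) :
    Polynomial.aeval X.transpose p = (Polynomial.aeval X p).transpose := by
  induction p using Polynomial.induction_on with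
  | C a =>
    simp only [Polynomial.aeval_C]
    ext i j
    simp only [Matrix.transpose_apply, Matrix.algebraMap_matrix_apply]
    by_cases h : i = j
    · subst h; rfl
    · rw [if_neg h, if_neg (Ne.symm h)]
  | add p q hp hq => rw [map_add, map_add, Matrix.transpose_add, hp, hq]
  | monomial k a ih =>
    have e : Polynomial.aeval X (Polynomial.C a * Polynomial.X ^ (k + 1))
        = X * Polynomial.aeval X (Polynomial.C a * Polynomial.X ^ k) := by
      rw [pow_succ, ← mul_assoc, mul_comm, map_mul, Polynomial.aeval_X]
    rw [e, Matrix.transpose_mul, ← ih, pow_succ, ← mul_assoc, map_mul, Polynomial.aeval_X]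

end Pool.Agent.H759.PTB
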