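import Pool.Agent.H759.PTB.Full

/-!
Symbols without zeros can be composed.
-/

namespace Pool.Agent.H759.PTB

open Finset Polynomial

noncomputable section

/-- product -/
def mm (m : ℕ) (A B : ℕ → ℕ → ℂ) (k l : ℕ) : ℂ := ∑ i ∈ range (m + 1), A k i * B i l

lemma rwp_mm (m : ℕ) (A B : ℕ → ℕ → ℂ) (k : ℕ) :
    rwp m (mm m A B) k = ∑ i ∈ range (m + 1), C (A k i) * rwp m B i := by
  unfold rwp mm
  simp only [map_sum, Finset.sum_mul, Finset.mul_sum, map_mul]
  rw [Finset.sum_comm]
  refine Finset.sum_congr rfl fun i _ => Finset.sum_congr rfl fun l _ => ?_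
  ring

lemma rwp_coeff (m : ℕ) (A : ℕ → ℕ → ℂ) (k : ℕ) {i : ℕ} (hi : i ≤ m) :
    (rwp m A k).coeff i = A k i := by
  unfold rwp
  rw [finsetSum_coeff]
  simp only [coeff_C_mul, coeff_X_pow]
  rw [Finset.sum_eq_single i]
  · simp
  · intro l _ hl
    rw [if_neg (Ne.symm hl), mul_zero]
  · intro h
    exact absurd (Finset.mem_range.2 (by omega)) h

lemma sy_coeff (m : ℕ) (A : ℕ → ℕ → ℂ) (l : List (ℂ × ℂ)) {i : ℕ} (hi : i ≤ m) :
    (sy m A l).coeff i = ∑ k ∈ range (m + 1), (cf l).coeff k * A k i := by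
  unfold sy
  rw [finsetSum_coeff]
  refine Finset.sum_congr rfl fun k _ => ?_
  rw [coeff_C_mul, rwp_coeff m A k hi]

lemma sy_mm (m : ℕ) (A B : ℕ → ℕ → ℂ) (l : List (ℂ × ℂ)) :
    sy m (mm m A B) l = ∑ i ∈ range (m + 1), C ((sy m A l).coeff i) * rwp m B i := by
  have h1 : sy m (mm m A B) l = ∑ k ∈ range (m + 1), ∑ i ∈ range (m + 1),
      C ((cf l).coeff k * A k i) * rwp m B i := by
    unfold sy
    refine Finset.sum_congr rfl fun k _ => ?_
    rw [rwp_mm, Finset.mul_sum]
    refine Finset.sum_congr rfl fun i _ => ?_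
    rw [map_mul, mul_assoc]
  rw [h1, Finset.sum_comm]
  refine Finset.sum_congr rfl fun i hi => ?_
  have := Finset.mem_range.1 hi
  rw [sy_coeff m A l (by omega), map_sum, Finset.sum_mul]

lemma factor (m : ℕ) : ∀ p : ℂ[X], p.natDegree ≤ m → (∀ z : ℂ, 0 ≤ z.re → p.eval z ≠ 0) →
    ∃ c : ℂ, c ≠ 0 ∧ ∃ l : List (ℂ × ℂ), l.length = m ∧ (∀ u ∈ l, Rp u) ∧ p = C c * cf l := by
  induction m with
  | zero =>
    intro p hp hne
    have h1 := eq_C_of_natDegree_le_zero hp
    refine ⟨p.coeff 0, ?_, [], rfl, by simp, ?_⟩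
    · intro h0
      apply hne 0 (by simp)
      rw [h1, h0]
      simp
    · rw [← h1]
      simp [cf]
  | succ m ih =>
    intro p hp hne
    by_cases hd : p.natDegree ≤ m
    · obtain ⟨c, hc, l, hl, hR, hpl⟩ := ih p hd hne
      refine ⟨c, hc, (1, 0) :: l, by rw [List.length_cons, hl], ?_, ?_⟩
      · intro u hu
        rcases List.mem_cons.1 hu with rfl | hu
        · exact Or.inr ⟨rfl, by simp⟩
        · exact hR u hu
      · rw [hpl]
        simp [cf]
    · have hdeg : p.natDegree = m + 1 := by omega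
      have hp0 : p ≠ 0 := by
        rintro rfl
        simp at hdeg
      have hdeg' : p.degree ≠ 0 := by
        rw [degree_eq_natDegree hp0, hdeg]
        exact_mod_cast Nat.succ_ne_zero m
      obtain ⟨ζ, hζ⟩ := IsAlgClosed.exists_root p hdeg'
      obtain ⟨q, hq⟩ := dvd_iff_isRoot.2 hζ
      have hre : ζ.re < 0 := by
        by_contra hcon
        push Not at hcon
        exact hne ζ hcon hζ
      have hζ0 : ζ ≠ 0 := by
        rintro rfl
        simp at hre
      have hq0 : q ≠ 0 := by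
        rintro rfl
        rw [mul_zero] at hq
        exact hp0 hq
      have hqd : q.natDegree ≤ m := by
        have h2 := natDegree_mul (X_sub_C_ne_zero ζ) hq0
        rw [← hq, natDegree_X_sub_C, hdeg] at h2
        omega
      obtain ⟨c, hc, l, hl, hR, hql⟩ := ih q hqd (by
        intro z hz h0
        apply hne z hz
        rw [hq, eval_mul, h0, mul_zero])
      refine ⟨-ζ * c, mul_ne_zero (neg_ne_zero.2 hζ0) hc, (1, -ζ⁻¹) :: l,
        by rw [List.length_cons, hl], ?_, ?_⟩
      · intro u hu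
        rcases List.mem_cons.1 hu with rfl | hu
        · refine Or.inr ⟨rfl, ?_⟩
          simp only
          rw [Complex.neg_re, Complex.inv_re]
          have h3 : 0 < Complex.normSq ζ := Complex.normSq_pos.2 hζ0
          have := div_neg_of_neg_of_pos hre h3
          linarith
        · exact hR u hu
      · have h4 : cf ((1, -ζ⁻¹) :: l) = (C 1 + C (-ζ⁻¹) * X) * cf l := by
          unfold cf
          rw [List.map_cons, List.prod_cons]
        have h5 : (C (-ζ) * (C 1 + C (-ζ⁻¹) * X) : ℂ[X]) = X - C ζ := by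
          have h6 : (C (-ζ) * C (-ζ⁻¹) : ℂ[X]) = 1 := by
            rw [← C_mul, neg_mul_neg, mul_inv_cancel₀ hζ0, C_1]
          calc (C (-ζ) * (C 1 + C (-ζ⁻¹) * X) : ℂ[X])
              = C (-ζ) * C 1 + (C (-ζ) * C (-ζ⁻¹)) * X := by ring
            _ = _ := by rw [h6, C_1, mul_one, one_mul, C_neg]; ring
        rw [h4, hq, hql, ← h5, C_mul]
        ring

/-- **Composition.** -/
theorem PP_mm {m : ℕ} {A B : ℕ → ℕ → ℂ} (hA : PP m A) (hB : PP m B) : PP m (mm m A B) := by
  intro l hl hR z hz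
  obtain ⟨c, hc, l', hl', hR', hp⟩ := factor m (sy m A l) (sy_natDegree m A l)
    (fun z hz => hA l hl hR z hz)
  have h1 : sy m (mm m A B) l = C c * sy m B l' := by
    rw [sy_mm, hp]
    unfold sy
    rw [Finset.mul_sum]
    refine Finset.sum_congr rfl fun i _ => ?_
    rw [coeff_C_mul, map_mul, mul_assoc]
  rw [h1, eval_mul, eval_C]
  exact mul_ne_zero hc (hB l' hl' hR' z hz)

lemma PP_congr {m : ℕ} {A B : ℕ → ℕ → ℂ} (h : ∀ k ≤ m, ∀ l ≤ m, A k l = B k l) (hB : PP m B) :
    PP m A := by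
  intro l hl hR z hz
  have h1 : sy m A l = sy m B l := by
    unfold sy rwp
    refine Finset.sum_congr rfl fun k hk => ?_
    congr 1
    refine Finset.sum_congr rfl fun j hj => ?_
    rw [h k (by have := Finset.mem_range.1 hk; omega) j (by have := Finset.mem_range.1 hj; omega)]
  rw [h1]
  exact hB l hl hR z hz

lemma Mt_cons (n : ℕ) (t : ℂ) (x : Letter) (w : List Letter) (k l : ℕ) :
    Mt n t (x :: w) k l = ∑ j ∈ range n, ((ax n x k j : ℂ) * exx n t x k j) * Mt n t w j l := rfl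

lemma Mt_append (n : ℕ) (t : ℂ) (w₁ w₂ : List Letter) : ∀ k < n, ∀ l : ℕ,
    Mt n t (w₁ ++ w₂) k l = ∑ j ∈ range n, Mt n t w₁ k j * Mt n t w₂ j l := by
  induction w₁ with
  | nil =>
    intro k hk l
    rw [List.nil_append, Finset.sum_eq_single k]
    · simp [Mt]
    · intro j _ hj
      simp [Mt, Ne.symm hj]
    · intro h
      exact absurd (Finset.mem_range.2 hk) h
  | cons x w ih =>
    intro k _ l
    rw [List.cons_append, Mt_cons,
      Finset.sum_congr rfl (fun i hi => by rw [ih i (Finset.mem_range.1 hi) l])]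
    simp only [Mt_cons, Finset.mul_sum, Finset.sum_mul]
    rw [Finset.sum_comm]
    refine Finset.sum_congr rfl fun j _ => Finset.sum_congr rfl fun i _ => ?_
    ring

/-- the symbol of a word has no zeros -/
lemma PP_word {n m : ℕ} (hn : n = m + 1) {w : List Letter}
    (hw : ∀ x ∈ w, x = Letter.L ∨ x = Letter.R)
    (hL : Letter.L ∈ w) (hR : Letter.R ∈ w) {t : ℂ}
    (ht : 1440 * Real.pi * (n * ‖t‖) * (12 * Kw w ^ 2) ^ 2 * w.length ≤ 1) :
    PP m (Mt n t w) := by
  subst hn
  intro l hl hRp z hz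
  rw [sy_eq z rfl t hw hl]
  have hK : 1 ≤ Kw w := by
    obtain ⟨⟨h1, _⟩, _⟩ := mt_pos hw
    exact h1.trans ((le_max_left _ _).trans (le_max_left _ _))
  have hG := good_all (ι := Fin l.length) (P := fun i => Pu z w l[i.1]) (w := w) (n := m + 1)
    (m := m) rfl (t := t) (Λ0 := 12 * Kw w ^ 2) (by nlinarith)
    (fun i => Pu_supp z hw l[i.1])
    (fun i => Pu_N hw hL hR hz (hRp _ (List.getElem_mem _)))
    (List.length_pos_of_mem hL) ht m
  have h1 := (hG univ (by rw [Finset.card_univ, Fintype.card_fin, hl]) 0 0 rfl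
    (by rw [Finset.card_univ, Fintype.card_fin, hl, add_zero])).1
  have h2 : pr (fun i : Fin l.length => Pu z w l[i.1]) univ 0 = (l.map (Pu z w)).prod := by
    unfold pr
    rw [show (MvPolynomial.monomial 0 (1 : ℂ) : MvPolynomial ℕ ℂ) = 1 from rfl, one_mul]
    exact Fin.prod_univ_fun_getElem l (Pu z w)
  rwa [h2] at h1

/-- the symbol of a product of blocks has no zeros -/
lemma PP_blocks {n m : ℕ} (hn : n = m + 1) {t : ℂ} (b : List Letter) (bs : List (List Letter))
    (h : ∀ c ∈ b :: bs, (∀ x ∈ c, x = Letter.L ∨ x = Letter.R) ∧ Letter.L ∈ c ∧ Letter.R ∈ c ∧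
      1440 * Real.pi * (n * ‖t‖) * (12 * Kw c ^ 2) ^ 2 * c.length ≤ 1) :
    PP m (Mt n t (b :: bs).flatten) := by
  induction bs generalizing b with
  | nil =>
    obtain ⟨h1, h2, h3, h4⟩ := h b List.mem_cons_self
    simpa using PP_word hn h1 h2 h3 h4
  | cons c bs ih =>
    obtain ⟨h1, h2, h3, h4⟩ := h b List.mem_cons_self
    have h5 := ih c (fun d hd => h d (List.mem_cons_of_mem _ hd))
    have h6 := PP_mm (PP_word hn h1 h2 h3 h4) h5
    refine PP_congr ?_ h6
    intro k hk l _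
    rw [List.flatten_cons, Mt_append n t b _ k (by omega) l]
    unfold mm
    rw [hn]

end

end Pool.Agent.H759.PTB
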