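import Mathlib

/-!
Small values of analytic functions at reciprocals of integers.
-/

namespace Pool.Agent.H759.PTB

open Finset Metric

noncomputable section

/-- An analytic function with many zeros near the origin is small at the origin. -/
lemma zeros_bound {ρ ρ1 R : ℝ} (h01 : ρ < ρ1) (hR : 0 ≤ R) (hRρ : R < ρ) (τ : ℕ → ℂ)
    (hτ : Function.Injective τ) (S : Finset ℕ) :
    ∀ (G : ℂ → ℂ) (B : ℝ), DifferentiableOn ℂ G (ball 0 ρ1) →
      (∀ z, ‖z‖ ≤ ρ → ‖G z‖ ≤ B) → (∀ s ∈ S, ‖τ s‖ ≤ R ∧ G (τ s) = 0) →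
      ‖G 0‖ ≤ B * (R / (ρ - R)) ^ S.card := by
  classical
  induction S using Finset.induction_on with
  | empty =>
    intro G B _ hB _
    simpa using hB 0 (by simp; linarith)
  | insert s T hs ih =>
    intro G B hG hB hS
    obtain ⟨hs1, hs2⟩ := hS s (mem_insert_self s T)
    have hmem : ball (0 : ℂ) ρ1 ∈ nhds (τ s) := by
      apply isOpen_ball.mem_nhds
      rw [mem_ball_zero_iff]
      linarith
    have hd : DifferentiableOn ℂ (dslope G (τ s)) (ball 0 ρ1) :=
      (Complex.differentiableOn_dslope hmem).2 hG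
    have hcl : closure (ball (0 : ℂ) ρ) = closedBall 0 ρ := closure_ball 0 (by linarith)
    have hsub : closedBall (0 : ℂ) ρ ⊆ ball 0 ρ1 := closedBall_subset_ball h01
    have hdc : DiffContOnCl ℂ (dslope G (τ s)) (ball 0 ρ) := by
      apply DifferentiableOn.diffContOnCl
      rw [hcl]
      exact hd.mono hsub
    have hb : ∀ z, ‖z‖ ≤ ρ → ‖dslope G (τ s) z‖ ≤ B / (ρ - R) := by
      intro z hz
      apply Complex.norm_le_of_forall_mem_frontier_norm_le isBounded_ball hdc
      · intro y hy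
        rw [frontier_ball (0 : ℂ) (by linarith : ρ ≠ 0)] at hy
        rw [mem_sphere_zero_iff_norm] at hy
        have hne : y ≠ τ s := by
          intro h
          rw [h] at hy
          linarith
        have hd2 : ρ - R ≤ ‖y - τ s‖ := by
          have := norm_sub_norm_le y (τ s)
          linarith
        have hpos : 0 < ρ - R := by linarith
        rw [dslope_of_ne _ hne, slope_def_field, norm_div, hs2, sub_zero]
        have hBy := hB y hy.le
        have hB0 : 0 ≤ B := (norm_nonneg _).trans hBy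
        gcongr
      · rw [hcl, mem_closedBall_zero_iff]
        exact hz
    have h1 := ih (dslope G (τ s)) (B / (ρ - R)) hd hb (by
      intro t ht
      obtain ⟨ht1, ht2⟩ := hS t (mem_insert_of_mem ht)
      refine ⟨ht1, ?_⟩
      have hne : τ t ≠ τ s := by
        intro h
        exact hs (hτ h ▸ ht)
      rw [dslope_of_ne _ hne, slope_def_field, ht2, hs2, sub_zero, zero_div])
    have h2 : G 0 = (0 - τ s) * dslope G (τ s) 0 := by
      have := sub_smul_dslope G (τ s) 0
      rw [smul_eq_mul, hs2, sub_zero] at this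
      exact this.symm
    rw [h2, norm_mul, zero_sub, norm_neg, card_insert_of_notMem hs, pow_succ]
    have hpos : 0 < ρ - R := by linarith
    have hB0 : 0 ≤ B := (norm_nonneg _).trans (hB 0 (by simp; linarith))
    calc ‖τ s‖ * ‖dslope G (τ s) 0‖ ≤ R * (B / (ρ - R) * (R / (ρ - R)) ^ T.card) := by gcongr
      _ = _ := by field_simp

/-- The interpolation polynomial of `g`. -/
def ip (τ : ℕ → ℂ) (S : Finset ℕ) (g : ℂ → ℂ) (z : ℂ) : ℂ :=
  ∑ s ∈ S, g (τ s) * ∏ t ∈ S.erase s, ((z - τ t) / (τ s - τ t))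

lemma ip_eq (τ : ℕ → ℂ) (hτ : Function.Injective τ) (S : Finset ℕ) (g : ℂ → ℂ) {a : ℕ}
    (ha : a ∈ S) : ip τ S g (τ a) = g (τ a) := by
  unfold ip
  rw [Finset.sum_eq_single a]
  · rw [Finset.prod_eq_one, mul_one]
    intro t ht
    apply div_self
    rw [sub_ne_zero]
    intro h
    exact (Finset.mem_erase.1 ht).1 (hτ h).symm
  · intro b _ hba
    rw [Finset.prod_eq_zero (i := a), mul_zero]
    · exact Finset.mem_erase.2 ⟨Ne.symm hba, ha⟩
    · rw [sub_self, zero_div]
  · intro h; exact absurd ha h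

lemma ip_diff (τ : ℕ → ℂ) (S : Finset ℕ) (g : ℂ → ℂ) : Differentiable ℂ (ip τ S g) := by
  unfold ip
  fun_prop

/-- An analytic function cannot be small at many points near the origin. -/
lemma interp_bound {ρ ρ1 R B δ K : ℝ} (h01 : ρ < ρ1) (hR : 0 ≤ R) (hRρ : R < ρ) (τ : ℕ → ℂ)
    (hτ : Function.Injective τ) (S : Finset ℕ) (g : ℂ → ℂ)
    (hg : DifferentiableOn ℂ g (ball 0 ρ1)) (hB : ∀ z, ‖z‖ ≤ ρ → ‖g z‖ ≤ B)
    (hδ : 0 ≤ δ) (hS : ∀ s ∈ S, ‖τ s‖ ≤ R ∧ ‖g (τ s)‖ ≤ δ)
    (hK : ∀ z, ‖z‖ ≤ ρ → ∑ s ∈ S, ∏ t ∈ S.erase s, (‖z - τ t‖ / ‖τ s - τ t‖) ≤ K) :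
    ‖g 0‖ ≤ (B + δ * K) * (R / (ρ - R)) ^ S.card + δ * K := by
  have hip : ∀ z, ‖z‖ ≤ ρ → ‖ip τ S g z‖ ≤ δ * K := by
    intro z hz
    unfold ip
    calc ‖∑ s ∈ S, g (τ s) * ∏ t ∈ S.erase s, ((z - τ t) / (τ s - τ t))‖
        ≤ ∑ s ∈ S, ‖g (τ s) * ∏ t ∈ S.erase s, ((z - τ t) / (τ s - τ t))‖ := norm_sum_le _ _
      _ ≤ ∑ s ∈ S, δ * ∏ t ∈ S.erase s, (‖z - τ t‖ / ‖τ s - τ t‖) := by
          apply Finset.sum_le_sum
          intro s hs
          rw [norm_mul, norm_prod]
          simp only [norm_div]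
          have := (hS s hs).2
          gcongr
      _ ≤ δ * K := by
          rw [← Finset.mul_sum]
          exact mul_le_mul_of_nonneg_left (hK z hz) hδ
  have h1 := zeros_bound h01 hR hRρ τ hτ S (fun z => g z - ip τ S g z) (B + δ * K)
    (hg.sub (ip_diff τ S g).differentiableOn)
    (fun z hz => (norm_sub_le _ _).trans (add_le_add (hB z hz) (hip z hz)))
    (fun s hs => ⟨(hS s hs).1, by rw [ip_eq τ hτ S g hs, sub_self]⟩)
  have h2 := hip 0 (by simp; linarith)
  have h3 : ‖g 0‖ ≤ ‖g 0 - ip τ S g 0‖ + ‖ip τ S g 0‖ := by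
    have := norm_add_le (g 0 - ip τ S g 0) (ip τ S g 0)
    simpa using this
  linarith

lemma prod_ge_factorial (T : Finset ℕ) (h : ∀ t ∈ T, 1 ≤ t) : (T.card).factorial ≤ ∏ t ∈ T, t := by
  classical
  induction T using Finset.induction_on_max with
  | empty => simp
  | insert m T hm ih =>
    have hmT : m ∉ T := fun h => lt_irrefl _ (hm m h)
    rw [card_insert_of_notMem hmT, Finset.prod_insert hmT, Nat.factorial_succ]
    apply Nat.mul_le_mul _ (ih (fun t ht => h t (mem_insert_of_mem ht)))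
    have hsub : insert m T ⊆ Icc 1 m := by
      intro t ht
      rw [Finset.mem_Icc]
      refine ⟨h t ht, ?_⟩
      rcases Finset.mem_insert.1 ht with h1 | h1
      · exact h1.le
      · exact (hm t h1).le
    have := Finset.card_le_card hsub
    rw [card_insert_of_notMem hmT, Nat.card_Icc] at this
    omega

lemma prod_dist (S : Finset ℕ) {a : ℕ} (ha : a ∈ S) :
    ((S.card - 1).factorial : ℝ) ≤ 2 ^ (S.card - 1) * ∏ b ∈ S.erase a, |(a : ℝ) - b| := by
  classical
  set S1 := (S.erase a).filter (· < a) with hS1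
  set S2 := (S.erase a).filter (fun b => ¬ b < a) with hS2
  have hsplit : ∏ b ∈ S.erase a, |(a : ℝ) - b|
      = (∏ b ∈ S1, |(a : ℝ) - b|) * ∏ b ∈ S2, |(a : ℝ) - b| :=
    (Finset.prod_filter_mul_prod_filter_not _ _ _).symm
  have hcard : S1.card + S2.card = S.card - 1 := by
    rw [hS1, hS2, Finset.card_filter_add_card_filter_not, Finset.card_erase_of_mem ha]
  have h1 : (S1.card.factorial : ℝ) ≤ ∏ b ∈ S1, |(a : ℝ) - b| := by
    have e : ∏ b ∈ S1, |(a : ℝ) - b| = ((∏ t ∈ S1.image (fun b => a - b), t : ℕ) : ℝ) := by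
      rw [Finset.prod_image]
      · push_cast
        apply Finset.prod_congr rfl
        intro b hb
        have hb' := (Finset.mem_filter.1 hb).2
        rw [abs_of_nonneg (by
          have : (b : ℝ) < a := by exact_mod_cast hb'
          linarith), Nat.cast_sub hb'.le]
      · intro b hb c hc hbc
        have hb' := (Finset.mem_filter.1 hb).2
        have hc' := (Finset.mem_filter.1 hc).2
        simp only at hbc
        omega
    rw [e]
    have hc : (S1.image (fun b => a - b)).card = S1.card := by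
      apply Finset.card_image_of_injOn
      intro b hb c hc hbc
      have hb' := (Finset.mem_filter.1 hb).2
      have hc' := (Finset.mem_filter.1 hc).2
      simp only at hbc
      omega
    have := prod_ge_factorial (S1.image (fun b => a - b)) (by
      intro t ht
      obtain ⟨b, hb, rfl⟩ := Finset.mem_image.1 ht
      have hb' := (Finset.mem_filter.1 hb).2
      omega)
    rw [hc] at this
    exact_mod_cast this
  have h2 : (S2.card.factorial : ℝ) ≤ ∏ b ∈ S2, |(a : ℝ) - b| := by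
    have hlt : ∀ b ∈ S2, a < b := by
      intro b hb
      have hb' := (Finset.mem_filter.1 hb).2
      have hb2 := (Finset.mem_erase.1 (Finset.mem_filter.1 hb).1).1
      omega
    have e : ∏ b ∈ S2, |(a : ℝ) - b| = ((∏ t ∈ S2.image (fun b => b - a), t : ℕ) : ℝ) := by
      rw [Finset.prod_image]
      · push_cast
        apply Finset.prod_congr rfl
        intro b hb
        have hb' := hlt b hb
        rw [abs_of_nonpos (by
          have : (a : ℝ) < b := by exact_mod_cast hb'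
          linarith), Nat.cast_sub hb'.le]
        ring
      · intro b hb c hc hbc
        have hb' := hlt b hb
        have hc' := hlt c hc
        simp only at hbc
        omega
    rw [e]
    have hc : (S2.image (fun b => b - a)).card = S2.card := by
      apply Finset.card_image_of_injOn
      intro b hb c hc hbc
      have hb' := hlt b hb
      have hc' := hlt c hc
      simp only at hbc
      omega
    have := prod_ge_factorial (S2.image (fun b => b - a)) (by
      intro t ht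
      obtain ⟨b, hb, rfl⟩ := Finset.mem_image.1 ht
      have hb' := hlt b hb
      omega)
    rw [hc] at this
    exact_mod_cast this
  rw [hsplit, ← hcard]
  have h3 : ((S1.card + S2.card).factorial : ℝ)
      = ((S1.card + S2.card).choose S2.card : ℝ) * S1.card.factorial * S2.card.factorial := by
    exact_mod_cast (Nat.add_choose_mul_factorial_mul_factorial S1.card S2.card).symm
  have h4 : ((S1.card + S2.card).choose S2.card : ℝ) ≤ 2 ^ (S1.card + S2.card) := by
    have := Nat.choose_le_two_pow (S1.card + S2.card) S2.card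
    exact_mod_cast this
  have h5 : (0 : ℝ) ≤ ∏ b ∈ S1, |(a : ℝ) - b| := Finset.prod_nonneg (fun _ _ => abs_nonneg _)
  rw [h3, mul_assoc]
  gcongr

/-- The nodes `1/(2N+1)`. -/
def nd (N : ℕ) : ℂ := ((1 / (2 * N + 1) : ℝ) : ℂ)

lemma nd_inj : Function.Injective nd := by
  intro a b h
  unfold nd at h
  have h1 : (1 / (2 * (a : ℝ) + 1)) = 1 / (2 * (b : ℝ) + 1) := Complex.ofReal_injective h
  have ha : (0 : ℝ) < 2 * a + 1 := by positivity
  have hb : (0 : ℝ) < 2 * b + 1 := by positivity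
  rw [div_eq_div_iff ha.ne' hb.ne'] at h1
  have h2 : (a : ℝ) = b := by linarith
  exact_mod_cast h2

lemma nd_norm (N : ℕ) : ‖nd N‖ = 1 / (2 * N + 1) := by
  unfold nd
  rw [Complex.norm_real, Real.norm_eq_abs, abs_of_pos (by positivity)]

lemma nd_sub (a b : ℕ) :
    ‖nd a - nd b‖ = 2 * |(a : ℝ) - b| / ((2 * a + 1) * (2 * b + 1)) := by
  unfold nd
  rw [← Complex.ofReal_sub, Complex.norm_real, Real.norm_eq_abs]
  have ha : (0 : ℝ) < 2 * a + 1 := by positivity
  have hb : (0 : ℝ) < 2 * b + 1 := by positivity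
  have e : (1 / (2 * (a : ℝ) + 1) - 1 / (2 * (b : ℝ) + 1))
      = -(2 * ((a : ℝ) - b) / ((2 * a + 1) * (2 * b + 1))) := by
    field_simp; ring
  rw [e, abs_neg, abs_div, abs_mul, abs_of_pos (by positivity : (0 : ℝ) < (2 * a + 1) * (2 * b + 1)),
    abs_of_pos (by norm_num : (0 : ℝ) < 2)]

/-- The bound of the Lagrange basis polynomials. -/
lemma basis_bound {x : ℕ} (hx : 1 ≤ x) (S : Finset ℕ) (hS : S ⊆ Finset.Ico x (2 * x)) {a : ℕ}
    (ha : a ∈ S) {z : ℂ} (hz : ‖z‖ ≤ 5 / x) :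
    ∏ b ∈ S.erase a, (‖z - nd b‖ / ‖nd a - nd b‖)
      ≤ (88 * x) ^ (S.card - 1) / (S.card - 1).factorial := by
  have hx0 : (1 : ℝ) ≤ x := by exact_mod_cast hx
  have hx1 : (0 : ℝ) < x := by linarith
  have hfac : ∀ b ∈ S.erase a, ‖z - nd b‖ / ‖nd a - nd b‖ ≤ 44 * x / |(a : ℝ) - b| := by
    intro b hb
    obtain ⟨hba, hbS⟩ := Finset.mem_erase.1 hb
    have hb1 := Finset.mem_Ico.1 (hS hbS)
    have ha1 := Finset.mem_Ico.1 (hS ha)
    have hbl : (x : ℝ) ≤ b := by exact_mod_cast hb1.1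
    have hbu : (b : ℝ) + 1 ≤ 2 * x := by exact_mod_cast hb1.2
    have hau : (a : ℝ) + 1 ≤ 2 * x := by exact_mod_cast ha1.2
    have hal : (x : ℝ) ≤ a := by exact_mod_cast ha1.1
    have hd : 0 < |(a : ℝ) - b| := by
      rw [abs_pos, sub_ne_zero]
      intro h
      exact hba (by exact_mod_cast h.symm)
    have n1 : ‖z - nd b‖ ≤ 11 / (2 * x) := by
      have h1 := norm_sub_le z (nd b)
      rw [nd_norm] at h1
      have h2 : 1 / (2 * (b : ℝ) + 1) ≤ 1 / (2 * x) :=
        one_div_le_one_div_of_le (by positivity) (by linarith)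
      have h3 : (5 : ℝ) / x + 1 / (2 * x) = 11 / (2 * x) := by field_simp; norm_num
      linarith
    rw [nd_sub, div_div_eq_mul_div, div_le_div_iff₀ (by positivity) hd]
    have h4 : (2 * (a : ℝ) + 1) * (2 * b + 1) ≤ (4 * x) * (4 * x) := by
      apply mul_le_mul (by linarith) (by linarith) (by positivity) (by positivity)
    calc ‖z - nd b‖ * ((2 * ↑a + 1) * (2 * ↑b + 1)) * |(a : ℝ) - b|
        ≤ (11 / (2 * x)) * ((4 * x) * (4 * x)) * |(a : ℝ) - b| := by gcongr
      _ = 44 * x * (2 * |(a : ℝ) - b|) := by field_simp; ring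
  have hcard : (S.erase a).card = S.card - 1 := Finset.card_erase_of_mem ha
  have hpos : 0 < ∏ b ∈ S.erase a, |(a : ℝ) - b| := by
    apply Finset.prod_pos
    intro b hb
    rw [abs_pos, sub_ne_zero]
    intro h
    exact (Finset.mem_erase.1 hb).1 (by exact_mod_cast h.symm)
  calc ∏ b ∈ S.erase a, (‖z - nd b‖ / ‖nd a - nd b‖)
      ≤ ∏ b ∈ S.erase a, (44 * x / |(a : ℝ) - b|) :=
        Finset.prod_le_prod (fun _ _ => by positivity) hfac
    _ = (44 * x) ^ (S.card - 1) / ∏ b ∈ S.erase a, |(a : ℝ) - b| := by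
        rw [Finset.prod_div_distrib, Finset.prod_const, hcard]
    _ ≤ _ := by
        rw [div_le_div_iff₀ hpos (by positivity)]
        have := prod_dist S ha
        calc (44 * (x : ℝ)) ^ (S.card - 1) * ((S.card - 1).factorial : ℝ)
            ≤ (44 * x) ^ (S.card - 1) * (2 ^ (S.card - 1) * ∏ b ∈ S.erase a, |(a : ℝ) - b|) := by
              gcongr
          _ = (88 * x) ^ (S.card - 1) * ∏ b ∈ S.erase a, |(a : ℝ) - b| := by
              rw [← mul_assoc, ← mul_pow]; ring_nf

/-- The key estimate: among enough integers there is one where `g` is not small. -/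
lemma exists_large {x : ℕ} (hx : 1 ≤ x) (S : Finset ℕ) (hS : S ⊆ Finset.Ico x (2 * x))
    (hne : 1 ≤ S.card) {g : ℂ → ℂ} (hg : DifferentiableOn ℂ g (ball 0 (6 / x))) {M δ : ℝ}
    (hB : ∀ z, ‖z‖ ≤ 5 / x → ‖g z‖ ≤ Real.exp M) (h0 : g 0 = 1) (hδ : 0 ≤ δ)
    (hM : M ≤ 3 / 2 * S.card)
    (hsm : δ * (S.card * ((88 * x) ^ (S.card - 1) / (S.card - 1).factorial)) ≤ 1 / 4) :
    ∃ N ∈ S, δ < ‖g (nd N)‖ := by
  by_contra hcon
  push Not at hcon
  have hx0 : (1 : ℝ) ≤ x := by exact_mod_cast hx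
  have hx1 : (0 : ℝ) < x := by linarith
  have h1 := interp_bound (ρ := 5 / x) (ρ1 := 6 / x) (R := 1 / (2 * x)) (B := Real.exp M) (δ := δ)
    (K := S.card * ((88 * x) ^ (S.card - 1) / (S.card - 1).factorial))
    (by apply div_lt_div_of_pos_right _ hx1; norm_num) (by positivity)
    (by rw [div_lt_div_iff₀ (by positivity) hx1]; nlinarith) nd nd_inj S g hg hB hδ
    (fun s hs => by
      refine ⟨?_, hcon s hs⟩
      rw [nd_norm]
      have := (Finset.mem_Ico.1 (hS hs)).1
      have h2 : (x : ℝ) ≤ s := by exact_mod_cast this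
      exact one_div_le_one_div_of_le (by positivity) (by linarith))
    (fun z hz => by
      rw [← nsmul_eq_mul]
      exact Finset.sum_le_card_nsmul S _ _ (fun s hs => basis_bound hx S hS hs hz))
  have e1 : (1 / (2 * (x : ℝ)) / (5 / x - 1 / (2 * x))) = 1 / 9 := by field_simp; norm_num
  rw [e1, h0, norm_one] at h1
  set J := S.card with hJ
  set P := δ * (J * ((88 * (x : ℝ)) ^ (J - 1) / (J - 1).factorial)) with hP
  have hP0 : 0 ≤ P := by rw [hP]; positivity
  have h9 : (1 / 9 : ℝ) ^ J ≤ 1 / 9 := by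
    calc (1 / 9 : ℝ) ^ J ≤ (1 / 9) ^ 1 := pow_le_pow_of_le_one (by norm_num) (by norm_num) hne
      _ = _ := by norm_num
  have hexp : Real.exp M * (1 / 9 : ℝ) ^ J ≤ 1 / 2 := by
    have h2 : Real.exp (3 / 2) ≤ 9 / 2 := by
      have h3 : Real.exp (3 / 2) ^ 2 = Real.exp 1 ^ 3 := by
        rw [← Real.exp_nat_mul, ← Real.exp_nat_mul]; norm_num
      have h4 := Real.exp_one_lt_d9
      have h5 : Real.exp 1 ^ 3 ≤ (2.7182818286 : ℝ) ^ 3 := by
        gcongr
      nlinarith [Real.exp_pos (3 / 2 : ℝ)]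
    calc Real.exp M * (1 / 9 : ℝ) ^ J ≤ Real.exp (3 / 2 * J) * (1 / 9 : ℝ) ^ J := by
          gcongr
      _ = (Real.exp (3 / 2) * (1 / 9)) ^ J := by
          rw [mul_pow, ← Real.exp_nat_mul]; ring_nf
      _ ≤ (1 / 2) ^ J := by
          apply pow_le_pow_left₀ (by positivity)
          linarith
      _ ≤ (1 / 2) ^ 1 := pow_le_pow_of_le_one (by norm_num) (by norm_num) hne
      _ = _ := by norm_num
  have h10 : P * (1 / 9 : ℝ) ^ J ≤ P * (1 / 9) := by gcongr
  have h11 : (Real.exp M + P) * (1 / 9 : ℝ) ^ J + P ≤ 1 / 2 + P * (1 / 9) + P := by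
    rw [add_mul]; linarith
  linarith

/-- Counting the integers where `g` is small. -/
lemma count_bad {x : ℕ} (hx : 1 ≤ x) {g : ℂ → ℂ} (hg : DifferentiableOn ℂ g (ball 0 (6 / x)))
    {M δ a : ℝ} (hB : ∀ z, ‖z‖ ≤ 5 / x → ‖g z‖ ≤ Real.exp M) (h0 : g 0 = 1) (hδ : 0 ≤ δ)
    (ha : 0 ≤ a) (hM : M ≤ 3 / 2 * a)
    (hsm : ∀ s : ℕ, (s : ℝ) ≤ a → δ * ((s + 1) * ((88 * x) ^ s / s.factorial)) ≤ 1 / 4) :
    (((Finset.Ico x (2 * x)).filter (fun N => ‖g (nd N)‖ ≤ δ)).card : ℝ) ≤ a := by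
  classical
  by_contra hcon
  push Not at hcon
  set T := (Finset.Ico x (2 * x)).filter (fun N => ‖g (nd N)‖ ≤ δ) with hT
  have hJ : ⌊a⌋₊ + 1 ≤ T.card := by
    have := (Nat.floor_lt ha).2 hcon
    omega
  obtain ⟨S, hST, hScard⟩ := Finset.exists_subset_card_eq hJ
  have hS : S ⊆ Finset.Ico x (2 * x) := fun s hs => (Finset.mem_filter.1 (hST hs)).1
  have hfl := Nat.floor_le ha
  have hfl2 := Nat.lt_floor_add_one a
  obtain ⟨N, hN, hlt⟩ := exists_large (M := M) (δ := δ) hx S hS (by omega) hg hB h0 hδ (by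
    rw [hScard]; push_cast; linarith) (by
    have := hsm ⌊a⌋₊ hfl
    rw [hScard]
    simpa using this)
  have := (Finset.mem_filter.1 (hST hN)).2
  linarith

/-- The numerical estimate behind the count. -/
lemma small_sum {n s x : ℕ} {ℓ : ℝ} (hn : 1 ≤ n) (hℓ : 1 ≤ ℓ) (hx : 10 ^ 11 * ℓ ^ 2 * n ≤ x)
    (hs : (s : ℝ) ≤ 184 * ℓ * n ^ 2 / x) :
    (s + 1) * ((88 * (x : ℝ)) ^ s / s.factorial) ≤ Real.exp (3 * n / 20) := by
  have hn0 : (1 : ℝ) ≤ n := by exact_mod_cast hn
  have hnp : (0 : ℝ) < n := by linarith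
  have hxp : (0 : ℝ) < x := by
    have : (0 : ℝ) < 10 ^ 11 * ℓ ^ 2 * n := by positivity
    linarith
  set u : ℝ := x / n with hu
  have hup : 10 ^ 11 * ℓ ^ 2 ≤ u := by
    rw [hu, le_div_iff₀ hnp]; exact hx
  have hu1 : 1 ≤ u := by nlinarith
  have hu0 : 0 < u := by linarith
  have hxu : (x : ℝ) = u * n := by rw [hu]; field_simp
  -- the exponent
  have hs2 : (s : ℝ) ≤ 184 * ℓ * n / u := by
    refine hs.trans (le_of_eq ?_)
    rw [hxu]; field_simp
  set Q : ℝ := 1760 * u with hQ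
  have hQ0 : 0 < Q := by positivity
  have hQ1 : 1 ≤ Q := by rw [hQ]; linarith
  have hlogQ : Real.log Q ≤ 84 * Real.sqrt u := by
    have h1 : Real.log Q = 2 * Real.log (Real.sqrt Q) := by
      rw [Real.log_sqrt hQ0.le]; ring
    have h2 : Real.log (Real.sqrt Q) ≤ Real.sqrt Q - 1 :=
      Real.log_le_sub_one_of_pos (Real.sqrt_pos.2 hQ0)
    have h3 : Real.sqrt Q ≤ 42 * Real.sqrt u := by
      rw [hQ]
      apply Real.sqrt_le_iff.2
      refine ⟨by positivity, ?_⟩
      rw [mul_pow, Real.sq_sqrt hu0.le]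
      nlinarith
    linarith
  have hsqrt : 309120 * ℓ ≤ Real.sqrt u := by
    apply Real.le_sqrt_of_sq_le
    nlinarith [sq_nonneg ℓ]
  have hexpo : (s : ℝ) * Real.log Q ≤ n / 20 := by
    have hlog0 : 0 ≤ Real.log Q := Real.log_nonneg hQ1
    have hsu : Real.sqrt u * Real.sqrt u = u := Real.mul_self_sqrt hu0.le
    calc (s : ℝ) * Real.log Q ≤ (184 * ℓ * n / u) * (84 * Real.sqrt u) := by gcongr
      _ ≤ n / 20 := by
        rw [div_mul_eq_mul_div, div_le_div_iff₀ hu0 (by norm_num)]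
        have h5 : 309120 * ℓ * Real.sqrt u ≤ u := by
          calc 309120 * ℓ * Real.sqrt u ≤ Real.sqrt u * Real.sqrt u := by gcongr
            _ = u := hsu
        nlinarith
  have hpow : (88 * (x : ℝ)) ^ s / s.factorial ≤ Real.exp (n / 20) * Real.exp (n / 20) := by
    have e1 : (88 * (x : ℝ)) ^ s / s.factorial = (n / 20 : ℝ) ^ s / s.factorial * Q ^ s := by
      have : (88 * (x : ℝ)) = (n / 20) * Q := by rw [hQ, hxu]; ring
      rw [this, mul_pow]; ring
    have e2 : Q ^ s = Real.exp (s * Real.log Q) := by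
      rw [Real.exp_nat_mul, Real.exp_log hQ0]
    rw [e1, e2]
    have e3 := Real.pow_div_factorial_le_exp (n / 20 : ℝ) (by positivity) s
    gcongr
  have hs3 : (s : ℝ) + 1 ≤ Real.exp (n / 20) := by
    have h1 := Real.add_one_le_exp (n / 20 : ℝ)
    have h2 : (s : ℝ) ≤ n / 20 := by
      refine hs2.trans ?_
      rw [div_le_div_iff₀ hu0 (by norm_num)]
      have : 3680 * ℓ ≤ u := by nlinarith
      nlinarith
    linarith
  calc ((s : ℝ) + 1) * ((88 * (x : ℝ)) ^ s / s.factorial)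
      ≤ Real.exp (n / 20) * (Real.exp (n / 20) * Real.exp (n / 20)) := by gcongr
    _ = Real.exp (3 * n / 20) := by
        rw [← Real.exp_add, ← Real.exp_add]; congr 1; ring

end

end Pool.Agent.H759.PTB
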