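import Mathlib

/-!
# Quantum representations of the one-holed torus at `A = e^{πi/r}`, `r = 2N+1`

Objects used in the statements about once-punctured torus bundles.
-/

namespace Pool.Agent.H759.PTB

open Finset

noncomputable section

/-- The angle `2π/r`, where `r = 2N+1`. -/
def th (N : ℕ) : ℝ := 2 * Real.pi / (2 * N + 1)

/-- `sn N x = sin (2πx/r)`, so that the quantum integer `[x]` at `A = e^{πi/r}` is
`sn N x / sn N 1`. -/
def sn (N : ℕ) (x : ℝ) : ℝ := Real.sin (th N * x)

/-- `cs N x = cos (2πx/r)`. -/
def cs (N : ℕ) (x : ℝ) : ℝ := Real.cos (th N * x)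

/-- The coefficient `[x-b][x+b+1] / ([x][x+1])` in the formula
`z e_x = e_{x+1} + u_x e_{x-1}` for the action of the dual curve. -/
def uc (N b : ℕ) (x : ℝ) : ℝ :=
  sn N (x - b) * sn N (x + b + 1) / (sn N x * sn N (x + 1))

/-- The twist coefficient `(-1)^a A^{a(a+2)}`, `A = e^{πi/r}`. -/
def tw (N a : ℕ) : ℂ :=
  (-1) ^ a * Complex.exp ((Real.pi * (a * (a + 2)) / (2 * N + 1) : ℝ) * Complex.I)

/-- The eigenvalue `(A^{2a+2} + A^{-2a-2})^2`, `a = b + 2k`, of the squared curve operator. -/
def om (N b k : ℕ) : ℝ := 4 * cs N (b + 2 * k + 1) ^ 2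

/-- The matrix of `z^2` in the basis `e_b, e_{b+2}, ..., e_{b+2(n-1)}`. -/
def curve (N b n : ℕ) : Matrix (Fin n) (Fin n) ℝ := fun i j =>
  if (i : ℕ) = j + 1 then 1
  else if (i : ℕ) = j then uc N b (b + 2 * j) + uc N b (b + 2 * j + 1)
  else if (j : ℕ) = i + 1 then uc N b (b + 2 * j) * uc N b (b + 2 * j - 1)
  else 0

/-- The Dehn twist along the curve that is diagonal in the basis `e_{b+2k}`. -/
def twA (N b n : ℕ) : Matrix (Fin n) (Fin n) ℂ :=
  Matrix.diagonal fun k => tw N (b + 2 * k)

/-- The Dehn twist along the dual curve: the function of the curve operator `z^2` with value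
the twist coefficient of `a = b + 2k` at the eigenvalue `om N b k`. -/
def twB (N b n : ℕ) : Matrix (Fin n) (Fin n) ℂ :=
  Polynomial.aeval ((curve N b n).map (fun x : ℝ => (x : ℂ)))
    (Lagrange.interpolate univ (fun k : Fin n => (om N b k : ℂ))
      (fun k : Fin n => tw N (b + 2 * k)))

/-- The four letters `L, R, L⁻¹, R⁻¹`. -/
inductive Letter
  | L : Letter
  | R : Letter
  | L' : Letter
  | R' : Letter

/-- The matrix of a letter: `L` is the twist along the first curve, `R` the inverse twist along
the dual curve. -/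
def letter (N b n : ℕ) : Letter → Matrix (Fin n) (Fin n) ℂ
  | Letter.L => twA N b n
  | Letter.R => (twB N b n)⁻¹
  | Letter.L' => (twA N b n)⁻¹
  | Letter.R' => twB N b n

/-- The quantum representation `ρ_{2b}` (dimension `N - b`) of a word. -/
def rho (N b : ℕ) (w : List Letter) : Matrix (Fin (N - b)) (Fin (N - b)) ℂ :=
  (w.map (letter N b (N - b))).prod

/-- `TV_r(M_w) = Σ_b |Tr ρ_{2b}(w)|²`, `r = 2N+1`. -/
def TV (N : ℕ) (w : List Letter) : ℝ :=
  ∑ b ∈ range N, ‖(rho N b w).trace‖ ^ 2

/-- The `m`-th power of a word. -/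
def wpow (w : List Letter) (m : ℕ) : List Letter := (List.replicate m w).flatten

/-- The Lobachevsky function `Λ(x) = -∫_0^x log |2 sin t| dt`. -/
def lob (x : ℝ) : ℝ := -∫ t in (0 : ℝ)..x, Real.log |2 * Real.sin t|

/-- `v₃ = 3Λ(π/3)`, the volume of the regular ideal tetrahedron. -/
def v3 : ℝ := 3 * lob (Real.pi / 3)

/-- `v₈ = 8Λ(π/4)`, the volume of the regular ideal octahedron. -/
def v8 : ℝ := 8 * lob (Real.pi / 4)

/-- A block: a letter or the square of a letter. -/
inductive Block
  | one (x : Letter) : Block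
  | two (x : Letter) : Block

/-- The word of a block. -/
def Block.word : Block → List Letter
  | Block.one x => [x]
  | Block.two x => [x, x]

/-- The cost of a block: `v₃` for a letter, `v₈/2` for the square of a letter. -/
def Block.cost : Block → ℝ
  | Block.one _ => v3
  | Block.two _ => v8 / 2

/-- The word of a list of blocks. -/
def bword (B : List Block) : List Letter := (B.map Block.word).flatten

/-- The total cost of a list of blocks. -/
def bcost (B : List Block) : ℝ := (B.map Block.cost).sum

/-- Exchange of the two curves: `L ↔ R`, `L⁻¹ ↔ R⁻¹`. -/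
def swapL : Letter → Letter
  | Letter.L => Letter.R
  | Letter.R => Letter.L
  | Letter.L' => Letter.R'
  | Letter.R' => Letter.L'

/-- The transposed word `u†`: reverse the word and exchange `L` and `R`. -/
def dag (u : List Letter) : List Letter := (u.reverse).map swapL

/-- The alternating word `LRLR...` of length `q`. -/
def alt : ℕ → List Letter
  | 0 => []
  | q + 1 => Letter.L :: (alt q).map swapL

/-- Repeat every letter `p` times. -/
def rep (p : ℕ) (u : List Letter) : List Letter := (u.map (List.replicate p)).flatten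

/-- The growth constants `v₃` and `v₈/2` of a letter and of the square of a letter. -/
def cst (p : ℕ) : ℝ := if p = 1 then v3 else v8 / 2

end

end Pool.Agent.H759.PTB
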