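import Pool.Agent.H759.PTB.Fam

/-!
The lower bound of the trace at `t = 0`.
-/

namespace Pool.Agent.H759.PTB

open Finset Matrix

noncomputable section

lemma am_diag (n : ℕ) {x : Letter} (hx : x = Letter.L ∨ x = Letter.R) (k : Fin n) :
    1 ≤ am n x k k := by
  rcases hx with rfl | rfl
  · show 1 ≤ aL n k k
    unfold aL
    rw [if_pos le_rfl, Nat.sub_self, Nat.choose_zero_right]; simp
  · show 1 ≤ aR k k
    unfold aR
    rw [Nat.choose_self]; simp

lemma prod_sublist (n : ℕ) {s w : List Letter} (h : s.Sublist w) :
    (∀ x ∈ w, x = Letter.L ∨ x = Letter.R) →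
      ∀ k l : Fin n, (s.map (am n)).prod k l ≤ (w.map (am n)).prod k l := by
  induction h with
  | slnil => intro _ k l; exact le_rfl
  | @cons s w x _ ih =>
    intro hw k l
    have h1 := ih (fun y hy => hw y (List.mem_cons_of_mem _ hy)) k l
    have h2 := am_diag n (hw x List.mem_cons_self) k
    have h3 := prod_am_nonneg n w k l
    rw [List.map_cons, List.prod_cons, Matrix.mul_apply]
    calc _ ≤ (w.map (am n)).prod k l := h1
      _ ≤ am n x k k * (w.map (am n)).prod k l := by nlinarith
      _ ≤ _ := Finset.single_le_sum (f := fun j => am n x k j * (w.map (am n)).prod j l)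
          (fun j _ => mul_nonneg (am_nonneg n x k j) (prod_am_nonneg n w j l)) (mem_univ k)
  | @cons_cons s w x _ ih =>
    intro hw k l
    rw [List.map_cons, List.prod_cons, Matrix.mul_apply, List.map_cons, List.prod_cons,
      Matrix.mul_apply]
    apply Finset.sum_le_sum
    intro j _
    exact mul_le_mul_of_nonneg_left (ih (fun y hy => hw y (List.mem_cons_of_mem _ hy)) j l)
      (am_nonneg n x k j)

lemma sum_LR {n : ℕ} (hn : 0 < n) :
    ∑ l : Fin n, am n Letter.L ⟨0, hn⟩ l * am n Letter.R l ⟨0, hn⟩ = 2 ^ (n - 1) := by
  have h1 : ∀ l : Fin n, am n Letter.L ⟨0, hn⟩ l * am n Letter.R l ⟨0, hn⟩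
      = ((n - 1).choose l : ℝ) := by
    intro l
    show aL n 0 l * aR l 0 = _
    unfold aL aR
    rw [if_pos (Nat.zero_le _), Nat.choose_zero_right]
    simp
  rw [Finset.sum_congr rfl (fun l _ => h1 l),
    Fin.sum_univ_eq_sum_range (fun l => ((n - 1).choose l : ℝ)) n]
  have h2 := Nat.sum_range_choose (n - 1)
  rw [Nat.sub_add_cancel hn] at h2
  exact_mod_cast h2

lemma F0_ge {n : ℕ} (hn : 0 < n) {w : List Letter} (hw : ∀ x ∈ w, x = Letter.L ∨ x = Letter.R)
    (hL : Letter.L ∈ w) (hR : Letter.R ∈ w) : 2 ^ (n - 1) ≤ F0 n w := by
  have hcases : [Letter.L, Letter.R].Sublist w ∨ [Letter.R, Letter.L].Sublist w := by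
    obtain ⟨s, t, rfl⟩ := List.append_of_mem hL
    have : Letter.R ∈ s ∨ Letter.R ∈ t := by
      rcases List.mem_append.1 hR with h | h
      · exact Or.inl h
      · rcases List.mem_cons.1 h with h | h
        · cases h
        · exact Or.inr h
    rcases this with h | h
    · right
      have h1 : [Letter.R].Sublist s := List.singleton_sublist.2 h
      have h2 : [Letter.L].Sublist (Letter.L :: t) := List.singleton_sublist.2 List.mem_cons_self
      exact h1.append h2
    · left
      have h1 : [Letter.R].Sublist t := List.singleton_sublist.2 h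
      have h2 : [Letter.L, Letter.R].Sublist (Letter.L :: t) := h1.cons_cons _
      exact (List.nil_sublist s).append h2
  rcases hcases with h | h
  · have h1 := prod_sublist n h hw
    unfold F0 Matrix.trace
    calc (2 : ℝ) ^ (n - 1) ≤ ∑ k : Fin n, ∑ l : Fin n, am n Letter.L k l * am n Letter.R l k := by
          rw [← sum_LR hn]
          exact Finset.single_le_sum
            (f := fun k : Fin n => ∑ l : Fin n, am n Letter.L k l * am n Letter.R l k)
            (fun k _ => Finset.sum_nonneg
              (fun l _ => mul_nonneg (am_nonneg _ _ _ _) (am_nonneg _ _ _ _)))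
            (mem_univ (⟨0, hn⟩ : Fin n))
      _ ≤ _ := by
          apply Finset.sum_le_sum
          intro k _
          have := h1 k k
          rw [List.map_cons, List.prod_cons, List.map_cons, List.prod_cons, List.map_nil,
            List.prod_nil, mul_one, Matrix.mul_apply] at this
          exact this
  · have h1 := prod_sublist n h hw
    unfold F0 Matrix.trace
    calc (2 : ℝ) ^ (n - 1) ≤ ∑ k : Fin n, ∑ l : Fin n, am n Letter.R k l * am n Letter.L l k := by
          rw [← sum_LR hn]
          apply Finset.sum_le_sum
          intro k _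
          rw [mul_comm]
          exact Finset.single_le_sum
            (f := fun l : Fin n => am n Letter.R k l * am n Letter.L l k)
            (fun l _ => mul_nonneg (am_nonneg _ _ _ _) (am_nonneg _ _ _ _))
            (mem_univ (⟨0, hn⟩ : Fin n))
      _ ≤ _ := by
          apply Finset.sum_le_sum
          intro k _
          have := h1 k k
          rw [List.map_cons, List.prod_cons, List.map_cons, List.prod_cons, List.map_nil,
            List.prod_nil, mul_one, Matrix.mul_apply] at this
          exact this

end

end Pool.Agent.H759.PTB
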