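import Pool.Agent.H759.PTB.Trace
import Pool.Agent.H759.PTB.Fam
import Pool.Agent.H759.PTB.Count

/-!
The traces of the quantum representations are the values of the analytic family.
-/

namespace Pool.Agent.H759.PTB

open Finset Matrix

noncomputable section

lemma nd_ne (N : ℕ) : nd N ≠ 0 := by
  unfold nd
  have : (0 : ℝ) < 1 / (2 * N + 1) := by positivity
  exact_mod_cast this.ne'

lemma sn1 (N : ℕ) (y : ℝ) :
    (sn N (2 * y) : ℂ) = (((4 * Real.pi * y : ℝ) : ℂ) * nd N)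
      * sc (((4 * Real.pi * y : ℝ) : ℂ) * nd N) := by
  rw [sc_mul]
  unfold sn nd
  rw [Complex.ofReal_sin, ← Complex.ofReal_mul]
  congr 2
  unfold th
  ring

lemma cs2 {N b n : ℕ} (hN : N = b + n) (y : ℝ) :
    (cs N (b + y) : ℂ) = -Complex.cos (((Real.pi * (2 * y - 1 - 2 * n) : ℝ) : ℂ) * nd N) := by
  unfold cs nd
  rw [← Complex.ofReal_mul, ← Complex.ofReal_cos, ← Complex.ofReal_neg]
  congr 1
  rw [← Real.cos_add_pi]
  congr 1
  unfold th
  have h : (N : ℝ) = b + n := by rw [hN]; push_cast; ring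
  have h2 : (2 * ((b : ℝ) + n) + 1) ≠ 0 := by positivity
  rw [h]
  field_simp
  ring

lemma sn3 {N b n : ℕ} (hN : N = b + n) (y : ℝ) :
    (sn N (2 * b + y) : ℂ) = -((((2 * Real.pi * (2 * n + 1 - y) : ℝ) : ℂ) * nd N)
      * sc (((2 * Real.pi * (2 * n + 1 - y) : ℝ) : ℂ) * nd N)) := by
  rw [sc_mul]
  unfold sn nd
  rw [← Complex.ofReal_mul, ← Complex.ofReal_sin, ← Complex.ofReal_neg]
  congr 1
  rw [← Real.sin_neg, ← Real.sin_add_two_pi (-_)]
  congr 1
  unfold th
  have h : (N : ℝ) = b + n := by rw [hN]; push_cast; ring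
  have h2 : (2 * ((b : ℝ) + n) + 1) ≠ 0 := by positivity
  rw [h]
  field_simp
  ring

/-- the common phase -/
def c0 (N b n : ℕ) : ℂ := tw N b * Complex.exp (-(Complex.I * ((ph n 0 0 : ℂ) * nd N)))

lemma conj_phase (N : ℕ) (x : ℝ) :
    (starRingEnd ℂ) (Complex.exp (Complex.I * ((x : ℂ) * nd N)))
      = Complex.exp (-(Complex.I * ((x : ℂ) * nd N))) := by
  rw [← Complex.exp_conj]
  congr 1
  unfold nd
  rw [map_mul, map_mul, Complex.conj_ofReal, Complex.conj_ofReal, Complex.conj_I]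
  ring

lemma norm_phase (N : ℕ) (x : ℝ) : ‖Complex.exp (-(Complex.I * ((x : ℂ) * nd N)))‖ = 1 := by
  unfold nd
  rw [← Complex.ofReal_mul, show -(Complex.I * ((x * (1 / (2 * (N : ℝ) + 1)) : ℝ) : ℂ))
    = ((-(x * (1 / (2 * (N : ℝ) + 1))) : ℝ) : ℂ) * Complex.I by push_cast; ring]
  exact Complex.norm_exp_ofReal_mul_I _

lemma norm_tw (N a : ℕ) : ‖tw N a‖ = 1 := by
  unfold tw
  rw [norm_mul, norm_pow, norm_neg, norm_one, one_pow, one_mul]
  exact Complex.norm_exp_ofReal_mul_I _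

lemma norm_c0 (N b n : ℕ) : ‖c0 N b n‖ = 1 := by
  unfold c0
  rw [norm_mul, norm_tw, norm_phase, one_mul]

lemma phase_eq {N b n : ℕ} (hN : N = b + n) (l m : ℕ) :
    tw N (b + 2 * l) * eE N (m * (b + 2 * l + 2))
      = c0 N b n * (-1) ^ m * Complex.exp (Complex.I * ((ph n l (l + m) : ℂ) * nd N)) := by
  unfold c0
  rw [tw_eE, tw_eE]
  have hpi : ((-1 : ℂ)) ^ m = Complex.exp (((Real.pi * (2 * l + m) : ℝ) : ℂ) * Complex.I) := by
    have h1 : Complex.exp (((Real.pi * (2 * l + m) : ℝ) : ℂ) * Complex.I)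
        = Complex.exp (((2 * l + m : ℕ) : ℂ) * (Real.pi * Complex.I)) := by
      congr 1; push_cast; ring
    rw [h1, Complex.exp_nat_mul, Complex.exp_pi_mul_I, pow_add, pow_mul]
    simp
  have hsgn : ((-1 : ℂ)) ^ (b + 2 * l) = (-1) ^ b := by
    rw [pow_add, pow_mul]; simp
  rw [hpi, hsgn]
  unfold eE nd
  have key : (-1 : ℂ) ^ b * (Complex.exp ((th N * ((((b + 2 * l : ℕ) : ℝ))
      * ((((b + 2 * l : ℕ) : ℝ)) + 2) / 2) : ℝ) * Complex.I)
      * Complex.exp ((th N * (m * (b + 2 * l + 2)) : ℝ) * Complex.I))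
      = (-1) ^ b * (Complex.exp ((th N * ((b : ℝ) * (b + 2) / 2) : ℝ) * Complex.I)
        * Complex.exp (-(Complex.I * ((ph n 0 0 : ℂ) * ((1 / (2 * N + 1) : ℝ) : ℂ))))
        * Complex.exp (((Real.pi * (2 * l + m) : ℝ) : ℂ) * Complex.I)
        * Complex.exp (Complex.I * ((ph n l (l + m) : ℂ) * ((1 / (2 * N + 1) : ℝ) : ℂ)))) := by
    congr 1
    rw [← Complex.exp_add, ← Complex.exp_add, ← Complex.exp_add, ← Complex.exp_add]
    congr 1
    have hreal : th N * ((((b + 2 * l : ℕ) : ℝ)) * ((((b + 2 * l : ℕ) : ℝ)) + 2) / 2)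
        + th N * (m * (b + 2 * l + 2))
        = th N * ((b : ℝ) * (b + 2) / 2) - ph n 0 0 * (1 / (2 * N + 1)) + Real.pi * (2 * l + m)
          + ph n l (l + m) * (1 / (2 * N + 1)) := by
      unfold th ph hu hv
      have h : (N : ℝ) = b + n := by rw [hN]; push_cast; ring
      have h2 : (2 * ((b : ℝ) + n) + 1) ≠ 0 := by positivity
      rw [h]
      push_cast
      field_simp
      ring
    have := congrArg (fun x : ℝ => (x : ℂ) * Complex.I) hreal
    push_cast at this ⊢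
    linear_combination this
  linear_combination key

lemma asc_prod (k m : ℕ) :
    (k.factorial : ℂ) * ∏ j ∈ range m, ((k : ℂ) + 1 + j) = ((k + m).factorial : ℂ) := by
  induction m with
  | zero => simp
  | succ m ih =>
    rw [Finset.prod_range_succ, ← mul_assoc, ih, ← add_assoc, Nat.factorial_succ]
    push_cast
    ring

lemma desc_prod (p m : ℕ) :
    ∏ j ∈ range m, ((p : ℂ) - j) = (m.factorial : ℂ) * (p.choose m : ℂ) := by
  induction m with
  | zero => simp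
  | succ m ih =>
    rw [Finset.prod_range_succ, ih, Nat.factorial_succ]
    have h := Nat.choose_succ_right_eq p m
    by_cases hm : m ≤ p
    · have h2 : (p.choose (m + 1) : ℂ) * (m + 1) = (p.choose m : ℂ) * ((p : ℂ) - m) := by
        have h3 : ((p - m : ℕ) : ℂ) = (p : ℂ) - m := by rw [Nat.cast_sub hm]
        rw [← h3]
        exact_mod_cast h
      push_cast
      linear_combination (-(m.factorial : ℂ)) * h2
    · rw [Nat.choose_eq_zero_of_lt (by omega), Nat.choose_eq_zero_of_lt (by omega)]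
      simp

lemma fact_prod (m : ℕ) : ∏ j ∈ range m, ((j : ℂ) + 1) = (m.factorial : ℂ) := by
  have := Finset.prod_range_add_one_eq_factorial m
  rw [← this]; push_cast; rfl

lemma bt_prod (N b k m : ℕ) :
    bt N b (k + m) = bt N b k * ∏ j ∈ range m, tht N b (k + 1 + j) := by
  induction m with
  | zero => simp
  | succ m ih =>
    rw [Finset.prod_range_succ, ← mul_assoc, ← ih, ← add_assoc]
    show bt N b (k + m) * tht N b (k + m + 1) = _
    rw [show k + m + 1 = k + 1 + m by ring]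

/-- the gauge -/
def Dg (N k : ℕ) : ℂ := (k.factorial : ℂ) * (16 * Real.pi * nd N) ^ k * (-Complex.I) ^ k

lemma g_ne (N : ℕ) : (16 * Real.pi * nd N : ℂ) ≠ 0 := by
  have h1 := nd_ne N
  have h2 : (Real.pi : ℂ) ≠ 0 := by exact_mod_cast Real.pi_ne_zero
  simp [h1, h2]

lemma Dg_ne (N k : ℕ) : Dg N k ≠ 0 := by
  unfold Dg
  refine mul_ne_zero (mul_ne_zero ?_ (pow_ne_zero _ (g_ne N)))
    (pow_ne_zero _ (neg_ne_zero.2 Complex.I_ne_zero))
  exact_mod_cast Nat.factorial_ne_zero k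

lemma gauge_R {N b n : ℕ} (hN : N = b + n) (l m : ℕ) :
    Dg N (l + m) * (starRingEnd ℂ) (dd N b l m)
      = (starRingEnd ℂ) (c0 N b n) * ((aR (l + m) l : ℂ) * exR n (l + m) l (nd N)) * Dg N l := by
  unfold dd
  rw [phase_eq hN, map_div₀, map_mul, map_mul, conj_phase, map_pow, map_neg, map_one, map_prod]
  have hfac : ∀ j ∈ range m, (starRingEnd ℂ) (4 * Complex.I * sn N (2 * (j + 1))
      * cs N (b + 2 * l + 2 + 2 * j))
      = (Complex.I * (16 * Real.pi * nd N)) * (((j : ℂ) + 1)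
        * (sc (((4 * Real.pi * (j + 1) : ℝ) : ℂ) * nd N)
          * Complex.cos (((Real.pi * (4 * (l + j) + 3 - 2 * n) : ℝ) : ℂ) * nd N))) := by
    intro j _
    rw [map_mul, map_mul, map_mul, Complex.conj_I, Complex.conj_ofReal, Complex.conj_ofReal,
      sn1, show (b : ℝ) + 2 * l + 2 + 2 * j = b + (2 * l + 2 + 2 * j) by ring, cs2 hN,
      show (2 * (2 * (l : ℝ) + 2 + 2 * j) - 1 - 2 * n) = 4 * (l + j) + 3 - 2 * n by ring]
    have h4 : (starRingEnd ℂ) (4 : ℂ) = 4 := by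
      have := Complex.conj_ofReal 4
      simpa using this
    rw [h4]
    push_cast
    ring
  rw [Finset.prod_congr rfl hfac, Finset.prod_mul_distrib, Finset.prod_const, Finset.card_range,
    Finset.prod_mul_distrib, fact_prod]
  unfold exR Dg aR
  rw [show l + m - l = m by omega, Finset.prod_inv_distrib]
  have hch : ((l + m).choose l : ℂ) * (l.factorial : ℂ) * (m.factorial : ℂ)
      = ((l + m).factorial : ℂ) := by
    have := Nat.add_choose_mul_factorial_mul_factorial l m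
    have h2 : (l + m).choose m = (l + m).choose l := by
      rw [← Nat.choose_symm_add]
    rw [h2] at this
    exact_mod_cast this
  have hm0 : (m.factorial : ℂ) ≠ 0 := by exact_mod_cast Nat.factorial_ne_zero m
  rw [← hch]
  have hI2 : ((-Complex.I) ^ m * (-1) ^ m : ℂ) = Complex.I ^ m := by
    rw [← mul_pow]; congr 1; ring
  have hIm : (Complex.I ^ m : ℂ) ≠ 0 := pow_ne_zero _ Complex.I_ne_zero
  have hgm := pow_ne_zero m (g_ne N)
  rw [pow_add, pow_add, mul_pow Complex.I]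
  generalize (∏ j ∈ range m, sc (((4 * Real.pi * (j + 1) : ℝ) : ℂ) * nd N)
    * Complex.cos (((Real.pi * (4 * (l + j) + 3 - 2 * n) : ℝ) : ℂ) * nd N)) = Q
  generalize Complex.exp (-(Complex.I * ((ph n l (l + m) : ℂ) * nd N))) = E
  generalize (starRingEnd ℂ) (c0 N b n) = C
  generalize (16 * (Real.pi : ℂ) * nd N) = g at *
  rw [div_eq_mul_inv, mul_inv, mul_inv, mul_inv]
  have e1 : g ^ m * (g ^ m)⁻¹ = 1 := mul_inv_cancel₀ hgm
  have e2 : (m.factorial : ℂ) * (m.factorial : ℂ)⁻¹ = 1 := mul_inv_cancel₀ hm0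
  have e3 : Complex.I ^ m * (Complex.I ^ m)⁻¹ = 1 := mul_inv_cancel₀ hIm
  push_cast
  calc _ = C * (((l + m).choose l : ℂ) * (E * Q⁻¹)) * ((l.factorial : ℂ) * g ^ l * (-Complex.I) ^ l)
        * (g ^ m * (g ^ m)⁻¹) * ((m.factorial : ℂ) * (m.factorial : ℂ)⁻¹)
        * (((-Complex.I) ^ m * (-1) ^ m) * (Complex.I ^ m)⁻¹) := by ring
    _ = _ := by rw [e1, e2, hI2, e3]; ring

lemma alg_L {K G1 I1 c E I2 G2 P1 mf C Q S I3 : ℂ} (e2 : mf * mf⁻¹ = 1) (hI2 : S * I2 = I3) :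
    K * G1 * I1 * (c * S * E * (I2 * G2 * (P1 * (mf * C * (mf⁻¹ * Q)))))
      = c * (C * (E * Q)) * ((K * P1) * (G1 * G2) * (I1 * I3)) := by
  linear_combination (K * G1 * I1 * c * S * E * I2 * G2 * P1 * C * Q) * e2
    + (K * G1 * I1 * c * E * G2 * P1 * C * Q) * hI2

lemma gauge_L {N b n : ℕ} (hN : N = b + n) {k m : ℕ} (h : k + m < n) :
    Dg N k * ((bt N b k : ℂ)⁻¹ * dd N b k m * (bt N b (k + m) : ℂ))
      = c0 N b n * ((aL n k (k + m) : ℂ) * exL n k (k + m) (nd N)) * Dg N (k + m) := by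
  have hbt : (bt N b k : ℂ) ≠ 0 := by
    exact_mod_cast bt_ne (N := N) (b := b) (k := k) (by omega)
  rw [bt_prod]
  push_cast
  have e0 : (bt N b k : ℂ)⁻¹ * dd N b k m * ((bt N b k : ℂ) * ∏ j ∈ range m, (tht N b (k + 1 + j) : ℂ))
      = dd N b k m * ∏ j ∈ range m, (tht N b (k + 1 + j) : ℂ) := by
    field_simp
  rw [e0]
  unfold dd
  rw [phase_eq hN, div_mul_eq_mul_div, mul_div_assoc, ← Finset.prod_div_distrib]
  have hfac : ∀ j ∈ range m, (tht N b (k + 1 + j) : ℂ) / (4 * Complex.I * sn N (2 * (j + 1))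
      * cs N (b + 2 * k + 2 + 2 * j))
      = (Complex.I * (16 * Real.pi * nd N)) * (((k : ℂ) + 1 + j) * ((((n - 1 - k : ℕ) : ℂ) - j)
        * (((j : ℂ) + 1)⁻¹ * (sc (((4 * Real.pi * (k + 1 + j) : ℝ) : ℂ) * nd N)
      * sc (((4 * Real.pi * (n - k - 1 - j) : ℝ) : ℂ) * nd N)
      * Complex.cos (((Real.pi * (4 * (k + j) + 1 - 2 * n) : ℝ) : ℂ) * nd N)
      * (sc (((4 * Real.pi * (j + 1) : ℝ) : ℂ) * nd N))⁻¹)))) := by
    intro j hj
    have hj' := Finset.mem_range.1 hj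
    have hs : (sn N (2 * ((j : ℝ) + 1)) : ℂ) ≠ 0 := by
      exact_mod_cast sn_ne' (N := N) (2 * (j + 1)) (by push_cast; ring) (by omega) (by omega)
    have hc : (cs N ((b : ℝ) + 2 * k + 2 + 2 * j) : ℂ) ≠ 0 := by
      exact_mod_cast cs_ne' (N := N) (b + 2 * k + 2 + 2 * j) (by push_cast; ring)
    have hcast : ((n - 1 - k : ℕ) : ℂ) = (n : ℂ) - 1 - k := by
      rw [Nat.cast_sub (by omega), Nat.cast_sub (by omega)]; simp
    have eT : (tht N b (k + 1 + j) : ℂ) = -16 * (sn N (2 * ((k : ℝ) + 1 + j)) : ℂ)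
        * (sn N (2 * b + (2 * ((k : ℝ) + 1 + j) + 1)) : ℂ)
        * (cs N (b + (2 * ((k : ℝ) + 1 + j) - 1)) : ℂ)
        * (cs N ((b : ℝ) + 2 * k + 2 + 2 * j) : ℂ) := by
      unfold tht
      push_cast
      rw [show (2 * (b : ℝ) + 2 * ((k : ℝ) + 1 + j) + 1) = 2 * b + (2 * (k + 1 + j) + 1) by ring,
        show ((b : ℝ) + 2 * ((k : ℝ) + 1 + j) - 1) = b + (2 * (k + 1 + j) - 1) by ring,
        show ((b : ℝ) + 2 * ((k : ℝ) + 1 + j)) = b + 2 * k + 2 + 2 * j by ring]
    have a2 := sn3 hN (2 * ((k : ℝ) + 1 + j) + 1)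
    rw [show (2 * Real.pi * (2 * (n : ℝ) + 1 - (2 * (k + 1 + j) + 1)))
        = 4 * Real.pi * (n - k - 1 - j) by ring] at a2
    have a3 := cs2 hN (2 * ((k : ℝ) + 1 + j) - 1)
    rw [show (2 * (2 * ((k : ℝ) + 1 + j) - 1) - 1 - 2 * n) = 4 * (k + j) + 1 - 2 * n by ring] at a3
    rw [eT, sn1 N ((k : ℝ) + 1 + j), a2, a3]
    rw [sn1 N ((j : ℝ) + 1)] at hs ⊢
    rw [hcast]
    have hnd := nd_ne N
    have hpi : (Real.pi : ℂ) ≠ 0 := by exact_mod_cast Real.pi_ne_zero
    have hj1 : ((j : ℂ) + 1) ≠ 0 := by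
      have : ((j + 1 : ℕ) : ℂ) ≠ 0 := by exact_mod_cast Nat.succ_ne_zero j
      push_cast at this; exact this
    have hsc := (mul_ne_zero_iff.1 hs).2
    have hII : Complex.I * Complex.I = -1 := Complex.I_mul_I
    clear a2 a3 eT hs
    generalize sc (((4 * Real.pi * (j + 1) : ℝ) : ℂ) * nd N) = s1 at *
    generalize sc (((4 * Real.pi * (k + 1 + j) : ℝ) : ℂ) * nd N) = s2 at *
    generalize sc (((4 * Real.pi * (n - k - 1 - j) : ℝ) : ℂ) * nd N) = s3 at *
    generalize Complex.cos (((Real.pi * (4 * (k + j) + 1 - 2 * n) : ℝ) : ℂ) * nd N) = c4 at *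
    generalize (cs N ((b : ℝ) + 2 * k + 2 + 2 * j) : ℂ) = c5 at *
    generalize nd N = t at *
    push_cast
    have e1 : s1⁻¹ * s1 = 1 := inv_mul_cancel₀ hsc
    have e2 : ((j : ℂ) + 1)⁻¹ * ((j : ℂ) + 1) = 1 := inv_mul_cancel₀ hj1
    rw [div_eq_iff (by
      have hI := Complex.I_ne_zero
      simp only [ne_eq, mul_eq_zero, not_or]
      refine ⟨⟨⟨by norm_num, hI⟩, ⟨⟨⟨⟨by norm_num, hpi⟩, hj1⟩, hnd⟩, hsc⟩⟩, hc⟩)]
    calc _ = (16 * Real.pi * t) * (((k : ℂ) + 1 + j) * (((n : ℂ) - 1 - k - j)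
          * (s2 * s3 * c4))) * (-16 * Real.pi * t) * c5 := by ring
      _ = (16 * Real.pi * t) * (((k : ℂ) + 1 + j) * (((n : ℂ) - 1 - k - j)
          * (s2 * s3 * c4))) * (16 * Real.pi * t) * c5 * (Complex.I * Complex.I)
          * (s1⁻¹ * s1) * (((j : ℂ) + 1)⁻¹ * ((j : ℂ) + 1)) := by
            rw [hII, e1, e2]; ring
      _ = _ := by ring
  rw [Finset.prod_congr rfl hfac, Finset.prod_mul_distrib, Finset.prod_const, Finset.card_range,
    Finset.prod_mul_distrib, Finset.prod_mul_distrib, Finset.prod_mul_distrib, desc_prod,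
    Finset.prod_inv_distrib, fact_prod]
  unfold exL
  have haL : aL n k (k + m) = ((n - 1 - k).choose m : ℝ) := by
    unfold aL
    rw [if_pos (by omega), Nat.add_sub_cancel_left]
  rw [haL, show k + m - k = m by omega]
  unfold Dg
  rw [← asc_prod k m]
  have hm0 : (m.factorial : ℂ) ≠ 0 := by exact_mod_cast Nat.factorial_ne_zero m
  have e2 : (m.factorial : ℂ) * (m.factorial : ℂ)⁻¹ = 1 := mul_inv_cancel₀ hm0
  have hI2 : ((-1) ^ m * Complex.I ^ m : ℂ) = (-Complex.I) ^ m := by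
    rw [← mul_pow]; congr 1; ring
  rw [pow_add, pow_add, mul_pow Complex.I]
  push_cast
  exact alg_L e2 hI2

/-- the scalar of a letter -/
def cx0 (N b n : ℕ) : Letter → ℂ
  | Letter.L => c0 N b n
  | _ => (starRingEnd ℂ) (c0 N b n)

lemma norm_cx0 (N b n : ℕ) (x : Letter) : ‖cx0 N b n x‖ = 1 := by
  cases x with
  | L => exact norm_c0 N b n
  | R => show ‖(starRingEnd ℂ) (c0 N b n)‖ = 1; rw [Complex.norm_conj]; exact norm_c0 N b n
  | L' => show ‖(starRingEnd ℂ) (c0 N b n)‖ = 1; rw [Complex.norm_conj]; exact norm_c0 N b n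
  | R' => show ‖(starRingEnd ℂ) (c0 N b n)‖ = 1; rw [Complex.norm_conj]; exact norm_c0 N b n

/-- the gauge matrix -/
def DD (N n : ℕ) : Matrix (Fin n) (Fin n) ℂ := diagonal fun k => Dg N k

lemma gauge_letter {N b : ℕ} (hb : b ≤ N) {x : Letter} (hx : x = Letter.L ∨ x = Letter.R) :
    DD N (N - b) * sp N b (N - b) x
      = (cx0 N b (N - b) x • fm (N - b) (nd N) x) * DD N (N - b) := by
  have hN : N = b + (N - b) := by omega
  rcases hx with rfl | rfl
  · ext k l
    have hk := k.2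
    have hl := l.2
    unfold DD
    rw [diagonal_mul, mul_diagonal]
    unfold sp tU bTi bT
    simp only
    rw [mul_diagonal, diagonal_mul]
    show Dg N k * ((bt N b k : ℂ)⁻¹ * tf N b l k * (bt N b l : ℂ))
      = (c0 N b (N - b) * ((aL (N - b) k l : ℂ) * exL (N - b) k l (nd N))) * Dg N l
    by_cases h : (k : ℕ) ≤ l
    · obtain ⟨m, hm⟩ : ∃ m, (l : ℕ) = k + m := ⟨l - k, by omega⟩
      rw [hm]
      unfold tf
      rw [if_pos (by omega), show (k : ℕ) + m - k = m by omega]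
      exact gauge_L hN (by omega)
    · have h1 : tf N b l k = 0 := if_neg h
      have h2 : aL (N - b) k l = 0 := if_neg h
      rw [h1, h2]; simp
  · ext k l
    have hk := k.2
    have hl := l.2
    unfold DD
    rw [diagonal_mul, mul_diagonal]
    show Dg N k * (starRingEnd ℂ) (tf N b k l)
      = ((starRingEnd ℂ) (c0 N b (N - b)) * ((aR k l : ℂ) * exR (N - b) k l (nd N))) * Dg N l
    by_cases h : (l : ℕ) ≤ k
    · obtain ⟨m, hm⟩ : ∃ m, (k : ℕ) = l + m := ⟨k - l, by omega⟩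
      rw [hm]
      unfold tf
      rw [if_pos (by omega), show (l : ℕ) + m - l = m by omega]
      exact gauge_R hN l m
    · have h1 : tf N b k l = 0 := if_neg h
      have h2 : aR k l = 0 := by
        unfold aR
        rw [Nat.choose_eq_zero_of_lt (by omega)]; simp
      rw [h1, h2]; simp

/-- The traces of the quantum representations are the values of the analytic family. -/
lemma trace_rho_ft {N b : ℕ} (hb : b ≤ N) {w : List Letter}
    (hw : ∀ x ∈ w, x = Letter.L ∨ x = Letter.R) :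
    ‖(rho N b w).trace‖ = ‖ft (N - b) w (nd N)‖ := by
  rw [trace_rho]
  unfold ft
  obtain ⟨C, hC, key⟩ : ∃ C : ℂ, ‖C‖ = 1 ∧ DD N (N - b) * (w.map (sp N b (N - b))).prod
      = (C • (w.map (fm (N - b) (nd N))).prod) * DD N (N - b) := by
    induction w with
    | nil => exact ⟨1, norm_one, by simp⟩
    | cons x w ih =>
      obtain ⟨C, hC, key⟩ := ih (fun y hy => hw y (List.mem_cons_of_mem _ hy))
      refine ⟨cx0 N b (N - b) x * C, by rw [norm_mul, norm_cx0, hC, one_mul], ?_⟩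
      rw [List.map_cons, List.prod_cons, List.map_cons, List.prod_cons, ← mul_assoc,
        gauge_letter hb (hw x List.mem_cons_self), mul_assoc, key, ← mul_assoc,
        smul_mul_smul_comm]
  have hunit : IsUnit (DD N (N - b)).det := by
    unfold DD
    rw [det_diagonal]
    apply IsUnit.mk0
    rw [Finset.prod_ne_zero_iff]
    intro k _
    exact Dg_ne N k
  have hD := nonsing_inv_mul _ hunit
  have hD2 := mul_nonsing_inv _ hunit
  have e : (w.map (sp N b (N - b))).prod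
      = (DD N (N - b))⁻¹ * ((C • (w.map (fm (N - b) (nd N))).prod) * DD N (N - b)) := by
    rw [← key, ← mul_assoc, hD, one_mul]
  rw [e, trace_mul_comm, mul_assoc, hD2, mul_one, trace_smul, smul_eq_mul, norm_mul, hC, one_mul]

end

end Pool.Agent.H759.PTB
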