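import Pool.Agent.H759.PTB.FamTr
import Pool.Agent.H759.PTB.FamLow

/-!
Exponential growth of the invariants outside a small set of levels.
-/

namespace Pool.Agent.H759.PTB

open Finset Metric

noncomputable section

lemma exp_three_half : Real.exp (3 / 2) ≤ 9 / 2 := by
  have h3 : Real.exp (3 / 2) ^ 2 = Real.exp 1 ^ 3 := by
    rw [← Real.exp_nat_mul, ← Real.exp_nat_mul]; norm_num
  have h4 := Real.exp_one_lt_d9
  have h5 : Real.exp 1 ^ 3 ≤ (2.7182818286 : ℝ) ^ 3 := by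
    gcongr
  nlinarith [Real.exp_pos (3 / 2 : ℝ)]

lemma exp_small : Real.exp (3 / 20) ≤ 20 / 17 := by
  have h := Real.one_sub_le_exp_neg (3 / 20)
  rw [Real.exp_neg] at h
  have hp := Real.exp_pos (3 / 20 : ℝ)
  rw [le_inv_comm₀ (by norm_num) hp] at h
  exact h.trans (by norm_num)

/-- the threshold -/
def dlt (n : ℕ) : ℝ := 1 / 512 * Real.sqrt (1 / 2) ^ n

lemma dlt_nonneg (n : ℕ) : 0 ≤ dlt n := by unfold dlt; positivity

lemma dlt_sq (n : ℕ) : (2 ^ (n + 9)) ^ 2 * dlt n ^ 2 = 2 ^ n := by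
  unfold dlt
  have h : (Real.sqrt (1 / 2) ^ n) ^ 2 = (1 / 2) ^ n := by
    rw [← pow_mul, mul_comm, pow_mul, Real.sq_sqrt (by norm_num)]
  rw [mul_pow (1 / 512), h, pow_add, mul_pow, ← pow_mul]
  have h2 : ((2 : ℝ) ^ n) ^ 2 * (1 / 2) ^ n = 2 ^ n := by
    rw [one_div, inv_pow, sq, mul_assoc, mul_inv_cancel₀ (by positivity), mul_one]
  rw [← pow_mul] at h2
  have e : ((2 : ℝ) ^ 9) ^ 2 * (1 / 512) ^ 2 = 1 := by norm_num
  linear_combination e * ((2 : ℝ) ^ (n * 2) * (1 / 2) ^ n) + h2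

lemma dlt_exp (n : ℕ) : dlt n * Real.exp (3 * ((n + 10 : ℕ) : ℝ) / 20) ≤ 1 / 4 := by
  unfold dlt
  have h1 : Real.exp (3 * ((n + 10 : ℕ) : ℝ) / 20) = Real.exp (3 / 20) ^ n * Real.exp (3 / 2) := by
    rw [← Real.exp_nat_mul, ← Real.exp_add]; congr 1; push_cast; ring
  rw [h1]
  have h2 : Real.sqrt (1 / 2) ≤ 17 / 20 := by
    apply Real.sqrt_le_iff.2
    norm_num
  have h3 : (Real.sqrt (1 / 2) * Real.exp (3 / 20)) ^ n ≤ 1 := by
    apply pow_le_one₀ (by positivity)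
    have := exp_small
    have hp := Real.exp_pos (3 / 20 : ℝ)
    nlinarith [Real.sqrt_nonneg (1 / 2 : ℝ)]
  have h4 := exp_three_half
  have h5 := Real.exp_pos (3 / 2 : ℝ)
  calc 1 / 512 * Real.sqrt (1 / 2) ^ n * (Real.exp (3 / 20) ^ n * Real.exp (3 / 2))
      = 1 / 512 * (Real.sqrt (1 / 2) * Real.exp (3 / 20)) ^ n * Real.exp (3 / 2) := by
        rw [mul_pow]; ring
    _ ≤ 1 / 512 * 1 * (9 / 2) := by gcongr
    _ ≤ _ := by norm_num

lemma TV_ge {N b : ℕ} (hb : b < N) (w : List Letter) : ‖(rho N b w).trace‖ ^ 2 ≤ TV N w := by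
  unfold TV
  exact Finset.single_le_sum (f := fun b => ‖(rho N b w).trace‖ ^ 2)
    (fun _ _ => by positivity) (Finset.mem_range.2 hb)

theorem growth_count {w : List Letter} (hw : ∀ x ∈ w, x = Letter.L ∨ x = Letter.R)
    (hL : Letter.L ∈ w) (hR : Letter.R ∈ w) {x n : ℕ} (hn : 1 ≤ n)
    (hx : 2 * 10 ^ 12 * (w.length : ℝ) ^ 2 * n ≤ x) :
    (((Finset.Ico x (2 * x)).filter (fun N => TV N w < 2 ^ n)).card : ℝ)
      ≤ 2 * 10 ^ 12 * (w.length : ℝ) ^ 2 * n ^ 2 / x := by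
  have hℓ : (1 : ℝ) ≤ w.length := by
    have : 0 < w.length := List.length_pos_of_mem hL
    exact_mod_cast this
  set ℓ : ℝ := (w.length : ℝ) with hℓd
  have hn1 : (1 : ℝ) ≤ n := by exact_mod_cast hn
  set d : ℕ := n + 10 with hd
  have hd1 : (d : ℝ) = n + 10 := by rw [hd]; push_cast; ring
  have hd2 : (d : ℝ) ≤ 11 * n := by rw [hd1]; linarith
  have hd0 : (0 : ℝ) < d := by rw [hd1]; linarith
  have hxd : 10 ^ 11 * ℓ ^ 2 * d ≤ x := by
    have h1 : 10 ^ 11 * ℓ ^ 2 * d ≤ 10 ^ 11 * ℓ ^ 2 * (11 * n) := by gcongr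
    have h2 : 10 ^ 11 * ℓ ^ 2 * (11 * n) ≤ 2 * 10 ^ 12 * ℓ ^ 2 * n := by
      have : 0 ≤ ℓ ^ 2 * n := by positivity
      nlinarith
    linarith
  have hℓ2 : 1 ≤ ℓ ^ 2 := by nlinarith
  have hxd2 : 10 ^ 11 * (d : ℝ) ≤ x := by
    have : 10 ^ 11 * (d : ℝ) ≤ 10 ^ 11 * ℓ ^ 2 * d := by nlinarith
    linarith
  have hx0 : (0 : ℝ) < x := by nlinarith
  have hx1 : 1 ≤ x := by exact_mod_cast (by linarith : (0 : ℝ) < x)
  have hdx : d ≤ x := by
    have : (d : ℝ) ≤ x := by nlinarith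
    exact_mod_cast this
  have hF := F0_ge (n := d) (by omega) hw hL hR
  have hF0 : 0 < F0 d w := lt_of_lt_of_le (by positivity) hF
  set g : ℂ → ℂ := fun t => ft d w t / (F0 d w : ℂ) with hgdef
  have hdiff : DifferentiableOn ℂ g (ball 0 (6 / x)) := by
    apply DifferentiableOn.div_const
    apply ft_diff
    rw [mul_div_assoc', div_le_div_iff₀ hx0 (by norm_num)]
    linarith
  have hB : ∀ z, ‖z‖ ≤ 5 / x → ‖g z‖ ≤ Real.exp (275 * ℓ * d ^ 2 / x) := by
    intro z hz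
    have hz2 : d * ‖z‖ ≤ 1 / 50 := by
      have : d * ‖z‖ ≤ d * (5 / x) := by gcongr
      refine this.trans ?_
      rw [mul_div_assoc', div_le_div_iff₀ hx0 (by norm_num)]
      linarith
    have h1 := ft_bound hz2 w
    rw [hgdef]
    simp only
    rw [norm_div, Complex.norm_real, Real.norm_eq_abs, abs_of_pos hF0, div_le_iff₀ hF0, mul_comm]
    refine h1.trans ?_
    apply mul_le_mul_of_nonneg_left _ hF0.le
    apply Real.exp_le_exp.2
    calc 55 * (w.length : ℝ) * (d ^ 2 * ‖z‖) ≤ 55 * ℓ * (d ^ 2 * (5 / x)) := by gcongr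
      _ = _ := by ring
  have h0 : g 0 = 1 := by
    rw [hgdef]
    simp only
    rw [ft_zero]
    exact div_self (by exact_mod_cast hF0.ne')
  have hcount := count_bad (M := 275 * ℓ * d ^ 2 / x) (δ := dlt n) (a := 184 * ℓ * d ^ 2 / x)
    hx1 hdiff hB h0 (dlt_nonneg n) (by positivity) (by
      rw [div_le_iff₀ hx0]
      have : 3 / 2 * (184 * ℓ * (d : ℝ) ^ 2 / x) * x = 276 * ℓ * d ^ 2 := by field_simp; ring
      rw [this]
      have : 0 ≤ ℓ * (d : ℝ) ^ 2 := by positivity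
      nlinarith)
    (fun s hs => by
      have h1 := small_sum (n := d) (by omega) hℓ hxd hs
      have h2 := dlt_exp n
      calc dlt n * ((s + 1) * ((88 * (x : ℝ)) ^ s / s.factorial))
          ≤ dlt n * Real.exp (3 * d / 20) := mul_le_mul_of_nonneg_left h1 (dlt_nonneg n)
        _ ≤ _ := h2)
  have hsub : (Finset.Ico x (2 * x)).filter (fun N => TV N w < 2 ^ n)
      ⊆ (Finset.Ico x (2 * x)).filter (fun N => ‖g (nd N)‖ ≤ dlt n) := by
    intro N hN
    rw [Finset.mem_filter] at hN ⊢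
    refine ⟨hN.1, ?_⟩
    by_contra hcon
    push Not at hcon
    have hNx := (Finset.mem_Ico.1 hN.1).1
    have hbN : N - d < N := by omega
    have h1 := TV_ge hbN w
    rw [trace_rho_ft (by omega) hw, show N - (N - d) = d by omega] at h1
    have h2 : ‖ft d w (nd N)‖ = F0 d w * ‖g (nd N)‖ := by
      rw [hgdef]
      simp only
      rw [norm_div, Complex.norm_real, Real.norm_eq_abs, abs_of_pos hF0]
      field_simp
    have h3 : 2 ^ (n + 9) * dlt n ≤ ‖ft d w (nd N)‖ := by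
      rw [h2]
      have h4 : (2 : ℝ) ^ (n + 9) ≤ F0 d w := by
        rw [show n + 9 = d - 1 by omega]; exact hF
      have := dlt_nonneg n
      gcongr
    have h5 : (2 : ℝ) ^ n ≤ TV N w := by
      rw [← dlt_sq n, ← mul_pow]
      refine le_trans ?_ h1
      have := dlt_nonneg n
      gcongr
    linarith [hN.2]
  calc (((Finset.Ico x (2 * x)).filter (fun N => TV N w < 2 ^ n)).card : ℝ)
      ≤ (((Finset.Ico x (2 * x)).filter (fun N => ‖g (nd N)‖ ≤ dlt n)).card : ℝ) := by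
        exact_mod_cast Finset.card_le_card hsub
    _ ≤ 184 * ℓ * d ^ 2 / x := hcount
    _ ≤ 2 * 10 ^ 12 * ℓ ^ 2 * n ^ 2 / x := by
        apply div_le_div_of_nonneg_right _ hx0.le
        have h1 : (d : ℝ) ^ 2 ≤ (11 * n) ^ 2 := by gcongr
        calc 184 * ℓ * (d : ℝ) ^ 2 ≤ 184 * ℓ * (11 * n) ^ 2 := by gcongr
          _ ≤ _ := by
            have h2 : ℓ ≤ ℓ ^ 2 := by nlinarith
            have h3 : (0 : ℝ) ≤ (n : ℝ) ^ 2 := by positivity
            nlinarith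

end

end Pool.Agent.H759.PTB
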