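import Pool.Agent.H759.PTB.Link
import Pool.Agent.H759.PTB.Weak

/-!
Exponential growth at all levels.
-/

namespace Pool.Agent.H759.PTB

open Finset Metric

noncomputable section

/-- the radius of the zero-free disc, times `n` -/
def rad (w : List Letter) : ℝ := 1 / (1440 * Real.pi * (12 * Kw w ^ 2) ^ 2 * w.length)

lemma Kw_ge {w : List Letter} (hw : ∀ x ∈ w, x = Letter.L ∨ x = Letter.R) : 1 ≤ Kw w := by
  obtain ⟨⟨h1, _⟩, _⟩ := mt_pos hw
  exact h1.trans ((le_max_left _ _).trans (le_max_left _ _))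

lemma rad_pos {w : List Letter} (hw : ∀ x ∈ w, x = Letter.L ∨ x = Letter.R)
    (hL : Letter.L ∈ w) : 0 < rad w := by
  unfold rad
  have h1 := Kw_ge hw
  have h2 : (0 : ℝ) < w.length := by exact_mod_cast List.length_pos_of_mem hL
  have := Real.pi_pos
  positivity

lemma rad_small {w : List Letter} (hw : ∀ x ∈ w, x = Letter.L ∨ x = Letter.R)
    (hL : Letter.L ∈ w) : 220 * (w.length : ℝ) * rad w ≤ 1 / 100 ∧ rad w ≤ 1 / 50 := by
  have h1 := Kw_ge hw
  have h2 : (1 : ℝ) ≤ w.length := by exact_mod_cast List.length_pos_of_mem hL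
  have h3 := Real.pi_gt_three
  have h4 : (1 : ℝ) ≤ Kw w ^ 2 := by nlinarith
  have h5 : (144 : ℝ) ≤ (12 * Kw w ^ 2) ^ 2 := by nlinarith
  have h6 : 4320 * 144 * (w.length : ℝ) ≤ 1440 * Real.pi * (12 * Kw w ^ 2) ^ 2 * w.length := by
    have : (4320 : ℝ) ≤ 1440 * Real.pi := by linarith
    have h7 : (0 : ℝ) ≤ w.length := by linarith
    gcongr
  have h8 : rad w ≤ 1 / (4320 * 144 * (w.length : ℝ)) := by
    unfold rad
    apply one_div_le_one_div_of_le (by positivity) h6
  constructor
  · calc 220 * (w.length : ℝ) * rad w ≤ 220 * (w.length : ℝ) * (1 / (4320 * 144 * (w.length : ℝ))) := by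
          gcongr
      _ = 220 / (4320 * 144) := by field_simp
      _ ≤ _ := by norm_num
  · refine h8.trans ?_
    apply one_div_le_one_div_of_le (by norm_num)
    nlinarith

/-- lower bound of the family of traces on a disc of radius of order `1 / n` -/
theorem ft_lower {n : ℕ} (hn : 1 ≤ n) {w : List Letter}
    (hw : ∀ x ∈ w, x = Letter.L ∨ x = Letter.R) (hL : Letter.L ∈ w) (hR : Letter.R ∈ w) {t : ℂ}
    (ht : n * ‖t‖ ≤ rad w / 2) :
    2 ^ (n - 1) * Real.exp (-(110 * w.length * rad w * n)) ≤ ‖ft n w t‖ := by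
  have hρ := rad_pos hw hL
  have hn0 : (0 : ℝ) < n := by exact_mod_cast hn
  have hℓ : (0 : ℝ) < w.length := by exact_mod_cast List.length_pos_of_mem hL
  have hF := F0_ge (by omega : 0 < n) hw hL hR
  have hF0 : 0 < F0 n w := lt_of_lt_of_le (by positivity) hF
  have hR0 : 0 < rad w / n := by positivity
  have hsmall := (rad_small hw hL).2
  set g : ℂ → ℂ := fun t => ft n w t / (F0 n w : ℂ) with hgdef
  have hball : ∀ z ∈ ball (0 : ℂ) (rad w / n), n * ‖z‖ < rad w := by
    intro z hz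
    rw [mem_ball_zero_iff, lt_div_iff₀ hn0] at hz
    linarith
  have hg := lower_of_ne_zero (g := g) (R := rad w / n) (M := 55 * w.length * rad w * n) hR0
    (by positivity) (by
      apply DifferentiableOn.div_const
      apply ft_diff
      rw [mul_div_cancel₀ _ hn0.ne']
      exact hsmall) (by
      intro z hz
      have h1 := hball z hz
      have h2 := ft_bound (n := n) (t := z) (by linarith) w
      rw [hgdef]
      simp only
      rw [norm_div, Complex.norm_real, Real.norm_eq_abs, abs_of_pos hF0, div_le_iff₀ hF0, mul_comm]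
      refine h2.trans ?_
      apply mul_le_mul_of_nonneg_left _ hF0.le
      apply Real.exp_le_exp.2
      calc 55 * (w.length : ℝ) * (n ^ 2 * ‖z‖) = 55 * (w.length : ℝ) * (n * (n * ‖z‖)) := by ring
        _ ≤ 55 * (w.length : ℝ) * (n * rad w) := by gcongr
        _ = _ := by ring) (by
      rw [hgdef]
      simp only
      rw [ft_zero]
      exact div_self (by exact_mod_cast hF0.ne')) (by
      intro z hz
      have h1 := hball z hz
      apply div_ne_zero _ (by exact_mod_cast hF0.ne')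
      apply ft_ne hn hw hL hR
      have h2 : n * ‖z‖ * (1440 * Real.pi * (12 * Kw w ^ 2) ^ 2 * w.length) ≤ 1 := by
        have h3 : 0 < 1440 * Real.pi * (12 * Kw w ^ 2) ^ 2 * w.length := by
          have := Kw_ge hw
          have := Real.pi_pos
          positivity
        rw [← le_div_iff₀ h3]
        exact h1.le
      linarith) (z := t) (by
      rw [le_div_iff₀ (by norm_num), le_div_iff₀ hn0]
      linarith)
  have h1 : ‖ft n w t‖ = F0 n w * ‖g t‖ := by
    rw [hgdef]
    simp only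
    rw [norm_div, Complex.norm_real, Real.norm_eq_abs, abs_of_pos hF0]
    field_simp
  rw [h1]
  have e : -(2 * (55 * (w.length : ℝ) * rad w * n)) = -(110 * w.length * rad w * n) := by ring
  rw [e] at hg
  gcongr

lemma TV_exp {n N : ℕ} (hn : 4 ≤ n) (hnN : n ≤ N) {w : List Letter}
    (hw : ∀ x ∈ w, x = Letter.L ∨ x = Letter.R) (hL : Letter.L ∈ w) (hR : Letter.R ∈ w)
    (h : 2 * (n : ℝ) ≤ rad w * (2 * N + 1)) : Real.exp n ≤ TV N w := by
  have hρ := rad_pos hw hL
  have hnd : ‖nd N‖ = 1 / (2 * N + 1) := by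
    unfold nd
    rw [Complex.norm_real, Real.norm_eq_abs, abs_of_pos (by positivity)]
  have h1 : n * ‖nd N‖ ≤ rad w / 2 := by
    rw [hnd, mul_one_div, div_le_div_iff₀ (by positivity) (by norm_num)]
    linarith
  have h2 := ft_lower (by omega : 1 ≤ n) hw hL hR h1
  have hbN : N - n < N := by omega
  have h3 := TV_ge hbN w
  rw [trace_rho_ft (by omega) hw, show N - (N - n) = n by omega] at h3
  refine le_trans ?_ h3
  have h4 : (0 : ℝ) ≤ 2 ^ (n - 1) * Real.exp (-(110 * w.length * rad w * n)) := by positivity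
  refine le_trans ?_ (pow_le_pow_left₀ h4 h2 2)
  rw [mul_pow, ← Real.exp_nat_mul]
  have h5 : (4 : ℝ) ^ (n - 1) = (2 ^ (n - 1)) ^ 2 := by
    rw [← pow_mul, mul_comm, pow_mul]; norm_num
  rw [← h5]
  have hn0 : (0 : ℝ) ≤ n := by positivity
  have hs := (rad_small hw hL).1
  have h6 : -(n : ℝ) / 100 ≤ (2 : ℕ) * -(110 * w.length * rad w * n) := by
    push_cast
    have : 220 * (w.length : ℝ) * rad w * n ≤ 1 / 100 * n := by gcongr
    linarith
  have h7 : Real.exp (-(n : ℝ) / 100) ≤ Real.exp ((2 : ℕ) * -(110 * w.length * rad w * n)) :=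
    Real.exp_le_exp.2 h6
  have h8 : Real.exp ((n : ℝ) + n / 100) ≤ 4 ^ (n - 1) := by
    have h9 : Real.log 4 = 2 * Real.log 2 := by
      rw [show (4 : ℝ) = 2 ^ 2 by norm_num, Real.log_pow]; norm_num
    have h10 := Real.log_two_gt_d9
    rw [← Real.exp_log (show (0 : ℝ) < 4 ^ (n - 1) by positivity), Real.log_pow]
    apply Real.exp_le_exp.2
    rw [h9, Nat.cast_sub (by omega)]
    have hn4 : (4 : ℝ) ≤ n := by exact_mod_cast hn
    push_cast
    nlinarith
  calc Real.exp n = Real.exp ((n : ℝ) + n / 100) * Real.exp (-(n : ℝ) / 100) := by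
        rw [← Real.exp_add]; congr 1; ring
    _ ≤ 4 ^ (n - 1) * Real.exp ((2 : ℕ) * -(110 * w.length * rad w * n)) := by gcongr

/-- **Exponential growth at all levels.** -/
theorem exp_growth {w : List Letter} (hw : ∀ x ∈ w, x = Letter.L ∨ x = Letter.R)
    (hL : Letter.L ∈ w) (hR : Letter.R ∈ w) :
    ∃ c : ℝ, 0 < c ∧ ∃ N0 : ℕ, ∀ N : ℕ, N0 ≤ N → Real.exp (c * (2 * N + 1)) ≤ TV N w := by
  have hρ := rad_pos hw hL
  have hs := (rad_small hw hL).2
  refine ⟨rad w / 4, by positivity, ⌈16 / rad w⌉₊, ?_⟩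
  intro N hN
  have hN' : 16 / rad w ≤ N := (Nat.le_ceil _).trans (by exact_mod_cast hN)
  rw [div_le_iff₀ hρ] at hN'
  set n := ⌊rad w * (2 * N + 1) / 2⌋₊ with hn
  have hx0 : 0 ≤ rad w * (2 * (N : ℝ) + 1) / 2 := by positivity
  have h1 : (n : ℝ) ≤ rad w * (2 * N + 1) / 2 := Nat.floor_le hx0
  have h2 : rad w * (2 * N + 1) / 2 < n + 1 := Nat.lt_floor_add_one _
  have h3 : (4 : ℝ) < n + 1 := by
    have : rad w * (2 * (N : ℝ) + 1) / 2 = N * rad w + rad w / 2 := by ring
    linarith
  have h4 : 4 ≤ n := by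
    have : (3 : ℝ) < n := by linarith
    have : 3 < n := by exact_mod_cast this
    omega
  have h5 : n ≤ N := by
    have hN0 : (0 : ℝ) ≤ N := by positivity
    have hN1 : (1 : ℝ) ≤ N := by
      by_contra hcon
      push Not at hcon
      have : (N : ℝ) * rad w ≤ 1 * rad w := by gcongr
      linarith
    have : (n : ℝ) ≤ N := by
      calc (n : ℝ) ≤ rad w * (2 * N + 1) / 2 := h1
        _ ≤ 1 / 50 * (2 * N + 1) / 2 := by gcongr
        _ ≤ N := by linarith
    exact_mod_cast this
  refine le_trans ?_ (TV_exp h4 h5 hw hL hR (by linarith))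
  apply Real.exp_le_exp.2
  have : (1 : ℝ) ≤ rad w * (2 * N + 1) / 4 := by
    have : rad w * (2 * (N : ℝ) + 1) / 4 = (N * rad w) / 2 + rad w / 4 := by ring
    linarith
  linarith

end

end Pool.Agent.H759.PTB
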