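import Pool.Agent.H759.PTB.NoZero

/-!
The trace of a matrix whose symbol has no zeros in the half-planes is not zero.
-/

namespace Pool.Agent.H759.PTB

open Finset Polynomial

noncomputable section

/-- product of the boundary vectors -/
def cf (l : List (ℂ × ℂ)) : ℂ[X] := (l.map fun u => C u.1 + C u.2 * X).prod

/-- a row of the matrix as a polynomial -/
def rwp (m : ℕ) (M : ℕ → ℕ → ℂ) (k : ℕ) : ℂ[X] := ∑ l ∈ range (m + 1), C (M k l) * X ^ l

/-- the symbol -/
def sy (m : ℕ) (M : ℕ → ℕ → ℂ) (l : List (ℂ × ℂ)) : ℂ[X] :=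
  ∑ k ∈ range (m + 1), C ((cf l).coeff k) * rwp m M k

/-- the symbol has no zeros in the half-planes -/
def PP (m : ℕ) (M : ℕ → ℕ → ℂ) : Prop :=
  ∀ l : List (ℂ × ℂ), l.length = m → (∀ u ∈ l, Rp u) → ∀ z : ℂ, 0 ≤ z.re →
    (sy m M l).eval z ≠ 0

/-- the contraction of one pair -/
def ctr (m : ℕ) (M : ℕ → ℕ → ℂ) (k l : ℕ) : ℂ :=
  (((m : ℂ) + 1 - l) * M k l + (l + 1) * M (k + 1) (l + 1)) / (m + 1)

lemma cf_natDegree (l : List (ℂ × ℂ)) : (cf l).natDegree ≤ l.length := by
  induction l with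
  | nil => simp [cf]
  | cons u l ih =>
    unfold cf at *
    rw [List.map_cons, List.prod_cons, List.length_cons]
    refine (natDegree_mul_le).trans ?_
    have : (C u.1 + C u.2 * X : ℂ[X]).natDegree ≤ 1 := by
      refine (natDegree_add_le _ _).trans ?_
      rw [natDegree_C]
      exact max_le (Nat.zero_le _) ((natDegree_C_mul_le _ _).trans natDegree_X_le)
    omega

lemma cf_coeff_zero (u : ℂ × ℂ) (l : List (ℂ × ℂ)) :
    (cf (u :: l)).coeff 0 = u.1 * (cf l).coeff 0 := by
  unfold cf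
  rw [List.map_cons, List.prod_cons, mul_coeff_zero]
  simp

lemma cf_coeff_succ (u : ℂ × ℂ) (l : List (ℂ × ℂ)) (k : ℕ) :
    (cf (u :: l)).coeff (k + 1) = u.1 * (cf l).coeff (k + 1) + u.2 * (cf l).coeff k := by
  unfold cf
  rw [List.map_cons, List.prod_cons, add_mul, coeff_add, coeff_C_mul, mul_assoc, coeff_C_mul,
    coeff_X_mul]

lemma sy_cons (m : ℕ) (M : ℕ → ℕ → ℂ) (u : ℂ × ℂ) (l : List (ℂ × ℂ)) (hl : l.length = m) :
    sy (m + 1) M (u :: l)
      = C u.1 * (∑ k ∈ range (m + 1), C ((cf l).coeff k) * rwp (m + 1) M k)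
        + C u.2 * (∑ k ∈ range (m + 1), C ((cf l).coeff k) * rwp (m + 1) M (k + 1)) := by
  have hlast : (cf l).coeff (m + 1) = 0 := by
    apply coeff_eq_zero_of_natDegree_lt
    have := cf_natDegree l
    omega
  unfold sy
  rw [Finset.sum_range_succ']
  rw [cf_coeff_zero]
  simp only [cf_coeff_succ]
  have h1 : ∑ k ∈ range (m + 1), C ((cf l).coeff k) * rwp (m + 1) M k
      = (∑ k ∈ range (m + 1), C ((cf l).coeff (k + 1)) * rwp (m + 1) M (k + 1))
        + C ((cf l).coeff 0) * rwp (m + 1) M 0 := by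
    rw [← Finset.sum_range_succ' (fun k => C ((cf l).coeff k) * rwp (m + 1) M k) (m + 1),
      Finset.sum_range_succ _ (m + 1), hlast]
    simp
  rw [h1]
  have h2 : ∀ k ∈ range (m + 1), C (u.1 * (cf l).coeff (k + 1) + u.2 * (cf l).coeff k)
      * rwp (m + 1) M (k + 1)
      = C u.1 * (C ((cf l).coeff (k + 1)) * rwp (m + 1) M (k + 1))
        + C u.2 * (C ((cf l).coeff k) * rwp (m + 1) M (k + 1)) := by
    intro k _
    rw [C_add, C_mul, C_mul]
    ring
  rw [Finset.sum_congr rfl h2, Finset.sum_add_distrib, ← Finset.mul_sum, ← Finset.mul_sum, C_mul]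
  ring

lemma rwp_natDegree (m : ℕ) (M : ℕ → ℕ → ℂ) (k : ℕ) : (rwp m M k).natDegree ≤ m := by
  unfold rwp
  apply natDegree_sum_le_of_forall_le
  intro l hl
  have := Finset.mem_range.1 hl
  refine (natDegree_C_mul_X_pow_le _ _).trans (by omega)

lemma sy_natDegree (m : ℕ) (M : ℕ → ℕ → ℂ) (l : List (ℂ × ℂ)) : (sy m M l).natDegree ≤ m := by
  unfold sy
  apply natDegree_sum_le_of_forall_le
  intro k _
  exact (natDegree_C_mul_le _ _).trans (rwp_natDegree m M k)

lemma row_identity (m : ℕ) (M : ℕ → ℕ → ℂ) (k : ℕ) (z : ℂ) :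
    ((m : ℂ) + 1) * (rwp (m + 1) M k).eval z - z * (derivative (rwp (m + 1) M k)).eval z
      + (derivative (rwp (m + 1) M (k + 1))).eval z
      = ((m : ℂ) + 1) * (rwp m (ctr m M) k).eval z := by
  have hm : (m : ℂ) + 1 ≠ 0 := by exact_mod_cast Nat.succ_ne_zero m
  have e1 : ∀ j, (derivative (rwp (m + 1) M j)).eval z
      = ∑ l ∈ range (m + 1), ((l : ℂ) + 1) * M j (l + 1) * z ^ l := by
    intro j
    unfold rwp
    rw [derivative_sum, eval_finsetSum, Finset.sum_range_succ']
    simp only [derivative_C_mul_X_pow, pow_zero, mul_one, derivative_C, eval_zero, add_zero]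
    apply Finset.sum_congr rfl
    intro l _
    rw [eval_C_mul, eval_pow, eval_X, Nat.add_sub_cancel]
    push_cast
    ring
  have e2 : (rwp (m + 1) M k).eval z = ∑ l ∈ range (m + 2), M k l * z ^ l := by
    unfold rwp
    rw [eval_finsetSum]
    apply Finset.sum_congr rfl
    intro l _
    rw [eval_C_mul, eval_pow, eval_X]
  have e3 : (rwp m (ctr m M) k).eval z = ∑ l ∈ range (m + 1), ctr m M k l * z ^ l := by
    unfold rwp
    rw [eval_finsetSum]
    apply Finset.sum_congr rfl
    intro l _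
    rw [eval_C_mul, eval_pow, eval_X]
  have e4 : z * ∑ l ∈ range (m + 1), ((l : ℂ) + 1) * M k (l + 1) * z ^ l
      = ∑ l ∈ range (m + 2), (l : ℂ) * M k l * z ^ l := by
    rw [Finset.sum_range_succ' _ (m + 1), Finset.mul_sum]
    push_cast
    rw [zero_mul, zero_mul, add_zero]
    apply Finset.sum_congr rfl
    intro l _
    ring
  rw [e1, e1, e2, e3, e4, Finset.mul_sum, Finset.mul_sum, ← Finset.sum_sub_distrib,
    Finset.sum_range_succ _ (m + 1), add_right_comm, ← Finset.sum_add_distrib]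
  have e5 : ((m : ℂ) + 1) * (M k (m + 1) * z ^ (m + 1))
      - ((m + 1 : ℕ) : ℂ) * M k (m + 1) * z ^ (m + 1) = 0 := by
    push_cast; ring
  rw [e5, add_zero]
  apply Finset.sum_congr rfl
  intro l _
  unfold ctr
  field_simp

lemma PP_step {m : ℕ} {M : ℕ → ℕ → ℂ} (h : PP (m + 1) M) : PP m (ctr m M) := by
  intro l hl hR z hz
  set A0 : ℂ[X] := ∑ k ∈ range (m + 1), C ((cf l).coeff k) * rwp (m + 1) M k with hA0
  set A1 : ℂ[X] := ∑ k ∈ range (m + 1), C ((cf l).coeff k) * rwp (m + 1) M (k + 1) with hA1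
  have key : (((m : ℂ) + 1) * A0.eval z - z * (derivative A0).eval z) + (derivative A1).eval z
      ≠ 0 := by
    apply contraction (b := (derivative A0).eval z)
      (c := ((m : ℂ) + 1) * A1.eval z - z * (derivative A1).eval z)
    intro u hu y hy
    have h1 := laguerre (G := sy (m + 1) M (u :: l)) (d := m + 1) (sy_natDegree _ _ _)
      (Nat.succ_pos m) (fun x hx => h (u :: l) (by simp [hl]) (by
        intro v hv
        rcases List.mem_cons.1 hv with rfl | hv
        · exact hu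
        · exact hR v hv) x hx) hz hy
    rw [sy_cons m M u l hl, ← hA0, ← hA1] at h1
    rw [derivative_add, derivative_C_mul, derivative_C_mul, eval_add, eval_C_mul, eval_C_mul,
      eval_add, eval_C_mul, eval_C_mul] at h1
    push_cast at h1
    intro h2
    apply h1
    linear_combination h2
  have hsum : (((m : ℂ) + 1) * A0.eval z - z * (derivative A0).eval z) + (derivative A1).eval z
      = ((m : ℂ) + 1) * (sy m (ctr m M) l).eval z := by
    rw [hA0, hA1]
    unfold sy
    rw [derivative_sum, derivative_sum, eval_finsetSum, eval_finsetSum, eval_finsetSum,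
      eval_finsetSum, Finset.mul_sum, Finset.mul_sum, Finset.mul_sum, ← Finset.sum_sub_distrib,
      ← Finset.sum_add_distrib]
    apply Finset.sum_congr rfl
    intro k _
    rw [derivative_C_mul, derivative_C_mul, eval_C_mul, eval_C_mul, eval_C_mul, eval_C_mul]
    have := row_identity m M k z
    linear_combination ((cf l).coeff k) * this
  rw [hsum] at key
  exact (mul_ne_zero_iff.1 key).2

lemma trace_ctr (m : ℕ) (M : ℕ → ℕ → ℂ) :
    ∑ k ∈ range (m + 1), ctr m M k k = ∑ k ∈ range (m + 2), M k k := by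
  have hm : (m : ℂ) + 1 ≠ 0 := by exact_mod_cast Nat.succ_ne_zero m
  have e1 : ∑ k ∈ range (m + 2), ((m : ℂ) + 1 - k) * M k k
      = ∑ k ∈ range (m + 1), ((m : ℂ) + 1 - k) * M k k := by
    rw [Finset.sum_range_succ]
    push_cast
    ring
  have e2 : ∑ k ∈ range (m + 2), (k : ℂ) * M k k
      = ∑ k ∈ range (m + 1), ((k : ℂ) + 1) * M (k + 1) (k + 1) := by
    rw [Finset.sum_range_succ']
    push_cast
    rw [zero_mul, add_zero]
  have e3 : ∑ k ∈ range (m + 1), ctr m M k k
      = (∑ k ∈ range (m + 1), (((m : ℂ) + 1 - k) * M k k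
        + ((k : ℂ) + 1) * M (k + 1) (k + 1))) / (m + 1) := by
    rw [Finset.sum_div]
    rfl
  rw [e3, Finset.sum_add_distrib, ← e1, ← e2, ← Finset.sum_add_distrib, div_eq_iff hm,
    Finset.sum_mul]
  apply Finset.sum_congr rfl
  intro k _
  ring

/-- **The trace is not zero.** -/
theorem trace_ne (m : ℕ) : ∀ (M : ℕ → ℕ → ℂ), PP m M → ∑ k ∈ range (m + 1), M k k ≠ 0 := by
  induction m with
  | zero =>
    intro M h
    have := h [] rfl (by simp) 0 (by simp)
    simpa [sy, cf, rwp] using this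
  | succ m ih =>
    intro M h
    have := ih (ctr m M) (PP_step h)
    rwa [trace_ctr] at this

end

end Pool.Agent.H759.PTB
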