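import Pool.Agent.H759.PTB.Par
import Pool.Agent.H759.PTB.TrNe

/-!
The symbol of the product matrix is a sum over particles; the family of traces has no zeros.
-/

namespace Pool.Agent.H759.PTB

open Finset MvPolynomial

noncomputable section

/-- the entries at `t = 0` -/
def ax (n : ℕ) : Letter → ℕ → ℕ → ℝ
  | Letter.R => fun k l => aR k l
  | Letter.L => fun k l => aL n k l
  | _ => fun _ _ => 0

/-- the product matrix -/
def Mt (n : ℕ) (t : ℂ) : List Letter → ℕ → ℕ → ℂ
  | [], k, l => if k = l then 1 else 0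
  | x :: w, k, l => ∑ j ∈ range n, ((ax n x k j : ℂ) * exx n t x k j) * Mt n t w j l

lemma fm_eq (n : ℕ) (t : ℂ) {x : Letter} (hx : x = Letter.L ∨ x = Letter.R) (k l : Fin n) :
    fm n t x k l = (ax n x k l : ℂ) * exx n t x k l := by
  rcases hx with rfl | rfl <;> rfl

lemma Mt_eq (n : ℕ) (t : ℂ) {w : List Letter} (hw : ∀ x ∈ w, x = Letter.L ∨ x = Letter.R)
    (k l : Fin n) : (w.map (fm n t)).prod k l = Mt n t w k l := by
  induction w generalizing k with
  | nil =>
    rw [List.map_nil, List.prod_nil, Matrix.one_apply]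
    unfold Mt
    by_cases h : k = l
    · rw [if_pos h, if_pos (by rw [h])]
    · rw [if_neg h, if_neg (fun h' => h (Fin.ext h'))]
  | cons x w ih =>
    have hw' : ∀ x ∈ w, x = Letter.L ∨ x = Letter.R := fun y hy => hw y (List.mem_cons_of_mem _ hy)
    rw [List.map_cons, List.prod_cons, Matrix.mul_apply]
    unfold Mt
    rw [← Fin.sum_univ_eq_sum_range
      (fun j => ((ax n x k j : ℂ) * exx n t x k j) * Mt n t w j l) n]
    apply Finset.sum_congr rfl
    intro j _
    rw [ih hw' j, fm_eq n t (hw x List.mem_cons_self)]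

lemma ft_eq (n : ℕ) (t : ℂ) {w : List Letter} (hw : ∀ x ∈ w, x = Letter.L ∨ x = Letter.R) :
    ft n w t = ∑ k ∈ range n, Mt n t w k k := by
  unfold ft Matrix.trace
  rw [← Fin.sum_univ_eq_sum_range (fun k => Mt n t w k k) n]
  apply Finset.sum_congr rfl
  intro k _
  rw [Matrix.diag_apply, Mt_eq n t hw]

/-- expansion of the next step -/
lemma phi_expand (z : ℂ) {n m : ℕ} (hn : n = m + 1) {x : Letter}
    (hx : x = Letter.L ∨ x = Letter.R) (w : List Letter) (s k : ℕ) (hk : k ≤ m) :
    (phi z (x :: w) s).1 ^ (m - k) * (phi z (x :: w) s).2 ^ k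
      = ∑ j ∈ range n, C (ax n x k j : ℂ) * (monomial (Finsupp.single (s + 1) j) 1
        * ((phi z w (s + 1)).1 ^ (m - j) * (phi z w (s + 1)).2 ^ j)) := by
  have hmono : ∀ j : ℕ, (monomial (Finsupp.single (s + 1) j) 1 : MvPolynomial ℕ ℂ)
      = X (s + 1) ^ j := by
    intro j
    rw [X_pow_eq_monomial]
  simp only [hmono]
  set p := (phi z w (s + 1)).1 with hp
  set q := (phi z w (s + 1)).2 with hq
  rcases hx with rfl | rfl
  · -- L
    show (p + X (s + 1) * q) ^ (m - k) * (X (s + 1) * q) ^ k = _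
    rw [add_comm p, add_pow, Finset.sum_mul, show n = k + (m - k + 1) by omega,
      Finset.sum_range_add _ k (m - k + 1)]
    have h0 : ∑ j ∈ range k, C (ax (k + (m - k + 1)) Letter.L k j : ℂ)
        * (X (s + 1) ^ j * (p ^ (m - j) * q ^ j)) = 0 := by
      apply Finset.sum_eq_zero
      intro j hj
      have hj' := Finset.mem_range.1 hj
      have : ax (k + (m - k + 1)) Letter.L k j = 0 := by
        show aL (k + (m - k + 1)) k j = 0
        unfold aL
        rw [if_neg (by omega)]
      rw [this]; simp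
    rw [h0, zero_add]
    apply Finset.sum_congr rfl
    intro i hi
    have hi' := Finset.mem_range.1 hi
    have e1 : ax (k + (m - k + 1)) Letter.L k (k + i) = ((m - k).choose i : ℝ) := by
      show aL (k + (m - k + 1)) k (k + i) = _
      unfold aL
      rw [if_pos (by omega), show k + i - k = i by omega,
        show k + (m - k + 1) - 1 - k = m - k by omega]
    rw [e1, show m - (k + i) = m - k - i by omega]
    have e2 : (((m - k).choose i : ℕ) : MvPolynomial ℕ ℂ) = C (((m - k).choose i : ℝ) : ℂ) := by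
      rw [Complex.ofReal_natCast, map_natCast]
    rw [e2]
    ring
  · -- R
    show p ^ (m - k) * (p + X (s + 1) * q) ^ k = _
    rw [add_comm p, add_pow, Finset.mul_sum, show n = (k + 1) + (m - k) by omega,
      Finset.sum_range_add _ (k + 1) (m - k)]
    have h0 : ∑ i ∈ range (m - k), C (ax (k + 1 + (m - k)) Letter.R k (k + 1 + i) : ℂ)
        * (X (s + 1) ^ (k + 1 + i) * (p ^ (m - (k + 1 + i)) * q ^ (k + 1 + i))) = 0 := by
      apply Finset.sum_eq_zero
      intro j hj
      have : ax (k + 1 + (m - k)) Letter.R k (k + 1 + j) = 0 := by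
        show aR k (k + 1 + j) = 0
        unfold aR
        rw [Nat.choose_eq_zero_of_lt (by omega)]; simp
      rw [this]; simp
    rw [h0, add_zero]
    apply Finset.sum_congr rfl
    intro j hj
    have hj' := Finset.mem_range.1 hj
    have e1 : ax (k + 1 + (m - k)) Letter.R k j = (k.choose j : ℝ) := rfl
    rw [e1]
    have e2 : ((k.choose j : ℕ) : MvPolynomial ℕ ℂ) = C ((k.choose j : ℝ) : ℂ) := by
      rw [Complex.ofReal_natCast, map_natCast]
    rw [e2, show m - j = (m - k) + (k - j) by omega, pow_add]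
    ring

lemma Ew_shift (n : ℕ) (t : ℂ) (w : List Letter) : ∀ (s : ℕ) {ν ν' : ℕ →₀ ℕ},
    (∀ j, s ≤ j → ν j = ν' j) → Ew n t w s ν = Ew n t w s ν' := by
  induction w with
  | nil => intro s ν ν' _; rfl
  | cons x w ih =>
    intro s ν ν' h
    show exx n t x (ν s) (ν (s + 1)) * Ew n t w (s + 1) ν
      = exx n t x (ν' s) (ν' (s + 1)) * Ew n t w (s + 1) ν'
    rw [ih (s + 1) (fun j hj => h j (by omega)), h s le_rfl, h (s + 1) (by omega)]

/-- a row of the product matrix -/
lemma row_eq (z : ℂ) {n m : ℕ} (hn : n = m + 1) (t : ℂ) {w : List Letter}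
    (hw : ∀ x ∈ w, x = Letter.L ∨ x = Letter.R) :
    ∀ (s k : ℕ), k ≤ m → ∀ G : (ℕ →₀ ℕ) → ℂ,
      (∀ ν ν' : ℕ →₀ ℕ, (∀ j ≤ s, ν j = ν' j) → G ν = G ν') →
      LF (fun ν => G ν * Ew n t w s ν) (monomial (Finsupp.single s k) 1
        * ((phi z w s).1 ^ (m - k) * (phi z w s).2 ^ k))
        = G (Finsupp.single s k) * ∑ l ∈ range n, Mt n t w k l * z ^ l := by
  induction w with
  | nil =>
    intro s k hk G _
    have e1 : (monomial (Finsupp.single s k) 1 * ((phi z [] s).1 ^ (m - k) * (phi z [] s).2 ^ k)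
        : MvPolynomial ℕ ℂ) = monomial (Finsupp.single s k) (z ^ k) := by
      show monomial (Finsupp.single s k) 1 * ((1 : MvPolynomial ℕ ℂ) ^ (m - k) * (C z) ^ k) = _
      rw [one_pow, one_mul, ← map_pow, mul_comm, C_mul_monomial, mul_one]
    rw [e1, LF_monomial]
    have e2 : ∑ l ∈ range n, Mt n t [] k l * z ^ l = z ^ k := by
      rw [Finset.sum_eq_single k]
      · show (if k = k then (1 : ℂ) else 0) * z ^ k = z ^ k
        rw [if_pos rfl, one_mul]
      · intro l _ hl
        show (if k = l then (1 : ℂ) else 0) * z ^ l = 0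
        rw [if_neg (Ne.symm hl), zero_mul]
      · intro h
        exfalso; apply h
        rw [Finset.mem_range]; omega
    rw [e2]
    show z ^ k * (G (Finsupp.single s k) * 1) = _
    ring
  | cons x w ih =>
    intro s k hk G hG
    have hw' : ∀ x ∈ w, x = Letter.L ∨ x = Letter.R := fun y hy => hw y (List.mem_cons_of_mem _ hy)
    rw [phi_expand z hn (hw x List.mem_cons_self) w s k hk, Finset.mul_sum, map_sum]
    have hterm : ∀ j ∈ range n, LF (fun ν => G ν * Ew n t (x :: w) s ν)
        (monomial (Finsupp.single s k) 1 * (C (ax n x k j : ℂ)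
          * (monomial (Finsupp.single (s + 1) j) 1
            * ((phi z w (s + 1)).1 ^ (m - j) * (phi z w (s + 1)).2 ^ j))))
        = G (Finsupp.single s k) * ∑ l ∈ range n,
          (((ax n x k j : ℂ) * exx n t x k j) * Mt n t w j l) * z ^ l := by
      intro j hj
      have hj' : j ≤ m := by have := Finset.mem_range.1 hj; omega
      have e1 : (monomial (Finsupp.single s k) 1 * (C (ax n x k j : ℂ)
          * (monomial (Finsupp.single (s + 1) j) 1
            * ((phi z w (s + 1)).1 ^ (m - j) * (phi z w (s + 1)).2 ^ j))) : MvPolynomial ℕ ℂ)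
          = (ax n x k j : ℂ) • (monomial (Finsupp.single s k) 1
            * (monomial (Finsupp.single (s + 1) j) 1
            * ((phi z w (s + 1)).1 ^ (m - j) * (phi z w (s + 1)).2 ^ j))) := by
        rw [smul_eq_C_mul]; ring
      rw [e1, map_smul, LF_shift, smul_eq_mul]
      have e2 : LF (fun ν => G (ν + Finsupp.single s k) * Ew n t (x :: w) s
            (ν + Finsupp.single s k)) (monomial (Finsupp.single (s + 1) j) 1
            * ((phi z w (s + 1)).1 ^ (m - j) * (phi z w (s + 1)).2 ^ j))
          = LF (fun ν => (G (ν + Finsupp.single s k) * exx n t x (ν s + k) (ν (s + 1)))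
            * Ew n t w (s + 1) ν) (monomial (Finsupp.single (s + 1) j) 1
            * ((phi z w (s + 1)).1 ^ (m - j) * (phi z w (s + 1)).2 ^ j)) := by
        apply LF_congr
        intro ν _
        show G (ν + Finsupp.single s k) * (exx n t x ((ν + Finsupp.single s k : ℕ →₀ ℕ) s)
          ((ν + Finsupp.single s k : ℕ →₀ ℕ) (s + 1))
          * Ew n t w (s + 1) (ν + Finsupp.single s k)) = _
        rw [Ew_shift n t w (s + 1) (ν := ν + Finsupp.single s k) (ν' := ν) (by
          intro i hi
          rw [Finsupp.add_apply, Finsupp.single_eq_of_ne (by omega), add_zero]),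
          Finsupp.add_apply, Finsupp.single_eq_same, Finsupp.add_apply,
          Finsupp.single_eq_of_ne (by omega : s + 1 ≠ s), add_zero]
        ring
      rw [e2, ih hw' (s + 1) j hj' (fun ν => G (ν + Finsupp.single s k)
        * exx n t x (ν s + k) (ν (s + 1))) (by
          intro ν ν' h
          have h1 : G (ν + Finsupp.single s k) = G (ν' + Finsupp.single s k) := by
            apply hG
            intro i hi
            rw [Finsupp.add_apply, Finsupp.add_apply, h i (by omega)]
          show G (ν + Finsupp.single s k) * exx n t x (ν s + k) (ν (s + 1))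
            = G (ν' + Finsupp.single s k) * exx n t x (ν' s + k) (ν' (s + 1))
          rw [h1, h s (by omega), h (s + 1) le_rfl])]
      have e3 : G (Finsupp.single (s + 1) j + Finsupp.single s k) = G (Finsupp.single s k) := by
        apply hG
        intro i hi
        rw [Finsupp.add_apply, Finsupp.single_eq_of_ne (by omega), zero_add]
      rw [e3, Finsupp.single_eq_same, Finsupp.single_eq_of_ne (by omega : s ≠ s + 1), zero_add,
        Finset.mul_sum, Finset.mul_sum, Finset.mul_sum]
      apply Finset.sum_congr rfl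
      intro l _
      ring
    rw [Finset.sum_congr rfl hterm, ← Finset.mul_sum, Finset.sum_comm]
    congr 1
    apply Finset.sum_congr rfl
    intro l _
    show _ = (∑ j ∈ range n, ((ax n x k j : ℂ) * exx n t x k j) * Mt n t w j l) * z ^ l
    rw [Finset.sum_mul]

lemma homog_aux {R : Type*} [CommRing R] (a b u v : R) (c : ℕ → R) (d : ℕ) (h : c (d + 1) = 0) :
    (u * a + v * b) * ∑ k ∈ range (d + 1), c k * (a ^ (d - k) * b ^ k)
      = ∑ k ∈ range (d + 1), (u * c (k + 1) + v * c k) * (a ^ (d - k) * b ^ (k + 1))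
        + u * c 0 * a ^ (d + 1) := by
  have e1 : ∑ k ∈ range (d + 1), c k * (a ^ (d + 1 - k) * b ^ k)
      = (∑ k ∈ range (d + 1), c (k + 1) * (a ^ (d - k) * b ^ (k + 1))) + c 0 * a ^ (d + 1) := by
    have h1 := Finset.sum_range_succ (fun k => c k * (a ^ (d + 1 - k) * b ^ k)) (d + 1)
    have h2 := Finset.sum_range_succ' (fun k => c k * (a ^ (d + 1 - k) * b ^ k)) (d + 1)
    rw [h1] at h2
    simp only [h, zero_mul, add_zero, Nat.sub_zero, pow_zero, mul_one,
      Nat.add_sub_add_right] at h2
    exact h2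
  have e2 : u * (∑ k ∈ range (d + 1), c k * (a ^ (d + 1 - k) * b ^ k))
      = (u * a) * ∑ k ∈ range (d + 1), c k * (a ^ (d - k) * b ^ k) := by
    rw [Finset.mul_sum, Finset.mul_sum]
    apply Finset.sum_congr rfl
    intro k hk
    have hk' := Finset.mem_range.1 hk
    rw [show d + 1 - k = (d - k) + 1 by omega, pow_succ]
    ring
  have e3 : ∑ k ∈ range (d + 1), v * c k * (a ^ (d - k) * b ^ (k + 1))
      = (v * b) * ∑ k ∈ range (d + 1), c k * (a ^ (d - k) * b ^ k) := by
    rw [Finset.mul_sum]
    apply Finset.sum_congr rfl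
    intro k _
    rw [pow_succ]
    ring
  have e4 : ∑ k ∈ range (d + 1), (u * c (k + 1) + v * c k) * (a ^ (d - k) * b ^ (k + 1))
      = u * (∑ k ∈ range (d + 1), c (k + 1) * (a ^ (d - k) * b ^ (k + 1)))
        + ∑ k ∈ range (d + 1), v * c k * (a ^ (d - k) * b ^ (k + 1)) := by
    rw [Finset.mul_sum, ← Finset.sum_add_distrib]
    apply Finset.sum_congr rfl
    intro k _
    ring
  rw [e4, e3, add_mul, ← e2, e1]
  ring

/-- homogenization -/
lemma homog (a b : MvPolynomial ℕ ℂ) (l : List (ℂ × ℂ)) :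
    (l.map (fun u => C u.1 * a + C u.2 * b)).prod
      = ∑ k ∈ range (l.length + 1), C ((cf l).coeff k) * (a ^ (l.length - k) * b ^ k) := by
  induction l with
  | nil => simp [cf]
  | cons u l ih =>
    rw [List.map_cons, List.prod_cons, ih, List.length_cons]
    have hlast : (cf l).coeff (l.length + 1) = 0 := by
      apply Polynomial.coeff_eq_zero_of_natDegree_lt
      have := cf_natDegree l
      omega
    rw [homog_aux a b (C u.1) (C u.2) (fun k => C ((cf l).coeff k)) l.length
      (by simp only [hlast, map_zero]), Finset.sum_range_succ' _ (l.length + 1), cf_coeff_zero]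
    simp only [cf_coeff_succ, Nat.add_sub_add_right, Nat.sub_zero, pow_zero, mul_one, map_add,
      map_mul]

/-- the symbol -/
lemma sy_eq (z : ℂ) {n m : ℕ} (hn : n = m + 1) (t : ℂ) {w : List Letter}
    (hw : ∀ x ∈ w, x = Letter.L ∨ x = Letter.R) {l : List (ℂ × ℂ)} (hl : l.length = m) :
    (sy m (Mt n t w) l).eval z = LF (Ew n t w 0) (l.map (Pu z w)).prod := by
  have h1 : (l.map (Pu z w)).prod = (l.map (fun u => C u.1 * (phi z w 0).1
      + C u.2 * (X 0 * (phi z w 0).2))).prod := rfl
  rw [h1, homog, map_sum, hl]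
  unfold sy
  rw [Polynomial.eval_finsetSum]
  apply Finset.sum_congr rfl
  intro k hk
  have hk' : k ≤ m := by have := Finset.mem_range.1 hk; omega
  have h2 := row_eq z hn t hw 0 k hk' (fun _ => 1) (fun _ _ _ => rfl)
  simp only [one_mul] at h2
  have e1 : (C ((cf l).coeff k) * ((phi z w 0).1 ^ (m - k) * (X 0 * (phi z w 0).2) ^ k)
      : MvPolynomial ℕ ℂ) = (cf l).coeff k • (monomial (Finsupp.single 0 k) 1
        * ((phi z w 0).1 ^ (m - k) * (phi z w 0).2 ^ k)) := by
    rw [smul_eq_C_mul, mul_pow, X_pow_eq_monomial]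
    ring
  rw [e1, map_smul, h2, smul_eq_mul, Polynomial.eval_mul, Polynomial.eval_C]
  congr 1
  unfold rwp
  rw [Polynomial.eval_finsetSum, hn]
  apply Finset.sum_congr rfl
  intro j _
  rw [Polynomial.eval_mul, Polynomial.eval_C, Polynomial.eval_pow, Polynomial.eval_X]

/-- **The family of traces has no zeros.** -/
theorem ft_ne {n : ℕ} (hn : 1 ≤ n) {w : List Letter} (hw : ∀ x ∈ w, x = Letter.L ∨ x = Letter.R)
    (hL : Letter.L ∈ w) (hR : Letter.R ∈ w) {t : ℂ}
    (ht : 1440 * Real.pi * (n * ‖t‖) * (12 * Kw w ^ 2) ^ 2 * w.length ≤ 1) : ft n w t ≠ 0 := by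
  obtain ⟨m, rfl⟩ : ∃ m, n = m + 1 := ⟨n - 1, by omega⟩
  rw [ft_eq _ t hw]
  apply trace_ne
  intro l hl hRp z hz
  rw [sy_eq z rfl t hw hl]
  have hK : 1 ≤ Kw w := by
    obtain ⟨⟨h1, _⟩, _⟩ := mt_pos hw
    exact h1.trans ((le_max_left _ _).trans (le_max_left _ _))
  have hG := good_all (ι := Fin l.length) (P := fun i => Pu z w l[i.1]) (w := w) (n := m + 1)
    (m := m) rfl (t := t) (Λ0 := 12 * Kw w ^ 2) (by nlinarith)
    (fun i => Pu_supp z hw l[i.1])
    (fun i => Pu_N hw hL hR hz (hRp _ (List.getElem_mem _)))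
    (List.length_pos_of_mem hL) ht m
  have h1 := (hG univ (by rw [Finset.card_univ, Fintype.card_fin, hl]) 0 0 rfl
    (by rw [Finset.card_univ, Fintype.card_fin, hl, add_zero])).1
  have h2 : pr (fun i : Fin l.length => Pu z w l[i.1]) univ 0 = (l.map (Pu z w)).prod := by
    unfold pr
    rw [show (monomial 0 (1 : ℂ) : MvPolynomial ℕ ℂ) = 1 from rfl, one_mul]
    exact Fin.prod_univ_fun_getElem l (Pu z w)
  rwa [h2] at h1

end

end Pool.Agent.H759.PTB
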