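import Pool.Agent.H759.PTB.Split

/-!
The matrices of the split basis.
-/

namespace Pool.Agent.H759.PTB

open Finset

noncomputable section

/-- `G`, the change of basis. -/
def gG (N b n : ℕ) : Matrix (Fin n) (Fin n) ℝ := fun k m => pp N b k m

/-- `X2`, the lower bidiagonal matrix of `z²` in the split basis. -/
def xX (N b n : ℕ) : Matrix (Fin n) (Fin n) ℝ := fun k j =>
  if (k : ℕ) = j then om N b k else if (k : ℕ) = j + 1 then 1 else 0

/-- `W2`, the upper bidiagonal matrix. -/
def wW (N b n : ℕ) : Matrix (Fin n) (Fin n) ℝ := fun k j =>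
  if (k : ℕ) = j then om N b k else if (j : ℕ) = k + 1 then tht N b j else 0

lemma sum_tri {R : Type*} [CommRing R] {n m : ℕ} (hm : m < n) (f : ℕ → R) (a b c : R) :
    ∑ j : Fin n, f j * (if (j : ℕ) = m + 1 then a else if (j : ℕ) = m then b
      else if m = j + 1 then c else 0)
    = (if m + 1 < n then f (m + 1) * a else 0) + f m * b
      + (if 1 ≤ m then f (m - 1) * c else 0) := by
  rw [Fin.sum_univ_eq_sum_range (fun j => f j * (if j = m + 1 then a else if j = m then b
      else if m = j + 1 then c else 0)) n]
  have h : ∀ j ∈ range n, f j * (if j = m + 1 then a else if j = m then b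
      else if m = j + 1 then c else 0)
      = (if m + 1 = j then f (m + 1) * a else 0) + (if m = j then f m * b else 0)
        + (if m - 1 = j then (if 1 ≤ m then f (m - 1) * c else 0) else 0) := by
    intro j _
    by_cases h1 : j = m + 1
    · subst h1
      simp
    · by_cases h2 : j = m
      · subst h2
        simp
        intro h h'; omega
      · by_cases h3 : m = j + 1
        · subst h3
          rw [if_neg h1, if_neg h2, if_pos rfl, if_neg (Ne.symm h1), if_neg (Ne.symm h2),
            Nat.add_sub_cancel, if_pos rfl, if_pos (by omega)]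
          ring
        · rw [if_neg h1, if_neg h2, if_neg h3, if_neg (Ne.symm h1), if_neg (Ne.symm h2)]
          by_cases h4 : m - 1 = j
          · rw [if_pos h4, if_neg (by omega)]; ring
          · rw [if_neg h4]; ring
  rw [Finset.sum_congr rfl h, Finset.sum_add_distrib, Finset.sum_add_distrib,
    Finset.sum_ite_eq, Finset.sum_ite_eq, Finset.sum_ite_eq]
  simp only [Finset.mem_range, hm, if_true, show m - 1 < n by omega]

lemma sum_bi {R : Type*} [CommRing R] {n k : ℕ} (hk : k < n) (f : ℕ → R) (a c : R) :
    ∑ j : Fin n, (if k = (j : ℕ) then a else if k = j + 1 then c else 0) * f j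
    = a * f k + (if 1 ≤ k then c * f (k - 1) else 0) := by
  rw [Fin.sum_univ_eq_sum_range (fun j => (if k = j then a else if k = j + 1 then c else 0) * f j) n]
  have h : ∀ j ∈ range n, (if k = j then a else if k = j + 1 then c else 0) * f j
      = (if k = j then a * f k else 0)
        + (if k - 1 = j then (if 1 ≤ k then c * f (k - 1) else 0) else 0) := by
    intro j _
    by_cases h2 : k = j
    · subst h2
      simp
      intro h h'; omega
    · by_cases h3 : k = j + 1
      · subst h3; simp
      · rw [if_neg h2, if_neg h3, if_neg h2]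
        by_cases h4 : k - 1 = j
        · rw [if_pos h4, if_neg (by omega)]; ring
        · rw [if_neg h4]; ring
  rw [Finset.sum_congr rfl h, Finset.sum_add_distrib,
    Finset.sum_ite_eq, Finset.sum_ite_eq]
  simp only [Finset.mem_range, hk, if_true, show k - 1 < n by omega]

lemma sum_bi' {R : Type*} [CommRing R] {n k : ℕ} (hk : k < n) (f g : ℕ → R) (a : R) :
    ∑ j : Fin n, (if k = (j : ℕ) then a else if (j : ℕ) = k + 1 then g j else 0) * f j
    = a * f k + (if k + 1 < n then g (k + 1) * f (k + 1) else 0) := by
  rw [Fin.sum_univ_eq_sum_range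
    (fun j => (if k = j then a else if j = k + 1 then g j else 0) * f j) n]
  have h : ∀ j ∈ range n, (if k = j then a else if j = k + 1 then g j else 0) * f j
      = (if k = j then a * f k else 0)
        + (if k + 1 = j then g (k + 1) * f (k + 1) else 0) := by
    intro j _
    by_cases h2 : k = j
    · subst h2
      simp
    · by_cases h3 : j = k + 1
      · subst h3; simp
      · rw [if_neg h2, if_neg h3, if_neg h2, if_neg (Ne.symm h3)]; ring
  rw [Finset.sum_congr rfl h, Finset.sum_add_distrib,
    Finset.sum_ite_eq, Finset.sum_ite_eq]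
  simp only [Finset.mem_range, hk, if_true]

lemma gG_curve (N b : ℕ) :
    gG N b (N - b) * curve N b (N - b) = xX N b (N - b) * gG N b (N - b) := by
  ext k m
  have hk := k.2
  have hm := m.2
  rw [Matrix.mul_apply, Matrix.mul_apply]
  have e1 : ∑ j, gG N b (N - b) k j * curve N b (N - b) j m
      = (if (m : ℕ) + 1 < N - b then pp N b k (m + 1) * 1 else 0)
        + pp N b k m * (uc N b (b + 2 * (m : ℕ)) + uc N b (b + 2 * (m : ℕ) + 1))
        + (if 1 ≤ (m : ℕ) then pp N b k (m - 1)
            * (uc N b (b + 2 * (m : ℕ)) * uc N b (b + 2 * (m : ℕ) - 1)) else 0) := by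
    rw [← sum_tri hm (fun j => pp N b k j)]
    rfl
  have e2 : ∑ j, xX N b (N - b) k j * gG N b (N - b) j m
      = om N b k * pp N b k m + (if 1 ≤ (k : ℕ) then 1 * pp N b (k - 1) m else 0) := by
    rw [← sum_bi hk (fun j => pp N b j m)]
    rfl
  rw [e1, e2]
  have h3 := three (N := N) (b := b) (m := m) (k := k) (by omega) (by omega)
  have h4 : (if (m : ℕ) + 1 < N - b then pp N b k (m + 1) * 1 else 0) = pp N b k (m + 1) := by
    split_ifs with h
    · ring
    · rw [pp_top (by omega)]
  rw [h4, one_mul, h3]
  split_ifs <;> ring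

lemma wW_gG (N b : ℕ) :
    wW N b (N - b) * gG N b (N - b)
      = gG N b (N - b) * Matrix.diagonal (fun k : Fin (N - b) => om N b k) := by
  ext k m
  have hk := k.2
  have hm := m.2
  rw [Matrix.mul_diagonal, Matrix.mul_apply]
  have e2 : ∑ j, wW N b (N - b) k j * gG N b (N - b) j m
      = om N b k * pp N b k m
        + (if (k : ℕ) + 1 < N - b then tht N b (k + 1) * pp N b (k + 1) m else 0) := by
    rw [← sum_bi' hk (fun j => pp N b j m) (fun j => tht N b j)]
    rfl
  rw [e2]
  show _ = pp N b k m * om N b m
  split_ifs with h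
  · have := pp_succ (N := N) (b := b) (k := k) m (by omega)
    linarith
  · rcases Nat.lt_or_ge (m : ℕ) k with h1 | h1
    · rw [pp_zero h1]; ring
    · have : (k : ℕ) = m := by omega
      rw [this]; ring

lemma det_gG (N b : ℕ) : (gG N b (N - b)).det = 1 := by
  rw [Matrix.det_of_isUpperTriangular]
  · apply Finset.prod_eq_one
    intro i _
    have := i.2
    exact pp_diag (by omega)
  · intro i j hij
    exact pp_zero hij

/-- distinctness of the eigenvalues -/
lemma om_ne {N b i j : ℕ} (hi : b + i < N) (hj : b + j < N) (hij : i ≠ j) :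
    om N b i ≠ om N b j := by
  intro h
  have h0 : om N b i - om N b j = 0 := by rw [h]; ring
  rw [om_sub] at h0
  wlog hlt : j < i generalizing i j
  · exact this hj hi (Ne.symm hij) h.symm (by rw [← om_sub, h]; ring) (by omega)
  have a1 : sn N (2 * ((i : ℝ) - j)) ≠ 0 := by
    apply sn_ne' (2 * (i - j)) _ (by omega) (by omega)
    rw [Nat.cast_mul, Nat.cast_sub hlt.le]; push_cast; ring
  have a2 : sn N (2 * ((b : ℝ) + i + j + 1)) ≠ 0 := by
    rw [sn_two]
    have h1 : sn N ((b : ℝ) + i + j + 1) ≠ 0 :=
      sn_ne' (b + i + j + 1) (by push_cast; ring) (by omega) (by omega)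
    have h2 : cs N ((b : ℝ) + i + j + 1) ≠ 0 :=
      cs_ne' (b + i + j + 1) (by push_cast; ring)
    simp [h1, h2]
  simp [a1, a2] at h0

end

end Pool.Agent.H759.PTB
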