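import Mathlib

/-!
Lower bounds for zero-free analytic functions; Laguerre's theorem for the half-plane; traces of
matrices with a zero-free symbol.
-/

namespace Pool.Agent.H759.PTB

open Metric

noncomputable section

/-- A zero-free bounded analytic function is bounded below. -/
lemma lower_of_ne_zero {g : ℂ → ℂ} {R M : ℝ} (hR : 0 < R) (hM : 0 < M)
    (hg : DifferentiableOn ℂ g (ball 0 R)) (hB : ∀ z ∈ ball (0 : ℂ) R, ‖g z‖ ≤ Real.exp M)
    (h0 : g 0 = 1) (hne : ∀ z ∈ ball (0 : ℂ) R, g z ≠ 0) {z : ℂ} (hz : ‖z‖ ≤ R / 2) :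
    Real.exp (-(2 * M)) ≤ ‖g z‖ := by
  have hder : DifferentiableOn ℂ (deriv g) (ball 0 R) := hg.deriv isOpen_ball
  have hq : DifferentiableOn ℂ (fun z => deriv g z / g z) (ball 0 R) := hder.div hg hne
  have hex := DifferentiableOn.isExactOn_ball hq
  obtain ⟨F, hF⟩ := hex.with_val_at 0 (0 : ℂ)
  have hF0 : F 0 = 0 := by
    simpa using hF.1
  have hFd : ∀ z ∈ ball (0 : ℂ) R, HasDerivAt F (deriv g z / g z) z := by
    intro z hz
    exact hF.2 z hz
  -- `g exp (-F)` is constant
  set k : ℂ → ℂ := fun z => g z * Complex.exp (-F z) with hk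
  have hkd : ∀ z ∈ ball (0 : ℂ) R, HasDerivAt k 0 z := by
    intro z hz
    have h1 : HasDerivAt g (deriv g z) z :=
      (hg.differentiableAt (isOpen_ball.mem_nhds hz)).hasDerivAt
    have h2 := (hFd z hz).fun_neg.cexp
    have h3 := h1.mul h2
    have h4 := hne z hz
    have h5 : g z * (deriv g z / g z) = deriv g z := mul_div_cancel₀ _ h4
    have e : deriv g z * Complex.exp (-F z)
        + g z * (Complex.exp (-F z) * -(deriv g z / g z)) = 0 := by
      linear_combination (-Complex.exp (-F z)) * h5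
    rw [e] at h3
    exact h3
  have hconst : ∀ z ∈ ball (0 : ℂ) R, k z = k 0 := by
    intro z hz
    have hconv : Convex ℝ (ball (0 : ℂ) R) := convex_ball 0 R
    have h := hconv.norm_image_sub_le_of_norm_hasDerivWithin_le (f := k) (f' := fun _ => 0) (C := 0)
      (fun x hx => (hkd x hx).hasDerivWithinAt) (fun x _ => by simp) (mem_ball_self hR) hz
    rw [zero_mul] at h
    have := norm_le_zero_iff.1 h
    exact sub_eq_zero.1 this
  have hgF : ∀ z ∈ ball (0 : ℂ) R, g z = Complex.exp (F z) := by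
    intro z hz
    have h1 := hconst z hz
    rw [hk] at h1
    simp only at h1
    rw [hF0, h0, neg_zero, Complex.exp_zero, mul_one] at h1
    have h2 : g z * Complex.exp (-F z) * Complex.exp (F z) = Complex.exp (F z) := by rw [h1, one_mul]
    rw [mul_assoc, ← Complex.exp_add, neg_add_cancel, Complex.exp_zero, mul_one] at h2
    exact h2
  have hre : ∀ z ∈ ball (0 : ℂ) R, (F z).re ≤ M := by
    intro z hz
    have h1 := hB z hz
    rw [hgF z hz, Complex.norm_exp] at h1
    exact Real.exp_le_exp.1 h1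
  have hFdiff : DifferentiableOn ℂ F (ball 0 R) := fun z hz =>
    (hFd z hz).differentiableAt.differentiableWithinAt
  have hzb : z ∈ ball (0 : ℂ) R := by
    rw [mem_ball_zero_iff]; linarith
  have hBC := Complex.borelCaratheodory_zero hM hFdiff (fun z hz => hre z hz) hR hzb hF0
  have h2 : ‖F z‖ ≤ 2 * M := by
    refine hBC.trans ?_
    have h3 : 0 < R - ‖z‖ := by linarith [norm_nonneg z]
    rw [div_le_iff₀ h3]
    have h4 := norm_nonneg z
    nlinarith
  rw [hgF z hzb, Complex.norm_exp]
  apply Real.exp_le_exp.2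
  have h5 := Complex.abs_re_le_norm (F z)
  have h6 := neg_abs_le (F z).re
  linarith

open Polynomial

lemma multiset_cs (S : Multiset ℂ) (f : ℂ → ℝ) :
    ((S.map f).sum) ^ 2 ≤ S.card * (S.map fun z => f z ^ 2).sum := by
  induction S using Multiset.induction_on with
  | empty => simp
  | cons a s ih =>
    rw [Multiset.map_cons, Multiset.sum_cons, Multiset.map_cons, Multiset.sum_cons,
      Multiset.card_cons]
    have hQ : 0 ≤ (s.map fun z => f z ^ 2).sum := by
      apply Multiset.sum_nonneg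
      intro a ha
      rw [Multiset.mem_map] at ha
      obtain ⟨b, _, rfl⟩ := ha
      positivity
    generalize (s.map f).sum = T at *
    generalize (s.map fun z => f z ^ 2).sum = Q at *
    generalize f a = y at *
    have hn : (0 : ℝ) ≤ s.card := by positivity
    push_cast
    generalize (s.card : ℝ) = n at *
    rcases hn.eq_or_lt with h0 | hpos
    · rw [← h0] at ih ⊢
      have hT : T = 0 := by nlinarith
      rw [hT]; nlinarith
    · have h2 : 2 * y * T ≤ n * y ^ 2 + Q := by
        by_contra hcon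
        push Not at hcon
        nlinarith [sq_nonneg (n * y - T)]
      nlinarith

/-- **Laguerre's theorem** for the half-plane. -/
lemma laguerre {G : ℂ[X]} {d : ℕ} (hd : G.natDegree ≤ d) (hd0 : 0 < d)
    (hG : ∀ z : ℂ, 0 ≤ z.re → G.eval z ≠ 0) {x y : ℂ} (hx : 0 ≤ x.re) (hy : 0 ≤ y.re) :
    d * G.eval x + (y - x) * G.derivative.eval x ≠ 0 := by
  intro h
  have hGx := hG x hx
  have hG0 : G ≠ 0 := by
    rintro rfl
    simp at hGx
  set S := G.roots with hS
  have hroot : ∀ ζ ∈ S, ζ.re < 0 := by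
    intro ζ hζ
    by_contra hcon
    push Not at hcon
    exact hG ζ hcon ((Polynomial.mem_roots hG0).1 hζ)
  have hsum : G.derivative.eval x = G.eval x * (S.map fun z => 1 / (x - z)).sum :=
    (IsAlgClosed.splits G).eval_derivative_eq_eval_mul_sum hGx
  set W := (S.map fun z => 1 / (x - z)).sum with hW
  have h1 : (d : ℂ) = (x - y) * W := by
    rw [hsum] at h
    have h2 : G.eval x * ((d : ℂ) + (y - x) * W) = 0 := by linear_combination h
    have h3 := (mul_eq_zero.1 h2).resolve_left hGx
    linear_combination h3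
  have hcard : S.card ≤ d := (Polynomial.card_roots' G).trans hd
  -- each term lies in a disc or half-plane
  have hterm : ∀ ζ ∈ S, x.re * ‖1 / (x - ζ)‖ ^ 2 < (1 / (x - ζ)).re := by
    intro ζ hζ
    have hζ' := hroot ζ hζ
    have hne : x - ζ ≠ 0 := by
      intro h0
      have := congrArg Complex.re h0
      simp at this
      linarith
    have hn : 0 < ‖x - ζ‖ ^ 2 := by positivity
    rw [norm_div, norm_one, div_pow, one_pow, one_div, one_div, Complex.inv_re,
      Complex.normSq_eq_norm_sq, div_eq_mul_inv, Complex.sub_re]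
    have := inv_pos.2 hn
    nlinarith
  have hWre : W.re = (S.map fun z => (1 / (x - z)).re).sum := by
    rw [hW]
    have := map_multiset_sum Complex.reAddGroupHom (S.map fun z => 1 / (x - z))
    rw [Multiset.map_map] at this
    exact this
  have hWnorm : ‖W‖ ≤ (S.map fun z => ‖1 / (x - z)‖).sum := by
    rw [hW]
    refine (norm_multiset_sum_le _).trans (le_of_eq ?_)
    rw [Multiset.map_map]; rfl
  have hdpos : (0 : ℝ) < d := by exact_mod_cast hd0
  have hW0 : W ≠ 0 := by
    intro h0
    rw [h0, mul_zero] at h1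
    have : (d : ℂ) ≠ 0 := by exact_mod_cast hd0.ne'
    exact this h1
  have hSne : S ≠ 0 := by
    intro h0
    apply hW0
    rw [hW, h0]; simp
  -- Cauchy-Schwarz
  have hCS : ((S.map fun z => ‖1 / (x - z)‖).sum) ^ 2
      ≤ S.card * (S.map fun z => ‖1 / (x - z)‖ ^ 2).sum := by
    exact multiset_cs S (fun z => ‖1 / (x - z)‖)
  have hlt : x.re * (S.map fun z => ‖1 / (x - z)‖ ^ 2).sum < W.re := by
    rw [hWre, ← Multiset.sum_map_mul_left]
    exact Multiset.sum_lt_sum_of_nonempty hSne hterm
  have hfin : x.re * ‖W‖ ^ 2 < d * W.re := by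
    have h2 : ‖W‖ ^ 2 ≤ ((S.map fun z => ‖1 / (x - z)‖).sum) ^ 2 := by gcongr
    have hcard' : (S.card : ℝ) ≤ d := by exact_mod_cast hcard
    have h3 : 0 ≤ (S.map fun z => ‖1 / (x - z)‖ ^ 2).sum := by
      apply Multiset.sum_nonneg
      intro a ha
      rw [Multiset.mem_map] at ha
      obtain ⟨b, _, rfl⟩ := ha
      positivity
    have h4 : ‖W‖ ^ 2 ≤ d * (S.map fun z => ‖1 / (x - z)‖ ^ 2).sum := by
      calc ‖W‖ ^ 2 ≤ _ := h2
        _ ≤ _ := hCS
        _ ≤ _ := by gcongr
    calc x.re * ‖W‖ ^ 2 ≤ x.re * (d * (S.map fun z => ‖1 / (x - z)‖ ^ 2).sum) := by gcongr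
      _ = d * (x.re * (S.map fun z => ‖1 / (x - z)‖ ^ 2).sum) := by ring
      _ < d * W.re := by gcongr
  -- conclusion
  have h5 : (x - y).re * ‖W‖ ^ 2 = d * W.re := by
    have h6 : (x - y) = d * W⁻¹ := by
      field_simp
      rw [h1]
    rw [h6]
    have h7 : ((d : ℂ) * W⁻¹).re = d * (W.re / ‖W‖ ^ 2) := by
      rw [← Complex.ofReal_natCast, Complex.re_ofReal_mul, Complex.inv_re,
        Complex.normSq_eq_norm_sq]
    rw [h7]
    have : 0 < ‖W‖ ^ 2 := by positivity
    field_simp
  rw [Complex.sub_re] at h5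
  have h8 : 0 ≤ y.re * ‖W‖ ^ 2 := by positivity
  nlinarith

/-- The admissible boundary vectors. -/
def Rp (u : ℂ × ℂ) : Prop := u = (0, 1) ∨ (u.1 = 1 ∧ 0 ≤ u.2.re)

/-- **Contraction.** -/
lemma contraction {a b c d : ℂ}
    (h : ∀ u : ℂ × ℂ, Rp u → ∀ y : ℂ, 0 ≤ y.re → u.1 * (a + b * y) + u.2 * (c + d * y) ≠ 0) :
    a + d ≠ 0 := by
  intro had
  have hd : d = -a := by linear_combination had
  have h1 := h (1, 0) (Or.inr ⟨rfl, by simp⟩) 0 (by simp)
  have ha : a ≠ 0 := by simpa using h1
  have h2 : (c / a).re < 0 := by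
    by_contra hcon
    push Not at hcon
    have := h (0, 1) (Or.inl rfl) (c / a) hcon
    apply this
    rw [hd]
    field_simp
    ring
  have hc : c ≠ 0 := by
    rintro rfl
    simp at h2
  have h3 : 0 ≤ (-(a / c)).re := by
    have e : a / c = (c / a)⁻¹ := by rw [inv_div]
    rw [Complex.neg_re, e, Complex.inv_re]
    have : 0 < Complex.normSq (c / a) := Complex.normSq_pos.2 (div_ne_zero hc ha)
    have := div_neg_of_neg_of_pos h2 this
    linarith
  apply h (1, -(a / c)) (Or.inr ⟨rfl, h3⟩) 0 (by simp)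
  field_simp
  ring

end

end Pool.Agent.H759.PTB
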