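import Pool.Agent.H759.PTB.Pot2
import Pool.Agent.H759.PTB.NoZero

/-!
The path polynomials of one particle.
-/

namespace Pool.Agent.H759.PTB

open Finset MvPolynomial

noncomputable section

/-- the pair of path polynomials -/
def phi (z : ℂ) : List Letter → ℕ → MvPolynomial ℕ ℂ × MvPolynomial ℕ ℂ
  | [], _ => (1, C z)
  | Letter.R :: w, s =>
    ((phi z w (s + 1)).1, (phi z w (s + 1)).1 + X (s + 1) * (phi z w (s + 1)).2)
  | Letter.L :: w, s =>
    ((phi z w (s + 1)).1 + X (s + 1) * (phi z w (s + 1)).2, X (s + 1) * (phi z w (s + 1)).2)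
  | _ :: w, s => phi z w (s + 1)

/-- the path polynomial of a particle -/
def Pu (z : ℂ) (w : List Letter) (u : ℂ × ℂ) : MvPolynomial ℕ ℂ :=
  C u.1 * (phi z w 0).1 + C u.2 * (X 0 * (phi z w 0).2)

lemma Al_congr (w : List Letter) : ∀ (s : ℕ) {ν ν' : ℕ →₀ ℕ}, (∀ j, s ≤ j → ν j = ν' j) →
    Al w s ν → Al w s ν' := by
  induction w with
  | nil => intro s ν ν' _ _; trivial
  | cons x w ih =>
    intro s ν ν' h hA
    refine ⟨?_, ih (s + 1) (fun j hj => h j (by omega)) hA.2⟩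
    rw [← h s le_rfl, ← h (s + 1) (by omega)]
    exact hA.1

lemma supp_C {a : ℂ} {b : ℕ →₀ ℕ} (hb : b ∈ (C a : MvPolynomial ℕ ℂ).support) : b = 0 := by
  by_contra hne
  rw [mem_support_iff, coeff_C, if_neg (Ne.symm hne)] at hb
  exact hb rfl

lemma supp_one {b : ℕ →₀ ℕ} (hb : b ∈ (1 : MvPolynomial ℕ ℂ).support) : b = 0 := by
  rw [← C_1] at hb
  exact supp_C hb

lemma supp_X_mul {j : ℕ} {p : MvPolynomial ℕ ℂ} {b : ℕ →₀ ℕ} (hb : b ∈ (X j * p).support) :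
    ∃ b' ∈ p.support, b = b' + Finsupp.single j 1 := by
  have h1 := support_mul _ _ hb
  rw [Finset.mem_add] at h1
  obtain ⟨c, hc, b', hb', rfl⟩ := h1
  refine ⟨b', hb', ?_⟩
  have : c = Finsupp.single j 1 := by
    rw [support_X] at hc
    exact Finset.mem_singleton.1 hc
  rw [this, add_comm]

lemma supp_C_mul {a : ℂ} {p : MvPolynomial ℕ ℂ} {b : ℕ →₀ ℕ} (hb : b ∈ (C a * p).support) :
    b ∈ p.support := by
  rw [mem_support_iff, coeff_C_mul] at hb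
  rw [mem_support_iff]
  exact (mul_ne_zero_iff.1 hb).2

lemma supp_add {p q : MvPolynomial ℕ ℂ} {b : ℕ →₀ ℕ} (hb : b ∈ (p + q).support) :
    b ∈ p.support ∨ b ∈ q.support := by
  have := support_add hb
  exact Finset.mem_union.1 this

lemma phi_supp (z : ℂ) {w : List Letter} (hw : ∀ x ∈ w, x = Letter.L ∨ x = Letter.R) : ∀ s : ℕ,
    (∀ b ∈ (phi z w s).1.support, (∀ j ≤ s, b j = 0) ∧ (∀ j, b j ≤ 1) ∧ Al w s b) ∧
    (∀ b ∈ (phi z w s).2.support, (∀ j ≤ s, b j = 0) ∧ (∀ j, b j ≤ 1) ∧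
      Al w s (b + Finsupp.single s 1)) := by
  induction w with
  | nil =>
    intro s
    constructor
    · intro b hb
      have : b = 0 := supp_one hb
      rw [this]
      exact ⟨fun _ _ => rfl, fun _ => Nat.zero_le _, trivial⟩
    · intro b hb
      have : b = 0 := supp_C hb
      rw [this]
      exact ⟨fun _ _ => rfl, fun _ => Nat.zero_le _, trivial⟩
  | cons x w ih =>
    intro s
    have hw' : ∀ x ∈ w, x = Letter.L ∨ x = Letter.R := fun y hy => hw y (List.mem_cons_of_mem _ hy)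
    obtain ⟨i1, i2⟩ := ih hw' (s + 1)
    -- the two building blocks
    have a1 : ∀ b ∈ (phi z w (s + 1)).1.support, (∀ j ≤ s, b j = 0) ∧ (∀ j, b j ≤ 1) ∧
        b (s + 1) = 0 ∧ Al w (s + 1) b := by
      intro b hb
      obtain ⟨h1, h2, h3⟩ := i1 b hb
      exact ⟨fun j hj => h1 j (by omega), h2, h1 _ le_rfl, h3⟩
    have a2 : ∀ b ∈ (X (s + 1) * (phi z w (s + 1)).2).support, (∀ j ≤ s, b j = 0) ∧
        (∀ j, b j ≤ 1) ∧ b (s + 1) = 1 ∧ Al w (s + 1) b := by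
      intro b hb
      obtain ⟨b', hb', rfl⟩ := supp_X_mul hb
      obtain ⟨h1, h2, h3⟩ := i2 b' hb'
      refine ⟨?_, ?_, ?_, h3⟩
      · intro j hj
        rw [Finsupp.add_apply, h1 j (by omega), Finsupp.single_eq_of_ne (by omega), add_zero]
      · intro j
        rw [Finsupp.add_apply]
        by_cases hj : j = s + 1
        · rw [hj, h1 _ le_rfl, Finsupp.single_eq_same]
        · rw [Finsupp.single_eq_of_ne (by omega), add_zero]
          exact h2 j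
      · rw [Finsupp.add_apply, h1 _ le_rfl, Finsupp.single_eq_same]
    have cg : ∀ b : ℕ →₀ ℕ, Al w (s + 1) b → Al w (s + 1) (b + Finsupp.single s 1) := by
      intro b hb
      apply Al_congr w (s + 1) _ hb
      intro j hj
      rw [Finsupp.add_apply, Finsupp.single_eq_of_ne (by omega), add_zero]
    have es : ∀ b : ℕ →₀ ℕ, b s = 0 → ((b + Finsupp.single s 1 : ℕ →₀ ℕ)) s = 1 := by
      intro b hb
      rw [Finsupp.add_apply, hb, Finsupp.single_eq_same]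
    have es1 : ∀ b : ℕ →₀ ℕ, ((b + Finsupp.single s 1 : ℕ →₀ ℕ)) (s + 1) = b (s + 1) := by
      intro b
      rw [Finsupp.add_apply, Finsupp.single_eq_of_ne (by omega), add_zero]
    rcases hw x List.mem_cons_self with rfl | rfl
    · -- L
      constructor
      · intro b hb
        rcases supp_add hb with hb | hb
        · obtain ⟨h1, h2, h3, h4⟩ := a1 b hb
          refine ⟨h1, h2, ?_, h4⟩
          show b s ≤ b (s + 1)
          rw [h1 s le_rfl]; exact Nat.zero_le _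
        · obtain ⟨h1, h2, h3, h4⟩ := a2 b hb
          refine ⟨h1, h2, ?_, h4⟩
          show b s ≤ b (s + 1)
          rw [h1 s le_rfl]; exact Nat.zero_le _
      · intro b hb
        obtain ⟨h1, h2, h3, h4⟩ := a2 b hb
        refine ⟨h1, h2, ?_, cg b h4⟩
        show ((b + Finsupp.single s 1 : ℕ →₀ ℕ)) s ≤ ((b + Finsupp.single s 1 : ℕ →₀ ℕ)) (s + 1)
        rw [es b (h1 s le_rfl), es1, h3]
    · -- R
      constructor
      · intro b hb
        obtain ⟨h1, h2, h3, h4⟩ := a1 b hb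
        refine ⟨h1, h2, ?_, h4⟩
        show b (s + 1) ≤ b s
        rw [h3]; exact Nat.zero_le _
      · intro b hb
        rcases supp_add hb with hb | hb
        · obtain ⟨h1, h2, h3, h4⟩ := a1 b hb
          refine ⟨h1, h2, ?_, cg b h4⟩
          show ((b + Finsupp.single s 1 : ℕ →₀ ℕ)) (s + 1) ≤ ((b + Finsupp.single s 1 : ℕ →₀ ℕ)) s
          rw [es b (h1 s le_rfl), es1, h3]; exact Nat.zero_le _
        · obtain ⟨h1, h2, h3, h4⟩ := a2 b hb
          refine ⟨h1, h2, ?_, cg b h4⟩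
          show ((b + Finsupp.single s 1 : ℕ →₀ ℕ)) (s + 1) ≤ ((b + Finsupp.single s 1 : ℕ →₀ ℕ)) s
          rw [es b (h1 s le_rfl), es1, h3]

lemma Pu_supp (z : ℂ) {w : List Letter} (hw : ∀ x ∈ w, x = Letter.L ∨ x = Letter.R) (u : ℂ × ℂ) :
    ∀ b ∈ (Pu z w u).support, b ∈ St w := by
  obtain ⟨i1, i2⟩ := phi_supp z hw 0
  intro b hb
  rcases supp_add hb with hb | hb
  · obtain ⟨h1, h2, h3⟩ := i1 b (supp_C_mul hb)
    exact ⟨h2, h3⟩
  · obtain ⟨b', hb', rfl⟩ := supp_X_mul (supp_C_mul hb)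
    obtain ⟨h1, h2, h3⟩ := i2 b' hb'
    refine ⟨?_, h3⟩
    intro j
    rw [Finsupp.add_apply]
    by_cases hj : j = 0
    · rw [hj, h1 _ le_rfl, Finsupp.single_eq_same]
    · rw [Finsupp.single_eq_of_ne (by omega), add_zero]
      exact h2 j

/-- the sum of the norms of the coefficients -/
def N1 (p : MvPolynomial ℕ ℂ) : ℝ := ∑ b ∈ p.support, ‖coeff b p‖

/-- the sum of the coefficients -/
def ev (p : MvPolynomial ℕ ℂ) : ℂ := ∑ b ∈ p.support, coeff b p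

lemma ev_eq (p : MvPolynomial ℕ ℂ) : ev p = eval (fun _ => 1) p := by
  unfold ev
  rw [eval_eq]
  apply Finset.sum_congr rfl
  intro b _
  simp

lemma N1_superset {p : MvPolynomial ℕ ℂ} {T : Finset (ℕ →₀ ℕ)} (hT : p.support ⊆ T) :
    N1 p = ∑ b ∈ T, ‖coeff b p‖ := by
  unfold N1
  apply Finset.sum_subset hT
  intro b _ hb
  rw [notMem_support_iff.1 hb, norm_zero]

lemma N1_nonneg (p : MvPolynomial ℕ ℂ) : 0 ≤ N1 p :=
  Finset.sum_nonneg (fun _ _ => norm_nonneg _)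

lemma N1_add (p q : MvPolynomial ℕ ℂ) : N1 (p + q) ≤ N1 p + N1 q := by
  classical
  rw [N1_superset (p := p + q) (T := p.support ∪ q.support) support_add,
    N1_superset (p := p) (T := p.support ∪ q.support) Finset.subset_union_left,
    N1_superset (p := q) (T := p.support ∪ q.support) Finset.subset_union_right,
    ← Finset.sum_add_distrib]
  apply Finset.sum_le_sum
  intro b _
  rw [coeff_add]
  exact norm_add_le _ _

lemma N1_C_mul (a : ℂ) (p : MvPolynomial ℕ ℂ) : N1 (C a * p) ≤ ‖a‖ * N1 p := by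
  rw [N1_superset (p := C a * p) (T := p.support) (fun b hb => supp_C_mul hb)]
  unfold N1
  rw [Finset.mul_sum]
  apply Finset.sum_le_sum
  intro b _
  rw [coeff_C_mul, norm_mul]

lemma N1_X_mul (j : ℕ) (p : MvPolynomial ℕ ℂ) : N1 (X j * p) ≤ N1 p := by
  classical
  have h1 : (X j * p).support ⊆ p.support.image (fun b => b + Finsupp.single j 1) := by
    intro b hb
    obtain ⟨b', hb', rfl⟩ := supp_X_mul hb
    exact Finset.mem_image_of_mem _ hb'
  rw [N1_superset h1, Finset.sum_image (fun a _ b _ h => add_right_cancel h)]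
  unfold N1
  apply le_of_eq
  apply Finset.sum_congr rfl
  intro b _
  rw [add_comm b, coeff_X_mul]

lemma N1_C (a : ℂ) : N1 (C a) ≤ ‖a‖ := by
  rw [N1_superset (p := C a) (T := {0}) (fun b hb => Finset.mem_singleton.2 (supp_C hb))]
  rw [Finset.sum_singleton, coeff_C, if_pos rfl]

lemma N1_one : N1 (1 : MvPolynomial ℕ ℂ) ≤ 1 := by
  have := N1_C 1
  rw [C_1, norm_one] at this
  exact this

lemma norm_ev_le (p : MvPolynomial ℕ ℂ) : ‖ev p‖ ≤ N1 p := norm_sum_le _ _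

/-- the matrix of a word -/
def mt : List Letter → (ℝ × ℝ) × (ℝ × ℝ)
  | [] => ((1, 0), (0, 1))
  | Letter.R :: w => ((mt w).1, ((mt w).1.1 + (mt w).2.1, (mt w).1.2 + (mt w).2.2))
  | Letter.L :: w => (((mt w).1.1 + (mt w).2.1, (mt w).1.2 + (mt w).2.2), (mt w).2)
  | _ :: w => mt w

lemma ev_phi (z : ℂ) {w : List Letter} (hw : ∀ x ∈ w, x = Letter.L ∨ x = Letter.R) : ∀ s : ℕ,
    ev (phi z w s).1 = (mt w).1.1 + (mt w).1.2 * z ∧
    ev (phi z w s).2 = (mt w).2.1 + (mt w).2.2 * z := by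
  induction w with
  | nil =>
    intro s
    rw [ev_eq, ev_eq]
    show eval (fun _ => 1) 1 = ((1 : ℝ) : ℂ) + ((0 : ℝ) : ℂ) * z ∧
      eval (fun _ => 1) (C z) = ((0 : ℝ) : ℂ) + ((1 : ℝ) : ℂ) * z
    simp
  | cons x w ih =>
    intro s
    have hw' : ∀ x ∈ w, x = Letter.L ∨ x = Letter.R := fun y hy => hw y (List.mem_cons_of_mem _ hy)
    obtain ⟨i1, i2⟩ := ih hw' (s + 1)
    rw [ev_eq] at i1 i2
    rcases hw x List.mem_cons_self with rfl | rfl
    · rw [ev_eq, ev_eq]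
      show eval (fun _ => 1) ((phi z w (s + 1)).1 + X (s + 1) * (phi z w (s + 1)).2)
          = (((mt w).1.1 + (mt w).2.1 : ℝ) : ℂ) + (((mt w).1.2 + (mt w).2.2 : ℝ) : ℂ) * z ∧
        eval (fun _ => 1) (X (s + 1) * (phi z w (s + 1)).2) = _
      rw [eval_add, eval_mul, eval_X, i1, i2]
      push_cast
      constructor
      · ring
      · rw [one_mul]; rfl
    · rw [ev_eq, ev_eq]
      show eval (fun _ => 1) (phi z w (s + 1)).1 = _ ∧
        eval (fun _ => 1) ((phi z w (s + 1)).1 + X (s + 1) * (phi z w (s + 1)).2)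
          = (((mt w).1.1 + (mt w).2.1 : ℝ) : ℂ) + (((mt w).1.2 + (mt w).2.2 : ℝ) : ℂ) * z
      rw [eval_add, eval_mul, eval_X, i1, i2]
      push_cast
      constructor
      · rfl
      · ring

lemma mt_pos {w : List Letter} (hw : ∀ x ∈ w, x = Letter.L ∨ x = Letter.R) :
    (1 ≤ (mt w).1.1 ∧ 0 ≤ (mt w).1.2 ∧ 0 ≤ (mt w).2.1 ∧ 1 ≤ (mt w).2.2) ∧
    (Letter.L ∈ w → 1 ≤ (mt w).1.2) ∧ (Letter.R ∈ w → 1 ≤ (mt w).2.1) := by
  induction w with
  | nil =>
    refine ⟨⟨le_rfl, le_rfl, le_rfl, le_rfl⟩, ?_, ?_⟩ <;> intro h <;> simp at h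
  | cons x w ih =>
    have hw' : ∀ x ∈ w, x = Letter.L ∨ x = Letter.R := fun y hy => hw y (List.mem_cons_of_mem _ hy)
    obtain ⟨⟨h1, h2, h3, h4⟩, h5, h6⟩ := ih hw'
    rcases hw x List.mem_cons_self with rfl | rfl
    · show (1 ≤ (mt w).1.1 + (mt w).2.1 ∧ 0 ≤ (mt w).1.2 + (mt w).2.2 ∧ 0 ≤ (mt w).2.1 ∧
        1 ≤ (mt w).2.2) ∧ (_ → 1 ≤ (mt w).1.2 + (mt w).2.2) ∧ (_ → 1 ≤ (mt w).2.1)
      refine ⟨⟨by linarith, by linarith, h3, h4⟩, fun _ => by linarith, ?_⟩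
      intro h
      rcases List.mem_cons.1 h with h | h
      · cases h
      · exact h6 h
    · show (1 ≤ (mt w).1.1 ∧ 0 ≤ (mt w).1.2 ∧ 0 ≤ (mt w).1.1 + (mt w).2.1 ∧
        1 ≤ (mt w).1.2 + (mt w).2.2) ∧ (_ → 1 ≤ (mt w).1.2) ∧ (_ → 1 ≤ (mt w).1.1 + (mt w).2.1)
      refine ⟨⟨h1, h2, by linarith, by linarith⟩, ?_, fun _ => by linarith⟩
      intro h
      rcases List.mem_cons.1 h with h | h
      · cases h
      · exact h5 h

lemma N1_phi (z : ℂ) {w : List Letter} (hw : ∀ x ∈ w, x = Letter.L ∨ x = Letter.R) : ∀ s : ℕ,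
    N1 (phi z w s).1 ≤ (mt w).1.1 + (mt w).1.2 * ‖z‖ ∧
    N1 (phi z w s).2 ≤ (mt w).2.1 + (mt w).2.2 * ‖z‖ := by
  induction w with
  | nil =>
    intro s
    show N1 1 ≤ 1 + 0 * ‖z‖ ∧ N1 (C z) ≤ 0 + 1 * ‖z‖
    refine ⟨?_, ?_⟩
    · have := N1_one; linarith
    · have := N1_C z; linarith
  | cons x w ih =>
    intro s
    have hw' : ∀ x ∈ w, x = Letter.L ∨ x = Letter.R := fun y hy => hw y (List.mem_cons_of_mem _ hy)
    obtain ⟨i1, i2⟩ := ih hw' (s + 1)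
    have h1 := N1_X_mul (s + 1) (phi z w (s + 1)).2
    have h2 := N1_add (phi z w (s + 1)).1 (X (s + 1) * (phi z w (s + 1)).2)
    rcases hw x List.mem_cons_self with rfl | rfl
    · show N1 ((phi z w (s + 1)).1 + X (s + 1) * (phi z w (s + 1)).2)
          ≤ ((mt w).1.1 + (mt w).2.1) + ((mt w).1.2 + (mt w).2.2) * ‖z‖ ∧
        N1 (X (s + 1) * (phi z w (s + 1)).2) ≤ (mt w).2.1 + (mt w).2.2 * ‖z‖
      constructor
      · nlinarith
      · linarith
    · show N1 (phi z w (s + 1)).1 ≤ (mt w).1.1 + (mt w).1.2 * ‖z‖ ∧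
        N1 ((phi z w (s + 1)).1 + X (s + 1) * (phi z w (s + 1)).2)
          ≤ ((mt w).1.1 + (mt w).2.1) + ((mt w).1.2 + (mt w).2.2) * ‖z‖
      constructor
      · exact i1
      · nlinarith

lemma half_plane {a b : ℝ} (ha : 0 ≤ a) (hb : 0 ≤ b) {z : ℂ} (hz : 0 ≤ z.re) :
    a + b * ‖z‖ ≤ 2 * ‖(a : ℂ) + b * z‖ := by
  have h1 : a ≤ ‖(a : ℂ) + b * z‖ := by
    have h2 := Complex.re_le_norm ((a : ℂ) + b * z)
    have h3 : ((a : ℂ) + b * z).re = a + b * z.re := by simp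
    have : 0 ≤ b * z.re := by positivity
    linarith
  have h2 : b * ‖z‖ ≤ ‖(a : ℂ) + b * z‖ := by
    apply le_of_sq_le_sq _ (norm_nonneg _)
    have e1 : ‖(a : ℂ) + b * z‖ ^ 2 = (a + b * z.re) ^ 2 + (b * z.im) ^ 2 := by
      rw [Complex.sq_norm, Complex.normSq_apply]
      simp
      ring
    have e2 : ‖z‖ ^ 2 = z.re ^ 2 + z.im ^ 2 := by
      rw [Complex.sq_norm, Complex.normSq_apply]; ring
    rw [e1, mul_pow, e2]
    have : 0 ≤ a * (b * z.re) := by positivity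
    nlinarith
  linarith

/-- No cancellation. -/
lemma noncancel {K a b c d : ℝ} (ha : 1 ≤ a) (hb : 1 ≤ b) (hc : 1 ≤ c) (hd : 1 ≤ d) (haK : a ≤ K)
    (hbK : b ≤ K) (hcK : c ≤ K) (hdK : d ≤ K) {z : ℂ} (hz : 0 ≤ z.re) {u : ℂ × ℂ} (hu : Rp u) :
    ‖u.1‖ * (a + b * ‖z‖) + ‖u.2‖ * (c + d * ‖z‖)
      ≤ 12 * K ^ 2 * ‖u.1 * ((a : ℂ) + b * z) + u.2 * ((c : ℂ) + d * z)‖ := by
  have hK : 1 ≤ K := ha.trans haK
  have hK2 : 1 ≤ K ^ 2 := by nlinarith
  set p : ℂ := (a : ℂ) + b * z with hp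
  set q : ℂ := (c : ℂ) + d * z with hq
  have hp2 := half_plane (by linarith : 0 ≤ a) (by linarith : 0 ≤ b) hz
  have hq2 := half_plane (by linarith : 0 ≤ c) (by linarith : 0 ≤ d) hz
  rw [← hp] at hp2
  rw [← hq] at hq2
  have hz0 := norm_nonneg z
  have hppos : 0 < ‖p‖ := by nlinarith
  have hqpos : 0 < ‖q‖ := by nlinarith
  -- the angle between p and q
  have hang : ‖p‖ * ‖q‖ ≤ 2 * K ^ 2 * (p * (starRingEnd ℂ) q).re := by
    have e1 : (p * (starRingEnd ℂ) q).re = a * c + (a * d + b * c) * z.re + b * d * ‖z‖ ^ 2 := by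
      rw [hp, hq, Complex.sq_norm, Complex.normSq_apply]
      simp
      ring
    have h1 : 1 + ‖z‖ ^ 2 ≤ (p * (starRingEnd ℂ) q).re := by
      rw [e1]
      have h2 : 1 ≤ a * c := by nlinarith
      have h3 : 1 ≤ b * d := by nlinarith
      have h4 : 0 ≤ (a * d + b * c) * z.re := by positivity
      have h5 : ‖z‖ ^ 2 ≤ b * d * ‖z‖ ^ 2 := by nlinarith [sq_nonneg ‖z‖]
      linarith
    have h6 : ‖p‖ ≤ K * (1 + ‖z‖) := by
      rw [hp]
      refine (norm_add_le _ _).trans ?_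
      rw [norm_mul, Complex.norm_real, Complex.norm_real, Real.norm_eq_abs, Real.norm_eq_abs,
        abs_of_pos (by linarith), abs_of_pos (by linarith)]
      nlinarith
    have h7 : ‖q‖ ≤ K * (1 + ‖z‖) := by
      rw [hq]
      refine (norm_add_le _ _).trans ?_
      rw [norm_mul, Complex.norm_real, Complex.norm_real, Real.norm_eq_abs, Real.norm_eq_abs,
        abs_of_pos (by linarith), abs_of_pos (by linarith)]
      nlinarith
    calc ‖p‖ * ‖q‖ ≤ (K * (1 + ‖z‖)) * (K * (1 + ‖z‖)) := by gcongr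
      _ = K ^ 2 * (1 + ‖z‖) ^ 2 := by ring
      _ ≤ K ^ 2 * (2 * (1 + ‖z‖ ^ 2)) := by
          apply mul_le_mul_of_nonneg_left _ (by positivity)
          nlinarith [sq_nonneg (1 - ‖z‖)]
      _ ≤ K ^ 2 * (2 * (p * (starRingEnd ℂ) q).re) := by gcongr
      _ = _ := by ring
  have hrepq : 0 ≤ (p * (starRingEnd ℂ) q).re := by
    by_contra hcon
    push Not at hcon
    have : 2 * K ^ 2 * (p * (starRingEnd ℂ) q).re < 0 := by
      apply mul_neg_of_pos_of_neg (by positivity) hcon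
    have : 0 < ‖p‖ * ‖q‖ := by positivity
    linarith
  have main : ‖u.1‖ * ‖p‖ + ‖u.2‖ * ‖q‖ ≤ 6 * K ^ 2 * ‖u.1 * p + u.2 * q‖ := by
    rcases hu with rfl | ⟨h1, h2⟩
    · simp only [norm_zero, zero_mul, norm_one, one_mul, zero_add]
      nlinarith
    · rw [h1, norm_one, one_mul, one_mul]
      have hb0 := norm_nonneg u.2
      by_cases hcase : 2 * ‖p‖ ≤ ‖u.2‖ * ‖q‖
      · have h3 : ‖u.2‖ * ‖q‖ - ‖p‖ ≤ ‖p + u.2 * q‖ := by
          have := norm_sub_norm_le (u.2 * q) (-p)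
          rw [norm_neg, norm_mul, sub_neg_eq_add, add_comm (u.2 * q) p] at this
          exact this
        have h4 : 0 ≤ ‖p + u.2 * q‖ := norm_nonneg _
        nlinarith
      · push Not at hcase
        have h3 : (p * (starRingEnd ℂ) q).re ≤ ‖p + u.2 * q‖ * ‖q‖ := by
          have h4 := Complex.re_le_norm ((p + u.2 * q) * (starRingEnd ℂ) q)
          rw [norm_mul, Complex.norm_conj] at h4
          have h5 : ((p + u.2 * q) * (starRingEnd ℂ) q).re
              = (p * (starRingEnd ℂ) q).re + u.2.re * ‖q‖ ^ 2 := by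
            rw [add_mul, Complex.add_re, mul_assoc u.2 q, Complex.mul_conj,
              Complex.re_mul_ofReal, Complex.sq_norm]
          rw [h5] at h4
          have : 0 ≤ u.2.re * ‖q‖ ^ 2 := by positivity
          linarith
        have h6 : ‖p‖ ≤ 2 * K ^ 2 * ‖p + u.2 * q‖ := by
          have h7 : ‖p‖ * ‖q‖ ≤ (2 * K ^ 2 * ‖p + u.2 * q‖) * ‖q‖ := by
            calc ‖p‖ * ‖q‖ ≤ 2 * K ^ 2 * (p * (starRingEnd ℂ) q).re := hang
              _ ≤ 2 * K ^ 2 * (‖p + u.2 * q‖ * ‖q‖) := by gcongr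
              _ = _ := by ring
          exact le_of_mul_le_mul_right h7 hqpos
        linarith
  have h8 : 0 ≤ ‖u.1‖ := norm_nonneg _
  have h9 : 0 ≤ ‖u.2‖ := norm_nonneg _
  calc ‖u.1‖ * (a + b * ‖z‖) + ‖u.2‖ * (c + d * ‖z‖)
      ≤ ‖u.1‖ * (2 * ‖p‖) + ‖u.2‖ * (2 * ‖q‖) := by gcongr
    _ = 2 * (‖u.1‖ * ‖p‖ + ‖u.2‖ * ‖q‖) := by ring
    _ ≤ 2 * (6 * K ^ 2 * ‖u.1 * p + u.2 * q‖) := by gcongr
    _ = _ := by ring

/-- the constant of a word -/
def Kw (w : List Letter) : ℝ :=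
  max (max (mt w).1.1 (mt w).1.2) (max (mt w).2.1 (mt w).2.2)

lemma Pu_N {w : List Letter} (hw : ∀ x ∈ w, x = Letter.L ∨ x = Letter.R)
    (hL : Letter.L ∈ w) (hR : Letter.R ∈ w) {z : ℂ} (hz : 0 ≤ z.re) {u : ℂ × ℂ} (hu : Rp u) :
    0 < ∑ b ∈ (Pu z w u).support, ‖coeff b (Pu z w u)‖ ∧
      ∑ b ∈ (Pu z w u).support, ‖coeff b (Pu z w u)‖
        ≤ 12 * Kw w ^ 2 * ‖∑ b ∈ (Pu z w u).support, coeff b (Pu z w u)‖ := by
  obtain ⟨⟨h1, h2, h3, h4⟩, h5, h6⟩ := mt_pos hw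
  have h5 := h5 hL
  have h6 := h6 hR
  have k1 : (mt w).1.1 ≤ Kw w := (le_max_left _ _).trans (le_max_left _ _)
  have k2 : (mt w).1.2 ≤ Kw w := (le_max_right _ _).trans (le_max_left _ _)
  have k3 : (mt w).2.1 ≤ Kw w := (le_max_left _ _).trans (le_max_right _ _)
  have k4 : (mt w).2.2 ≤ Kw w := (le_max_right _ _).trans (le_max_right _ _)
  have hnc := noncancel h1 h5 h6 h4 k1 k2 k3 k4 hz hu
  obtain ⟨e1, e2⟩ := ev_phi z hw 0
  obtain ⟨n1, n2⟩ := N1_phi z hw 0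
  have hev : ev (Pu z w u) = u.1 * (((mt w).1.1 : ℂ) + (mt w).1.2 * z)
      + u.2 * (((mt w).2.1 : ℂ) + (mt w).2.2 * z) := by
    rw [← e1, ← e2, ev_eq, ev_eq, ev_eq]
    unfold Pu
    simp
  have hN : N1 (Pu z w u) ≤ 12 * Kw w ^ 2 * ‖ev (Pu z w u)‖ := by
    rw [hev]
    refine le_trans ?_ hnc
    unfold Pu
    refine (N1_add _ _).trans ?_
    have m1 := N1_C_mul u.1 (phi z w 0).1
    have m2 := N1_C_mul u.2 (X 0 * (phi z w 0).2)
    have m3 := N1_X_mul 0 (phi z w 0).2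
    have h8 : 0 ≤ ‖u.1‖ := norm_nonneg _
    have h9 : 0 ≤ ‖u.2‖ := norm_nonneg _
    have m4 : ‖u.1‖ * N1 (phi z w 0).1 ≤ ‖u.1‖ * ((mt w).1.1 + (mt w).1.2 * ‖z‖) := by gcongr
    have m5 : ‖u.2‖ * N1 (X 0 * (phi z w 0).2) ≤ ‖u.2‖ * ((mt w).2.1 + (mt w).2.2 * ‖z‖) := by
      gcongr
      exact m3.trans n2
    linarith
  refine ⟨?_, hN⟩
  -- positivity
  have hpos : 0 < ‖u.1‖ * ((mt w).1.1 + (mt w).1.2 * ‖z‖)
      + ‖u.2‖ * ((mt w).2.1 + (mt w).2.2 * ‖z‖) := by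
    have hz0 := norm_nonneg z
    rcases hu with rfl | ⟨h7, _⟩
    · simp only [norm_zero, zero_mul, norm_one, one_mul, zero_add]
      have : 0 ≤ (mt w).2.2 * ‖z‖ := by positivity
      linarith
    · rw [h7, norm_one, one_mul]
      have : 0 ≤ (mt w).1.2 * ‖z‖ := by positivity
      have : 0 ≤ ‖u.2‖ * ((mt w).2.1 + (mt w).2.2 * ‖z‖) := by positivity
      linarith
  have h10 : 0 < ‖ev (Pu z w u)‖ := by
    rw [hev]
    by_contra hcon
    push Not at hcon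
    have h11 : 12 * Kw w ^ 2 * ‖u.1 * (((mt w).1.1 : ℂ) + (mt w).1.2 * z)
        + u.2 * (((mt w).2.1 : ℂ) + (mt w).2.2 * z)‖ ≤ 0 :=
      mul_nonpos_of_nonneg_of_nonpos (by positivity) hcon
    linarith
  exact lt_of_lt_of_le h10 (norm_ev_le _)

end

end Pool.Agent.H759.PTB
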