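import Pool.Agent.H759.PTB.Bar2

/-!
The potential of a word and its one-particle ratios.
-/

namespace Pool.Agent.H759.PTB

open Finset MvPolynomial

noncomputable section

/-- analytic factor of a letter -/
def exx (n : ℕ) (t : ℂ) : Letter → ℕ → ℕ → ℂ
  | Letter.R => fun k l => exR n k l t
  | Letter.L => fun k l => exL n k l t
  | _ => fun _ _ => 1

/-- potential of a word -/
def Ew (n : ℕ) (t : ℂ) : List Letter → ℕ → (ℕ →₀ ℕ) → ℂ
  | [], _, _ => 1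
  | x :: w, s, ν => exx n t x (ν s) (ν (s + 1)) * Ew n t w (s + 1) ν

/-- allowed steps -/
def al : Letter → ℕ → ℕ → Prop
  | Letter.R => fun k l => l ≤ k
  | Letter.L => fun k l => k ≤ l
  | _ => fun _ _ => True

/-- allowed paths -/
def Al : List Letter → ℕ → (ℕ →₀ ℕ) → Prop
  | [], _, _ => True
  | x :: w, s, ν => al x (ν s) (ν (s + 1)) ∧ Al w (s + 1) ν

/-- linear argument -/
def ln (t : ℂ) (a b c : ℝ) (k l : ℕ) : ℂ := ((a * k + b * l + c : ℝ) : ℂ) * t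

/-- ratio -/
def qRa (n : ℕ) (t : ℂ) (k l : ℕ) : ℂ :=
  Complex.exp (-Complex.I * ln t 0 (4 * Real.pi) (Real.pi * (3 - 2 * n)) k l)
    * ((sc (ln t (4 * Real.pi) (-(4 * Real.pi)) (4 * Real.pi) k l))⁻¹
    * (Complex.cos (ln t (4 * Real.pi) 0 (Real.pi * (3 - 2 * n)) k l))⁻¹)

/-- ratio -/
def qRb (n : ℕ) (t : ℂ) (k l : ℕ) : ℂ :=
  Complex.exp (-Complex.I * ln t (4 * Real.pi) (4 * Real.pi) (Real.pi * (6 - 4 * n)) k l)
    * (Complex.cos (ln t 0 (4 * Real.pi) (Real.pi * (3 - 2 * n)) k l)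
    * (Complex.cos (ln t (4 * Real.pi) 0 (Real.pi * (3 - 2 * n)) k l))⁻¹)

/-- ratio -/
def qLa (n : ℕ) (t : ℂ) (k l : ℕ) : ℂ :=
  Complex.exp (Complex.I * ln t (4 * Real.pi) 0 (Real.pi * (3 - 2 * n)) k l)
    * (sc (ln t 0 (4 * Real.pi) (4 * Real.pi) k l)
    * (sc (ln t 0 (-(4 * Real.pi)) (4 * Real.pi * (n - 1)) k l)
    * (Complex.cos (ln t 0 (4 * Real.pi) (Real.pi * (1 - 2 * n)) k l)
    * (sc (ln t (-(4 * Real.pi)) (4 * Real.pi) (4 * Real.pi) k l))⁻¹)))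

/-- ratio -/
def qLb (n : ℕ) (t : ℂ) (k l : ℕ) : ℂ :=
  Complex.exp (Complex.I * ln t (4 * Real.pi) (4 * Real.pi) (Real.pi * (6 - 4 * n)) k l)
    * ((sc (ln t 0 (4 * Real.pi) (4 * Real.pi) k l)
      * (sc (ln t (4 * Real.pi) 0 (4 * Real.pi) k l))⁻¹)
    * ((sc (ln t 0 (-(4 * Real.pi)) (4 * Real.pi * (n - 1)) k l)
      * (sc (ln t (-(4 * Real.pi)) 0 (4 * Real.pi * (n - 1)) k l))⁻¹)
    * (Complex.cos (ln t 0 (4 * Real.pi) (Real.pi * (1 - 2 * n)) k l)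
      * (Complex.cos (ln t (4 * Real.pi) 0 (Real.pi * (1 - 2 * n)) k l))⁻¹)))

/-- the ratios -/
def rt (n : ℕ) (t : ℂ) : Letter → ℕ → ℕ → ℕ → ℕ → ℂ
  | Letter.R => fun a b k l => if a = 0 then 1 else if b = 0 then qRa n t k l else qRb n t k l
  | Letter.L => fun a b k l => if b = 0 then 1 else if a = 0 then qLa n t k l else qLb n t k l
  | _ => fun _ _ _ _ => 1

/-- the ratio of a word -/
def Qf (n : ℕ) (t : ℂ) : List Letter → ℕ → (ℕ →₀ ℕ) → (ℕ →₀ ℕ) → ℂ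
  | [], _, _, _ => 1
  | x :: w, s, b, ν => rt n t x (b s) (b (s + 1)) (ν s) (ν (s + 1)) * Qf n t w (s + 1) b ν

lemma ph_R1 (n k l : ℕ) (t : ℂ) : -(Complex.I * ((ph n l (k + 1) : ℂ) * t))
    = -(Complex.I * ((ph n l k : ℂ) * t))
      + -Complex.I * ln t 0 (4 * Real.pi) (Real.pi * (3 - 2 * n)) k l := by
  unfold ph hu hv ln
  push_cast
  ring

lemma ph_R2 (n k l : ℕ) (t : ℂ) : -(Complex.I * ((ph n (l + 1) (k + 1) : ℂ) * t))
    = -(Complex.I * ((ph n l k : ℂ) * t))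
      + -Complex.I * ln t (4 * Real.pi) (4 * Real.pi) (Real.pi * (6 - 4 * n)) k l := by
  unfold ph hu hv ln
  push_cast
  ring

lemma ph_L1 (n k l : ℕ) (t : ℂ) : Complex.I * ((ph n k (l + 1) : ℂ) * t)
    = Complex.I * ((ph n k l : ℂ) * t)
      + Complex.I * ln t (4 * Real.pi) 0 (Real.pi * (3 - 2 * n)) k l := by
  unfold ph hu hv ln
  push_cast
  ring

lemma ph_L2 (n k l : ℕ) (t : ℂ) : Complex.I * ((ph n (k + 1) (l + 1) : ℂ) * t)
    = Complex.I * ((ph n k l : ℂ) * t)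
      + Complex.I * ln t (4 * Real.pi) (4 * Real.pi) (Real.pi * (6 - 4 * n)) k l := by
  unfold ph hu hv ln
  push_cast
  ring

lemma ratio_Ra {n k l : ℕ} (h : l ≤ k) (t : ℂ) :
    exR n (k + 1) l t = exR n k l t * qRa n t k l := by
  obtain ⟨d, rfl⟩ := Nat.exists_eq_add_of_le h
  unfold exR qRa
  rw [ph_R1, Complex.exp_add, show l + d + 1 - l = d + 1 by omega, show l + d - l = d by omega,
    Finset.prod_range_succ, mul_inv]
  have e1 : ln t (4 * Real.pi) (-(4 * Real.pi)) (4 * Real.pi) (l + d) l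
      = ((4 * Real.pi * ((d : ℝ) + 1) : ℝ) : ℂ) * t := by
    unfold ln; push_cast; ring
  have e2 : ln t (4 * Real.pi) 0 (Real.pi * (3 - 2 * n)) (l + d) l
      = ((Real.pi * (4 * ((l : ℝ) + d) + 3 - 2 * n) : ℝ) : ℂ) * t := by
    unfold ln; push_cast; ring
  rw [e1, e2]
  ring

lemma ratio_Rb {n k l : ℕ} (h : l ≤ k) {t : ℂ}
    (hk : Complex.cos (ln t (4 * Real.pi) 0 (Real.pi * (3 - 2 * n)) k l) ≠ 0)
    (hl : Complex.cos (ln t 0 (4 * Real.pi) (Real.pi * (3 - 2 * n)) k l) ≠ 0) :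
    exR n (k + 1) (l + 1) t = exR n k l t * qRb n t k l := by
  obtain ⟨d, rfl⟩ := Nat.exists_eq_add_of_le h
  unfold exR qRb
  rw [ph_R2, Complex.exp_add, show l + d + 1 - (l + 1) = d by omega, show l + d - l = d by omega]
  have e1 : ln t (4 * Real.pi) 0 (Real.pi * (3 - 2 * n)) (l + d) l
      = ((Real.pi * (4 * ((l : ℝ) + d) + 3 - 2 * n) : ℝ) : ℂ) * t := by
    unfold ln; push_cast; ring
  have e2 : ln t 0 (4 * Real.pi) (Real.pi * (3 - 2 * n)) (l + d) l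
      = ((Real.pi * (4 * ((l : ℝ) + 0) + 3 - 2 * n) : ℝ) : ℂ) * t := by
    unfold ln; push_cast; ring
  rw [e1] at hk
  rw [e2] at hl
  rw [e1, e2]
  simp only [mul_inv, Finset.prod_mul_distrib]
  have h1 := Finset.prod_range_succ
    (fun j => (Complex.cos (((Real.pi * (4 * ((l : ℝ) + j) + 3 - 2 * n) : ℝ) : ℂ) * t))⁻¹) d
  have h2 := Finset.prod_range_succ'
    (fun j => (Complex.cos (((Real.pi * (4 * ((l : ℝ) + j) + 3 - 2 * n) : ℝ) : ℂ) * t))⁻¹) d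
  rw [h1] at h2
  simp only [Nat.cast_zero] at h2
  have h3 : ∏ j ∈ range d, (Complex.cos (((Real.pi * (4 * ((l : ℝ) + ((j + 1 : ℕ) : ℝ)) + 3 - 2 * n)
      : ℝ) : ℂ) * t))⁻¹
      = ∏ j ∈ range d, (Complex.cos (((Real.pi * (4 * (((l + 1 : ℕ) : ℝ) + j) + 3 - 2 * n)
      : ℝ) : ℂ) * t))⁻¹ := by
    apply Finset.prod_congr rfl
    intro j _
    congr 5
    push_cast; ring
  rw [h3] at h2
  set c0 := Complex.cos (((Real.pi * (4 * ((l : ℝ) + 0) + 3 - 2 * n) : ℝ) : ℂ) * t)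
  set c1 := Complex.cos (((Real.pi * (4 * ((l : ℝ) + d) + 3 - 2 * n) : ℝ) : ℂ) * t)
  set p0 := ∏ j ∈ range d, (Complex.cos (((Real.pi * (4 * ((l : ℝ) + j) + 3 - 2 * n)
      : ℝ) : ℂ) * t))⁻¹
  set p1 := ∏ j ∈ range d, (Complex.cos (((Real.pi * (4 * (((l + 1 : ℕ) : ℝ) + j) + 3 - 2 * n)
      : ℝ) : ℂ) * t))⁻¹
  set S := ∏ j ∈ range d, (sc (((4 * Real.pi * ((j : ℝ) + 1) : ℝ) : ℂ) * t))⁻¹
  have h4 : p1 = p0 * c1⁻¹ * c0 := by
    rw [h2, mul_assoc, inv_mul_cancel₀ hl, mul_one]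
  rw [h4]
  ring

lemma ratio_La {n k l : ℕ} (h : k ≤ l) (t : ℂ) :
    exL n k (l + 1) t = exL n k l t * qLa n t k l := by
  obtain ⟨d, rfl⟩ := Nat.exists_eq_add_of_le h
  unfold exL qLa
  rw [ph_L1, Complex.exp_add, show k + d + 1 - k = d + 1 by omega, show k + d - k = d by omega,
    Finset.prod_range_succ]
  have e1 : ln t (-(4 * Real.pi)) (4 * Real.pi) (4 * Real.pi) k (k + d)
      = ((4 * Real.pi * ((d : ℝ) + 1) : ℝ) : ℂ) * t := by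
    unfold ln; push_cast; ring
  have e2 : ln t 0 (4 * Real.pi) (Real.pi * (1 - 2 * n)) k (k + d)
      = ((Real.pi * (4 * ((k : ℝ) + d) + 1 - 2 * n) : ℝ) : ℂ) * t := by
    unfold ln; push_cast; ring
  have e3 : ln t 0 (4 * Real.pi) (4 * Real.pi) k (k + d)
      = ((4 * Real.pi * ((k : ℝ) + 1 + d) : ℝ) : ℂ) * t := by
    unfold ln; push_cast; ring
  have e4 : ln t 0 (-(4 * Real.pi)) (4 * Real.pi * (n - 1)) k (k + d)
      = ((4 * Real.pi * ((n : ℝ) - k - 1 - d) : ℝ) : ℂ) * t := by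
    unfold ln; push_cast; ring
  rw [e1, e2, e3, e4]
  ring

lemma tele {f : ℕ → ℂ} (d : ℕ) (h0 : f 0 ≠ 0) :
    ∏ j ∈ range d, f (j + 1) = (∏ j ∈ range d, f j) * (f d * (f 0)⁻¹) := by
  have h1 := Finset.prod_range_succ f d
  have h2 := Finset.prod_range_succ' f d
  rw [h1] at h2
  rw [← mul_assoc, h2, mul_assoc, mul_inv_cancel₀ h0, mul_one]

lemma ratio_Lb {n k l : ℕ} (h : k ≤ l) {t : ℂ}
    (h1 : sc (ln t (4 * Real.pi) 0 (4 * Real.pi) k l) ≠ 0)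
    (h2 : sc (ln t (-(4 * Real.pi)) 0 (4 * Real.pi * (n - 1)) k l) ≠ 0)
    (h3 : Complex.cos (ln t (4 * Real.pi) 0 (Real.pi * (1 - 2 * n)) k l) ≠ 0) :
    exL n (k + 1) (l + 1) t = exL n k l t * qLb n t k l := by
  obtain ⟨d, rfl⟩ := Nat.exists_eq_add_of_le h
  unfold exL qLb
  rw [ph_L2, Complex.exp_add, show k + d + 1 - (k + 1) = d by omega, show k + d - k = d by omega]
  have e1 : ln t (4 * Real.pi) 0 (4 * Real.pi) k (k + d)
      = ((4 * Real.pi * ((k : ℝ) + 1 + ((0 : ℕ) : ℝ)) : ℝ) : ℂ) * t := by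
    unfold ln; push_cast; ring
  have e2 : ln t (-(4 * Real.pi)) 0 (4 * Real.pi * (n - 1)) k (k + d)
      = ((4 * Real.pi * ((n : ℝ) - k - 1 - ((0 : ℕ) : ℝ)) : ℝ) : ℂ) * t := by
    unfold ln; push_cast; ring
  have e3 : ln t (4 * Real.pi) 0 (Real.pi * (1 - 2 * n)) k (k + d)
      = ((Real.pi * (4 * ((k : ℝ) + ((0 : ℕ) : ℝ)) + 1 - 2 * n) : ℝ) : ℂ) * t := by
    unfold ln; push_cast; ring
  have e4 : ln t 0 (4 * Real.pi) (4 * Real.pi) k (k + d)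
      = ((4 * Real.pi * ((k : ℝ) + 1 + d) : ℝ) : ℂ) * t := by
    unfold ln; push_cast; ring
  have e5 : ln t 0 (-(4 * Real.pi)) (4 * Real.pi * (n - 1)) k (k + d)
      = ((4 * Real.pi * ((n : ℝ) - k - 1 - d) : ℝ) : ℂ) * t := by
    unfold ln; push_cast; ring
  have e6 : ln t 0 (4 * Real.pi) (Real.pi * (1 - 2 * n)) k (k + d)
      = ((Real.pi * (4 * ((k : ℝ) + d) + 1 - 2 * n) : ℝ) : ℂ) * t := by
    unfold ln; push_cast; ring
  rw [e1] at h1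
  rw [e2] at h2
  rw [e3] at h3
  rw [e1, e2, e3, e4, e5, e6]
  have t1 := tele (f := fun j : ℕ => sc (((4 * Real.pi * ((k : ℝ) + 1 + j) : ℝ) : ℂ) * t)) d h1
  have t2 := tele (f := fun j : ℕ => sc (((4 * Real.pi * ((n : ℝ) - k - 1 - j) : ℝ) : ℂ) * t)) d h2
  have t3 := tele (f := fun j : ℕ =>
    Complex.cos (((Real.pi * (4 * ((k : ℝ) + j) + 1 - 2 * n) : ℝ) : ℂ) * t)) d h3
  simp only [Finset.prod_mul_distrib]
  have g1 : ∏ j ∈ range d, sc (((4 * Real.pi * (((k + 1 : ℕ) : ℝ) + 1 + j) : ℝ) : ℂ) * t)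
      = ∏ j ∈ range d, sc (((4 * Real.pi * ((k : ℝ) + 1 + ((j + 1 : ℕ) : ℝ)) : ℝ) : ℂ) * t) := by
    apply Finset.prod_congr rfl
    intro j _
    congr 3
    push_cast; ring
  have g2 : ∏ j ∈ range d, sc (((4 * Real.pi * ((n : ℝ) - ((k + 1 : ℕ) : ℝ) - 1 - j) : ℝ) : ℂ) * t)
      = ∏ j ∈ range d, sc (((4 * Real.pi * ((n : ℝ) - k - 1 - ((j + 1 : ℕ) : ℝ)) : ℝ) : ℂ) * t) := by
    apply Finset.prod_congr rfl
    intro j _
    congr 3
    push_cast; ring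
  have g3 : ∏ j ∈ range d,
      Complex.cos (((Real.pi * (4 * (((k + 1 : ℕ) : ℝ) + j) + 1 - 2 * n) : ℝ) : ℂ) * t)
      = ∏ j ∈ range d,
      Complex.cos (((Real.pi * (4 * ((k : ℝ) + ((j + 1 : ℕ) : ℝ)) + 1 - 2 * n) : ℝ) : ℂ) * t) := by
    apply Finset.prod_congr rfl
    intro j _
    congr 4
    push_cast; ring
  rw [g1, g2, g3, t1, t2, t3]
  ring

end

end Pool.Agent.H759.PTB
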