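import Pool.Agent.H759.PTB.Pot

/-!
The potential of a word: nonvanishing, ratios, and bounds of the ratios.
-/

namespace Pool.Agent.H759.PTB

open Finset MvPolynomial

noncomputable section

lemma exR_ne {n k l : ℕ} (hk : k < n) {t : ℂ} (ht : n * ‖t‖ ≤ 1 / 50) : exR n k l t ≠ 0 := by
  unfold exR
  apply mul_ne_zero (Complex.exp_ne_zero _)
  rw [Finset.prod_ne_zero_iff]
  intro j hj
  have hj' := Finset.mem_range.1 hj
  apply inv_ne_zero
  apply mul_ne_zero
  · have b1 : |4 * Real.pi * ((j : ℝ) + 1)| ≤ 4 * Real.pi * n := by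
      have := c1_bound (n := n) (j := j) (m := 0) (by omega)
      simpa using this
    exact (sc_fac ht b1).1
  · have b2 : |Real.pi * (4 * ((l : ℝ) + j) + 3 - 2 * n)| ≤ 4 * Real.pi * n := by
      have := c3_bound (n := n) (m := l + j) (by omega) (c := 3) (by norm_num) le_rfl
      push_cast at this
      exact this
    exact (cos_fac ht b2).1

lemma exL_ne {n k l : ℕ} (hl : l < n) {t : ℂ} (ht : n * ‖t‖ ≤ 1 / 50) : exL n k l t ≠ 0 := by
  unfold exL
  apply mul_ne_zero (Complex.exp_ne_zero _)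
  rw [Finset.prod_ne_zero_iff]
  intro j hj
  have hj' := Finset.mem_range.1 hj
  have b1 : |4 * Real.pi * ((j : ℝ) + 1)| ≤ 4 * Real.pi * n := by
    have := c1_bound (n := n) (j := j) (m := 0) (by omega)
    simpa using this
  have b0 : |4 * Real.pi * ((k : ℝ) + 1 + j)| ≤ 4 * Real.pi * n := by
    have := c1_bound (n := n) (j := j) (m := k) (by omega)
    rw [show (k : ℝ) + 1 + j = k + j + 1 by ring]
    exact this
  have b3 := c2_bound (n := n) (k := k) (j := j) (by omega)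
  have b2 : |Real.pi * (4 * ((k : ℝ) + j) + 1 - 2 * n)| ≤ 4 * Real.pi * n := by
    have := c3_bound (n := n) (m := k + j) (by omega) (c := 1) (by norm_num) (by norm_num)
    push_cast at this
    exact this
  exact mul_ne_zero (mul_ne_zero (mul_ne_zero (sc_fac ht b0).1 (sc_fac ht b3).1) (cos_fac ht b2).1)
    (inv_ne_zero (sc_fac ht b1).1)

lemma exx_ne {n k l : ℕ} (hk : k < n) (hl : l < n) {t : ℂ} (ht : n * ‖t‖ ≤ 1 / 50) (x : Letter) :
    exx n t x k l ≠ 0 := by
  cases x with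
  | L => exact exL_ne hl ht
  | R => exact exR_ne hk ht
  | L' => exact one_ne_zero
  | R' => exact one_ne_zero

lemma Ew_ne {n : ℕ} {t : ℂ} (ht : n * ‖t‖ ≤ 1 / 50) (w : List Letter) :
    ∀ (s : ℕ) (ν : ℕ →₀ ℕ), (∀ j, ν j < n) → Ew n t w s ν ≠ 0 := by
  induction w with
  | nil => intro s ν _; exact one_ne_zero
  | cons x w ih =>
    intro s ν hν
    exact mul_ne_zero (exx_ne (hν s) (hν (s + 1)) ht x) (ih (s + 1) ν hν)

lemma ln_eq {t : ℂ} {a b c d : ℝ} {k l : ℕ} (h : a * k + b * l + c = d) :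
    ln t a b c k l = (d : ℂ) * t := by
  unfold ln
  rw [h]

lemma exx_ratio {n k l : ℕ} (hk : k + 1 < n) (hl : l + 1 < n) {t : ℂ} (ht : n * ‖t‖ ≤ 1 / 50)
    (x : Letter) (hkl : al x k l) {a b : ℕ} (ha : a ≤ 1) (hb : b ≤ 1) (hab : al x a b) :
    exx n t x (k + a) (l + b) = exx n t x k l * rt n t x a b k l := by
  cases x with
  | L =>
    have hkl' : k ≤ l := hkl
    have hab' : a ≤ b := hab
    show exL n (k + a) (l + b) t = exL n k l t * (if b = 0 then 1 else if a = 0 then qLa n t k l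
      else qLb n t k l)
    interval_cases b
    · interval_cases a
      simp
    · rw [if_neg one_ne_zero]
      interval_cases a
      · rw [if_pos rfl]
        exact ratio_La hkl' t
      · rw [if_neg one_ne_zero]
        apply ratio_Lb hkl'
        · rw [ln_eq (d := 4 * Real.pi * ((k : ℝ) + 1)) (by ring)]
          apply (sc_fac ht _).1
          have := c1_bound (n := n) (j := k) (m := 0) (by omega)
          simpa using this
        · rw [ln_eq (d := 4 * Real.pi * ((n : ℝ) - k - 1 - (0 : ℕ))) (by push_cast; ring)]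
          exact (sc_fac ht (c2_bound (by omega))).1
        · rw [ln_eq (d := Real.pi * (4 * (k : ℝ) + 1 - 2 * n)) (by ring)]
          exact (cos_fac ht (c3_bound hk (by norm_num) (by norm_num))).1
  | R =>
    have hkl' : l ≤ k := hkl
    have hab' : b ≤ a := hab
    show exR n (k + a) (l + b) t = exR n k l t * (if a = 0 then 1 else if b = 0 then qRa n t k l
      else qRb n t k l)
    interval_cases a
    · interval_cases b
      simp
    · rw [if_neg one_ne_zero]
      interval_cases b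
      · rw [if_pos rfl]
        exact ratio_Ra hkl' t
      · rw [if_neg one_ne_zero]
        apply ratio_Rb hkl'
        · rw [ln_eq (d := Real.pi * (4 * (k : ℝ) + 3 - 2 * n)) (by ring)]
          exact (cos_fac ht (c3_bound hk (by norm_num) (by norm_num))).1
        · rw [ln_eq (d := Real.pi * (4 * (l : ℝ) + 3 - 2 * n)) (by ring)]
          exact (cos_fac ht (c3_bound hl (by norm_num) (by norm_num))).1
  | L' => show (1 : ℂ) = 1 * 1; ring
  | R' => show (1 : ℂ) = 1 * 1; ring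

lemma Ew_add {n : ℕ} {t : ℂ} (ht : n * ‖t‖ ≤ 1 / 50) (w : List Letter) :
    ∀ (s : ℕ) (ν b : ℕ →₀ ℕ), (∀ j, ν j + 1 < n) → Al w s ν → (∀ j, b j ≤ 1) → Al w s b →
      Ew n t w s (ν + b) = Ew n t w s ν * Qf n t w s b ν := by
  induction w with
  | nil => intro s ν b _ _ _ _; show (1 : ℂ) = 1 * 1; ring
  | cons x w ih =>
    intro s ν b hν hA hb hB
    show exx n t x ((ν + b) s) ((ν + b) (s + 1)) * Ew n t w (s + 1) (ν + b)
      = (exx n t x (ν s) (ν (s + 1)) * Ew n t w (s + 1) ν)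
        * (rt n t x (b s) (b (s + 1)) (ν s) (ν (s + 1)) * Qf n t w (s + 1) b ν)
    rw [ih (s + 1) ν b hν hA.2 hb hB.2, Finsupp.add_apply, Finsupp.add_apply,
      exx_ratio (hν s) (hν (s + 1)) ht x hA.1 (hb s) (hb (s + 1)) hB.1]
    ring

lemma al_add {x : Letter} {k l k' l' : ℕ} (h : al x k l) (h' : al x k' l') :
    al x (k + k') (l + l') := by
  cases x with
  | L => exact Nat.add_le_add h h'
  | R => exact Nat.add_le_add h h'
  | L' => trivial
  | R' => trivial

lemma al_zero (x : Letter) : al x 0 0 := by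
  cases x with
  | L => exact le_rfl
  | R => exact le_rfl
  | L' => trivial
  | R' => trivial

lemma Al_add (w : List Letter) : ∀ (s : ℕ) {ν b : ℕ →₀ ℕ}, Al w s ν → Al w s b →
    Al w s (ν + b) := by
  induction w with
  | nil => intro s ν b _ _; trivial
  | cons x w ih =>
    intro s ν b h h'
    refine ⟨?_, ih (s + 1) h.2 h'.2⟩
    rw [Finsupp.add_apply, Finsupp.add_apply]
    exact al_add h.1 h'.1

lemma Al_zero (w : List Letter) : ∀ s : ℕ, Al w s 0 := by
  induction w with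
  | nil => intro s; trivial
  | cons x w ih => intro s; exact ⟨al_zero x, ih (s + 1)⟩

/-- the states -/
def St (w : List Letter) : Set (ℕ →₀ ℕ) := {b | (∀ j, b j ≤ 1) ∧ Al w 0 b}

lemma adm_Al {w : List Letter} {r : ℕ} : ∀ {ν : ℕ →₀ ℕ}, ν ∈ Adm (St w) r → Al w 0 ν := by
  induction r with
  | zero =>
    intro ν h
    have : ν = 0 := h
    rw [this]
    exact Al_zero w 0
  | succ r ih =>
    intro ν h
    obtain ⟨μ, hμ, b, hb, rfl⟩ := h
    exact Al_add w 0 (ih hμ) hb.2

section particles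

set_option linter.unusedSectionVars false

variable {ι : Type} [DecidableEq ι] {P : ι → MvPolynomial ℕ ℂ} {w : List Letter}

/-- linear multipliers -/
lemma op_lin {n m s : ℕ} (hn : n = m + 1) {t : ℂ} {Λ : ℝ} (hΛ : 1 ≤ Λ) {E : (ℕ →₀ ℕ) → ℂ}
    (hG : Good (St w) P E m s Λ) (hP : ∀ i, ∀ b ∈ (P i).support, b ∈ St w)
    {a b c : ℝ} (ha : |a| ≤ 4 * Real.pi) (hb : |b| ≤ 4 * Real.pi) (hc : |c| ≤ 4 * Real.pi * n)
    (i j : ℕ) :
    Op (St w) P E m s (fun ν => ln t a b c (ν i) (ν j)) (12 * Real.pi * n * Λ * ‖t‖) := by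
  have hA : ∀ b ∈ St w, ∀ j, b j ≤ 1 := fun b hb => hb.1
  have hpi := Real.pi_pos
  have h1 := op_mul (op_const (A := St w) (P := P) (E := E) (m := m) s (a : ℂ))
    (op_coord hG hΛ hA hP i) (by positivity)
  have h2 := op_mul (op_const (A := St w) (P := P) (E := E) (m := m) s (b : ℂ))
    (op_coord hG hΛ hA hP j) (by positivity)
  have h3 := op_const (A := St w) (P := P) (E := E) (m := m) s (c : ℂ)
  have h4 := op_mul (op_add (op_add h1 h2) h3)
    (op_const (A := St w) (P := P) (E := E) (m := m) s t) (norm_nonneg t)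
  refine op_mono (op_fun_congr h4 (fun ν => ?_)) ?_
  · unfold ln
    push_cast
    ring
  · have ht := norm_nonneg t
    apply mul_le_mul_of_nonneg_right _ ht
    rw [Complex.norm_real, Complex.norm_real, Complex.norm_real, Real.norm_eq_abs,
      Real.norm_eq_abs, Real.norm_eq_abs]
    have hm : (n : ℝ) = m + 1 := by rw [hn]; push_cast; ring
    have hm0 : (0 : ℝ) ≤ m := by positivity
    have hΛ0 : 0 ≤ Λ := by linarith
    calc |a| * (m * Λ) + |b| * (m * Λ) + |c|
        ≤ (4 * Real.pi) * (m * Λ) + (4 * Real.pi) * (m * Λ) + 4 * Real.pi * n := by gcongr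
      _ ≤ (4 * Real.pi) * (n * Λ) + (4 * Real.pi) * (n * Λ) + 4 * Real.pi * (n * Λ) := by
          have h5 : (m : ℝ) * Λ ≤ n * Λ := by rw [hm]; nlinarith
          have h6 : (n : ℝ) ≤ n * Λ := by
            have : (0 : ℝ) ≤ n := by positivity
            nlinarith
          gcongr
      _ = _ := by ring

lemma near_rt {n m s : ℕ} (hn : n = m + 1) {t : ℂ} {Λ τ : ℝ} (hΛ : 1 ≤ Λ) {E : (ℕ →₀ ℕ) → ℂ}
    (hG : Good (St w) P E m s Λ) (hP : ∀ i, ∀ b ∈ (P i).support, b ∈ St w)
    (hE : ∀ r ≤ m, ∀ ν ∈ Adm (St w) r, E ν ≠ 0) (hτ0 : 12 * Real.pi * n * Λ * ‖t‖ ≤ τ)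
    (hτ : τ ≤ 1 / 4) (x : Letter) (a b : ℕ) (i j : ℕ) :
    Near (St w) P E m s (fun ν => rt n t x a b (ν i) (ν j)) (10 * τ) := by
  have hpi := Real.pi_pos
  have hτp : 0 ≤ τ := le_trans (by positivity) hτ0
  have hn1 : (1 : ℝ) ≤ n := by
    have : 1 ≤ n := by omega
    exact_mod_cast this
  have k4 : |4 * Real.pi| ≤ 4 * Real.pi := by rw [abs_of_pos (by positivity)]
  have k4' : |-(4 * Real.pi)| ≤ 4 * Real.pi := by rw [abs_neg]; exact k4
  have k0 : |(0 : ℝ)| ≤ 4 * Real.pi := by rw [abs_zero]; positivity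
  have c1 : |4 * Real.pi| ≤ 4 * Real.pi * n := k4.trans (by nlinarith)
  have c2 : |Real.pi * (3 - 2 * (n : ℝ))| ≤ 4 * Real.pi * n := by
    rw [abs_mul, abs_of_pos hpi]
    have : |3 - 2 * (n : ℝ)| ≤ 4 * n := by rw [abs_le]; constructor <;> linarith
    nlinarith
  have c3 : |Real.pi * (1 - 2 * (n : ℝ))| ≤ 4 * Real.pi * n := by
    rw [abs_mul, abs_of_pos hpi]
    have : |1 - 2 * (n : ℝ)| ≤ 4 * n := by rw [abs_le]; constructor <;> linarith
    nlinarith
  have c4 : |Real.pi * (6 - 4 * (n : ℝ))| ≤ 4 * Real.pi * n := by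
    rw [abs_mul, abs_of_pos hpi]
    have : |6 - 4 * (n : ℝ)| ≤ 4 * n := by rw [abs_le]; constructor <;> linarith
    nlinarith
  have c5 : |4 * Real.pi * ((n : ℝ) - 1)| ≤ 4 * Real.pi * n := by
    rw [abs_mul, abs_of_pos (by positivity : 0 < 4 * Real.pi)]
    have : |(n : ℝ) - 1| ≤ n := by rw [abs_le]; constructor <;> linarith
    nlinarith
  have lin : ∀ {a b c : ℝ}, |a| ≤ 4 * Real.pi → |b| ≤ 4 * Real.pi → |c| ≤ 4 * Real.pi * n →
      Op (St w) P E m s (fun ν => ln t a b c (ν i) (ν j)) τ := fun ha hb hc =>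
    op_mono (op_lin hn hΛ hG hP ha hb hc i j) hτ0
  have nS : ∀ {a b c : ℝ}, |a| ≤ 4 * Real.pi → |b| ≤ 4 * Real.pi → |c| ≤ 4 * Real.pi * n →
      Near (St w) P E m s (fun ν => sc (ln t a b c (ν i) (ν j))) τ := fun ha hb hc =>
    near_sc hτp (by linarith) (lin ha hb hc) hP
  have nC : ∀ {a b c : ℝ}, |a| ≤ 4 * Real.pi → |b| ≤ 4 * Real.pi → |c| ≤ 4 * Real.pi * n →
      Near (St w) P E m s (fun ν => Complex.cos (ln t a b c (ν i) (ν j))) τ := fun ha hb hc =>
    near_cos hτp (lin ha hb hc) hP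
  have nE : ∀ {a b c : ℝ}, |a| ≤ 4 * Real.pi → |b| ≤ 4 * Real.pi → |c| ≤ 4 * Real.pi * n →
      Near (St w) P E m s (fun ν => Complex.exp (Complex.I * ln t a b c (ν i) (ν j))) τ :=
    fun ha hb hc => near_exp hτp (op_mono
      (op_mul (op_const (A := St w) (P := P) (E := E) (m := m) s Complex.I) (lin ha hb hc) hτp)
      (by simp)) hP
  have nE' : ∀ {a b c : ℝ}, |a| ≤ 4 * Real.pi → |b| ≤ 4 * Real.pi → |c| ≤ 4 * Real.pi * n →
      Near (St w) P E m s (fun ν => Complex.exp (-Complex.I * ln t a b c (ν i) (ν j))) τ :=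
    fun ha hb hc => near_exp hτp (op_mono
      (op_mul (op_const (A := St w) (P := P) (E := E) (m := m) s (-Complex.I)) (lin ha hb hc) hτp)
      (by simp)) hP
  have nSi : ∀ {a b c : ℝ}, |a| ≤ 4 * Real.pi → |b| ≤ 4 * Real.pi → |c| ≤ 4 * Real.pi * n →
      Near (St w) P E m s (fun ν => (sc (ln t a b c (ν i) (ν j)))⁻¹) (2 * τ) := fun ha hb hc =>
    near_inv hτp hτ (nS ha hb hc) hP hE
  have nCi : ∀ {a b c : ℝ}, |a| ≤ 4 * Real.pi → |b| ≤ 4 * Real.pi → |c| ≤ 4 * Real.pi * n →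
      Near (St w) P E m s (fun ν => (Complex.cos (ln t a b c (ν i) (ν j)))⁻¹) (2 * τ) :=
    fun ha hb hc => near_inv hτp hτ (nC ha hb hc) hP hE
  have none : Near (St w) P E m s (fun _ => 1) (10 * τ) :=
    near_mono (near_const_one s) (by positivity)
  have t2 : 0 ≤ 2 * τ := by positivity
  cases x with
  | L =>
    show Near (St w) P E m s (fun ν => if b = 0 then 1 else if a = 0 then qLa n t (ν i) (ν j)
      else qLb n t (ν i) (ν j)) (10 * τ)
    by_cases hb : b = 0
    · simp only [if_pos hb]; exact none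
    simp only [if_neg hb]
    by_cases ha : a = 0
    · simp only [if_pos ha]
      refine near_mono (near_mul (nE k4 k0 c2) (near_mul (nS k0 k4 c1) (near_mul (nS k0 k4' c5)
        (near_mul (nC k0 k4 c3) (nSi k4' k4 c1) t2) (by positivity)) (by positivity))
        (by positivity)) ?_
      linarith
    · simp only [if_neg ha]
      refine near_mono (near_mul (nE k4 k4 c4) (near_mul (near_mul (nS k0 k4 c1) (nSi k4 k0 c1) t2)
        (near_mul (near_mul (nS k0 k4' c5) (nSi k4' k0 c5) t2)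
          (near_mul (nC k0 k4 c3) (nCi k4 k0 c3) t2) (by positivity)) (by positivity))
        (by positivity)) ?_
      linarith
  | R =>
    show Near (St w) P E m s (fun ν => if a = 0 then 1 else if b = 0 then qRa n t (ν i) (ν j)
      else qRb n t (ν i) (ν j)) (10 * τ)
    by_cases ha : a = 0
    · simp only [if_pos ha]; exact none
    simp only [if_neg ha]
    by_cases hb : b = 0
    · simp only [if_pos hb]
      refine near_mono (near_mul (nE' k0 k4 c2) (near_mul (nSi k4 k4' c1) (nCi k4 k0 c2) t2)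
        (by positivity)) ?_
      linarith
    · simp only [if_neg hb]
      refine near_mono (near_mul (nE' k4 k4 c4) (near_mul (nC k0 k4 c2) (nCi k4 k0 c2) t2)
        (by positivity)) ?_
      linarith
  | L' => exact none
  | R' => exact none

lemma near_Qf {n m s : ℕ} (hn : n = m + 1) {t : ℂ} {Λ τ : ℝ} (hΛ : 1 ≤ Λ) {E : (ℕ →₀ ℕ) → ℂ}
    (hG : Good (St w) P E m s Λ) (hP : ∀ i, ∀ b ∈ (P i).support, b ∈ St w)
    (hE : ∀ r ≤ m, ∀ ν ∈ Adm (St w) r, E ν ≠ 0) (hτ0 : 12 * Real.pi * n * Λ * ‖t‖ ≤ τ)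
    (hτ : τ ≤ 1 / 4) (v : List Letter) :
    ∀ (k : ℕ) (b : ℕ →₀ ℕ), Near (St w) P E m s (fun ν => Qf n t v k b ν) (10 * τ * v.length) := by
  have hpi := Real.pi_pos
  have hτp : 0 ≤ τ := le_trans (by positivity) hτ0
  induction v with
  | nil =>
    intro k b
    refine near_mono (near_const_one s) ?_
    simp
  | cons x v ih =>
    intro k b
    refine near_mono (near_mul (near_rt hn hΛ hG hP hE hτ0 hτ x (b k) (b (k + 1)) k (k + 1))
      (ih (k + 1) b) (by positivity)) ?_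
    rw [List.length_cons]
    push_cast
    linarith

/-- **All numbers of particles.** -/
lemma good_all {n m : ℕ} (hn : n = m + 1) {t : ℂ} {Λ0 : ℝ} (hΛ0 : 1 ≤ Λ0)
    (hP : ∀ i, ∀ b ∈ (P i).support, b ∈ St w)
    (hN : ∀ i, 0 < ∑ b ∈ (P i).support, ‖coeff b (P i)‖ ∧
      ∑ b ∈ (P i).support, ‖coeff b (P i)‖ ≤ Λ0 * ‖∑ b ∈ (P i).support, coeff b (P i)‖)
    (hw : 1 ≤ w.length)
    (ht : 1440 * Real.pi * (n * ‖t‖) * Λ0 ^ 2 * w.length ≤ 1) (s : ℕ) :
    Good (St w) P (Ew n t w 0) m s (3 * Λ0) := by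
  have hpi := Real.pi_pos
  have hpi3 := Real.pi_gt_three
  have hw' : (1 : ℝ) ≤ w.length := by exact_mod_cast hw
  have hnt : 0 ≤ n * ‖t‖ := by positivity
  have hΛ2 : Λ0 ≤ Λ0 ^ 2 := by nlinarith
  have hΛ21 : 1 ≤ Λ0 ^ 2 := by nlinarith
  have ht1 : n * ‖t‖ ≤ 1 / 50 := by
    have h1 : 50 * (n * ‖t‖) ≤ 1440 * Real.pi * (n * ‖t‖) * Λ0 ^ 2 * w.length := by
      calc 50 * (n * ‖t‖) ≤ 1440 * Real.pi * (n * ‖t‖) := by nlinarith
        _ = 1440 * Real.pi * (n * ‖t‖) * 1 * 1 := by ring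
        _ ≤ _ := by gcongr
    linarith
  have hE : ∀ r ≤ m, ∀ ν ∈ Adm (St w) r, Ew n t w 0 ν ≠ 0 := by
    intro r hr ν hν
    apply Ew_ne ht1
    intro j
    have := adm_coord (A := St w) (fun b hb => hb.1) hν j
    omega
  induction s with
  | zero => exact good_zero hE _
  | succ s ih =>
    set τ := 12 * Real.pi * n * (3 * Λ0) * ‖t‖ with hτ
    have hτp : 0 ≤ τ := by positivity
    have hδ : 10 * τ * w.length ≤ 1 / (4 * Λ0) := by
      rw [le_div_iff₀ (by positivity)]
      calc 10 * τ * w.length * (4 * Λ0) = 1440 * Real.pi * (n * ‖t‖) * Λ0 ^ 2 * w.length := by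
            rw [hτ]; ring
        _ ≤ 1 := ht
    have h4 : 1 / (4 * Λ0) ≤ 1 / 4 := by
      apply one_div_le_one_div_of_le (by norm_num)
      linarith
    have hτ4 : τ ≤ 1 / 4 := by
      have : τ ≤ 10 * τ * w.length := by nlinarith
      linarith
    apply good_step (θ := Real.exp (1 / (4 * Λ0)) - 1) hΛ0 _ hP _ hN ih
    · have hx0 : (0 : ℝ) < 1 / (4 * Λ0) := by positivity
      have h5 : Real.exp (1 / (4 * Λ0)) ≤ 1 + 2 * (1 / (4 * Λ0)) := by
        set x := 1 / (4 * Λ0)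
        have h := Real.one_sub_le_exp_neg x
        rw [Real.exp_neg] at h
        have hp := Real.exp_pos x
        rw [le_inv_comm₀ (by linarith) hp] at h
        refine h.trans ?_
        rw [inv_le_iff_one_le_mul₀ (by linarith)]
        nlinarith
      have e : 1 / (2 * Λ0) = 2 * (1 / (4 * Λ0)) := by field_simp; ring
      rw [e]; linarith
    · intro b hb
      refine ⟨Qf n t w 0 b, ?_, ?_⟩
      · intro r hr ν hν
        apply Ew_add ht1 w 0 ν b _ (adm_Al hν) hb.1 hb.2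
        intro j
        have := adm_coord (A := St w) (fun b hb => hb.1) hν j
        omega
      · have h5 := near_Qf hn (by linarith : (1 : ℝ) ≤ 3 * Λ0) ih hP hE le_rfl hτ4 w 0 b
        have h6 := near_mono h5 hδ
        have h7 := h6 (fun _ => 1) 1 (by norm_num) (bd_one s)
        simpa using h7

end particles

end

end Pool.Agent.H759.PTB
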