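import Pool.Agent.H759.PTB.Trig

/-!
The split basis: the sequences `p_k(m)` and their three-term relation.
-/

namespace Pool.Agent.H759.PTB

open Finset Real

noncomputable section

lemma th_pos (N : ℕ) : 0 < th N := by unfold th; positivity

lemma sn_add (N : ℕ) (x y : ℝ) : sn N (x + y) = sn N x * cs N y + cs N x * sn N y := by
  unfold sn cs; rw [mul_add, sin_add]

lemma cs_add (N : ℕ) (x y : ℝ) : cs N (x + y) = cs N x * cs N y - sn N x * sn N y := by
  unfold sn cs; rw [mul_add, cos_add]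

lemma sn_neg (N : ℕ) (x : ℝ) : sn N (-x) = - sn N x := by
  unfold sn; rw [mul_neg, sin_neg]

lemma cs_neg (N : ℕ) (x : ℝ) : cs N (-x) = cs N x := by
  unfold cs; rw [mul_neg, cos_neg]

lemma sn_zero (N : ℕ) : sn N 0 = 0 := by simp [sn]

lemma sn_two (N : ℕ) (x : ℝ) : sn N (2 * x) = 2 * sn N x * cs N x := by
  rw [two_mul x, sn_add]; ring

lemma sn_sq (N : ℕ) (x : ℝ) : sn N x ^ 2 + cs N x ^ 2 = 1 := by
  unfold sn cs; exact sin_sq_add_cos_sq _

/-- `s(x) ≠ 0` for integers `0 < x < r`. -/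
lemma sn_ne {N x : ℕ} (h0 : 0 < x) (h1 : x < 2 * N + 1) : sn N x ≠ 0 := by
  intro h
  unfold sn th at h
  rw [Real.sin_eq_zero_iff] at h
  obtain ⟨k, hk⟩ := h
  have hr : (0 : ℝ) < 2 * N + 1 := by positivity
  have h2 : (k : ℝ) * (2 * N + 1) = 2 * x := by
    have hpi := Real.pi_pos
    field_simp at hk
    linarith
  have h3 : k * (2 * N + 1) = 2 * (x : ℤ) := by exact_mod_cast h2
  have h4 : ((2 * N + 1 : ℕ) : ℤ) ∣ 2 * (x : ℤ) := ⟨k, by push_cast; linarith⟩
  have h5 : (2 * N + 1) ∣ 2 * x := by exact_mod_cast h4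
  have h6 : (2 * N + 1) ∣ x := by
    apply Nat.Coprime.dvd_of_dvd_mul_left _ h5
    have : Nat.Coprime (2 * N + 1) 2 := by
      rw [Nat.coprime_two_right]
      exact ⟨N, rfl⟩
    exact this
  have := Nat.le_of_dvd h0 h6
  omega

/-- `c(x) ≠ 0` for integers `x`. -/
lemma cs_ne (N : ℕ) (x : ℤ) : cs N x ≠ 0 := by
  intro h
  unfold cs th at h
  rw [Real.cos_eq_zero_iff] at h
  obtain ⟨k, hk⟩ := h
  have hr : (0 : ℝ) < 2 * N + 1 := by positivity
  have h2 : (2 * (k : ℝ) + 1) * (2 * N + 1) = 4 * x := by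
    have hpi := Real.pi_pos
    field_simp at hk
    linarith
  have h3 : (2 * k + 1) * (2 * N + 1) = 4 * x := by exact_mod_cast h2
  have h4 : (2 * k + 1) * (2 * (N : ℤ) + 1) = 2 * (2 * k * N + k + N) + 1 := by ring
  omega

/-- Difference of eigenvalues. -/
lemma om_sub (N b m i : ℕ) :
    om N b m - om N b i = -4 * sn N (2 * ((m : ℝ) - i)) * sn N (2 * ((b : ℝ) + m + i + 1)) := by
  unfold om
  have h1 := sn_add N (b + 2 * m + 1) (b + 2 * i + 1)
  have h2 := sn_add N (b + 2 * m + 1) (-((b : ℝ) + 2 * i + 1))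
  rw [sn_neg, cs_neg] at h2
  rw [show (2 * ((m : ℝ) - i)) = b + 2 * m + 1 + -((b : ℝ) + 2 * i + 1) by ring,
    show (2 * ((b : ℝ) + m + i + 1)) = b + 2 * m + 1 + (b + 2 * i + 1) by ring, h1, h2]
  have h3 := sn_sq N (b + 2 * m + 1)
  have h4 := sn_sq N (b + 2 * i + 1)
  linear_combination (4 * cs N (b + 2 * i + 1) ^ 2) * h3 - (4 * cs N (b + 2 * m + 1) ^ 2) * h4

/-- The numbers `θ_k`. -/
def tht (N b k : ℕ) : ℝ :=
  -16 * sn N (2 * k) * sn N (2 * b + 2 * k + 1) * cs N (b + 2 * k - 1) * cs N (b + 2 * k)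

lemma tht_ne {N b k : ℕ} (h0 : 0 < k) (h1 : b + k < N) : tht N b k ≠ 0 := by
  unfold tht
  have a1 : sn N (2 * (k : ℝ)) ≠ 0 := by
    have := sn_ne (N := N) (x := 2 * k) (by omega) (by omega)
    exact_mod_cast this
  have a2 : sn N (2 * (b : ℝ) + 2 * k + 1) ≠ 0 := by
    have := sn_ne (N := N) (x := 2 * b + 2 * k + 1) (by omega) (by omega)
    exact_mod_cast this
  have a3 : cs N ((b : ℝ) + 2 * k - 1) ≠ 0 := by
    have := cs_ne N ((b : ℤ) + 2 * k - 1)
    exact_mod_cast this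
  have a4 : cs N ((b : ℝ) + 2 * k) ≠ 0 := by
    have := cs_ne N ((b : ℤ) + 2 * k)
    exact_mod_cast this
  simp [a1, a2, a3, a4]

/-- `p_0(m)`. -/
def pz (N b : ℕ) : ℕ → ℝ
  | 0 => 1
  | m + 1 => pz N b m * (sn N (2 * b + 2 * m + 2) * sn N (2 * b + 2 * m + 3)
      / (sn N (b + 2 * m + 1) * sn N (b + 2 * m + 2)))

/-- `p_k(m)`. -/
def pp (N b : ℕ) : ℕ → ℕ → ℝ
  | 0, m => pz N b m
  | k + 1, m => pp N b k m * ((om N b m - om N b k) / tht N b (k + 1))

/-- the factor `F(m)`. -/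
def fF (N b m : ℕ) : ℝ :=
  sn N (2 * m + 2) * sn N (2 * b + 2 * m + 3) / (sn N (b + 2 * m + 1) * sn N (b + 2 * m + 2))

lemma pp_succ {N b k : ℕ} (m : ℕ) (h1 : b + k + 1 < N) :
    pp N b (k + 1) m * tht N b (k + 1) = pp N b k m * (om N b m - om N b k) := by
  have := tht_ne (N := N) (b := b) (k := k + 1) (by omega) (by omega)
  simp only [pp]
  field_simp

lemma relR {N b : ℕ} (m : ℕ) {k : ℕ} (hk : b + k < N) :
    pp N b k (m + 1) * sn N (2 * ((m : ℝ) + 1 - k))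
      = pp N b k m * fF N b m * sn N (2 * ((b : ℝ) + m + 1 + k)) := by
  induction k with
  | zero =>
    simp only [pp, pz, fF]
    push_cast
    rw [show 2 * ((m : ℝ) + 1 - 0) = 2 * m + 2 by ring,
      show 2 * ((b : ℝ) + m + 1 + 0) = 2 * b + 2 * m + 2 by ring]
    ring
  | succ k ih =>
    have ih := ih (by omega)
    have h := tht_ne (N := N) (b := b) (k := k + 1) (by omega) (by omega)
    have h1 := pp_succ (N := N) (b := b) (k := k) (m + 1) (by omega)
    have h2 := pp_succ (N := N) (b := b) (k := k) m (by omega)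
    rw [om_sub] at h1 h2
    apply mul_right_cancel₀ h
    push_cast at h1 h2 ih ⊢
    rw [show 2 * ((b : ℝ) + (m + 1) + k + 1) = 2 * ((b : ℝ) + m + 1 + (k + 1)) by ring] at h1
    rw [show 2 * ((m : ℝ) - k) = 2 * ((m : ℝ) + 1 - (k + 1)) by ring,
      show 2 * ((b : ℝ) + m + k + 1) = 2 * ((b : ℝ) + m + 1 + k) by ring] at h2
    calc pp N b (k + 1) (m + 1) * sn N (2 * ((m : ℝ) + 1 - (k + 1))) * tht N b (k + 1)
        = (pp N b (k + 1) (m + 1) * tht N b (k + 1)) * sn N (2 * ((m : ℝ) + 1 - (k + 1))) := by ring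
      _ = (pp N b k (m + 1) * sn N (2 * ((m : ℝ) + 1 - k)))
            * (-4 * sn N (2 * ((b : ℝ) + m + 1 + (k + 1)))
              * sn N (2 * ((m : ℝ) + 1 - (k + 1)))) := by rw [h1]; ring
      _ = (pp N b (k + 1) m * tht N b (k + 1)) * fF N b m
            * sn N (2 * ((b : ℝ) + m + 1 + (k + 1))) := by rw [ih, h2]; ring
      _ = _ := by ring

lemma relQ {N b : ℕ} (m : ℕ) {k : ℕ} (hk : b + k + 1 < N) :
    pp N b (k + 1) (m + 1) * tht N b (k + 1)
      = -4 * pp N b k m * fF N b m * sn N (2 * ((b : ℝ) + m + 1 + k))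
        * sn N (2 * ((b : ℝ) + m + k + 2)) := by
  have h1 := pp_succ (N := N) (b := b) (k := k) (m + 1) (by omega)
  have h2 := relR (N := N) (b := b) m (k := k) (by omega)
  rw [om_sub] at h1
  push_cast at h1
  rw [show 2 * ((b : ℝ) + (m + 1) + k + 1) = 2 * ((b : ℝ) + m + k + 2) by ring] at h1
  rw [h1]
  calc pp N b k (m + 1) * (-4 * sn N (2 * ((m : ℝ) + 1 - k)) * sn N (2 * ((b : ℝ) + m + k + 2)))
      = (pp N b k (m + 1) * sn N (2 * ((m : ℝ) + 1 - k)))
        * (-4 * sn N (2 * ((b : ℝ) + m + k + 2))) := by ring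
    _ = _ := by rw [h2]; ring

lemma sn_ne' {N : ℕ} {x : ℝ} (y : ℕ) (hy : (y : ℝ) = x) (h0 : 0 < y) (h1 : y < 2 * N + 1) :
    sn N x ≠ 0 := by
  rw [← hy]; exact sn_ne h0 h1

lemma cs_ne' {N : ℕ} {x : ℝ} (y : ℤ) (hy : (y : ℝ) = x) : cs N x ≠ 0 := by
  rw [← hy]; exact cs_ne N y

/-- `p_m(m) = 1`. -/
lemma pp_diag {N b : ℕ} {m : ℕ} (hm : b + m < N) : pp N b m m = 1 := by
  induction m with
  | zero => simp [pp, pz]
  | succ m ih =>
    have ih := ih (by omega)
    have h := tht_ne (N := N) (b := b) (k := m + 1) (by omega) (by omega)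
    have h1 := relQ (N := N) (b := b) m (k := m) (by omega)
    apply mul_right_cancel₀ h
    rw [h1, ih, one_mul]
    have d1 : sn N ((b : ℝ) + 2 * m + 1) ≠ 0 :=
      sn_ne' (b + 2 * m + 1) (by push_cast; ring) (by omega) (by omega)
    have d2 : sn N ((b : ℝ) + 2 * m + 2) ≠ 0 :=
      sn_ne' (b + 2 * m + 2) (by push_cast; ring) (by omega) (by omega)
    have e1 := sn_two N ((b : ℝ) + 2 * m + 1)
    have e2 := sn_two N ((b : ℝ) + 2 * m + 2)
    unfold fF tht
    push_cast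
    rw [show 2 * ((b : ℝ) + m + 1 + m) = 2 * ((b : ℝ) + 2 * m + 1) by ring,
      show 2 * ((b : ℝ) + m + m + 2) = 2 * ((b : ℝ) + 2 * m + 2) by ring, e1, e2,
      show 2 * ((m : ℝ) + 1) = 2 * m + 2 by ring,
      show 2 * (b : ℝ) + (2 * m + 2) + 1 = 2 * b + 2 * m + 3 by ring,
      show (b : ℝ) + (2 * m + 2) - 1 = b + 2 * m + 1 by ring,
      show (b : ℝ) + (2 * m + 2) = b + 2 * m + 2 by ring]
    field_simp
    ring

/-- `p_k(m) = 0` for `k > m`. -/
lemma pp_zero {N b : ℕ} {m k : ℕ} (hmk : m < k) : pp N b k m = 0 := by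
  induction k with
  | zero => omega
  | succ k ih =>
    simp only [pp]
    rcases Nat.lt_or_ge m k with h | h
    · rw [ih h]; ring
    · have : m = k := by omega
      subst this
      simp

/-- `p_k(n) = 0`, `n = N - b`. -/
lemma pp_top {N b : ℕ} {m : ℕ} (hm : b + m + 1 = N) (k : ℕ) : pp N b k (m + 1) = 0 := by
  induction k with
  | zero =>
    simp only [pp, pz]
    have : sn N (2 * b + 2 * m + 3) = 0 := by
      unfold sn th
      have : (2 * (b : ℝ) + 2 * m + 3) = 2 * N + 1 := by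
        have : ((b + m + 1 : ℕ) : ℝ) = N := by rw [hm]
        push_cast at this
        linarith
      rw [this]
      have h : (2 * (N : ℝ) + 1) ≠ 0 := by positivity
      rw [div_mul_cancel₀ _ h]
      exact sin_two_pi
    rw [this]; ring
  | succ k ih => simp only [pp]; rw [ih]; ring

/-- The companions `p'_k(m)`. -/
def qq (N b k m : ℕ) : ℝ :=
  pp N b k m * (sn N (2 * ((b : ℝ) + m + k + 1))
    / (2 * sn N (b + 2 * m + 1) * cs N (b + 2 * k + 1)))

lemma relI1 {N b m k : ℕ} (hm : b + m + 1 < N) (hk : b + k < N) :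
    pp N b k (m + 1) = qq N b k (m + 1) + uc N b (b + 2 * (m + 1)) * qq N b k m := by
  have h2 := relR (N := N) (b := b) m (k := k) (by omega)
  have d0 : sn N ((b : ℝ) + 2 * m + 1) ≠ 0 :=
    sn_ne' (b + 2 * m + 1) (by push_cast; ring) (by omega) (by omega)
  have d1 : sn N ((b : ℝ) + 2 * m + 2) ≠ 0 :=
    sn_ne' (b + 2 * m + 2) (by push_cast; ring) (by omega) (by omega)
  have d2 : sn N ((b : ℝ) + 2 * m + 3) ≠ 0 :=
    sn_ne' (b + 2 * m + 3) (by push_cast; ring) (by omega) (by omega)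
  have c0 : cs N ((b : ℝ) + 2 * k + 1) ≠ 0 :=
    cs_ne' (b + 2 * k + 1) (by push_cast; ring)
  have key : 2 * sn N ((b : ℝ) + 2 * m + 3) * cs N ((b : ℝ) + 2 * k + 1)
      = sn N (2 * ((b : ℝ) + m + k + 2)) + sn N (2 * ((m : ℝ) + 1 - k)) := by
    have a1 := sn_add N ((b : ℝ) + 2 * m + 3) ((b : ℝ) + 2 * k + 1)
    have a2 := sn_add N ((b : ℝ) + 2 * m + 3) (-((b : ℝ) + 2 * k + 1))
    rw [sn_neg, cs_neg] at a2
    rw [show 2 * ((b : ℝ) + m + k + 2) = (b : ℝ) + 2 * m + 3 + ((b : ℝ) + 2 * k + 1) by ring,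
      show 2 * ((m : ℝ) + 1 - k) = (b : ℝ) + 2 * m + 3 + (-((b : ℝ) + 2 * k + 1)) by ring, a1, a2]
    ring
  have hq2 : uc N b (b + 2 * (m + 1)) * qq N b k m
      = pp N b k (m + 1) * sn N (2 * ((m : ℝ) + 1 - k))
        / (2 * sn N ((b : ℝ) + 2 * m + 3) * cs N ((b : ℝ) + 2 * k + 1)) := by
    rw [h2]
    unfold uc qq fF
    rw [show (b : ℝ) + 2 * (m + 1) - b = 2 * m + 2 by ring,
      show (b : ℝ) + 2 * (m + 1) + b + 1 = 2 * b + 2 * m + 3 by ring,
      show (b : ℝ) + 2 * (m + 1) + 1 = b + 2 * m + 3 by ring,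
      show (b : ℝ) + 2 * (m + 1) = b + 2 * m + 2 by ring,
      show (b : ℝ) + m + 1 + k = b + m + k + 1 by ring]
    field_simp
  rw [hq2]
  unfold qq
  push_cast
  rw [show (b : ℝ) + (m + 1) + k + 1 = b + m + k + 2 by ring,
    show (b : ℝ) + 2 * (m + 1) + 1 = b + 2 * m + 3 by ring]
  rw [mul_div_assoc, ← mul_add, ← add_div, ← key]
  field_simp

lemma relI2 {N b m k : ℕ} (hm : b + m < N) (hk : b + k + 1 < N) :
    qq N b k m + om N b (k + 1) * qq N b (k + 1) m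
      = pp N b (k + 1) (m + 1) + uc N b (b + 2 * m + 1) * pp N b (k + 1) m := by
  have ht := tht_ne (N := N) (b := b) (k := k + 1) (by omega) (by omega)
  have h1 := pp_succ (N := N) (b := b) (k := k) m (by omega)
  have h2 := relQ (N := N) (b := b) m (k := k) (by omega)
  rw [om_sub] at h1
  have d0 : sn N ((b : ℝ) + 2 * m + 1) ≠ 0 :=
    sn_ne' (b + 2 * m + 1) (by push_cast; ring) (by omega) (by omega)
  have d1 : sn N ((b : ℝ) + 2 * m + 2) ≠ 0 :=
    sn_ne' (b + 2 * m + 2) (by push_cast; ring) (by omega) (by omega)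
  have c0 : cs N ((b : ℝ) + 2 * k + 1) ≠ 0 :=
    cs_ne' (b + 2 * k + 1) (by push_cast; ring)
  have c1 : cs N ((b : ℝ) + 2 * k + 2) ≠ 0 :=
    cs_ne' (b + 2 * k + 2) (by push_cast; ring)
  have c2 : cs N ((b : ℝ) + 2 * k + 3) ≠ 0 :=
    cs_ne' (b + 2 * k + 3) (by push_cast; ring)
  have s1 : sn N (2 * (k : ℝ) + 2) ≠ 0 :=
    sn_ne' (2 * k + 2) (by push_cast; ring) (by omega) (by omega)
  have s2 : sn N (2 * (b : ℝ) + 2 * k + 3) ≠ 0 :=
    sn_ne' (2 * b + 2 * k + 3) (by push_cast; ring) (by omega) (by omega)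
  -- the trigonometric identity
  have key := trig_key (th N * (b + 2 * m + 2)) (th N * (b + 2 * k + 2)) (th N * b) (th N)
  have key' : 2 * sn N ((b : ℝ) + 2 * m + 2) * (sn N (2 * (k : ℝ) + 2)
        * sn N (2 * (b : ℝ) + 2 * k + 3) * cs N ((b : ℝ) + 2 * k + 2)
      + cs N ((b : ℝ) + 2 * k + 3) * sn N (2 * ((m : ℝ) - k)) * sn N (2 * ((b : ℝ) + m + k + 2)))
      = sn N (2 * (m : ℝ) + 2) * sn N (2 * ((b : ℝ) + m + k + 2)) * sn N (2 * (b : ℝ) + 2 * m + 3)
        + sn N (2 * (m : ℝ) + 1) * sn N (2 * (b : ℝ) + 2 * m + 2) * sn N (2 * ((m : ℝ) - k)) := by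
    unfold sn cs
    convert key using 4 <;> ring_nf
  have ht2 : tht N b (k + 1) = -16 * sn N (2 * (k : ℝ) + 2) * sn N (2 * (b : ℝ) + 2 * k + 3)
      * cs N ((b : ℝ) + 2 * k + 1) * cs N ((b : ℝ) + 2 * k + 2) := by
    unfold tht
    push_cast
    rw [show 2 * ((k : ℝ) + 1) = 2 * k + 2 by ring,
      show 2 * (b : ℝ) + (2 * k + 2) + 1 = 2 * b + 2 * k + 3 by ring,
      show (b : ℝ) + (2 * k + 2) - 1 = b + 2 * k + 1 by ring,
      show (b : ℝ) + (2 * k + 2) = b + 2 * k + 2 by ring]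
  have hu : uc N b (b + 2 * m + 1) = sn N (2 * (m : ℝ) + 1) * sn N (2 * (b : ℝ) + 2 * m + 2)
      / (sn N ((b : ℝ) + 2 * m + 1) * sn N ((b : ℝ) + 2 * m + 2)) := by
    unfold uc
    rw [show (b : ℝ) + 2 * m + 1 - b = 2 * m + 1 by ring,
      show (b : ℝ) + 2 * m + 1 + b + 1 = 2 * b + 2 * m + 2 by ring,
      show (b : ℝ) + 2 * m + 1 + 1 = b + 2 * m + 2 by ring]
  have hq1 : qq N b k m = pp N b k m * (sn N (2 * ((b : ℝ) + m + k + 1))
    / (2 * sn N ((b : ℝ) + 2 * m + 1) * cs N ((b : ℝ) + 2 * k + 1))) := rfl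
  have hq2 : om N b (k + 1) * qq N b (k + 1) m = pp N b (k + 1) m
      * (2 * cs N ((b : ℝ) + 2 * k + 3) * sn N (2 * ((b : ℝ) + m + k + 2))
        / sn N ((b : ℝ) + 2 * m + 1)) := by
    unfold qq om
    push_cast
    rw [show (b : ℝ) + m + (k + 1) + 1 = b + m + k + 2 by ring,
      show (b : ℝ) + 2 * (k + 1) + 1 = b + 2 * k + 3 by ring]
    field_simp
    ring
  rw [show 2 * ((b : ℝ) + m + 1 + k) = 2 * ((b : ℝ) + m + k + 1) by ring] at h2
  unfold fF at h2
  apply mul_right_cancel₀ ht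
  rw [add_mul, add_mul, h2, mul_assoc (uc N b _), h1, hu, hq2, mul_right_comm (pp N b (k + 1) m),
    h1, hq1, ht2]
  clear h1 h2 hq1 hq2 hu ht2 ht key
  generalize pp N b k m = P
  generalize sn N ((b : ℝ) + 2 * m + 1) = D1 at *
  generalize sn N ((b : ℝ) + 2 * m + 2) = D2 at *
  generalize cs N ((b : ℝ) + 2 * k + 1) = C1 at *
  generalize cs N ((b : ℝ) + 2 * k + 2) = C2 at *
  generalize cs N ((b : ℝ) + 2 * k + 3) = C3 at *
  generalize sn N (2 * (k : ℝ) + 2) = S1 at *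
  generalize sn N (2 * (b : ℝ) + 2 * k + 3) = S2 at *
  generalize sn N (2 * ((b : ℝ) + m + k + 1)) = S3 at *
  generalize sn N (2 * ((b : ℝ) + m + k + 2)) = S4 at *
  generalize sn N (2 * ((m : ℝ) - k)) = S5 at *
  generalize sn N (2 * (m : ℝ) + 2) = S6 at *
  generalize sn N (2 * (m : ℝ) + 1) = S7 at *
  generalize sn N (2 * (b : ℝ) + 2 * m + 2) = S8 at *
  generalize sn N (2 * (b : ℝ) + 2 * m + 3) = S9 at *
  field_simp
  linear_combination (-8 * P * S3) * key'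

lemma relI2_zero {N b m : ℕ} (hm : b + m < N) :
    om N b 0 * qq N b 0 m
      = pp N b 0 (m + 1) + uc N b (b + 2 * m + 1) * pp N b 0 m := by
  have d0 : sn N ((b : ℝ) + 2 * m + 1) ≠ 0 :=
    sn_ne' (b + 2 * m + 1) (by push_cast; ring) (by omega) (by omega)
  have d1 : sn N ((b : ℝ) + 2 * m + 2) ≠ 0 :=
    sn_ne' (b + 2 * m + 2) (by push_cast; ring) (by omega) (by omega)
  have c0 : cs N ((b : ℝ) + 1) ≠ 0 :=
    cs_ne' (b + 1) (by push_cast; ring)
  have key : 2 * sn N ((b : ℝ) + 2 * m + 2) * cs N ((b : ℝ) + 1)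
      = sn N (2 * (b : ℝ) + 2 * m + 3) + sn N (2 * (m : ℝ) + 1) := by
    have a1 := sn_add N ((b : ℝ) + 2 * m + 2) ((b : ℝ) + 1)
    have a2 := sn_add N ((b : ℝ) + 2 * m + 2) (-((b : ℝ) + 1))
    rw [sn_neg, cs_neg] at a2
    rw [show 2 * (b : ℝ) + 2 * m + 3 = (b : ℝ) + 2 * m + 2 + ((b : ℝ) + 1) by ring,
      show 2 * (m : ℝ) + 1 = (b : ℝ) + 2 * m + 2 + (-((b : ℝ) + 1)) by ring, a1, a2]
    ring
  unfold om qq uc
  simp only [pp, pz]
  push_cast
  rw [show (b : ℝ) + 2 * m + 1 - b = 2 * m + 1 by ring,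
      show (b : ℝ) + 2 * m + 1 + b + 1 = 2 * b + 2 * m + 2 by ring,
      show (b : ℝ) + 2 * m + 1 + 1 = b + 2 * m + 2 by ring,
      show (b : ℝ) + 2 * 0 + 1 = b + 1 by ring,
      show 2 * ((b : ℝ) + m + 0 + 1) = 2 * b + 2 * m + 2 by ring]
  generalize pz N b m = P
  generalize sn N ((b : ℝ) + 2 * m + 1) = D1 at *
  generalize sn N ((b : ℝ) + 2 * m + 2) = D2 at *
  generalize cs N ((b : ℝ) + 1) = C1 at *
  generalize sn N (2 * (m : ℝ) + 1) = S7 at *
  generalize sn N (2 * (b : ℝ) + 2 * m + 2) = S8 at *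
  generalize sn N (2 * (b : ℝ) + 2 * m + 3) = S9 at *
  field_simp
  linear_combination (2 * P * S8) * key

lemma relI1_zero {N b k : ℕ} (hb : b < N) : pp N b k 0 = qq N b k 0 := by
  rcases Nat.eq_zero_or_pos k with rfl | h
  · have d0 : sn N ((b : ℝ) + 1) ≠ 0 :=
      sn_ne' (b + 1) (by push_cast; ring) (by omega) (by omega)
    have c0 : cs N ((b : ℝ) + 1) ≠ 0 := cs_ne' (b + 1) (by push_cast; ring)
    unfold qq
    simp only [pp, pz]
    push_cast
    rw [show 2 * ((b : ℝ) + 0 + 0 + 1) = 2 * (b + 1) by ring, sn_two,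
      show (b : ℝ) + 2 * 0 + 1 = b + 1 by ring]
    field_simp
  · unfold qq
    rw [pp_zero h]; ring

/-- The three-term relation: multiplication by `z²` in the split basis. -/
lemma three {N b m k : ℕ} (hm : b + m < N) (hk : b + k < N) :
    om N b k * pp N b k m + (if 1 ≤ k then pp N b (k - 1) m else 0)
      = pp N b k (m + 1) + (uc N b (b + 2 * m) + uc N b (b + 2 * m + 1)) * pp N b k m
        + (if 1 ≤ m then uc N b (b + 2 * m) * uc N b (b + 2 * m - 1) * pp N b k (m - 1)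
            else 0) := by
  have I2 : ∀ m', b + m' < N → (if 1 ≤ k then qq N b (k - 1) m' else 0) + om N b k * qq N b k m'
      = pp N b k (m' + 1) + uc N b (b + 2 * m' + 1) * pp N b k m' := by
    intro m' hm'
    rcases k with _ | k
    · simpa using relI2_zero hm'
    · have := relI2 (N := N) (b := b) (m := m') (k := k) hm' (by omega)
      simpa using this
  rcases m with _ | m
  · have h0 := I2 0 hm
    have h1 := relI1_zero (N := N) (b := b) (k := k) (by omega)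
    have hu : uc N b (b + 2 * ((0 : ℕ) : ℝ)) = 0 := by
      unfold uc
      have : (b : ℝ) + 2 * ((0 : ℕ) : ℝ) - b = 0 := by push_cast; ring
      rw [this, sn_zero]; simp
    have h2 : (if 1 ≤ k then pp N b (k - 1) 0 else 0) = (if 1 ≤ k then qq N b (k - 1) 0 else 0) := by
      split_ifs
      · exact relI1_zero (by omega)
      · rfl
    rw [h2, hu, if_neg (show ¬ (1 ≤ 0) by omega)]
    rw [← h1] at h0
    linarith
  · have e0 := I2 (m + 1) hm
    have e1 := I2 m (by omega)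
    have f0 := relI1 (N := N) (b := b) (m := m) (k := k) (by omega) hk
    have f1 : (if 1 ≤ k then pp N b (k - 1) (m + 1) else 0)
        = (if 1 ≤ k then qq N b (k - 1) (m + 1) else 0)
          + uc N b (b + 2 * (m + 1)) * (if 1 ≤ k then qq N b (k - 1) m else 0) := by
      split_ifs
      · exact relI1 (by omega) (by omega)
      · ring
    rw [f1]
    have g : (b : ℝ) + 2 * ((m + 1 : ℕ) : ℝ) - 1 = b + 2 * m + 1 := by push_cast; ring
    rw [g]
    simp only [Nat.le_add_left, if_true, Nat.add_sub_cancel]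
    push_cast at e0 e1 ⊢
    linear_combination e0 + uc N b (b + 2 * (m + 1)) * e1 + om N b k * f0

end

end Pool.Agent.H759.PTB
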