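import Pool.Agent.H759.PTB.Twist

/-!
Traces of words in the split basis.
-/

namespace Pool.Agent.H759.PTB

open Finset Matrix

noncomputable section

/-- diagonal matrix of the `Θ_k` -/
def bT (N b n : ℕ) : Matrix (Fin n) (Fin n) ℂ := diagonal fun k => (bt N b k : ℂ)

/-- its inverse -/
def bTi (N b n : ℕ) : Matrix (Fin n) (Fin n) ℂ := diagonal fun k => (bt N b k : ℂ)⁻¹

lemma bT_mul_bTi (N b : ℕ) : bT N b (N - b) * bTi N b (N - b) = 1 := by
  unfold bT bTi
  rw [diagonal_mul_diagonal, ← diagonal_one]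
  congr 1
  ext i
  have hi := i.2
  have := bt_ne (N := N) (b := b) (k := i) (by omega)
  exact mul_inv_cancel₀ (by exact_mod_cast this)

lemma bTi_mul_bT (N b : ℕ) : bTi N b (N - b) * bT N b (N - b) = 1 :=
  mul_eq_one_comm.1 (bT_mul_bTi N b)

lemma bT_wW (N b n : ℕ) : bT N b n * cx (wW N b n) = (cx (xX N b n))ᵀ * bT N b n := by
  ext k j
  unfold bT
  rw [diagonal_mul, mul_diagonal, transpose_apply]
  show (bt N b k : ℂ) * ((if (k : ℕ) = j then om N b k else if (j : ℕ) = k + 1 then tht N b j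
    else 0 : ℝ) : ℂ) = ((if (j : ℕ) = k then om N b j else if (j : ℕ) = k + 1 then 1 else 0 : ℝ) : ℂ)
      * (bt N b j : ℂ)
  by_cases h1 : (k : ℕ) = j
  · rw [if_pos h1, if_pos h1.symm, h1]; ring
  · by_cases h2 : (j : ℕ) = k + 1
    · rw [if_neg h1, if_neg (Ne.symm h1), if_pos h2, if_pos h2, h2]
      simp only [bt]; push_cast; ring
    · rw [if_neg h1, if_neg (Ne.symm h1), if_neg h2, if_neg h2]; simp

/-- the twist `L` in the split basis -/
def tU (N b n : ℕ) : Matrix (Fin n) (Fin n) ℂ := bTi N b n * (tL N b n)ᵀ * bT N b n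

lemma tU_eq (N b : ℕ) : tU N b (N - b) = Polynomial.aeval (cx (wW N b (N - b)))
    (Lagrange.interpolate univ (fun k : Fin (N - b) => (om N b k : ℂ))
      (fun k : Fin (N - b) => tw N (b + 2 * k))) := by
  have h := aeval_intertwine _ _ _ (bT_wW N b (N - b))
    (Lagrange.interpolate univ (fun k : Fin (N - b) => (om N b k : ℂ))
      (fun k : Fin (N - b) => tw N (b + 2 * k)))
  rw [aeval_transpose, ← tL_eq] at h
  unfold tU
  rw [mul_assoc, ← h, ← mul_assoc, bTi_mul_bT, one_mul]

lemma cx_gG_det (N b : ℕ) : (cx (gG N b (N - b))).det = 1 := by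
  have h := det_gG N b
  have : (cx (gG N b (N - b))).det = (((gG N b (N - b)).det : ℝ) : ℂ) := by
    unfold cx
    exact (RingHom.map_det Complex.ofRealHom _).symm
  rw [this, h]; simp

lemma inter_A (N b : ℕ) :
    cx (gG N b (N - b)) * twA N b (N - b) = tU N b (N - b) * cx (gG N b (N - b)) := by
  have h0 : cx (gG N b (N - b)) * Matrix.diagonal (fun k : Fin (N - b) => (om N b k : ℂ))
      = cx (wW N b (N - b)) * cx (gG N b (N - b)) := by
    have := congrArg cx (wW_gG N b)
    rw [cx_mul, cx_mul] at this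
    rw [this]
    congr 1
    unfold cx
    rw [diagonal_map (by simp)]
  have h := aeval_intertwine _ _ _ h0
    (Lagrange.interpolate univ (fun k : Fin (N - b) => (om N b k : ℂ))
      (fun k : Fin (N - b) => tw N (b + 2 * k)))
  rw [aeval_diagonal _ _ (fun i j hij => by
    by_contra hne
    exact om_ne_c N b i j hne hij), ← tU_eq] at h
  exact h

lemma inter_B (N b : ℕ) :
    cx (gG N b (N - b)) * twB N b (N - b) = tL N b (N - b) * cx (gG N b (N - b)) := by
  have h0 : cx (gG N b (N - b)) * cx (curve N b (N - b))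
      = cx (xX N b (N - b)) * cx (gG N b (N - b)) := by
    rw [← cx_mul, ← cx_mul, gG_curve]
  have h := aeval_intertwine _ _ _ h0
    (Lagrange.interpolate univ (fun k : Fin (N - b) => (om N b k : ℂ))
      (fun k : Fin (N - b) => tw N (b + 2 * k)))
  rw [← tL_eq] at h
  exact h

lemma inv_inter {n : ℕ} {G A P Q : Matrix (Fin n) (Fin n) ℂ} (hG : G.det = 1)
    (h : G * A = P * G) (hPQ : P * Q = 1) : G * A⁻¹ = Q * G := by
  have hG1 : G * G⁻¹ = 1 := mul_nonsing_inv _ (by rw [hG]; exact isUnit_one)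
  have hG2 : G⁻¹ * G = 1 := nonsing_inv_mul _ (by rw [hG]; exact isUnit_one)
  have hA : A = G⁻¹ * P * G := by rw [mul_assoc, ← h, ← mul_assoc, hG2, one_mul]
  have h1 : A * (G⁻¹ * Q * G) = 1 := by
    calc A * (G⁻¹ * Q * G) = G⁻¹ * P * (G * G⁻¹) * Q * G := by rw [hA]; noncomm_ring
      _ = G⁻¹ * (P * Q) * G := by rw [hG1]; noncomm_ring
      _ = 1 := by rw [hPQ, mul_one, hG2]
  rw [Matrix.inv_eq_right_inv h1, ← mul_assoc, ← mul_assoc, hG1, one_mul]

/-- The letters in the split basis. -/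
def sp (N b n : ℕ) : Letter → Matrix (Fin n) (Fin n) ℂ
  | Letter.L => tU N b n
  | Letter.R => cj (tL N b n)
  | Letter.L' => bTi N b n * (cj (tL N b n))ᵀ * bT N b n
  | Letter.R' => tL N b n

lemma inter_letter (N b : ℕ) (x : Letter) :
    cx (gG N b (N - b)) * letter N b (N - b) x = sp N b (N - b) x * cx (gG N b (N - b)) := by
  cases x with
  | L => exact inter_A N b
  | R => exact inv_inter (cx_gG_det N b) (inter_B N b) (tL_mul_cj N b)
  | L' =>
    apply inv_inter (cx_gG_det N b) (inter_A N b)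
    unfold tU
    calc bTi N b (N - b) * (tL N b (N - b))ᵀ * bT N b (N - b)
        * (bTi N b (N - b) * (cj (tL N b (N - b)))ᵀ * bT N b (N - b))
        = bTi N b (N - b) * (tL N b (N - b))ᵀ * (bT N b (N - b) * bTi N b (N - b))
          * (cj (tL N b (N - b)))ᵀ * bT N b (N - b) := by noncomm_ring
      _ = bTi N b (N - b) * ((tL N b (N - b))ᵀ * (cj (tL N b (N - b)))ᵀ) * bT N b (N - b) := by
          rw [bT_mul_bTi]; noncomm_ring
      _ = 1 := by
          rw [← transpose_mul, cj_mul_tL, transpose_one, mul_one, bTi_mul_bT]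
  | R' => exact inter_B N b

lemma trace_list {n : ℕ} {G : Matrix (Fin n) (Fin n) ℂ} (hG : G.det = 1)
    (f g : Letter → Matrix (Fin n) (Fin n) ℂ) (h : ∀ x, G * f x = g x * G) (w : List Letter) :
    (w.map f).prod.trace = (w.map g).prod.trace := by
  have hG1 : G * G⁻¹ = 1 := mul_nonsing_inv _ (by rw [hG]; exact isUnit_one)
  have hG2 : G⁻¹ * G = 1 := nonsing_inv_mul _ (by rw [hG]; exact isUnit_one)
  have key : G * (w.map f).prod = (w.map g).prod * G := by
    induction w with
    | nil => simp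
    | cons x w ih =>
      rw [List.map_cons, List.prod_cons, List.map_cons, List.prod_cons, ← mul_assoc, h, mul_assoc,
        ih, mul_assoc]
  have : (w.map f).prod = G⁻¹ * (w.map g).prod * G := by
    rw [mul_assoc, ← key, ← mul_assoc, hG2, one_mul]
  rw [this, trace_mul_comm, ← mul_assoc, hG1, one_mul]

lemma trace_rho (N b : ℕ) (w : List Letter) :
    (rho N b w).trace = (w.map (sp N b (N - b))).prod.trace :=
  trace_list (cx_gG_det N b) _ _ (inter_letter N b) w

end

end Pool.Agent.H759.PTB
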