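import Pool.Agent.H759.PTB.Defs

/-!
Trigonometric identities for the split basis.
-/

namespace Pool.Agent.H759.PTB

open Finset Real

lemma trig_key (α β b e : ℝ) :
    2 * sin α * (sin (β - b) * sin (β + b + e) * cos β
      + cos (β + e) * sin (α - β) * sin (α + β))
    = sin (α - b) * sin (α + β) * sin (α + b + e)
      + sin (α - b - e) * sin (α + b) * sin (α - β) := by
  have p (x y : ℝ) : sin x * sin y = (cos (x - y) - cos (x + y)) / 2 := by
    rw [cos_sub, cos_add]; ring
  have q (x y : ℝ) : cos x * cos y = (cos (x - y) + cos (x + y)) / 2 := by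
    rw [cos_sub, cos_add]; ring
  have t (x y : ℝ) : sin x * cos y = (sin (x - y) + sin (x + y)) / 2 := by
    rw [sin_sub, sin_add]; ring
  have e1 : 2 * sin α * (sin (β - b) * sin (β + b + e) * cos β
      + cos (β + e) * sin (α - β) * sin (α + β))
      = sin α * cos β * (cos (2 * b + e) - cos (2 * β + e))
        + sin α * cos (β + e) * (cos (2 * β) - cos (2 * α)) := by
    have h1 := p (β - b) (β + b + e)
    have h2 := p (α - β) (α + β)
    rw [show β - b - (β + b + e) = -(2 * b + e) by ring, cos_neg,
      show β - b + (β + b + e) = 2 * β + e by ring] at h1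
    rw [show α - β - (α + β) = -(2 * β) by ring, cos_neg,
      show α - β + (α + β) = 2 * α by ring] at h2
    linear_combination (2 * sin α * cos β) * h1 + (2 * sin α * cos (β + e)) * h2
  have e2 : sin (α - b) * sin (α + β) * sin (α + b + e)
      + sin (α - b - e) * sin (α + b) * sin (α - β)
      = (sin (α + β) * (cos (2 * b + e) - cos (2 * α + e))
        + sin (α - β) * (cos (2 * b + e) - cos (2 * α - e))) / 2 := by
    have h1 := p (α - b) (α + b + e)
    have h2 := p (α - b - e) (α + b)
    rw [show α - b - (α + b + e) = -(2 * b + e) by ring, cos_neg,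
      show α - b + (α + b + e) = 2 * α + e by ring] at h1
    rw [show α - b - e - (α + b) = -(2 * b + e) by ring, cos_neg,
      show α - b - e + (α + b) = 2 * α - e by ring] at h2
    linear_combination sin (α + β) * h1 + sin (α - β) * h2
  rw [e1, e2]
  have s1 : sin (α + β) + sin (α - β) = 2 * (sin α * cos β) := by
    rw [sin_sub, sin_add]; ring
  have s2 : cos (β + e) * cos (2 * β) - cos β * cos (2 * β + e) = sin β * sin e := by
    have h1 := q (β + e) (2 * β)
    have h2 := q β (2 * β + e)
    have h3 := p β e
    rw [show β + e - 2 * β = -(β - e) by ring, cos_neg] at h1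
    rw [show β - (2 * β + e) = -(β + e) by ring, cos_neg] at h2
    rw [show β + e + 2 * β = β + (2 * β + e) by ring] at h1
    linarith
  have s3 : sin (α + β) * cos (2 * α + e) + sin (α - β) * cos (2 * α - e)
      = 2 * sin α * cos (β + e) * cos (2 * α) - 2 * sin α * sin β * sin e := by
    simp only [sin_add, sin_sub, cos_add, cos_sub, cos_two_mul, sin_two_mul]
    ring
  linear_combination (-cos (2 * b + e) / 2) * s1 + sin α * s2 + s3 / 2

end Pool.Agent.H759.PTB
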