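import Pool.Agent.H759.PTB.Mats
import Pool.Agent.H759.PTB.Comm

/-!
The Dehn twists in the split basis.
-/

namespace Pool.Agent.H759.PTB

open Finset

noncomputable section

/-- `e^{iθx}`. -/
def eE (N : ℕ) (x : ℝ) : ℂ := Complex.exp ((th N * x : ℝ) * Complex.I)

lemma eE_add (N : ℕ) (x y : ℝ) : eE N (x + y) = eE N x * eE N y := by
  unfold eE
  rw [← Complex.exp_add]; congr 1; push_cast; ring

lemma eE_zero (N : ℕ) : eE N 0 = 1 := by simp [eE]

lemma eE_ne (N : ℕ) (x : ℝ) : eE N x ≠ 0 := Complex.exp_ne_zero _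

lemma eE_mul_neg (N : ℕ) (x : ℝ) : eE N x * eE N (-x) = 1 := by
  rw [← eE_add, add_neg_cancel, eE_zero]

lemma eE_conj (N : ℕ) (x : ℝ) : (starRingEnd ℂ) (eE N x) = eE N (-x) := by
  unfold eE
  rw [← Complex.exp_conj]
  congr 1
  rw [map_mul, Complex.conj_ofReal, Complex.conj_I]
  push_cast; ring

lemma cs_eE (N : ℕ) (x : ℝ) : (cs N x : ℂ) = (eE N x + eE N (-x)) / 2 := by
  unfold cs eE
  rw [Complex.ofReal_cos, Complex.cos]
  push_cast
  congr 2
  ring_nf

lemma sn_eE (N : ℕ) (x : ℝ) : (sn N x : ℂ) = (eE N x - eE N (-x)) / (2 * Complex.I) := by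
  unfold sn eE
  rw [Complex.ofReal_sin, Complex.sin]
  push_cast
  have hI : (Complex.I)⁻¹ = -Complex.I := Complex.inv_I
  rw [div_eq_mul_inv _ (2 * Complex.I), mul_inv, hI]
  ring_nf

lemma tw_eE (N a : ℕ) : tw N a = (-1) ^ a * eE N (a * (a + 2) / 2) := by
  unfold tw eE th
  congr 2
  push_cast
  ring

lemma tw_conj (N a : ℕ) : tw N a * (starRingEnd ℂ) (tw N a) = 1 := by
  rw [tw_eE, map_mul, eE_conj, map_pow, map_neg, map_one]
  have h1 := eE_mul_neg N (a * (a + 2) / 2)
  have h2 : ((-1 : ℂ) ^ a) * (-1) ^ a = 1 := by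
    rw [← mul_pow]; simp
  linear_combination h1 * ((-1 : ℂ) ^ a * (-1) ^ a) + h2

lemma tw_ne (N a : ℕ) : tw N a ≠ 0 := by
  intro h
  have := tw_conj N a
  rw [h] at this
  simp at this

/-- The divided differences of the twist. -/
def dd (N b l m : ℕ) : ℂ :=
  tw N (b + 2 * l) * eE N (m * (b + 2 * l + 2))
    / ∏ j ∈ range m, (4 * Complex.I * sn N (2 * (j + 1)) * cs N (b + 2 * l + 2 + 2 * j))

lemma dd_zero (N b l : ℕ) : dd N b l 0 = tw N (b + 2 * l) := by
  simp [dd, eE_zero]

lemma dd_rec {N b l m : ℕ} (h : b + l + m + 1 < N) :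
    dd N b l (m + 1) * ((om N b (l + m + 1) : ℂ) - om N b l) = dd N b (l + 1) m - dd N b l m := by
  have hs : ∀ j : ℕ, j ≤ m → (sn N (2 * ((j : ℝ) + 1)) : ℂ) ≠ 0 := by
    intro j hj
    exact_mod_cast sn_ne' (N := N) (2 * (j + 1)) (by push_cast; ring) (by omega) (by omega)
  have hc : ∀ j : ℕ, (cs N ((b : ℝ) + 2 * l + 2 + 2 * j) : ℂ) ≠ 0 := by
    intro j
    exact_mod_cast cs_ne' (N := N) (b + 2 * l + 2 + 2 * j) (by push_cast; ring)
  set C : ℝ := (b : ℝ) + 2 * l + 2 with hC
  set Pi : ℂ := ∏ j ∈ range m, (4 * Complex.I * sn N (2 * (j + 1)) * cs N (C + 2 * j)) with hPi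
  have hPi0 : Pi ≠ 0 := by
    rw [hPi, Finset.prod_ne_zero_iff]
    intro j hj
    have hj' := Finset.mem_range.1 hj
    have h1 := hs j (by omega)
    have h2 := hc j
    have h3 := Complex.I_ne_zero
    simp only [ne_eq, mul_eq_zero, not_or]
    exact ⟨⟨⟨by norm_num, h3⟩, by exact_mod_cast h1⟩, h2⟩
  -- the three divided differences
  have e1 : dd N b l m = tw N (b + 2 * l) * eE N (m * C) / Pi := rfl
  have e2 : dd N b l (m + 1) = tw N (b + 2 * l) * eE N ((m + 1) * C)
      / (Pi * (4 * Complex.I * sn N (2 * (m + 1)) * cs N (C + 2 * m))) := by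
    unfold dd
    rw [Finset.prod_range_succ]
    push_cast
    rfl
  have htel : (∏ j ∈ range m, (4 * Complex.I * sn N (2 * (j + 1)) * cs N (C + 2 + 2 * j)))
      * (cs N C : ℂ) = Pi * cs N (C + 2 * m) := by
    rw [hPi]
    clear_value Pi
    clear e1 e2 hPi hPi0
    induction m with
    | zero => simp
    | succ m ih =>
      rw [Finset.prod_range_succ, Finset.prod_range_succ]
      have := ih (by omega) (fun j hj => hs j (by omega))
      rw [show C + 2 * ((m + 1 : ℕ) : ℝ) = C + 2 + 2 * m by push_cast; ring]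
      linear_combination (4 * Complex.I * sn N (2 * (m + 1)) * cs N (C + 2 + 2 * m)) * this
  have hc0 := hc 0
  have hcm := hc m
  rw [show C + 2 * ((0 : ℕ) : ℝ) = C by push_cast; ring] at hc0
  have e3 : dd N b (l + 1) m = tw N (b + 2 * l) * eE N (2 * C) * eE N (m * (C + 2)) * cs N C
      / (Pi * cs N (C + 2 * m)) := by
    have hp : (∏ j ∈ range m, (4 * Complex.I * sn N (2 * (j + 1)) * cs N (C + 2 + 2 * j)))
      = Pi * cs N (C + 2 * m) / cs N C := by
      rw [← htel]; field_simp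
    have ht : tw N (b + 2 * (l + 1)) = tw N (b + 2 * l) * eE N (2 * C) := by
      rw [tw_eE, tw_eE, show b + 2 * (l + 1) = b + 2 * l + 2 by ring, pow_add]
      have : eE N (((b + 2 * l + 2 : ℕ) : ℝ) * (((b + 2 * l + 2 : ℕ) : ℝ) + 2) / 2)
          = eE N (((b + 2 * l : ℕ) : ℝ) * (((b + 2 * l : ℕ) : ℝ) + 2) / 2) * eE N (2 * C) := by
        rw [← eE_add]; congr 1; rw [hC]; push_cast; ring
      rw [this]; ring
    unfold dd
    rw [ht]
    push_cast
    rw [show (b : ℝ) + 2 * (l + 1) + 2 = C + 2 by rw [hC]; ring] 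
    rw [hp]
    field_simp
  rw [e1, e2, e3]
  have hom : (om N b (l + m + 1) : ℂ) - om N b l
      = -4 * sn N (2 * (m + 1)) * sn N (2 * (C + m)) := by
    have := om_sub N b (l + m + 1) l
    rw [← Complex.ofReal_sub, this]
    push_cast
    rw [show ((l : ℝ) + m + 1 - l) = m + 1 by ring,
      show (b : ℝ) + (l + m + 1) + l + 1 = C + m by rw [hC]; ring]
  rw [hom]
  have hsm := hs m le_rfl
  have hI := Complex.I_ne_zero
  -- final identity
  have key : eE N C * Complex.I * sn N (2 * (C + m))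
      = eE N (2 * C + 2 * m) * cs N C - cs N (C + 2 * m) := by
    rw [sn_eE, cs_eE, cs_eE]
    have a1 : eE N C * eE N (2 * (C + m)) = eE N (3 * C + 2 * m) := by
      rw [← eE_add]; congr 1; ring
    have a2 : eE N C * eE N (-(2 * (C + m))) = eE N (-(C + 2 * m)) := by
      rw [← eE_add]; congr 1; ring
    have a3 : eE N (2 * C + 2 * m) * eE N C = eE N (3 * C + 2 * m) := by
      rw [← eE_add]; congr 1; ring
    have a4 : eE N (2 * C + 2 * m) * eE N (-C) = eE N (C + 2 * m) := by
      rw [← eE_add]; congr 1; ring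
    have a0 : eE N C * Complex.I * ((eE N (2 * (C + m)) - eE N (-(2 * (C + m))))
        / (2 * Complex.I)) = (eE N C * eE N (2 * (C + m))
          - eE N C * eE N (-(2 * (C + m)))) / 2 := by
      generalize eE N C = u
      generalize eE N (2 * (C + m)) = v
      generalize eE N (-(2 * (C + m))) = w
      field_simp
    rw [a0, a1, a2]
    linear_combination (-1 / 2 : ℂ) * a3 - a4 / 2
  have x1 : eE N ((m + 1) * C) = eE N (m * C) * eE N C := by
    rw [← eE_add]; congr 1; ring
  have x2 : eE N (2 * C) * eE N (m * (C + 2)) = eE N (m * C) * eE N (2 * C + 2 * m) := by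
    rw [← eE_add, ← eE_add]; congr 1; ring
  rw [x1, mul_assoc (tw N (b + 2 * l)) (eE N (2 * C)), x2]
  have hI2 : Complex.I ^ 2 = -1 := Complex.I_sq
  clear e1 e2 e3 htel hom hs hc hPi x1 x2
  generalize tw N (b + 2 * l) = t at *
  generalize eE N (m * C) = u at *
  generalize eE N C = v at *
  generalize eE N (2 * C + 2 * m) = w at *
  generalize (sn N (2 * (C + m)) : ℂ) = x at *
  generalize (sn N (2 * (m + 1)) : ℂ) = y at *
  generalize (cs N (C + 2 * m) : ℂ) = z at *
  generalize (cs N C : ℂ) = g at *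
  clear_value Pi
  field_simp
  linear_combination (t * u * Complex.I) * key - (t * u * v * x) * hI2

/-- the entries of the twist along the dual curve in the split basis -/
def tf (N b k l : ℕ) : ℂ := if l ≤ k then dd N b l (k - l) else 0

/-- the twist along the dual curve in the split basis -/
def tL (N b n : ℕ) : Matrix (Fin n) (Fin n) ℂ := fun k l => tf N b k l

/-- complexification of a real matrix -/
def cx {n : ℕ} (X : Matrix (Fin n) (Fin n) ℝ) : Matrix (Fin n) (Fin n) ℂ :=
  X.map (fun x : ℝ => (x : ℂ))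

lemma cx_mul {n : ℕ} (X Y : Matrix (Fin n) (Fin n) ℝ) : cx (X * Y) = cx X * cx Y := by
  ext i j
  simp [cx, Matrix.mul_apply]

lemma tf_rec {N b k l : ℕ} (hk : b + k < N) :
    tf N b k l * (om N b l : ℂ) + (if b + l + 1 < N then tf N b k (l + 1) else 0)
      = (om N b k : ℂ) * tf N b k l + (if 1 ≤ k then tf N b (k - 1) l else 0) := by
  rcases lt_trichotomy l k with h | h | h
  · obtain ⟨m, rfl⟩ : ∃ m, k = l + m + 1 := ⟨k - l - 1, by omega⟩
    have h1 := dd_rec (N := N) (b := b) (l := l) (m := m) (by omega)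
    rw [if_pos (by omega), if_pos (by omega)]
    unfold tf
    rw [if_pos (by omega), if_pos (by omega), if_pos (by omega),
      show l + m + 1 - l = m + 1 by omega, show l + m + 1 - (l + 1) = m by omega,
      show l + m + 1 - 1 - l = m by omega]
    linear_combination -h1
  · subst h
    have e1 : tf N b l (l + 1) = 0 := if_neg (by omega)
    have e2 : (if 1 ≤ l then tf N b (l - 1) l else 0) = 0 := by
      split_ifs with h
      · exact if_neg (by omega)
      · rfl
    rw [e1, e2]; simp; ring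
  · have e0 : tf N b k l = 0 := if_neg (by omega)
    have e1 : tf N b k (l + 1) = 0 := if_neg (by omega)
    have e2 : (if 1 ≤ k then tf N b (k - 1) l else 0) = 0 := by
      split_ifs with h
      · exact if_neg (by omega)
      · rfl
    rw [e0, e1, e2]; simp

lemma tL_comm (N b : ℕ) :
    tL N b (N - b) * cx (xX N b (N - b)) = cx (xX N b (N - b)) * tL N b (N - b) := by
  ext k l
  have hk := k.2
  have hl := l.2
  rw [Matrix.mul_apply, Matrix.mul_apply]
  have e1 : ∑ j, tL N b (N - b) k j * cx (xX N b (N - b)) j l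
      = (om N b l : ℂ) * tf N b k l + (if (l : ℕ) + 1 < N - b then 1 * tf N b k (l + 1) else 0) := by
    rw [← sum_bi' hl (fun j => tf N b k j) (fun _ => (1 : ℂ))]
    apply Finset.sum_congr rfl
    intro j _
    show tf N b k j * ((if (j : ℕ) = l then om N b j else if (j : ℕ) = l + 1 then 1 else 0 : ℝ) : ℂ)
      = _
    by_cases h1 : (j : ℕ) = l
    · rw [if_pos h1, if_pos h1.symm, h1]; ring
    · by_cases h2 : (j : ℕ) = l + 1
      · rw [if_neg h1, if_neg (Ne.symm h1), if_pos h2, if_pos h2]; push_cast; ring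
      · rw [if_neg h1, if_neg (Ne.symm h1), if_neg h2, if_neg h2]; push_cast; ring
  have e2 : ∑ j, cx (xX N b (N - b)) k j * tL N b (N - b) j l
      = (om N b k : ℂ) * tf N b k l + (if 1 ≤ (k : ℕ) then 1 * tf N b (k - 1) l else 0) := by
    rw [← sum_bi hk (fun j => tf N b j l)]
    apply Finset.sum_congr rfl
    intro j _
    show ((if (k : ℕ) = j then om N b k else if (k : ℕ) = j + 1 then 1 else 0 : ℝ) : ℂ)
      * tf N b j l = _
    congr 1
    split_ifs <;> simp
  rw [e1, e2]
  have := tf_rec (N := N) (b := b) (k := k) (l := l) (by omega)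
  have h3 : ((l : ℕ) + 1 < N - b) ↔ (b + l + 1 < N) := by omega
  simp only [one_mul, h3]
  rw [← this]; ring

lemma xX_lower (N b n : ℕ) : ∀ i j : Fin n, i < j → cx (xX N b n) i j = 0 := by
  intro i j hij
  have := Fin.lt_def.1 hij
  show ((if (i : ℕ) = j then om N b i else if (i : ℕ) = j + 1 then 1 else 0 : ℝ) : ℂ) = 0
  rw [if_neg (by omega), if_neg (by omega)]; simp

lemma xX_diag (N b n : ℕ) (i : Fin n) : cx (xX N b n) i i = (om N b i : ℂ) := by
  show ((if (i : ℕ) = i then om N b i else if (i : ℕ) = i + 1 then 1 else 0 : ℝ) : ℂ) = _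
  rw [if_pos rfl]

lemma om_ne_c (N b : ℕ) : ∀ i j : Fin (N - b), i ≠ j → (om N b i : ℂ) ≠ om N b j := by
  intro i j hij h
  have hi := i.2
  have hj := j.2
  have h' : om N b i = om N b j := by exact_mod_cast h
  exact om_ne (by omega) (by omega) (fun e => hij (Fin.ext e)) h'

lemma xX_ne (N b : ℕ) : ∀ i j : Fin (N - b), i ≠ j →
    cx (xX N b (N - b)) i i ≠ cx (xX N b (N - b)) j j := by
  intro i j hij
  rw [xX_diag, xX_diag]
  exact om_ne_c N b i j hij

lemma tL_lower (N b n : ℕ) : ∀ i j : Fin n, i < j → tL N b n i j = 0 := by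
  intro i j hij
  have := Fin.lt_def.1 hij
  exact if_neg (by omega)

lemma tL_diag (N b n : ℕ) (i : Fin n) : tL N b n i i = tw N (b + 2 * i) := by
  show tf N b i i = _
  unfold tf
  rw [if_pos le_rfl, Nat.sub_self, dd_zero]

lemma tL_eq (N b : ℕ) : tL N b (N - b) = Polynomial.aeval (cx (xX N b (N - b)))
    (Lagrange.interpolate univ (fun k : Fin (N - b) => (om N b k : ℂ))
      (fun k : Fin (N - b) => tw N (b + 2 * k))) :=
  eq_aeval _ _ (xX_lower N b _) (xX_ne N b) (tL_lower N b _) (tL_comm N b) _ _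
    (xX_diag N b _) (tL_diag N b _)

/-- conjugate matrix -/
def cj {n : ℕ} (X : Matrix (Fin n) (Fin n) ℂ) : Matrix (Fin n) (Fin n) ℂ :=
  X.map (starRingEnd ℂ)

lemma cj_mul {n : ℕ} (X Y : Matrix (Fin n) (Fin n) ℂ) : cj (X * Y) = cj X * cj Y := by
  ext i j
  simp [cj, Matrix.mul_apply]

lemma cj_cx {n : ℕ} (X : Matrix (Fin n) (Fin n) ℝ) : cj (cx X) = cx X := by
  ext i j
  simp [cj, cx]

lemma tL_mul_cj (N b : ℕ) : tL N b (N - b) * cj (tL N b (N - b)) = 1 := by
  have h0 : ∀ i j : Fin (N - b), i < j → cj (tL N b (N - b)) i j = 0 := by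
    intro i j hij
    show (starRingEnd ℂ) (tL N b (N - b) i j) = 0
    rw [tL_lower N b _ i j hij]; simp
  have h1 := mul_lower _ _ (tL_lower N b (N - b)) h0
  have hc : cj (tL N b (N - b)) * cx (xX N b (N - b))
      = cx (xX N b (N - b)) * cj (tL N b (N - b)) := by
    have := congrArg cj (tL_comm N b)
    rwa [cj_mul, cj_mul, cj_cx] at this
  apply tri_unique (cx (xX N b (N - b))) _ _ (xX_lower N b _) (xX_ne N b) h1.1
  · intro i j hij
    exact Matrix.one_apply_ne (ne_of_lt hij)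
  · intro i
    rw [h1.2, Matrix.one_apply_eq]
    show tL N b (N - b) i i * (starRingEnd ℂ) (tL N b (N - b) i i) = 1
    rw [tL_diag]; exact tw_conj N _
  · rw [mul_assoc, hc, ← mul_assoc, tL_comm, mul_assoc]
  · rw [one_mul, mul_one]

lemma cj_mul_tL (N b : ℕ) : cj (tL N b (N - b)) * tL N b (N - b) = 1 := by
  exact mul_eq_one_comm.1 (tL_mul_cj N b)

/-- `Θ_k`. -/
def bt (N b : ℕ) : ℕ → ℝ
  | 0 => 1
  | k + 1 => bt N b k * tht N b (k + 1)

lemma bt_ne {N b k : ℕ} (h : b + k < N) : bt N b k ≠ 0 := by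
  induction k with
  | zero => simp [bt]
  | succ k ih => exact mul_ne_zero (ih (by omega)) (tht_ne (by omega) (by omega))

end

end Pool.Agent.H759.PTB
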